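import Pool.Agent.Helper37.LL.Rel

/-!
# Admissibility of representations generated by vectors with the Steinberg relations
-/

set_option autoImplicit false

open WithZero

namespace Pool.Agent.Helper37.LL

section

variable {F : Type*} [Field F] {v : Valuation F ℤᵐ⁰} {P : Par v}
variable {V : Type*} [AddCommGroup V] [Module ℂ V]
variable {ρ : Representation ℂ (GL (Fin 2) F) V} {f : V}

/-- the subspace of `U`-fixed vectors -/
def invSub {G : Type*} [Group G] (ρ : Representation ℂ G V) (U : Subgroup G) :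
    Submodule ℂ V where
  carrier := {x | ∀ u ∈ U, ρ u x = x}
  zero_mem' := by intro u _; simp
  add_mem' := by
    intro x y hx hy u hu
    rw [map_add, hx u hu, hy u hu]
  smul_mem' := by
    intro c x hx u hu
    rw [map_smul, hx u hu]

lemma IwRel.form (h : IwRel P ρ f) (g : GL (Fin 2) F) : ∃ k ∈ KO v, ∃ n : ℕ,
    ρ g f = ρ k (ρ (P.t n) f) ∨ ρ g f = -ρ k (ρ (P.t n) f) := by
  have key : ∀ k ∈ KO v, ∀ n : ℤ, ∃ k' ∈ KO v, ∃ n' : ℕ,
      ρ k (ρ (P.t n) f) = ρ k' (ρ (P.t n') f) ∨ ρ k (ρ (P.t n) f) = -ρ k' (ρ (P.t n') f) := by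
    intro k hk n
    rcases le_total 0 n with hn | hn
    · obtain ⟨n', rfl⟩ := Int.eq_ofNat_of_zero_le hn
      exact ⟨k, hk, n', Or.inl rfl⟩
    · obtain ⟨n', hn'⟩ := Int.eq_ofNat_of_zero_le (Int.neg_nonneg_of_nonpos hn)
      refine ⟨k * ss, mul_mem hk ss_mem_KO, n' + 1, Or.inr ?_⟩
      have h1 : P.t n = P.z (-(n' : ℤ)) * (ss * P.t n' * ss) := by
        rw [← P.t_neg]; congr 1; omega
      have h2 : ρ (P.t n) f = -ρ ss (ρ (P.t ((n' + 1 : ℕ) : ℤ)) f) := by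
        rw [h1, P.z_comm, rho_mul, z_fix h.z, rho_mul, rho_mul, h.ssf, map_neg, map_neg]
        push_cast
        rw [← rho_mul ρ (P.t n'), ← P.t_add]
      rw [h2, map_neg, ← rho_mul]
  obtain ⟨i₁, h₁, i₂, h₂, n, m, hg⟩ := P.bruhat g
  rcases hg with hg | hg
  · have h3 : ρ g f = ρ i₁ (ρ (P.t n) f) := by
      rw [hg, rho_mul, rho_mul, rho_mul, z_fix h.z, h.iw i₂ h₂]
    rw [h3]
    exact key i₁ (Iw_le_KO v h₁) n
  · have h3 : ρ g f = -ρ i₁ (ρ (P.t (n + 1)) f) := by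
      rw [hg, rho_mul, rho_mul, rho_mul, rho_mul, z_fix h.z, h.iw i₂ h₂, h.ssf, map_neg,
        map_neg, ← rho_mul ρ (P.t n), ← P.t_add]
    rw [h3]
    obtain ⟨k', hk', n', h4 | h4⟩ := key i₁ (Iw_le_KO v h₁) (n + 1)
    · exact ⟨k', hk', n', Or.inr (by rw [h4])⟩
    · exact ⟨k', hk', n', Or.inl (by rw [h4, neg_neg])⟩

lemma IwRel.mem_sup {N : ℕ} (h : IwRel P ρ f) (E : Submodule ℂ V)
    (hE : ∀ k ∈ KO v, ∀ n : ℕ, n ≤ N → ρ k (ρ (P.t n) f) ∈ E ⊔ coinv ρ (KN v N))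
    (g : GL (Fin 2) F) : ρ g f ∈ E ⊔ coinv ρ (KN v N) := by
  have key : ∀ j : ℕ, ∀ k ∈ KO v, ρ k (ρ (P.t ((N + j : ℕ) : ℤ)) f) ∈ E ⊔ coinv ρ (KN v N) := by
    intro j
    induction j with
    | zero => intro k hk; exact hE k hk N le_rfl
    | succ j ih =>
      intro k hk
      have h1 := coinv_step ρ (U := KN v N) (s := P.S)
        (u := fun b => k * nn (P.ϖ ^ ((N + j : ℕ) : ℤ) * b) * k⁻¹)
        (fun b hb => KN_conj v N hk (nn_mem_KN (by
          rw [map_mul, P.v_zpow]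
          calc exp (-((N + j : ℕ) : ℤ)) * v b ≤ exp (-((N + j : ℕ) : ℤ)) * 1 :=
                mul_le_mul_right (P.S_int b hb) _
            _ ≤ exp (-(N : ℤ)) := by rw [mul_one, exp_le_exp]; push_cast; omega)))
        (ρ k (ρ (P.t (((N + j : ℕ) : ℤ) + 1)) f))
      have h2 : ∑ b ∈ P.S, ρ (k * nn (P.ϖ ^ ((N + j : ℕ) : ℤ) * b) * k⁻¹)
          (ρ k (ρ (P.t (((N + j : ℕ) : ℤ) + 1)) f)) = ρ k (ρ (P.t ((N + j : ℕ) : ℤ)) f) := by
        conv_rhs => rw [h.step, map_sum]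
        refine Finset.sum_congr rfl (fun b _ => ?_)
        rw [← rho_mul ρ (k * nn (P.ϖ ^ ((N + j : ℕ) : ℤ) * b) * k⁻¹) k, inv_mul_cancel_right,
          rho_mul]
      rw [h2] at h1
      have h3 : ρ k (ρ (P.t ((N + (j + 1) : ℕ) : ℤ)) f) = (P.S.card : ℂ)⁻¹ •
          (ρ k (ρ (P.t ((N + j : ℕ) : ℤ)) f) - (ρ k (ρ (P.t ((N + j : ℕ) : ℤ)) f) -
            (P.S.card : ℂ) • ρ k (ρ (P.t (((N + j : ℕ) : ℤ) + 1)) f))) := by
        rw [sub_sub_cancel, smul_smul, inv_mul_cancel₀ (q_ne P), one_smul]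
        push_cast; rw [add_assoc]
      rw [h3]
      exact Submodule.smul_mem _ _ (sub_mem (ih k hk) (Submodule.mem_sup_right h1))
  obtain ⟨k, hk, n, hg⟩ := h.form g
  have h4 : ρ k (ρ (P.t n) f) ∈ E ⊔ coinv ρ (KN v N) := by
    rcases le_total n N with hn | hn
    · exact hE k hk n hn
    · obtain ⟨j, rfl⟩ := Nat.exists_eq_add_of_le hn
      exact key j k hk
  rcases hg with hg | hg
  · rw [hg]; exact h4
  · rw [hg]; exact neg_mem h4

/-- Main admissibility statement. -/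
theorem adm {ι : Type*} [Finite ι] (fam : ι → V) (hf : ∀ i, IwRel P ρ (fam i))
    (hspan : ∀ x : V, x ∈ Submodule.span ℂ {y | ∃ g i, y = ρ g (fam i)})
    (N : ℕ) {N' : ℕ → Subgroup (GL (Fin 2) F)} (hF : Filt ρ (KN v N) N') :
    FiniteDimensional ℂ (invSub ρ (KN v N)) := by
  classical
  have := KN_finiteIndex P (KO v) le_rfl N
  have : Finite (KO v ⧸ (KN v N).subgroupOf (KO v)) := Subgroup.finite_quotient_of_finiteIndex
  let E : Submodule ℂ V := Submodule.span ℂ (Set.range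
    (fun p : (KO v ⧸ (KN v N).subgroupOf (KO v)) × Fin (N + 1) × ι =>
      ρ ((p.1.out : KO v) : GL (Fin 2) F) (ρ (P.t ((p.2.1 : ℕ) : ℤ)) (fam p.2.2))))
  have hEfin : FiniteDimensional ℂ E := FiniteDimensional.span_of_finite ℂ (Set.finite_range _)
  have hE : ∀ i, ∀ k ∈ KO v, ∀ n : ℕ, n ≤ N →
      ρ k (ρ (P.t n) (fam i)) ∈ E ⊔ coinv ρ (KN v N) := by
    intro i k hk n hn
    set q : KO v ⧸ (KN v N).subgroupOf (KO v) := QuotientGroup.mk ⟨k, hk⟩ with hq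
    have h1 : (QuotientGroup.mk (q.out) : KO v ⧸ (KN v N).subgroupOf (KO v)) =
        QuotientGroup.mk ⟨k, hk⟩ := by rw [QuotientGroup.out_eq']
    rw [QuotientGroup.eq, Subgroup.mem_subgroupOf] at h1
    have h2 : ((q.out : KO v) : GL (Fin 2) F)⁻¹ * k ∈ KN v N := h1
    have h3 := KN_conj v N (q.out : KO v).2 h2
    have h4 := sub_mem_coinv ρ h3 (ρ ((q.out : KO v) : GL (Fin 2) F) (ρ (P.t n) (fam i)))
    have h5 : ρ (((q.out : KO v) : GL (Fin 2) F) * (((q.out : KO v) : GL (Fin 2) F)⁻¹ * k) *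
        ((q.out : KO v) : GL (Fin 2) F)⁻¹)
          (ρ ((q.out : KO v) : GL (Fin 2) F) (ρ (P.t n) (fam i))) = ρ k (ρ (P.t n) (fam i)) := by
      rw [← rho_mul ρ (((q.out : KO v) : GL (Fin 2) F) * (((q.out : KO v) : GL (Fin 2) F)⁻¹ * k) *
        ((q.out : KO v) : GL (Fin 2) F)⁻¹) ((q.out : KO v) : GL (Fin 2) F)]
      congr 2
      group
    rw [h5] at h4
    have h6 : ρ ((q.out : KO v) : GL (Fin 2) F) (ρ (P.t n) (fam i)) ∈ E :=
      Submodule.subset_span ⟨(q, ⟨n, Nat.lt_succ_of_le hn⟩, i), rfl⟩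
    have h7 := add_mem (Submodule.mem_sup_right (S := E) h4) (Submodule.mem_sup_left h6)
    rwa [sub_add_cancel] at h7
  have hall : E ⊔ coinv ρ (KN v N) = ⊤ := by
    rw [eq_top_iff]
    intro x _
    refine (Submodule.span_le.2 ?_) (hspan x)
    rintro y ⟨g, i, rfl⟩
    exact (hf i).mem_sup E (hE i) g
  -- the quotient is finite dimensional
  let C := coinv ρ (KN v N)
  have hsurj : Function.Surjective (C.mkQ ∘ₗ E.subtype) := by
    intro y
    obtain ⟨x, rfl⟩ := Submodule.mkQ_surjective C y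
    have : x ∈ E ⊔ C := by rw [hall]; trivial
    obtain ⟨e, he, c, hc, rfl⟩ := Submodule.mem_sup.1 this
    refine ⟨⟨e, he⟩, ?_⟩
    simp only [LinearMap.comp_apply, Submodule.subtype_apply, map_add]
    rw [(Submodule.Quotient.mk_eq_zero C).2 hc |> fun h => (show C.mkQ c = 0 from h), add_zero]
  have : FiniteDimensional ℂ (V ⧸ C) := Module.Finite.of_surjective _ hsurj
  refine FiniteDimensional.of_injective (C.mkQ ∘ₗ (invSub ρ (KN v N)).subtype) ?_
  rw [← LinearMap.ker_eq_bot, LinearMap.ker_eq_bot']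
  rintro ⟨x, hx⟩ h0
  have h1 : x ∈ C := (Submodule.Quotient.mk_eq_zero C).1 h0
  exact Subtype.ext (hF.eq_zero hx h1)

end

end Pool.Agent.Helper37.LL
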