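import Pool.Agent.Helper37.LL.Gen

/-!
# Automorphic representations generated by a form with the Steinberg relations at ∞,
possibly modulo a finite dimensional subspace
-/

set_option autoImplicit false


open Polynomial IsDedekindDomain WithZero Topology
open scoped RestrictedProduct

namespace Pool.Agent.Helper37.LL

variable {𝔽 : Type} [Field 𝔽] [Finite 𝔽]

/-- A form with the Steinberg relations at infinity modulo a subspace `C`. -/
structure AData (f : GA 𝔽 → ℂ) (C : Submodule ℂ (GA 𝔽 → ℂ)) : Prop where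
  Cst : Stable (rt 𝔽) C
  Cfin : C.FG
  Csm : C ≤ smSub (rt 𝔽)
  Cleft : ∀ φ ∈ C, ∀ γ g, φ (Gdiag 𝔽 γ * g) = φ g
  fsm : f ∈ smSub (rt 𝔽)
  fleft : ∀ γ g, f (Gdiag 𝔽 γ * g) = f g
  fC : f ∉ C
  iw : ∀ k ∈ Iw (vv 𝔽 none), rt 𝔽 (inc 𝔽 none k) f - f ∈ C
  z : rt 𝔽 (inc 𝔽 none ((par (𝔽 := 𝔽) none).z 1)) f - f ∈ C
  w : rt 𝔽 (inc 𝔽 none (par (𝔽 := 𝔽) none).w) f + f ∈ C
  sum : f + ∑ b ∈ (par (𝔽 := 𝔽) none).S, rt 𝔽 (inc 𝔽 none (nn b * ss)) f ∈ C

variable {f : GA 𝔽 → ℂ} {C : Submodule ℂ (GA 𝔽 → ℂ)}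

/-- quotient representation -/
noncomputable def qrep (hC : Stable (rt 𝔽) C) : Representation ℂ (GA 𝔽) ((GA 𝔽 → ℂ) ⧸ C) :=
  (rt 𝔽).quotient C (fun g x hx => hC g x hx)

omit [Finite 𝔽] in
@[simp] lemma qrep_mk (hC : Stable (rt 𝔽) C) (g : GA 𝔽) (x : GA 𝔽 → ℂ) :
    qrep hC g (C.mkQ x) = C.mkQ (rt 𝔽 g x) := rfl

lemma mk_eq_zero {V : Type*} [AddCommGroup V] [Module ℂ V] {C : Submodule ℂ V} {x : V} :
    C.mkQ x = 0 ↔ x ∈ C := Submodule.Quotient.mk_eq_zero C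

lemma AData.relQ (D : AData f C) {c : GA 𝔽} (hc : ∀ k, c * inc 𝔽 none k = inc 𝔽 none k * c) :
    IwRel (par (𝔽 := 𝔽) none) ((qrep D.Cst).comp (inc 𝔽 none)) (C.mkQ (rt 𝔽 c f)) := by
  have hcomm : ∀ k, rt 𝔽 (inc 𝔽 none k) (rt 𝔽 c f) = rt 𝔽 c (rt 𝔽 (inc 𝔽 none k) f) := by
    intro k
    rw [← rho_mul, ← rho_mul, hc]
  refine ⟨?_, ?_, ?_, ?_⟩
  · intro k hk
    show qrep D.Cst (inc 𝔽 none k) (C.mkQ (rt 𝔽 c f)) = _
    rw [qrep_mk, hcomm, ← sub_eq_zero, ← map_sub, ← map_sub, mk_eq_zero]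
    exact D.Cst c _ (D.iw k hk)
  · show qrep D.Cst (inc 𝔽 none _) (C.mkQ (rt 𝔽 c f)) = _
    rw [qrep_mk, hcomm, ← sub_eq_zero, ← map_sub, ← map_sub, mk_eq_zero]
    exact D.Cst c _ D.z
  · show qrep D.Cst (inc 𝔽 none _) (C.mkQ (rt 𝔽 c f)) = _
    rw [qrep_mk, hcomm, ← sub_eq_zero, sub_neg_eq_add, ← map_add, ← map_add, mk_eq_zero]
    exact D.Cst c _ D.w
  · have h1 : ∀ b, ((qrep D.Cst).comp (inc 𝔽 none)) (nn b * ss) (C.mkQ (rt 𝔽 c f)) =
        C.mkQ (rt 𝔽 c (rt 𝔽 (inc 𝔽 none (nn b * ss)) f)) := by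
      intro b
      show qrep D.Cst (inc 𝔽 none _) (C.mkQ (rt 𝔽 c f)) = _
      rw [qrep_mk, hcomm]
    simp only [h1]
    rw [← map_sum, ← map_sum, ← map_add, ← map_add, mk_eq_zero]
    exact D.Cst c _ D.sum

/-- the space generated by `f` and `C` -/
noncomputable def WW (f : GA 𝔽 → ℂ) (C : Submodule ℂ (GA 𝔽 → ℂ)) : Submodule ℂ (GA 𝔽 → ℂ) :=
  orb (rt 𝔽) f ⊔ C

lemma AData.WW_stable (D : AData f C) : Stable (rt 𝔽) (WW f C) := by
  intro g x hx
  obtain ⟨y, hy, z, hz, rfl⟩ := Submodule.mem_sup.1 hx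
  rw [map_add]
  exact add_mem (Submodule.mem_sup_left (orb_stable _ f g y hy))
    (Submodule.mem_sup_right (D.Cst g z hz))

lemma AData.f_mem (_ : AData f C) : f ∈ WW f C := Submodule.mem_sup_left (self_mem_orb _ f)

lemma AData.WW_smooth (D : AData f C) : WW f C ≤ smSub (rt 𝔽) := by
  refine sup_le (Submodule.span_le.2 ?_) D.Csm
  rintro _ ⟨g, rfl⟩
  exact smSub_stable _ g f D.fsm

lemma AData.WW_left (D : AData f C) {φ : GA 𝔽 → ℂ} (hφ : φ ∈ WW f C)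
    (γ : GL (Fin 2) (RatFunc 𝔽)) (g : GA 𝔽) : φ (Gdiag 𝔽 γ * g) = φ g := by
  let L : Submodule ℂ (GA 𝔽 → ℂ) :=
    { carrier := {φ | ∀ γ g, φ (Gdiag 𝔽 γ * g) = φ g}
      zero_mem' := fun _ _ => rfl
      add_mem' := by
        intro a b ha hb γ g
        rw [Pi.add_apply, Pi.add_apply, ha, hb]
      smul_mem' := by
        intro c a ha γ g
        rw [Pi.smul_apply, Pi.smul_apply, ha] }
  have h1 : WW f C ≤ L := by
    refine sup_le (Submodule.span_le.2 ?_) D.Cleft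
    rintro _ ⟨a, rfl⟩ γ g
    show f (Gdiag 𝔽 γ * g * a) = f (g * a)
    rw [mul_assoc, D.fleft]
  exact h1 hφ γ g

/-- the local span is contained in a space spanned by finitely many translates -/
lemma exists_fam {φ : GA 𝔽 → ℂ} (hφ : φ ∈ WW f C) :
    ∃ A : Finset (GA 𝔽), φ ∈ Submodule.span ℂ ((fun a => rt 𝔽 a f) '' (A : Set (GA 𝔽))) ⊔ C := by
  classical
  obtain ⟨y, hy, z, hz, rfl⟩ := Submodule.mem_sup.1 hφ
  obtain ⟨T, hT, hyT⟩ := Submodule.mem_span_finite_of_mem_span hy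
  have hT' : ∀ t ∈ T, ∃ a : GA 𝔽, rt 𝔽 a f = t := fun t ht => hT ht
  choose! a ha using hT'
  refine ⟨T.image a, add_mem (Submodule.mem_sup_left ?_) (Submodule.mem_sup_right hz)⟩
  refine Submodule.span_mono ?_ hyT
  intro t ht
  refine ⟨a t, ?_, ha t ht⟩
  rw [Finset.coe_image]
  exact ⟨t, ht, rfl⟩

theorem AData.admissible (D : AData f C) {φ : GA 𝔽 → ℂ} (hφ : φ ∈ WW f C)
    (U : Subgroup (GLv 𝔽 none)) (hU : IsOpen (U : Set (GLv 𝔽 none))) :
    FiniteDimensional ℂ (Submodule.span ℂ {ψ | ψ ∈ localSpan none φ ∧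
      ∀ u ∈ U, rt 𝔽 (inc 𝔽 none u) ψ = ψ}) := by
  classical
  obtain ⟨A, hA⟩ := exists_fam hφ
  obtain ⟨N, hN⟩ := exists_KN_subset (par (𝔽 := 𝔽) none) (hU.mem_nhds (one_mem U))
  -- components away from infinity
  choose c h hch hcomm using inc_fac (𝔽 := 𝔽) none
  let ρ : Representation ℂ (GLv 𝔽 none) ((GA 𝔽 → ℂ) ⧸ C) := (qrep D.Cst).comp (inc 𝔽 none)
  let fam : A → (GA 𝔽 → ℂ) ⧸ C := fun a => C.mkQ (rt 𝔽 (c a) f)
  let Y : Submodule ℂ ((GA 𝔽 → ℂ) ⧸ C) := Submodule.span ℂ {y | ∃ g i, y = ρ g (fam i)}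
  have hY : Stable ρ Y := by
    intro g x hx
    induction hx using Submodule.span_induction with
    | mem y hy =>
      obtain ⟨b, i, rfl⟩ := hy
      rw [← rho_mul]
      exact Submodule.subset_span ⟨g * b, i, rfl⟩
    | zero => rw [map_zero]; exact zero_mem _
    | add x y _ _ hx hy => rw [map_add]; exact add_mem hx hy
    | smul c x _ hx => rw [map_smul]; exact Submodule.smul_mem _ _ hx
  have hfamY : ∀ i, fam i ∈ Y := fun i => Submodule.subset_span ⟨1, i, by simp⟩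
  -- φ lies in Y
  have hφY : C.mkQ φ ∈ Y := by
    have h1 : Submodule.span ℂ ((fun a => rt 𝔽 a f) '' (A : Set (GA 𝔽))) ⊔ C ≤
        Y.comap C.mkQ := by
      refine sup_le (Submodule.span_le.2 ?_) ?_
      · rintro _ ⟨a, ha, rfl⟩
        refine Submodule.subset_span ⟨h a, ⟨a, ha⟩, ?_⟩
        show C.mkQ (rt 𝔽 a f) = qrep D.Cst (inc 𝔽 none (h a)) (C.mkQ (rt 𝔽 (c a) f))
        rw [qrep_mk, ← rho_mul, ← hcomm, ← hch]
      · intro z hz
        show C.mkQ z ∈ Y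
        rw [mk_eq_zero.2 hz]; exact zero_mem _
    exact h1 hA
  have hsm : ∀ x : Y, {g | subRep ρ Y hY g x = x} ∈ 𝓝 (1 : GLv 𝔽 none) := by
    intro x
    have h1 : Y ≤ smSub ρ := by
      refine Submodule.span_le.2 ?_
      rintro _ ⟨g, i, rfl⟩
      refine smSub_stable ρ g _ ?_
      have h2 : IsOpen {g : GA 𝔽 | rt 𝔽 g (rt 𝔽 (c i) f) = rt 𝔽 (c i) f} :=
        smSub_stable (rt 𝔽) (c i) f D.fsm
      have h3 : rt 𝔽 (c i) f ∈ smSub ((rt 𝔽).comp (inc 𝔽 none)) := smooth_loc (rt 𝔽) none h2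
      refine smSub_map h3 ?_
      intro g hg
      show qrep D.Cst (inc 𝔽 none g) (C.mkQ (rt 𝔽 (c i) f)) = C.mkQ (rt 𝔽 (c i) f)
      rw [qrep_mk]
      exact congrArg _ hg
    have h2 : IsOpen {g | ρ g (x : (GA 𝔽 → ℂ) ⧸ C) = x} := h1 x.2
    have h3 : {g | subRep ρ Y hY g x = x} = {g | ρ g (x : (GA 𝔽 → ℂ) ⧸ C) = x} := by
      ext g
      exact ⟨fun h => congrArg Subtype.val h, fun h => Subtype.ext h⟩
    rw [h3]
    exact h2.mem_nhds (by simp)
  have hF := filt_of_smooth (par (𝔽 := 𝔽) none) (subRep ρ Y hY) hsm (KN_le_KO _ N)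
    (m₀ := N) le_rfl
  have hadm := adm (P := par (𝔽 := 𝔽) none) (ρ := subRep ρ Y hY) (fun i : A => ⟨fam i, hfamY i⟩) (by
    intro i
    have h1 := D.relQ (hcomm i)
    exact
      { iw := fun k hk => Subtype.ext (h1.iw k hk)
        z := Subtype.ext h1.z
        w := Subtype.ext h1.w
        sum := by
          apply Subtype.ext
          have h2 := h1.sum
          rw [Submodule.coe_add, Submodule.coe_sum]
          exact h2 }) (by
    rintro ⟨x, hx⟩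
    -- transfer the span to the subtype
    have h1 : Y ≤ (Submodule.span ℂ {y : Y | ∃ g i, y = subRep ρ Y hY g ⟨fam i, hfamY i⟩}).map
        Y.subtype := by
      refine Submodule.span_le.2 ?_
      rintro _ ⟨g, i, rfl⟩
      exact ⟨subRep ρ Y hY g ⟨fam i, hfamY i⟩, Submodule.subset_span ⟨g, i, rfl⟩, rfl⟩
    obtain ⟨y, hy, hxy⟩ := h1 hx
    have : y = ⟨x, hx⟩ := Subtype.ext hxy
    rw [← this]; exact hy) N hF
  -- conclusion
  let Z : Submodule ℂ (GA 𝔽 → ℂ) := Submodule.span ℂ {ψ | ψ ∈ localSpan none φ ∧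
      ∀ u ∈ U, rt 𝔽 (inc 𝔽 none u) ψ = ψ}
  have hZ : Z.FG := by
    refine Submodule.fg_of_fg_map_of_fg_inf_ker C.mkQ ?_ ?_
    · let E : Submodule ℂ ((GA 𝔽 → ℂ) ⧸ C) :=
        (invSub (subRep ρ Y hY) (KN (vv 𝔽 none) N)).map Y.subtype
      have hE : FiniteDimensional ℂ E := by
        haveI := hadm
        infer_instance
      have hle : Z.map C.mkQ ≤ E := by
        rw [Submodule.map_le_iff_le_comap]
        refine Submodule.span_le.2 ?_
        rintro ψ ⟨h1, h2⟩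
        have h3 : C.mkQ ψ ∈ Y := by
          have h4 : localSpan none φ ≤ Y.comap C.mkQ := by
            refine Submodule.span_le.2 ?_
            rintro _ ⟨g, rfl⟩
            exact hY g _ hφY
          exact h4 h1
        refine ⟨⟨C.mkQ ψ, h3⟩, ?_, rfl⟩
        intro u hu
        apply Subtype.ext
        show qrep D.Cst (inc 𝔽 none u) (C.mkQ ψ) = C.mkQ ψ
        rw [qrep_mk, h2 u (hN hu)]
      haveI : FiniteDimensional ℂ (Z.map C.mkQ : Submodule ℂ _) :=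
        Submodule.finiteDimensional_of_le hle
      exact (Submodule.fg_iff_finiteDimensional _).2 inferInstance
    · rw [Submodule.ker_mkQ]
      haveI : FiniteDimensional ℂ C := (Submodule.fg_iff_finiteDimensional _).1 D.Cfin
      haveI : FiniteDimensional ℂ (Z ⊓ C : Submodule ℂ _) :=
        Submodule.finiteDimensional_of_le inf_le_right
      exact (Submodule.fg_iff_finiteDimensional _).2 inferInstance
  exact (Submodule.fg_iff_finiteDimensional _).1 hZ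

theorem AData.isAutForm (D : AData f C) {φ : GA 𝔽 → ℂ} (hφ : φ ∈ WW f C) : IsAutForm φ := by
  refine ⟨D.WW_left hφ, ⟨fixer (rt 𝔽) φ, D.WW_smooth hφ, fun u hu => hu⟩, none, ?_⟩
  intro U hU
  exact D.admissible hφ U hU

/-- Existence of the irreducible quotient. -/
theorem AData.exists_irr (D : AData f C) : ∃ (π : Irrep (GA 𝔽)) (p : WW f C →ₗ[ℂ] π.V),
    Function.Surjective p ∧
    (∀ h (φ ψ : WW f C), (ψ : GA 𝔽 → ℂ) = rt 𝔽 h φ → p ψ = π.ρ h (p φ)) ∧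
    Gen π (p ⟨f, D.f_mem⟩) := by
  let ρ := subRep (rt 𝔽) (WW f C) D.WW_stable
  let f' : WW f C := ⟨f, D.f_mem⟩
  let C' : Submodule ℂ (WW f C) := C.comap (WW f C).subtype
  have hC' : Stable ρ C' := fun g x hx => D.Cst g _ hx
  obtain ⟨U, hU, hCU, hfU, hmax⟩ := exists_max ρ f' C' hC' D.fC
  have hgen : orb ρ f' ⊔ U = ⊤ := by
    rw [eq_top_iff]
    rintro ⟨x, hx⟩ _
    obtain ⟨y, hy, z, hz, rfl⟩ := Submodule.mem_sup.1 hx
    have h1 : orb (rt 𝔽) f ≤ (orb ρ f').map (WW f C).subtype := by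
      refine Submodule.span_le.2 ?_
      rintro _ ⟨g, rfl⟩
      exact ⟨ρ g f', mem_orb ρ f' g, rfl⟩
    obtain ⟨y', hy', hyy⟩ := h1 hy
    have hzW : z ∈ WW f C := Submodule.mem_sup_right hz
    have h2 : (⟨y + z, hx⟩ : WW f C) = y' + ⟨z, hzW⟩ := by
      apply Subtype.ext
      show y + z = (WW f C).subtype y' + z
      rw [hyy]
    rw [h2]
    exact add_mem (Submodule.mem_sup_left hy') (Submodule.mem_sup_right (hCU hz))
  let π : Irrep (GA 𝔽) :=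
    { V := WW f C ⧸ U
      ρ := ρ.quotient U (fun g x hx => hU g x hx)
      irreducible := quot_irr ρ f' U hU hfU hmax hgen
      smooth := by
        intro x
        obtain ⟨y, rfl⟩ := Submodule.mkQ_surjective U x
        have h1 : (y : GA 𝔽 → ℂ) ∈ smSub (rt 𝔽) := D.WW_smooth y.2
        exact smSub_map h1 (fun g hg => congrArg U.mkQ (Subtype.ext hg : ρ g y = y)) }
  refine ⟨π, U.mkQ, Submodule.mkQ_surjective U, ?_, ?_, ?_⟩
  · intro h φ ψ hψ
    have h1 : ψ = ρ h φ := Subtype.ext hψ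
    rw [h1]; rfl
  · intro h0
    exact hfU (mk_eq_zero.1 h0)
  · have key : ∀ y : WW f C, (y : GA 𝔽 → ℂ) ∈ C → U.mkQ y = 0 := fun y hy =>
      mk_eq_zero.2 (hCU hy)
    refine ⟨?_, ?_, ?_, ?_⟩
    · intro k hk
      show U.mkQ (ρ (inc 𝔽 none k) f') = U.mkQ f'
      rw [← sub_eq_zero, ← map_sub]
      exact key _ (D.iw k hk)
    · show U.mkQ (ρ (inc 𝔽 none _) f') = U.mkQ f'
      rw [← sub_eq_zero, ← map_sub]
      exact key _ D.z
    · show U.mkQ (ρ (inc 𝔽 none _) f') = -U.mkQ f'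
      rw [← sub_eq_zero, sub_neg_eq_add, ← map_add]
      exact key _ D.w
    · show U.mkQ f' + ∑ b ∈ (par (𝔽 := 𝔽) none).S, U.mkQ (ρ (inc 𝔽 none (nn b * ss)) f') = 0
      rw [← map_sum, ← map_add]
      refine key _ ?_
      have h1 := D.sum
      rw [Submodule.coe_add, Submodule.coe_sum]
      exact h1

end Pool.Agent.Helper37.LL
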