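import Pool.Agent.Helper37.LL.Dec

/-!
# Coinvariants and averaging
-/

set_option autoImplicit false

open WithZero

namespace Pool.Agent.Helper37.LL

section

variable {G V : Type*} [Group G] [AddCommGroup V] [Module ℂ V]

/-- the span of all `ρ u x - x`, `u ∈ U` -/
def coinv (ρ : Representation ℂ G V) (U : Subgroup G) : Submodule ℂ V :=
  Submodule.span ℂ {y | ∃ u ∈ U, ∃ x, y = ρ u x - x}

lemma sub_mem_coinv (ρ : Representation ℂ G V) {U : Subgroup G} {u : G} (hu : u ∈ U) (x : V) :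
    ρ u x - x ∈ coinv ρ U :=
  Submodule.subset_span ⟨u, hu, x, rfl⟩

lemma coinv_mono (ρ : Representation ℂ G V) {U U' : Subgroup G} (h : U ≤ U') :
    coinv ρ U ≤ coinv ρ U' := by
  apply Submodule.span_mono
  rintro y ⟨u, hu, x, rfl⟩
  exact ⟨u, h hu, x, rfl⟩

lemma map_coinv (ρ : Representation ℂ G V) {U : Subgroup G} (g : G)
    (hg : ∀ u ∈ U, g * u * g⁻¹ ∈ U) {x : V} (hx : x ∈ coinv ρ U) : ρ g x ∈ coinv ρ U := by
  induction hx using Submodule.span_induction with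
  | mem y hy =>
    obtain ⟨u, hu, x, rfl⟩ := hy
    have : ρ g (ρ u x - x) = ρ (g * u * g⁻¹) (ρ g x) - ρ g x := by
      rw [map_sub, ← Module.End.mul_apply, ← Module.End.mul_apply, ← map_mul, ← map_mul]
      simp
    rw [this]
    exact sub_mem_coinv ρ (hg u hu) _
  | zero => simp
  | add x y _ _ hx hy => rw [map_add]; exact add_mem hx hy
  | smul c x _ hx => rw [map_smul]; exact Submodule.smul_mem _ _ hx

/-- averaging operator -/
lemma exists_avg (ρ : Representation ℂ G V) (U N : Subgroup G) (hNU : N ≤ U)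
    (hn : ∀ u ∈ U, ∀ n ∈ N, u * n * u⁻¹ ∈ N) (hf : (N.subgroupOf U).FiniteIndex) :
    ∃ A : V →ₗ[ℂ] V,
      (∀ x, (∀ u ∈ U, ρ u x = x) → A x = x) ∧
      (∀ x, (∀ n ∈ N, ρ n x = x) → ∀ u ∈ U, A (ρ u x) = A x) ∧
      (∀ x, (∀ n ∈ N, ρ n x = x) → ∀ u ∈ U, ρ u (A x) = A x) ∧
      (∀ x, ∀ W : Submodule ℂ V, (∀ u ∈ U, ρ u x - x ∈ W) → x - A x ∈ W) ∧
      (∀ W : Submodule ℂ V, (∀ u ∈ U, ∀ x ∈ W, ρ u x ∈ W) → ∀ x ∈ W, A x ∈ W) := by
  classical
  haveI := hf
  haveI : Fintype (U ⧸ N.subgroupOf U) := Subgroup.fintypeQuotientOfFiniteIndex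
  haveI : Nonempty (U ⧸ N.subgroupOf U) := ⟨QuotientGroup.mk 1⟩
  haveI hnorm : (N.subgroupOf U).Normal := by
    constructor
    intro n hn' u
    rw [Subgroup.mem_subgroupOf] at hn' ⊢
    exact hn _ u.2 _ hn'
  set n : ℂ := (Fintype.card (U ⧸ N.subgroupOf U) : ℂ) with hndef
  have hn0 : n ≠ 0 := by
    rw [hndef]; exact_mod_cast Fintype.card_ne_zero
  have hfix : ∀ x : V, (∀ n ∈ N, ρ n x = x) → ∀ a b : U,
      (QuotientGroup.mk a : U ⧸ N.subgroupOf U) = QuotientGroup.mk b → ρ a x = ρ b x := by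
    intro x hx a b hab
    rw [QuotientGroup.eq] at hab
    have h1 : ρ (((a⁻¹ * b : U)) : G) x = x := hx _ (Subgroup.mem_subgroupOf.1 hab)
    calc ρ a x = ρ a (ρ ((a⁻¹ * b : U) : G) x) := by rw [h1]
      _ = ρ b x := by
        rw [← Module.End.mul_apply, ← map_mul]; simp
  refine ⟨n⁻¹ • ∑ a : U ⧸ N.subgroupOf U, ρ (a.out : U), ?_, ?_, ?_, ?_, ?_⟩
  · intro x hx
    rw [LinearMap.smul_apply, LinearMap.sum_apply]
    rw [Finset.sum_congr rfl (fun a _ => hx _ (a.out : U).2)]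
    rw [Finset.sum_const, Finset.card_univ, ← Nat.cast_smul_eq_nsmul ℂ, smul_smul,
      inv_mul_cancel₀ hn0, one_smul]
  · intro x hx u hu
    rw [LinearMap.smul_apply, LinearMap.sum_apply, LinearMap.smul_apply, LinearMap.sum_apply]
    congr 1
    refine Fintype.sum_equiv (Equiv.mulRight (QuotientGroup.mk ⟨u, hu⟩ : U ⧸ N.subgroupOf U))
      _ _ ?_
    intro a
    rw [← Module.End.mul_apply, ← map_mul]
    refine hfix x hx (a.out * ⟨u, hu⟩) _ ?_
    rw [QuotientGroup.out_eq', QuotientGroup.mk_mul, QuotientGroup.out_eq']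
    rfl
  · intro x hx u hu
    rw [LinearMap.smul_apply, LinearMap.sum_apply, map_smul, map_sum]
    congr 1
    refine Fintype.sum_equiv (Equiv.mulLeft (QuotientGroup.mk ⟨u, hu⟩ : U ⧸ N.subgroupOf U))
      _ _ ?_
    intro a
    rw [← Module.End.mul_apply, ← map_mul]
    refine hfix x hx (⟨u, hu⟩ * a.out) _ ?_
    rw [QuotientGroup.out_eq', QuotientGroup.mk_mul, QuotientGroup.out_eq']
    rfl
  · intro x W hW
    have : x - (n⁻¹ • ∑ a : U ⧸ N.subgroupOf U, ρ (a.out : U)) x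
        = -(n⁻¹ • ∑ a : U ⧸ N.subgroupOf U, (ρ (a.out : U) x - x)) := by
      rw [LinearMap.smul_apply, LinearMap.sum_apply, Finset.sum_sub_distrib, Finset.sum_const,
        Finset.card_univ, ← Nat.cast_smul_eq_nsmul ℂ, smul_sub, smul_smul,
        inv_mul_cancel₀ hn0, one_smul]
      abel
    rw [this]
    refine neg_mem (Submodule.smul_mem _ _ (Submodule.sum_mem _ ?_))
    intro a _
    exact hW _ (a.out : U).2
  · intro W hW x hx
    rw [LinearMap.smul_apply, LinearMap.sum_apply]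
    exact Submodule.smul_mem _ _ (Submodule.sum_mem _ (fun a _ => hW _ (a.out : U).2 x hx))

/-- A decreasing filtration of `U` by normal subgroups of finite index such that each vector is
fixed by some member. -/
structure Filt (ρ : Representation ℂ G V) (U : Subgroup G) (N : ℕ → Subgroup G) : Prop where
  anti : Antitone N
  le : ∀ m, N m ≤ U
  normal : ∀ m, ∀ u ∈ U, ∀ n ∈ N m, u * n * u⁻¹ ∈ N m
  fin : ∀ m, ((N m).subgroupOf U).FiniteIndex
  fix : ∀ x, ∃ m, ∀ n ∈ N m, ρ n x = x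

lemma Filt.fix' {ρ : Representation ℂ G V} {U : Subgroup G} {N : ℕ → Subgroup G}
    (h : Filt ρ U N) {x : V} {m m' : ℕ} (hm : m ≤ m') (hx : ∀ n ∈ N m, ρ n x = x) :
    ∀ n ∈ N m', ρ n x = x := fun n hn => hx n (h.anti hm hn)

/-- for small subgroups the average kills `coinv` -/
lemma Filt.avg_coinv {ρ : Representation ℂ G V} {U : Subgroup G} {N : ℕ → Subgroup G}
    (h : Filt ρ U N) {y : V} (hy : y ∈ coinv ρ U) :
    ∃ m, ∀ m' ≥ m, ∀ A : V →ₗ[ℂ] V,
      (∀ x, (∀ n ∈ N m', ρ n x = x) → ∀ u ∈ U, A (ρ u x) = A x) → A y = 0 := by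
  induction hy using Submodule.span_induction with
  | mem y hy =>
    obtain ⟨u, hu, x, rfl⟩ := hy
    obtain ⟨m, hm⟩ := h.fix x
    refine ⟨m, fun m' hm' A hA => ?_⟩
    rw [map_sub, hA x (h.fix' hm' hm) u hu, sub_self]
  | zero => exact ⟨0, fun m' _ A _ => map_zero A⟩
  | add x y _ _ hx hy =>
    obtain ⟨m₁, h₁⟩ := hx
    obtain ⟨m₂, h₂⟩ := hy
    refine ⟨max m₁ m₂, fun m' hm' A hA => ?_⟩
    rw [map_add, h₁ m' (le_trans (le_max_left _ _) hm') A hA,
      h₂ m' (le_trans (le_max_right _ _) hm') A hA, add_zero]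
  | smul c x _ hx =>
    obtain ⟨m₁, h₁⟩ := hx
    refine ⟨m₁, fun m' hm' A hA => ?_⟩
    rw [map_smul, h₁ m' hm' A hA, smul_zero]

/-- A `U`-fixed vector that differs from an element `y` of a `U`-stable subspace by an element of
`coinv` lies in that subspace. -/
lemma Filt.mem_of_sub_mem {ρ : Representation ℂ G V} {U : Subgroup G} {N : ℕ → Subgroup G}
    (h : Filt ρ U N) {W : Submodule ℂ V} (hW : ∀ u ∈ U, ∀ x ∈ W, ρ u x ∈ W) {x y : V}
    (hx : ∀ u ∈ U, ρ u x = x) (hy : y ∈ W) (hxy : y - x ∈ coinv ρ U) : x ∈ W := by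
  obtain ⟨m, hm⟩ := h.avg_coinv hxy
  obtain ⟨A, h1, h2, _, _, h5⟩ := exists_avg ρ U (N m) (h.le m) (h.normal m) (h.fin m)
  have h6 := hm m le_rfl A h2
  rw [map_sub, h1 x hx, sub_eq_zero] at h6
  rw [← h6]
  exact h5 W hW y hy

lemma Filt.eq_zero {ρ : Representation ℂ G V} {U : Subgroup G} {N : ℕ → Subgroup G}
    (h : Filt ρ U N) {x : V} (hx : ∀ u ∈ U, ρ u x = x) (hxy : x ∈ coinv ρ U) : x = 0 := by
  have : x ∈ (⊥ : Submodule ℂ V) := by
    refine h.mem_of_sub_mem (W := ⊥) ?_ hx (Submodule.zero_mem _) ?_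
    · intro u _ y hy
      rw [Submodule.mem_bot] at hy
      rw [hy, map_zero]; exact Submodule.zero_mem _
    · rw [zero_sub]; exact neg_mem hxy
  exact (Submodule.mem_bot ℂ).1 this

end

section

variable {F : Type*} [Field F] {v : Valuation F ℤᵐ⁰} (P : Par v)

include P in
lemma exists_reps (M : ℕ) : ∃ R : Finset F, ∀ x, v x ≤ 1 → ∃ r ∈ R, v (x - r) ≤ exp (-(M : ℤ)) := by
  classical
  induction M with
  | zero => exact ⟨{0}, fun x hx => ⟨0, by simp, by simpa using hx⟩⟩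
  | succ M ih =>
    obtain ⟨R, hR⟩ := ih
    refine ⟨(R ×ˢ P.S).image (fun p => p.1 + P.ϖ ^ (M : ℤ) * p.2), ?_⟩
    intro x hx
    obtain ⟨r, hr, hxr⟩ := hR x hx
    have h1 : v ((x - r) / P.ϖ ^ (M : ℤ)) ≤ 1 := by
      rw [map_div₀, P.v_zpow]
      exact div_le_one_of_le₀ hxr zero_le
    obtain ⟨b, hb, hxb⟩ := P.S_ex _ h1
    refine ⟨r + P.ϖ ^ (M : ℤ) * b, Finset.mem_image.2 ⟨(r, b), by simp [hr, hb], rfl⟩, ?_⟩
    have h2 : x - (r + P.ϖ ^ (M : ℤ) * b) = P.ϖ ^ (M : ℤ) * ((x - r) / P.ϖ ^ (M : ℤ) - b) := by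
      have := zpow_ne_zero (M : ℤ) P.ne
      field_simp; ring
    rw [h2, map_mul, P.v_zpow]
    rw [lt_one_iff] at hxb
    calc exp (-(M : ℤ)) * v ((x - r) / P.ϖ ^ (M : ℤ) - b) ≤ exp (-(M : ℤ)) * exp (-1) := by
          exact mul_le_mul_right hxb _
      _ = exp (-((M + 1 : ℕ) : ℤ)) := by rw [← exp_add]; congr 1; push_cast; ring

include P in
lemma KN_finiteIndex (U : Subgroup (GL (Fin 2) F)) (hU : U ≤ KO v) (M : ℕ) :
    ((KN v M).subgroupOf U).FiniteIndex := by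
  classical
  obtain ⟨R, hR⟩ := exists_reps P M
  choose! r hr hr' using hR
  have hfin : Finite (U ⧸ (KN v M).subgroupOf U) := by
    let f : (U ⧸ (KN v M).subgroupOf U) → (Fin 2 → Fin 2 → R) := fun a i j =>
      ⟨r ((a.out : U).1 i j), hr _ ((hU (a.out : U).2).1 i j)⟩
    refine Finite.of_injective f ?_
    intro a b hab
    have h1 : ∀ i j, v ((a.out : U).1 i j - (b.out : U).1 i j) ≤ exp (-(M : ℤ)) := by
      intro i j
      have h2 : r ((a.out : U).1 i j) = r ((b.out : U).1 i j) := by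
        have := congrFun (congrFun hab i) j
        exact congrArg Subtype.val this
      have h3 := hr' _ ((hU (a.out : U).2).1 i j)
      have h4 := hr' _ ((hU (b.out : U).2).1 i j)
      have : (a.out : U).1 i j - (b.out : U).1 i j =
          ((a.out : U).1 i j - r ((a.out : U).1 i j)) - ((b.out : U).1 i j - r ((b.out : U).1 i j)) := by
        rw [h2]; ring
      rw [this]
      exact (v.map_sub _ _).trans (max_le h3 h4)
    rw [← QuotientGroup.out_eq' a, ← QuotientGroup.out_eq' b, QuotientGroup.eq,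
      Subgroup.mem_subgroupOf]
    refine ⟨mul_mem (inv_mem (hU (a.out : U).2)) (hU (b.out : U).2), ?_⟩
    intro i j
    have h5 : (((a.out : U)⁻¹ * (b.out : U) : U) : GL (Fin 2) F) i j - (1 : GL (Fin 2) F) i j
        = ∑ k, ((a.out : U).1)⁻¹ i k * ((b.out : U).1 k j - (a.out : U).1 k j) := by
      simp only [mul_sub, Finset.sum_sub_distrib]
      rw [← Matrix.mul_apply, ← Matrix.mul_apply, ← Matrix.GeneralLinearGroup.coe_mul,
        ← Matrix.GeneralLinearGroup.coe_mul, inv_mul_cancel]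
      rfl
    rw [h5]
    refine v.map_sum_le ?_
    intro k _
    rw [map_mul, ← Valuation.map_sub_swap]
    exact mul_le_of_le_one_of_le ((hU (a.out : U).2).2 i k) (h1 k j)
  exact Subgroup.finiteIndex_of_finite_quotient

end

end Pool.Agent.Helper37.LL
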