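import Pool.Agent.Helper37.LL.Triv

/-!
# Comparison with the general definitions
-/

set_option autoImplicit false

open Polynomial IsDedekindDomain WithZero Topology MeasureTheory
open scoped RestrictedProduct

namespace Pool.Agent.Helper37.LL

variable {𝔽 : Type} [Field 𝔽]

/-- coordinates -/
abbrev prG (v : Place 𝔽) (g : GA 𝔽) : GL (Fin 2) (Kv 𝔽 v) := g v

/-- coordinates -/
abbrev prA (v : Place 𝔽) (x : Adele 𝔽) : Kv 𝔽 v := x v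

/-- coordinates -/
abbrev prI (v : Place 𝔽) (x : Idele 𝔽) : (Kv 𝔽 v)ˣ := x v

lemma eq_inc {k : GA 𝔽} {v : Place 𝔽} (hk : ∀ w, w ≠ v → k w = 1) : k = inc 𝔽 v (k v) := by
  ext w : 1
  by_cases hw : w = v
  · subst hw; rw [inc_apply_same]
  · rw [inc_apply_ne 𝔽 hw, hk w hw]

lemma inc_factor (v : Place 𝔽) (h : GLv 𝔽 v) : inc 𝔽 v h ∈ Spec.factor prG v :=
  fun _ hw => inc_apply_ne 𝔽 hw h

lemma isAutForm_spec {φ : GA 𝔽 → ℂ} (h : IsAutForm φ) : Spec.IsAutForm (emb 𝔽) prG φ := by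
  refine ⟨?_, ?_, ?_⟩
  · intro γ g g' hg
    have h1 : g' = Gdiag 𝔽 γ * g := by
      ext v : 1; exact hg v
    rw [h1]; exact h.1 γ g
  · obtain ⟨U, hU, hφ⟩ := h.2.1
    exact ⟨U, hU, fun u hu g => congrFun (hφ u hu) g⟩
  · obtain ⟨v, hv⟩ := h.2.2
    refine ⟨v, fun U hU => ?_⟩
    haveI := hv U hU
    refine Submodule.finiteDimensional_of_le (S₂ := Submodule.span ℂ
      {ψ | ψ ∈ localSpan v φ ∧ ∀ u ∈ U, rt 𝔽 (inc 𝔽 v u) ψ = ψ}) (Submodule.span_mono ?_)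
    rintro ψ ⟨h1, h2⟩
    refine ⟨?_, ?_⟩
    · refine (Submodule.span_mono ?_ : Spec.trSpan _ _ ≤ localSpan v φ) h1
      rintro ψ ⟨k, hk, hψ⟩
      refine ⟨k v, ?_⟩
      funext g
      show φ (g * inc 𝔽 v (k v)) = ψ g
      rw [hψ g, ← eq_inc hk]
    · intro u hu
      funext g
      refine h2 (inc 𝔽 v u) (inc_factor v u) ?_ g
      show inc 𝔽 v u v ∈ U
      rw [inc_apply_same]; exact hu

lemma KA_eq : Spec.KA (emb 𝔽) prA = (Kdiag 𝔽).range.toAddSubgroup := by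
  have h1 : {x : Adele 𝔽 | ∃ c : RatFunc 𝔽, ∀ v, prA v x = emb 𝔽 v c} =
      (((Kdiag 𝔽).range.toAddSubgroup : AddSubgroup (Adele 𝔽)) : Set (Adele 𝔽)) := by
    ext x
    constructor
    · rintro ⟨c, hc⟩
      refine ⟨c, ?_⟩
      ext v : 1
      exact (hc v).symm
    · rintro ⟨c, rfl⟩
      exact ⟨c, fun v => rfl⟩
  rw [Spec.KA, h1]
  exact AddSubgroup.closure_eq _

lemma const_aux {φ : GA 𝔽 → ℂ} (h : IsCuspForm φ) (S : AddSubgroup (Adele 𝔽))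
    (hS : S = (Kdiag 𝔽).range.toAddSubgroup) (g : GA 𝔽) (c : Adele 𝔽 ⧸ S → ℂ)
    (hc : ∀ (x : Adele 𝔽) (u : GA 𝔽), (∀ v, (prG v u).1 = !![1, prA v x; 0, 1]) →
      c (QuotientAddGroup.mk x) = φ (u * g))
    (μ : @Measure (Adele 𝔽 ⧸ S) (borel _)) (hμ : @Measure.IsAddHaarMeasure _ _ _ (borel _) μ) :
    @integral _ _ _ _ (borel _) μ c = 0 := by
  subst hS
  have h1 : c = fun x => φ (unip 𝔽 x.out * g) := by
    funext x
    rw [← hc x.out (unip 𝔽 x.out) (fun v => rfl)]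
    congr 1
    exact (Quotient.out_eq' x).symm
  rw [h1]
  exact h.2 μ hμ g

lemma const_spec {φ : GA 𝔽 → ℂ} (h : IsCuspForm φ) :
    Spec.ConstTermZero (emb 𝔽) prG prA φ :=
  fun g c hc μ hμ => const_aux h _ KA_eq g c hc μ hμ

lemma subq_spec {C C' : (GA 𝔽 → ℂ) → Prop} (hC : ∀ φ, C φ → C' φ) {π : Irrep (GA 𝔽)}
    (h : IsSubquotientOf C π) : Spec.IsSubquotientOf C' π.ρ := by
  obtain ⟨W, h1, h2, p, hp, h3⟩ := h
  obtain ⟨p', hp'⟩ := p.exists_extend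
  have h4 : ∀ φ (hφ : φ ∈ W), p' φ = p ⟨φ, hφ⟩ := by
    intro φ hφ
    rw [← hp']; rfl
  refine ⟨W, p', fun φ hφ => hC _ (h1 φ hφ), ?_, ?_⟩
  · intro φ hφ k
    have h5 : (fun g => φ (g * k)) ∈ W := h2 k φ hφ
    refine ⟨h5, ?_⟩
    rw [h4 _ h5, h4 _ hφ]
    exact h3 k ⟨φ, hφ⟩ ⟨_, h5⟩ rfl
  · intro x
    obtain ⟨⟨φ, hφ⟩, rfl⟩ := hp x
    exact ⟨φ, hφ, h4 φ hφ⟩

lemma automorphic_spec {π : Irrep (GA 𝔽)} (h : IsAutomorphic π) :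
    Spec.IsAutomorphic (emb 𝔽) prG π :=
  subq_spec (fun _ hφ => isAutForm_spec hφ) h

lemma cuspidal_spec {π : Irrep (GA 𝔽)} (h : IsCuspidal π) :
    Spec.IsCuspidal (emb 𝔽) prG prA π :=
  subq_spec (fun _ hφ => ⟨isAutForm_spec hφ.1, const_spec hφ⟩) h

lemma component_spec {π : Irrep (GA 𝔽)} {v : Place 𝔽} {σ : Irrep (GLv 𝔽 v)} :
    Spec.IsLocalComponent prG π v σ ↔ IsLocalComponent π v σ := by
  constructor
  · rintro ⟨j, hj, h⟩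
    refine ⟨j, hj, fun g x => ?_⟩
    have h1 := h (inc 𝔽 v g) (inc_factor v g) x
    rw [← h1]
    show _ = j (σ.ρ (inc 𝔽 v g v) x)
    rw [inc_apply_same]
  · rintro ⟨j, hj, h⟩
    refine ⟨j, hj, fun a ha x => ?_⟩
    show j (σ.ρ (a v) x) = π.ρ a (j x)
    rw [h, ← eq_inc ha]

lemma eq_incI {k : Idele 𝔽} {v : Place 𝔽} (hk : ∀ w, w ≠ v → k w = 1) : k = incI 𝔽 v (k v) := by
  ext w : 1
  by_cases hw : w = v
  · subst hw; rw [incI_apply_same]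
  · rw [incI_apply_ne hw, hk w hw]

lemma hecke_spec (χ : HeckeChar 𝔽) : Spec.IsHeckeChar (emb 𝔽) prI χ.χ := by
  refine ⟨χ.cont, fun c x hx => ?_⟩
  have hc : c ≠ 0 := by
    rintro rfl
    have h1 := hx none
    rw [map_zero] at h1
    exact (x none).ne_zero h1
  have h2 : x = Idiag 𝔽 (Units.mk0 c hc) := by
    ext v : 1
    exact Units.ext (hx v)
  rw [h2]; exact χ.triv _

lemma char_spec (χ : HeckeChar 𝔽) (v : Place 𝔽) : Spec.IsLocalChar prI χ.χ v (χ.loc v) := by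
  intro x hx
  show χ.χ x = χ.χ (incI 𝔽 v (x v))
  rw [← eq_incI hx]

variable [Finite 𝔽]

lemma nrm_le_one {v : Place 𝔽} {x : (Kv 𝔽 v)ˣ} (h : nrm v x ≤ 1) : vv 𝔽 v (x : Kv 𝔽 v) ≤ 1 := by
  have h1 : (1 : ℝ) < (Nat.card 𝔽 : ℝ) := by
    exact_mod_cast Finite.one_lt_card
  rw [nrm_eq, ← not_lt, ← zpow_zero (Nat.card 𝔽 : ℝ), zpow_lt_zpow_iff_right₀ h1, not_lt] at h
  have h2 : log (vv 𝔽 v (x : Kv 𝔽 v)) ≤ 0 := by
    by_contra hlt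
    push Not at hlt
    exact absurd h (not_le.2 (mul_pos (dgr_pos v) hlt))
  rwa [← exp_log (unit_v_ne v x), ← exp_zero, exp_le_exp]

lemma isobaric_sum_spec {v : Place 𝔽} {χ₁ χ₂ : (Kv 𝔽 v)ˣ →* ℂˣ} {σ : Irrep (GLv 𝔽 v)}
    (h : IsLocalIsobaricSum χ₁ χ₂ σ) : Spec.IsLocalIsobaricSum (nrm v) χ₁ χ₂ σ.ρ := by
  have key : ∀ {χ₁ χ₂ : (Kv 𝔽 v)ˣ →* ℂˣ}, EmbedsInPS σ χ₁ χ₂ →
      Spec.EmbedsInPS (nrm v) χ₁ χ₂ σ.ρ := by
    rintro χ₁ χ₂ ⟨j, hj, h1, h2⟩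
    refine ⟨j, hj, fun x => ⟨(h1 x).1, ?_⟩, h2⟩
    intro a d t g ha hd h0
    have h3 : t = mk2 (a : Kv 𝔽 v) (t 0 1) 0 d (by simp) := by
      apply gl_ext
      · exact ha
      · rfl
      · exact h0
      · exact hd
    rw [h3]
    exact (h1 x).2 a d (t 0 1) g
  have key2 : ∀ {χ₁ χ₂ : (Kv 𝔽 v)ˣ →* ℂˣ}, ExpGE χ₁ χ₂ → Spec.ExpGE (nrm v) χ₁ χ₂ :=
    fun h x hx => h x (nrm_le_one hx)
  rcases h with ⟨h1, h2⟩ | ⟨h1, h2⟩
  · exact Or.inl ⟨key2 h1, key h2⟩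
  · exact Or.inr ⟨key2 h1, key h2⟩

lemma isobaric_spec {π : Irrep (GA 𝔽)} (h : IsIsobaric π) :
    Spec.IsIsobaric (emb 𝔽) nrm prG prA prI π := by
  rcases h with h | ⟨h, χ₁, χ₂, h'⟩
  · exact Or.inl (cuspidal_spec h)
  · refine Or.inr ⟨automorphic_spec h, χ₁.χ, χ₂.χ, hecke_spec χ₁, hecke_spec χ₂, fun v => ?_⟩
    obtain ⟨σ, h1, h2⟩ := h' v
    exact ⟨χ₁.loc v, χ₂.loc v, σ, char_spec χ₁ v, char_spec χ₂ v, component_spec.2 h1,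
      isobaric_sum_spec h2⟩

lemma lifting_spec {π π' : Irrep (GA 𝔽)} (h : IsGlobalLifting π π') :
    Spec.IsGlobalLifting (emb 𝔽) (fun v => (vv 𝔽 v).integer) nrm prG prA prI π π' :=
  ⟨isobaric_spec h.1, fun v _ hσ hu => component_spec.2 (h.2 v _ (component_spec.1 hσ) hu)⟩

end Pool.Agent.Helper37.LL
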