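import Pool.Agent.Helper37.LL.Loc

/-!
# Special elements of GL₂ and decompositions
-/

set_option autoImplicit false

open WithZero Matrix

namespace Pool.Agent.Helper37.LL

section

variable {F : Type*} [Field F]

/-- A uniformiser together with a finite set of representatives of the residue field. -/
structure Par (v : Valuation F ℤᵐ⁰) where
  /-- uniformiser -/
  ϖ : F
  /-- representatives of the residue field -/
  S : Finset F
  hϖ : v ϖ = exp (-1)
  S_int : ∀ b ∈ S, v b ≤ 1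
  S_ex : ∀ x, v x ≤ 1 → ∃ b ∈ S, v (x - b) < 1
  S_inj : ∀ b ∈ S, ∀ b' ∈ S, v (b - b') < 1 → b = b'

variable {v : Valuation F ℤᵐ⁰} (P : Par v)

lemma Par.ne : P.ϖ ≠ 0 := by
  intro h
  have := P.hϖ
  rw [h, map_zero] at this
  exact (exp_ne_zero this.symm)

lemma Par.v_zpow (n : ℤ) : v (P.ϖ ^ n) = exp (-n) := by
  rw [map_zpow₀, P.hϖ, ← WithZero.exp_zsmul]
  congr 1; simp

lemma Par.v_lt : v P.ϖ < 1 := by
  rw [P.hϖ, ← exp_zero, exp_lt_exp]; norm_num

lemma lt_one_iff {x : F} : v x < 1 ↔ v x ≤ exp (-1) := by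
  by_cases hx : v x = 0
  · rw [hx]; simp
  · rw [← exp_log hx, ← exp_zero, exp_lt_exp, exp_le_exp]; omega

lemma Par.S_nonempty : P.S.Nonempty := by
  obtain ⟨b, hb, _⟩ := P.S_ex 0 (by simp)
  exact ⟨b, hb⟩

lemma Par.card_pos : 0 < P.S.card := P.S_nonempty.card_pos

/-- every nonzero element is a unit times a power of the uniformiser -/
lemma Par.unit_zpow {x : F} (hx : x ≠ 0) : ∃ (u : F) (n : ℤ), v u = 1 ∧ x = u * P.ϖ ^ n := by
  have hx' : v x ≠ 0 := (v.ne_zero_iff).2 hx
  refine ⟨x * P.ϖ ^ (log (v x)), -log (v x), ?_, ?_⟩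
  · rw [map_mul, P.v_zpow]
    conv_lhs => rw [← exp_log hx']
    rw [← exp_add]; simp
  · rw [mul_assoc, ← zpow_add₀ P.ne]; simp

/-- `diag(ϖ^n, 1)` -/
noncomputable def Par.t (n : ℤ) : GL (Fin 2) F :=
  mk2 (P.ϖ ^ n) 0 0 1 (by simp [zpow_ne_zero _ P.ne])

/-- scalar matrix `ϖ^n` -/
noncomputable def Par.z (n : ℤ) : GL (Fin 2) F :=
  mk2 (P.ϖ ^ n) 0 0 (P.ϖ ^ n) (by simp [zpow_ne_zero _ P.ne])

/-- `(0 1; 1 0)` -/
noncomputable def ss : GL (Fin 2) F := mk2 0 1 1 0 (by simp)

/-- unipotent matrix -/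
noncomputable def nn (b : F) : GL (Fin 2) F := mk2 1 b 0 1 (by simp)

/-- lower unipotent matrix -/
noncomputable def nm (b : F) : GL (Fin 2) F := mk2 1 0 b 1 (by simp)

/-- `(0 1; ϖ 0)` -/
noncomputable def Par.w : GL (Fin 2) F := mk2 0 1 P.ϖ 0 (by simp [P.ne])

/-- diagonal matrix -/
noncomputable def dg (a d : F) (ha : a ≠ 0) (hd : d ≠ 0) : GL (Fin 2) F :=
  mk2 a 0 0 d (by simp [ha, hd])

@[simp] lemma Par.t_zero : P.t 0 = 1 := by
  apply gl_ext <;> simp [Par.t]

@[simp] lemma Par.z_zero : P.z 0 = 1 := by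
  apply gl_ext <;> simp [Par.z]

lemma Par.t_add (m n : ℤ) : P.t (m + n) = P.t m * P.t n := by
  apply gl_ext <;> simp [Par.t, mul_00, mul_01, mul_10, mul_11, zpow_add₀ P.ne]

lemma Par.z_add (m n : ℤ) : P.z (m + n) = P.z m * P.z n := by
  apply gl_ext <;> simp [Par.z, mul_00, mul_01, mul_10, mul_11, zpow_add₀ P.ne]

lemma Par.z_comm (m : ℤ) (g : GL (Fin 2) F) : P.z m * g = g * P.z m := by
  apply gl_ext <;> simp [Par.z, mul_00, mul_01, mul_10, mul_11, mul_comm]

lemma Par.w_eq : P.w = ss * P.t 1 := by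
  apply gl_ext <;> simp [Par.w, ss, Par.t, mul_00, mul_01, mul_10, mul_11]

lemma ss_mul_ss : (ss : GL (Fin 2) F) * ss = 1 := by
  apply gl_ext <;> simp [ss, mul_00, mul_01, mul_10, mul_11]

lemma Par.w_mul_w : P.w * P.w = P.z 1 := by
  apply gl_ext <;> simp [Par.w, Par.z, mul_00, mul_01, mul_10, mul_11]

lemma Par.t_nn (n : ℤ) (b : F) : P.t n * nn b = nn (P.ϖ ^ n * b) * P.t n := by
  apply gl_ext <;> simp [Par.t, nn, mul_00, mul_01, mul_10, mul_11]

lemma Par.ss_t_ss (n : ℤ) : ss * P.t n * ss = P.z n * P.t (-n) := by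
  have h := mul_inv_cancel₀ (zpow_ne_zero n P.ne)
  apply gl_ext <;> simp [Par.t, Par.z, ss, mul_00, mul_01, mul_10, mul_11, h]

lemma Par.t_neg (n : ℤ) : P.t (-n) = P.z (-n) * (ss * P.t n * ss) := by
  rw [P.ss_t_ss, ← mul_assoc, ← P.z_add]; simp

lemma Par.w_t (n : ℤ) : P.w * P.t n = P.z n * P.t (-n) * P.w := by
  have h := mul_inv_cancel₀ (zpow_ne_zero n P.ne)
  apply gl_ext <;> simp [Par.t, Par.z, Par.w, mul_00, mul_01, mul_10, mul_11, h, mul_comm]

/-- `t^n s t = z t^{n-1} s` -/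
lemma Par.t_ss_t (n : ℤ) : P.t n * ss * P.t 1 = P.z 1 * P.t (n - 1) * ss := by
  apply gl_ext <;> simp [Par.t, Par.z, ss, mul_00, mul_01, mul_10, mul_11]
  rw [zpow_sub_one₀ P.ne]; field_simp [P.ne]

lemma nn_mem_Iw {b : F} (hb : v b ≤ 1) : nn b ∈ Iw v := by
  refine ⟨mk2_mem_KO v (by simp) hb (by simp) (by simp) (by simp), by simp [nn]⟩

lemma nn_mem_KN {b : F} {N : ℕ} (hb : v b ≤ exp (-(N : ℤ))) : nn b ∈ KN v N := by
  refine ⟨(nn_mem_Iw (hb.trans ?_)).1, ?_⟩
  · rw [← exp_zero, exp_le_exp]; omega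
  · intro i j
    fin_cases i <;> fin_cases j <;> simp [nn] <;> exact hb

lemma nm_mem_Iw {b : F} (hb : v b < 1) : nm b ∈ Iw v := by
  refine ⟨mk2_mem_KO v (by simp) (by simp) hb.le (by simp) (by simp), by simpa [nm] using hb⟩

lemma ss_mem_KO : (ss : GL (Fin 2) F) ∈ KO v :=
  mk2_mem_KO v (by simp) (by simp) (by simp) (by simp) (by simp)

lemma dg_mem_Iw {a d : F} {ha hd} (hva : v a = 1) (hvd : v d = 1) : dg a d ha hd ∈ Iw v := by
  refine ⟨mk2_mem_KO v hva.le (by simp) (by simp) hvd.le (by simp [hva, hvd]), by simp [dg]⟩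

/-- a diagonal matrix in terms of `t`, `z` -/
lemma Par.dg_eq (a d : F) (ha : a ≠ 0) (hd : d ≠ 0) :
    ∃ i ∈ Iw v, ∃ n m : ℤ, dg a d ha hd = i * P.t n * P.z m := by
  obtain ⟨u, n, hu, rfl⟩ := P.unit_zpow ha
  obtain ⟨u', m, hu', rfl⟩ := P.unit_zpow hd
  have hu0 : u ≠ 0 := fun h => by rw [h, map_zero] at hu; exact zero_ne_one hu
  have hu0' : u' ≠ 0 := fun h => by rw [h, map_zero] at hu'; exact zero_ne_one hu'
  refine ⟨dg u u' hu0 hu0', dg_mem_Iw hu hu', n - m, m, ?_⟩
  apply gl_ext <;> simp [Par.t, Par.z, dg, mul_00, mul_01, mul_10, mul_11]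
  rw [mul_assoc, ← zpow_add₀ P.ne]; simp

/-- Bruhat-type decomposition with respect to the Iwahori subgroup -/
lemma Par.bruhat (g : GL (Fin 2) F) : ∃ i₁ ∈ Iw v, ∃ i₂ ∈ Iw v, ∃ n m : ℤ,
    g = i₁ * P.t n * i₂ * P.z m ∨ g = i₁ * P.t n * ss * i₂ * P.z m := by
  -- four pivots
  set a := g 0 0 with ha
  set b := g 0 1 with hb
  set c := g 1 0 with hc
  set d := g 1 1 with hd
  have hdet : a * d - b * c ≠ 0 := dt_ne g
  have hg : g = mk2 a b c d hdet := eq_mk2 g
  by_cases h1 : v a ≤ v c ∧ v d ≤ v c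
  · -- pivot c
    have hc0 : c ≠ 0 := by
      intro h0
      rw [h0, map_zero] at h1
      have h2 : a = 0 := (v.zero_iff).1 (le_zero_iff.1 h1.1)
      apply hdet; rw [h0, h2]; ring
    have hvc : 0 < v c := zero_lt_iff.2 ((v.ne_zero_iff).2 hc0)
    have hb' : b - a * d / c ≠ 0 := by
      intro h0; apply hdet
      have : b = a * d / c := by linear_combination h0
      rw [this]; field_simp; ring
    obtain ⟨i, hi, n, m, hdg⟩ := P.dg_eq (b - a * d / c) c hb' hc0
    refine ⟨nn (a / c) * i, mul_mem (nn_mem_Iw ?_) hi, nn (d / c), nn_mem_Iw ?_, n, m, Or.inr ?_⟩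
    · rw [map_div₀]; exact div_le_one_of_le₀ h1.1 zero_le
    · rw [map_div₀]; exact div_le_one_of_le₀ h1.2 zero_le
    · have e1 : nn (a / c) * i * P.t n * ss * nn (d / c) * P.z m
          = nn (a / c) * (i * P.t n * P.z m) * ss * nn (d / c) := by
        have : i * P.t n * P.z m * ss * nn (d / c) = i * P.t n * ss * nn (d / c) * P.z m := by
          rw [← P.z_comm m (i * P.t n * ss * nn (d / c)), ← P.z_comm m (i * P.t n)]
          simp only [mul_assoc]
        calc _ = nn (a / c) * (i * P.t n * ss * nn (d / c) * P.z m) := by simp only [mul_assoc]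
          _ = nn (a / c) * (i * P.t n * P.z m * ss * nn (d / c)) := by rw [this]
          _ = _ := by simp only [mul_assoc]
      rw [e1, ← hdg, hg]
      apply gl_ext <;> simp [nn, dg, ss, mul_00, mul_01, mul_10, mul_11] <;> field_simp
      ring
  · have hcases : (v c < v a ∧ v b ≤ v a) ∨ (v c < v d ∧ v b ≤ v d) ∨ (v a < v b ∧ v d < v b) := by
      rw [not_and_or, not_le, not_le] at h1
      rcases le_total (v d) (v a) with hda | had
      · have hca : v c < v a := by
          rcases h1 with h | h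
          · exact h
          · exact h.trans_le hda
        rcases le_or_gt (v b) (v a) with hba | hba
        · exact Or.inl ⟨hca, hba⟩
        · exact Or.inr (Or.inr ⟨hba, hda.trans_lt hba⟩)
      · have hcd : v c < v d := by
          rcases h1 with h | h
          · exact h.trans_le had
          · exact h
        rcases le_or_gt (v b) (v d) with hbd | hbd
        · exact Or.inr (Or.inl ⟨hcd, hbd⟩)
        · exact Or.inr (Or.inr ⟨had.trans_lt hbd, hbd⟩)
    rcases hcases with ⟨hca, hba⟩ | ⟨hcd, hbd⟩ | ⟨hab, hdb⟩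
    · -- pivot a
      have ha0 : a ≠ 0 := by
        intro h0; rw [h0, map_zero] at hca; exact not_lt_zero hca
      have hva : 0 < v a := zero_lt_iff.2 ((v.ne_zero_iff).2 ha0)
      have hd' : d - b * c / a ≠ 0 := by
        intro h0; apply hdet
        have : d = b * c / a := by linear_combination h0
        rw [this]; field_simp; ring
      obtain ⟨i, hi, n, m, hdg⟩ := P.dg_eq a (d - b * c / a) ha0 hd'
      refine ⟨nm (c / a) * i, mul_mem (nm_mem_Iw ?_) hi, nn (b / a), nn_mem_Iw ?_, n, m,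
        Or.inl ?_⟩
      · rw [map_div₀]; exact (div_lt_one₀ hva).2 hca
      · rw [map_div₀]; exact div_le_one_of_le₀ hba zero_le
      · have e1 : nm (c / a) * i * P.t n * nn (b / a) * P.z m
            = nm (c / a) * (i * P.t n * P.z m) * nn (b / a) := by
          have : P.z m * nn (b / a) = nn (b / a) * P.z m := P.z_comm _ _
          simp only [mul_assoc, this]
        rw [e1, ← hdg, hg]
        apply gl_ext <;> simp [nn, nm, dg, mul_00, mul_01, mul_10, mul_11] <;> field_simp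
        ring
    · -- pivot d
      have hd0 : d ≠ 0 := by
        intro h0; rw [h0, map_zero] at hcd; exact not_lt_zero hcd
      have hvd : 0 < v d := zero_lt_iff.2 ((v.ne_zero_iff).2 hd0)
      have ha' : a - b * c / d ≠ 0 := by
        intro h0; apply hdet
        have : a = b * c / d := by linear_combination h0
        rw [this]; field_simp; ring
      obtain ⟨i, hi, n, m, hdg⟩ := P.dg_eq (a - b * c / d) d ha' hd0
      refine ⟨nn (b / d) * i, mul_mem (nn_mem_Iw ?_) hi, nm (c / d), nm_mem_Iw ?_, n, m,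
        Or.inl ?_⟩
      · rw [map_div₀]; exact div_le_one_of_le₀ hbd zero_le
      · rw [map_div₀]; exact (div_lt_one₀ hvd).2 hcd
      · have e1 : nn (b / d) * i * P.t n * nm (c / d) * P.z m
            = nn (b / d) * (i * P.t n * P.z m) * nm (c / d) := by
          have : P.z m * nm (c / d) = nm (c / d) * P.z m := P.z_comm _ _
          simp only [mul_assoc, this]
        rw [e1, ← hdg, hg]
        apply gl_ext <;> simp [nn, nm, dg, mul_00, mul_01, mul_10, mul_11] <;> field_simp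
        ring
    · -- pivot b
      have hb0 : b ≠ 0 := by
        intro h0; rw [h0, map_zero] at hab; exact not_lt_zero hab
      have hvb : 0 < v b := zero_lt_iff.2 ((v.ne_zero_iff).2 hb0)
      have hc' : c - a * d / b ≠ 0 := by
        intro h0; apply hdet
        have : c = a * d / b := by linear_combination h0
        rw [this]; field_simp; ring
      obtain ⟨i, hi, n, m, hdg⟩ := P.dg_eq b (c - a * d / b) hb0 hc'
      refine ⟨nm (d / b) * i, mul_mem (nm_mem_Iw ?_) hi, nm (a / b), nm_mem_Iw ?_, n, m,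
        Or.inr ?_⟩
      · rw [map_div₀]; exact (div_lt_one₀ hvb).2 hdb
      · rw [map_div₀]; exact (div_lt_one₀ hvb).2 hab
      · have e1 : nm (d / b) * i * P.t n * ss * nm (a / b) * P.z m
            = nm (d / b) * (i * P.t n * P.z m) * ss * nm (a / b) := by
          have h2 : P.z m * nm (a / b) = nm (a / b) * P.z m := P.z_comm _ _
          have h3 : P.z m * ss = ss * P.z m := P.z_comm _ _
          simp only [mul_assoc, h2]
          rw [← mul_assoc (P.z m) ss, h3, mul_assoc, h2]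
        rw [e1, ← hdg, hg]
        apply gl_ext <;> simp [nm, dg, ss, mul_00, mul_01, mul_10, mul_11] <;> field_simp
        ring

/-- Cartan decomposition -/
lemma Par.cartan (g : GL (Fin 2) F) : ∃ k₁ ∈ KO v, ∃ k₂ ∈ KO v, ∃ (n : ℕ) (m : ℤ),
    g = k₁ * P.t n * k₂ * P.z m := by
  obtain ⟨i₁, h₁, i₂, h₂, n, m, h⟩ := P.bruhat g
  have key : ∃ k ∈ KO v, g = i₁ * P.t n * k * P.z m := by
    rcases h with h | h
    · exact ⟨i₂, Iw_le_KO v h₂, h⟩
    · exact ⟨ss * i₂, mul_mem ss_mem_KO (Iw_le_KO v h₂), by rw [h]; simp only [mul_assoc]⟩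
  obtain ⟨k, hk, hg⟩ := key
  rcases le_total 0 n with hn | hn
  · obtain ⟨n', rfl⟩ := Int.eq_ofNat_of_zero_le hn
    exact ⟨i₁, Iw_le_KO v h₁, k, hk, n', m, hg⟩
  · obtain ⟨n', hn'⟩ := Int.eq_ofNat_of_zero_le (Int.neg_nonneg_of_nonpos hn)
    refine ⟨i₁ * ss, mul_mem (Iw_le_KO v h₁) ss_mem_KO, ss * k, mul_mem ss_mem_KO hk, n',
      n + m, ?_⟩
    have : P.t n = P.z n * (ss * P.t n' * ss) := by
      have h4 := P.t_neg (n' : ℤ)
      have h5 : (n : ℤ) = -(n' : ℤ) := by omega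
      rw [h5]; exact h4
    rw [hg, this, P.z_add]
    have hz : ∀ x : GL (Fin 2) F, P.z n * x = x * P.z n := P.z_comm n
    simp only [mul_assoc]
    rw [← mul_assoc (P.z n), hz ss]
    simp only [mul_assoc]
    rw [← mul_assoc (P.z n), hz (P.t n')]
    simp only [mul_assoc]
    rw [← mul_assoc (P.z n), hz ss]
    simp only [mul_assoc]
    rw [← mul_assoc (P.z n), hz k]
    simp only [mul_assoc]

end

end Pool.Agent.Helper37.LL
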