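import Pool.Agent.Helper37.LL.Loc

/-!
# Automorphic representations of `GL₂` over `K = 𝔽(T)`, local components, isobaric
representations, global liftings for `ρ = id`
-/

set_option autoImplicit false

open Polynomial IsDedekindDomain WithZero MeasureTheory
open scoped RestrictedProduct

namespace Pool.Agent.Helper37.LL

export Spec (IsSmooth Irrep Irr RepIso Place val)

/-! ### Smooth representations of topological groups -/

section reps

variable {G : Type} [Group G] [TopologicalSpace G]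

/-- Isomorphism of irreducible smooth representations. -/
def Spec.Irrep.Iso (σ τ : Irrep G) : Prop := RepIso σ.ρ τ.ρ

lemma Spec.Irrep.Iso.symm {σ τ : Irrep G} (h : σ.Iso τ) : τ.Iso σ := by
  obtain ⟨e, he⟩ := h
  refine ⟨e.symm, fun g x => ?_⟩
  rw [LinearEquiv.symm_apply_eq, he, LinearEquiv.apply_symm_apply]

lemma Spec.Irrep.Iso.trans {σ τ υ : Irrep G} (h : σ.Iso τ) (h' : τ.Iso υ) : σ.Iso υ := by
  obtain ⟨e, he⟩ := h
  obtain ⟨e', he'⟩ := h'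
  refine ⟨e.trans e', fun g x => ?_⟩
  rw [LinearEquiv.trans_apply, LinearEquiv.trans_apply, he, he']

lemma cls_eq_iff {σ τ : Irrep G} : σ.cls = τ.cls ↔ σ.Iso τ := by
  constructor
  · intro h
    have heq : Equivalence (fun σ τ : Irrep G => σ.Iso τ) :=
      ⟨fun σ => ⟨LinearEquiv.refl ℂ σ.V, fun _ _ => rfl⟩, fun h => h.symm,
        fun h h' => h.trans h'⟩
    exact (Quot.eq.1 h).rec (fun _ _ h => h) (fun _ => heq.refl _) (fun _ _ _ h => h.symm)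
      (fun _ _ _ _ _ h h' => h.trans h')
  · exact fun h => Quot.sound h

end reps

/-! ### The global field `K = 𝔽(T)`, its places and completions -/

section field

variable (𝔽 : Type) [Field 𝔽]

/-- The completion `K_v` of `K` with respect to the valuation `val 𝔽 v`; its valuation is
`Valued.v`. -/
def Kv (v : Place 𝔽) : Type := (val 𝔽 v).Completion

noncomputable instance (v : Place 𝔽) : Field (Kv 𝔽 v) :=
  inferInstanceAs (Field (val 𝔽 v).Completion)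

noncomputable instance (v : Place 𝔽) : Valued (Kv 𝔽 v) ℤᵐ⁰ :=
  inferInstanceAs (Valued (val 𝔽 v).Completion ℤᵐ⁰)

/-- The embedding `K → K_v`. -/
noncomputable def emb (v : Place 𝔽) : RatFunc 𝔽 →+* Kv 𝔽 v :=
  (UniformSpace.Completion.coeRingHom : WithVal (val 𝔽 v) →+* (val 𝔽 v).Completion).comp
    (WithVal.equiv (val 𝔽 v)).symm.toRingHom

/-- The valuation of `K_v`. -/
noncomputable abbrev vv (v : Place 𝔽) : Valuation (Kv 𝔽 v) ℤᵐ⁰ := Valued.v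

lemma vv_emb (v : Place 𝔽) (x : RatFunc 𝔽) : vv 𝔽 v (emb 𝔽 v x) = val 𝔽 v x := by
  show Valued.v (((WithVal.equiv (val 𝔽 v)).symm x : WithVal (val 𝔽 v)) :
    (val 𝔽 v).Completion) = _
  rw [Valued.valuedCompletion_apply]
  rfl

/-- an element of `K` is integral at almost all places -/
lemma finite_not_integral (x : RatFunc 𝔽) : {v : Place 𝔽 | ¬ val 𝔽 v x ≤ 1}.Finite := by
  have h := HeightOneSpectrum.Support.finite 𝔽[X] x
  refine ((h.image some).insert none).subset ?_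
  rintro (_ | P) hP
  · exact Set.mem_insert _ _
  · refine Set.mem_insert_of_mem _ ⟨P, ?_, rfl⟩
    exact not_le.1 hP

end field

/-! ### Adelic groups -/

section adelic

variable (𝔽 : Type) [Field 𝔽]

/-- `GL₂(K_v)` -/
abbrev GLv (v : Place 𝔽) : Type := GL (Fin 2) (Kv 𝔽 v)

/-- `GL₂(O_v)` -/
noncomputable abbrev GLO (v : Place 𝔽) : Subgroup (GLv 𝔽 v) := KO (vv 𝔽 v)

/-- `GL₂(𝔸_K)`, the restricted product of the `GL₂(K_v)` with respect to the `GL₂(O_v)`. -/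
abbrev GA : Type := Πʳ v : Place 𝔽, [GLv 𝔽 v, GLO 𝔽 v]

/-- The adele ring `𝔸_K`. -/
abbrev Adele : Type := Πʳ v : Place 𝔽, [Kv 𝔽 v, (vv 𝔽 v).integer]

/-- units of `O_v` -/
noncomputable abbrev OU (v : Place 𝔽) : Subgroup (Kv 𝔽 v)ˣ :=
  (vv 𝔽 v).integer.toSubmonoid.units

lemma mem_OU {v : Place 𝔽} {x : (Kv 𝔽 v)ˣ} : x ∈ OU 𝔽 v ↔ vv 𝔽 v x = 1 := by
  have hx : vv 𝔽 v (x : Kv 𝔽 v) ≠ 0 := (Valuation.ne_zero_iff _).2 x.ne_zero
  constructor
  · rintro ⟨h2, h3⟩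
    have h3' : vv 𝔽 v (((x⁻¹ : (Kv 𝔽 v)ˣ)) : Kv 𝔽 v) ≤ 1 := h3
    rw [Units.val_inv_eq_inv_val, map_inv₀] at h3'
    refine le_antisymm h2 ?_
    by_contra hlt
    rw [not_le] at hlt
    exact absurd h3' (not_le.2 ((one_lt_inv₀ (zero_lt_iff.2 hx)).2 hlt))
  · intro h2
    refine ⟨h2.le, ?_⟩
    show vv 𝔽 v (((x⁻¹ : (Kv 𝔽 v)ˣ)) : Kv 𝔽 v) ≤ 1
    rw [Units.val_inv_eq_inv_val, map_inv₀, h2, inv_one]

/-- The idele group `𝔸_K^×`, the restricted product of the `K_v^×` with respect to `O_v^×`. -/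
abbrev Idele : Type := Πʳ v : Place 𝔽, [(Kv 𝔽 v)ˣ, OU 𝔽 v]

lemma emb_integral (x : RatFunc 𝔽) :
    ∀ᶠ v : Place 𝔽 in Filter.cofinite, vv 𝔽 v (emb 𝔽 v x) ≤ 1 := by
  rw [Filter.eventually_cofinite]
  simp only [vv_emb]
  exact finite_not_integral 𝔽 x

/-- The diagonal embedding `K → 𝔸_K`. -/
noncomputable def Kdiag : RatFunc 𝔽 →+* Adele 𝔽 where
  toFun x := ⟨fun v => emb 𝔽 v x, emb_integral 𝔽 x⟩
  map_one' := by ext v : 1; exact map_one (emb 𝔽 v)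
  map_mul' x y := by ext v : 1; exact map_mul (emb 𝔽 v) x y
  map_zero' := by ext v : 1; exact map_zero (emb 𝔽 v)
  map_add' x y := by ext v : 1; exact map_add (emb 𝔽 v) x y

/-- The diagonal embedding `GL₂(K) → GL₂(𝔸_K)`. -/
noncomputable def Gdiag : GL (Fin 2) (RatFunc 𝔽) →* GA 𝔽 where
  toFun γ := ⟨fun v => Matrix.GeneralLinearGroup.map (emb 𝔽 v) γ, by
    have h : ∀ γ : GL (Fin 2) (RatFunc 𝔽), ∀ᶠ v : Place 𝔽 in Filter.cofinite,
        ∀ i j, vv 𝔽 v (emb 𝔽 v (γ i j)) ≤ 1 := by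
      intro γ
      rw [Filter.eventually_all]
      intro i
      rw [Filter.eventually_all]
      intro j
      exact emb_integral 𝔽 _
    filter_upwards [h γ, h γ⁻¹] with v h1 h2
    refine (mem_KO _).2 ⟨fun i j => ?_, fun i j => ?_⟩
    · rw [Matrix.GeneralLinearGroup.map_apply]; exact h1 i j
    · rw [← map_inv, Matrix.GeneralLinearGroup.map_apply]; exact h2 i j⟩
  map_one' := by ext v : 1; exact map_one (Matrix.GeneralLinearGroup.map (emb 𝔽 v))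
  map_mul' x y := by ext v : 1; exact map_mul (Matrix.GeneralLinearGroup.map (emb 𝔽 v)) x y

/-- The diagonal embedding `K^× → 𝔸_K^×`. -/
noncomputable def Idiag : (RatFunc 𝔽)ˣ →* Idele 𝔽 where
  toFun x := ⟨fun v => Units.map (emb 𝔽 v : RatFunc 𝔽 →* Kv 𝔽 v) x, by
    filter_upwards [emb_integral 𝔽 (x : RatFunc 𝔽),
      emb_integral 𝔽 ((x⁻¹ : (RatFunc 𝔽)ˣ) : RatFunc 𝔽)] with v h1 h2
    exact ⟨h1, h2⟩⟩
  map_one' := by ext v : 1; exact map_one (Units.map (emb 𝔽 v : RatFunc 𝔽 →* Kv 𝔽 v))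
  map_mul' x y := by ext v : 1; exact map_mul (Units.map (emb 𝔽 v : RatFunc 𝔽 →* Kv 𝔽 v)) x y

open Classical in
/-- The embedding of `GL₂(K_v)` as a factor of `GL₂(𝔸_K)`. -/
noncomputable def inc (v : Place 𝔽) : GLv 𝔽 v →* GA 𝔽 where
  toFun h := RestrictedProduct.mulSingle (fun v : Place 𝔽 => GLO 𝔽 v) v h
  map_one' := RestrictedProduct.mulSingle_one (fun v : Place 𝔽 => GLO 𝔽 v) v
  map_mul' r s := RestrictedProduct.mulSingle_mul (fun v : Place 𝔽 => GLO 𝔽 v) v r s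

open Classical in
/-- The embedding of `K_v^×` as a factor of `𝔸_K^×`. -/
noncomputable def incI (v : Place 𝔽) : (Kv 𝔽 v)ˣ →* Idele 𝔽 where
  toFun h := RestrictedProduct.mulSingle (fun v : Place 𝔽 => OU 𝔽 v) v h
  map_one' := RestrictedProduct.mulSingle_one (fun v : Place 𝔽 => OU 𝔽 v) v
  map_mul' r s := RestrictedProduct.mulSingle_mul (fun v : Place 𝔽 => OU 𝔽 v) v r s

/-- The unipotent matrix `(1 x; 0 1)`, `x ∈ 𝔸_K`, in `GL₂(𝔸_K)`. -/
noncomputable def unip (x : Adele 𝔽) : GA 𝔽 :=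
  ⟨fun v => mk2 1 (x v) 0 1 (by simp), by
    filter_upwards [x.2] with v hv
    exact mk2_mem_KO _ (by simp) hv (by simp) (by simp) (by simp)⟩

/-! ### Automorphic forms -/

/-- The right regular representation `(rt h φ)(g) = φ(g h)` on all functions on `GL₂(𝔸_K)`. -/
noncomputable def rt : Representation ℂ (GA 𝔽) (GA 𝔽 → ℂ) where
  toFun h :=
    { toFun := fun φ g => φ (g * h)
      map_add' := fun _ _ => rfl
      map_smul' := fun _ _ => rfl }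
  map_one' := by
    apply LinearMap.ext
    intro φ
    funext g
    show φ (g * 1) = φ g
    rw [mul_one]
  map_mul' h h' := by
    apply LinearMap.ext
    intro φ
    funext g
    show φ (g * (h * h')) = φ (g * h * h')
    rw [mul_assoc]

variable {𝔽}

/-- The span of the translates of `φ` by `GL₂(K_v)`. -/
def localSpan (v : Place 𝔽) (φ : GA 𝔽 → ℂ) : Submodule ℂ (GA 𝔽 → ℂ) :=
  Submodule.span ℂ (Set.range fun h : GLv 𝔽 v => rt 𝔽 (inc 𝔽 v h) φ)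

/-- Automorphic forms on `GL₂(𝔸_K)` (Borel-Jacquet): functions that are left invariant under
`GL₂(K)`, right invariant under an open subgroup, and such that for some place `v` the
representation of `GL₂(K_v)` generated by the function is admissible, i.e. for each open subgroup
`U` of `GL₂(K_v)` its subspace of `U`-fixed vectors is finite dimensional. -/
def IsAutForm (φ : GA 𝔽 → ℂ) : Prop :=
  (∀ γ g, φ (Gdiag 𝔽 γ * g) = φ g) ∧
  (∃ U : Subgroup (GA 𝔽), IsOpen (U : Set (GA 𝔽)) ∧ ∀ u ∈ U, rt 𝔽 u φ = φ) ∧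
  ∃ v : Place 𝔽, ∀ U : Subgroup (GLv 𝔽 v), IsOpen (U : Set (GLv 𝔽 v)) →
    FiniteDimensional ℂ
      (Submodule.span ℂ {ψ | ψ ∈ localSpan v φ ∧ ∀ u ∈ U, rt 𝔽 (inc 𝔽 v u) ψ = ψ})

/-- Cusp forms: automorphic forms whose constant term `∫_{𝔸/K} φ((1 x; 0 1) g) dx` vanishes for
all `g`, the integral being taken with respect to Haar measure on the compact group `𝔸_K / K`. -/
def IsCuspForm (φ : GA 𝔽 → ℂ) : Prop :=
  IsAutForm φ ∧
  ∀ μ : @Measure (Adele 𝔽 ⧸ (Kdiag 𝔽).range.toAddSubgroup) (borel _),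
    @Measure.IsAddHaarMeasure _ _ _ (borel _) μ →
    ∀ g, @integral _ _ _ _ (borel _) μ
      (fun x : Adele 𝔽 ⧸ (Kdiag 𝔽).range.toAddSubgroup => φ (unip 𝔽 x.out * g)) = 0

/-- `π` is a quotient of a subrepresentation `W` of the space of functions, all of whose elements
have the property `C`. -/
def IsSubquotientOf (C : (GA 𝔽 → ℂ) → Prop) (π : Irrep (GA 𝔽)) : Prop :=
  ∃ W : Submodule ℂ (GA 𝔽 → ℂ), (∀ φ ∈ W, C φ) ∧ (∀ h, ∀ φ ∈ W, rt 𝔽 h φ ∈ W) ∧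
    ∃ p : W →ₗ[ℂ] π.V, Function.Surjective p ∧
      ∀ h (φ ψ : W), (ψ : GA 𝔽 → ℂ) = rt 𝔽 h φ → p ψ = π.ρ h (p φ)

/-- Automorphic representations of `GL₂(𝔸_K)`: irreducible subquotients of the space of
automorphic forms. -/
def IsAutomorphic (π : Irrep (GA 𝔽)) : Prop := IsSubquotientOf IsAutForm π

/-- Cuspidal automorphic representations of `GL₂(𝔸_K)`. -/
def IsCuspidal (π : Irrep (GA 𝔽)) : Prop := IsSubquotientOf IsCuspForm π

/-! ### Local components -/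

/-- `σ` is the local component of `π` at `v`: it embeds in the restriction of `π` to
`GL₂(K_v)`. -/
def IsLocalComponent (π : Irrep (GA 𝔽)) (v : Place 𝔽) (σ : Irrep (GLv 𝔽 v)) : Prop :=
  ∃ j : σ.V →ₗ[ℂ] π.V, Function.Injective j ∧ ∀ h x, j (σ.ρ h x) = π.ρ (inc 𝔽 v h) (j x)

/-- unramified: there is a nonzero vector fixed by `GL₂(O_v)` -/
def IsUnramified {v : Place 𝔽} (σ : Irrep (GLv 𝔽 v)) : Prop :=
  ∃ x : σ.V, x ≠ 0 ∧ ∀ k ∈ GLO 𝔽 v, σ.ρ k x = x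

/-! ### Isobaric sums of characters -/

variable (𝔽) in
/-- A Hecke (quasi-)character: a continuous homomorphism `𝔸_K^× → ℂ^×` trivial on `K^×`, i.e. an
automorphic representation of `GL₁(𝔸_K)`. -/
structure HeckeChar where
  /-- the homomorphism -/
  χ : Idele 𝔽 →* ℂˣ
  cont : Continuous χ
  triv : ∀ x, χ (Idiag 𝔽 x) = 1

/-- local component of a Hecke character -/
noncomputable def HeckeChar.loc (χ : HeckeChar 𝔽) (v : Place 𝔽) : (Kv 𝔽 v)ˣ →* ℂˣ :=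
  χ.χ.comp (incI 𝔽 v)

/-- cardinality of the residue field at `v` -/
noncomputable def qv (v : Place 𝔽) : ℕ := Spec.qv 𝔽 v

/-- the normalised absolute value of `K_v` on `K_v^×` -/
noncomputable def nrm (v : Place 𝔽) (x : (Kv 𝔽 v)ˣ) : ℝ :=
  (qv v : ℝ) ^ (WithZero.log (vv 𝔽 v (x : Kv 𝔽 v)))

/-- The (normalised) principal series `I(χ₁, χ₂)` of `GL₂(K_v)`: functions `φ`, right invariant
under an open subgroup, with `φ((a b; 0 d) g) = χ₁(a) χ₂(d) |a/d|^{1/2} φ(g)`. -/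
def principalSeries {v : Place 𝔽} (χ₁ χ₂ : (Kv 𝔽 v)ˣ →* ℂˣ) : Set (GLv 𝔽 v → ℂ) :=
  {φ | (∃ U : Subgroup (GLv 𝔽 v), IsOpen (U : Set (GLv 𝔽 v)) ∧ ∀ u ∈ U, ∀ g, φ (g * u) = φ g) ∧
    ∀ (a d : (Kv 𝔽 v)ˣ) (b : Kv 𝔽 v) (g : GLv 𝔽 v),
      φ (mk2 (a : Kv 𝔽 v) b 0 d (by simp) * g) =
        χ₁ a * χ₂ d * (Real.sqrt (nrm v a / nrm v d) : ℂ) * φ g}

/-- `σ` embeds in the principal series `I(χ₁, χ₂)`. -/
def EmbedsInPS {v : Place 𝔽} (σ : Irrep (GLv 𝔽 v)) (χ₁ χ₂ : (Kv 𝔽 v)ˣ →* ℂˣ) : Prop :=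
  ∃ j : σ.V →ₗ[ℂ] (GLv 𝔽 v → ℂ), Function.Injective j ∧ (∀ x, j x ∈ principalSeries χ₁ χ₂) ∧
    ∀ h x g, j (σ.ρ h x) g = j x (g * h)

/-- `|χ₁| = |·|^{s₁}`, `|χ₂| = |·|^{s₂}` with `s₁ ≥ s₂`. -/
def ExpGE {v : Place 𝔽} (χ₁ χ₂ : (Kv 𝔽 v)ˣ →* ℂˣ) : Prop :=
  ∀ x : (Kv 𝔽 v)ˣ, vv 𝔽 v (x : Kv 𝔽 v) ≤ 1 → ‖(χ₁ x : ℂ)‖ ≤ ‖(χ₂ x : ℂ)‖

/-- `σ = χ₁ ⊞ χ₂` (local isobaric sum, Langlands quotient): if `s₁ ≥ s₂` it is the unique
irreducible subrepresentation of `I(χ₂, χ₁)` (equivalently the unique irreducible quotient of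
`I(χ₁, χ₂)`), and if `s₂ ≥ s₁` the roles are exchanged. -/
def IsLocalIsobaricSum {v : Place 𝔽} (χ₁ χ₂ : (Kv 𝔽 v)ˣ →* ℂˣ) (σ : Irrep (GLv 𝔽 v)) : Prop :=
  (ExpGE χ₁ χ₂ ∧ EmbedsInPS σ χ₂ χ₁) ∨ (ExpGE χ₂ χ₁ ∧ EmbedsInPS σ χ₁ χ₂)

/-- Isobaric automorphic representations of `GL₂(𝔸_K)`: the cuspidal ones and the isobaric sums
`χ₁ ⊞ χ₂` of two Hecke characters, whose local components are the local isobaric sums. -/
def IsIsobaric (π : Irrep (GA 𝔽)) : Prop :=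
  IsCuspidal π ∨ (IsAutomorphic π ∧ ∃ χ₁ χ₂ : HeckeChar 𝔽, ∀ v, ∃ σ : Irrep (GLv 𝔽 v),
    IsLocalComponent π v σ ∧ IsLocalIsobaricSum (χ₁.loc v) (χ₂.loc v) σ)

/-- `π'` is a global lifting of `π` for `ρ = id : GL₂(ℂ) → GL₂(ℂ)`: it is isobaric, and at each
place where `π` is unramified, the local component of `π'` is that of `π`. -/
def IsGlobalLifting (π π' : Irrep (GA 𝔽)) : Prop :=
  IsIsobaric π' ∧ ∀ (v : Place 𝔽) (σ : Irrep (GLv 𝔽 v)), IsLocalComponent π v σ →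
    IsUnramified σ → IsLocalComponent π' v σ

variable (𝔽) in
/-- `l : Irr(GL₂(F)) → Irr(GL₂(F))`, `F = K_∞ = 𝔽((1/T))`, predicts the components at `∞` of the
global liftings (for `ρ = id`) of all automorphic representations of `GL₂(𝔸_K)`. -/
def PredictsLiftings (l : Irr (GLv 𝔽 none) → Irr (GLv 𝔽 none)) : Prop :=
  ∀ π π' : Irrep (GA 𝔽), IsAutomorphic π → IsGlobalLifting π π' →
    ∀ σ τ : Irrep (GLv 𝔽 none), IsLocalComponent π none σ → IsLocalComponent π' none τ →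
      l σ.cls = τ.cls

end adelic

end Pool.Agent.Helper37.LL
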