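import Pool.Agent.Helper37.LL.Sec

/-!
# Degrees and the product formula for `𝔽(T)`
-/

set_option autoImplicit false

open Polynomial IsDedekindDomain WithZero Topology
open scoped RestrictedProduct

namespace Pool.Agent.Helper37.LL

section

variable {𝔽 : Type} [Field 𝔽]

/-- degree of a place -/
noncomputable def dgr : Place 𝔽 → ℤ
  | none => 1
  | some P => ((gen P).natDegree : ℤ)

lemma dgr_pos (v : Place 𝔽) : 0 < dgr v := by
  rcases v with _ | P
  · show (0 : ℤ) < 1; norm_num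
  · show (0 : ℤ) < ((gen P).natDegree : ℤ)
    exact_mod_cast gen_natDegree_pos P

lemma finite_not_unit {x : RatFunc 𝔽} (hx : x ≠ 0) : {v : Place 𝔽 | val 𝔽 v x ≠ 1}.Finite := by
  refine ((finite_not_integral 𝔽 x).union (finite_not_integral 𝔽 x⁻¹)).subset ?_
  intro v hv
  by_contra h
  rw [Set.mem_union, not_or] at h
  obtain ⟨h1, h2⟩ := h
  rw [Set.mem_ofPred_eq, not_not] at h1 h2
  apply hv
  refine le_antisymm h1 ?_
  rw [map_inv₀] at h2
  by_contra hlt
  rw [not_le] at hlt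
  have hne : val 𝔽 v x ≠ 0 := (Valuation.ne_zero_iff _).2 hx
  exact absurd h2 (not_le.2 ((one_lt_inv₀ (zero_lt_iff.2 hne)).2 hlt))

/-- total degree of an element of `K` -/
noncomputable def kdeg (x : RatFunc 𝔽) : ℤ := ∑ᶠ v : Place 𝔽, dgr v * log (val 𝔽 v x)

lemma kdeg_supp {x : RatFunc 𝔽} (hx : x ≠ 0) :
    (Function.support fun v : Place 𝔽 => dgr v * log (val 𝔽 v x)).Finite := by
  refine (finite_not_unit hx).subset ?_
  intro v hv h
  apply hv
  simp only
  rw [h, log_one, mul_zero]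

lemma kdeg_mul {x y : RatFunc 𝔽} (hx : x ≠ 0) (hy : y ≠ 0) : kdeg (x * y) = kdeg x + kdeg y := by
  rw [kdeg, kdeg, kdeg, ← finsum_add_distrib (kdeg_supp hx) (kdeg_supp hy)]
  refine finsum_congr (fun v => ?_)
  rw [map_mul, log_mul ((Valuation.ne_zero_iff _).2 hx) ((Valuation.ne_zero_iff _).2 hy), mul_add]

lemma kdeg_pl {a : 𝔽[X]} (ha : a ≠ 0) : kdeg (pl a) = 0 := by
  induction a using UniqueFactorizationMonoid.induction_on_prime with
  | h₁ => exact absurd rfl ha
  | h₂ a hu =>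
    obtain ⟨c, hc, rfl⟩ := Polynomial.isUnit_iff.1 hu
    have : ∀ v : Place 𝔽, dgr v * log (val 𝔽 v (pl (C c))) = 0 := by
      intro v
      have h1 : val 𝔽 v (pl (C c)) = 1 := by
        rcases v with _ | P
        · rw [val_inf_pl ha]; simp
        · refine le_antisymm (val_fin_pl_le P _) ?_
          by_contra hlt
          rw [not_le, val_fin_pl_lt_iff] at hlt
          exact (gen_prime P).not_isUnit (isUnit_of_dvd_unit hlt hu)
      rw [h1, log_one, mul_zero]
    rw [kdeg, finsum_congr this, finsum_zero]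
  | h₃ a p ha0 hp ih =>
    have h1 : pl (p * a) = pl p * pl a := map_mul _ _ _
    rw [h1, kdeg_mul (pl_ne hp.ne_zero) (pl_ne ha0), ih ha0, add_zero]
    -- the place of p
    have hprime : (Ideal.span {p}).IsPrime := (Ideal.span_singleton_prime hp.ne_zero).2 hp
    let P : HeightOneSpectrum 𝔽[X] := ⟨Ideal.span {p}, hprime, by
      rw [Ne, Ideal.span_singleton_eq_bot]; exact hp.ne_zero⟩
    have hass : Associated (gen P) p := by
      rw [← Ideal.span_singleton_eq_span_singleton, ← gen_span P]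
    have hnat : (gen P).natDegree = p.natDegree :=
      Polynomial.natDegree_eq_of_degree_eq (Polynomial.degree_eq_degree_of_associated hass)
    have hvP : val 𝔽 (some P) (pl p) = exp (-1) := by
      show P.valuation (RatFunc 𝔽) (algebraMap _ _ p) = _
      rw [HeightOneSpectrum.valuation_of_algebraMap]
      exact P.intValuation_singleton hp.ne_zero rfl
    have hvQ : ∀ Q : HeightOneSpectrum 𝔽[X], Q ≠ P → val 𝔽 (some Q) (pl p) = 1 := by
      intro Q hQ
      show Q.valuation (RatFunc 𝔽) (algebraMap _ _ p) = 1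
      rw [HeightOneSpectrum.valuation_eq_one_iff_notMem]
      intro hmem
      apply hQ
      have h1 : P.asIdeal ≤ Q.asIdeal := by
        show Ideal.span {p} ≤ _
        rw [Ideal.span_singleton_le_iff_mem]; exact hmem
      exact (HeightOneSpectrum.ext ((P.isMaximal).eq_of_le Q.isPrime.ne_top h1)).symm
    classical
    have hsupp : (Function.support fun v : Place 𝔽 => dgr v * log (val 𝔽 v (pl p))) ⊆
        (({none, some P} : Finset (Place 𝔽)) : Set (Place 𝔽)) := by
      intro v hv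
      by_contra hv'
      apply hv
      simp only
      rcases v with _ | Q
      · simp at hv'
      · have hQ : Q ≠ P := by
          rintro rfl
          simp at hv'
        rw [hvQ Q hQ, log_one, mul_zero]
    rw [kdeg, finsum_eq_finsetSum_of_support_subset _ hsupp, Finset.sum_pair (by simp), hvP,
      val_inf_pl hp.ne_zero, log_exp, log_exp]
    show (1 : ℤ) * (p.natDegree : ℤ) + ((gen P).natDegree : ℤ) * (-1) = 0
    rw [hnat]; ring

/-- The product formula. -/
theorem product_formula {x : RatFunc 𝔽} (hx : x ≠ 0) : kdeg x = 0 := by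
  have hn : x.num ≠ 0 := RatFunc.num_ne_zero hx
  have hd : x.denom ≠ 0 := x.denom_ne_zero
  have h1 : x * pl x.denom = pl x.num := by
    have := RatFunc.num_div_denom x
    rw [div_eq_iff (pl_ne hd)] at this
    exact this.symm
  have h2 := kdeg_mul hx (pl_ne hd)
  rw [h1, kdeg_pl hn, kdeg_pl hd, add_zero] at h2
  exact h2.symm

/-! ### degrees of adelic matrices -/

/-- degree of (the determinant of) an adelic matrix -/
noncomputable def gdeg (g : GA 𝔽) : ℤ := ∑ᶠ v : Place 𝔽, dgr v * log (vv 𝔽 v (dt (g v)))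

lemma finite_not_GLO (g : GA 𝔽) : {v : Place 𝔽 | g v ∉ GLO 𝔽 v}.Finite := by
  have := g.2
  rw [Filter.eventually_cofinite] at this
  exact this

lemma gdeg_supp (g : GA 𝔽) :
    (Function.support fun v : Place 𝔽 => dgr v * log (vv 𝔽 v (dt (g v)))).Finite := by
  refine (finite_not_GLO g).subset ?_
  intro v hv h
  apply hv
  simp only
  rw [((mem_KO_iff _).1 h).2, log_one, mul_zero]

lemma gdeg_mul (g h : GA 𝔽) : gdeg (g * h) = gdeg g + gdeg h := by
  rw [gdeg, gdeg, gdeg, ← finsum_add_distrib (gdeg_supp g) (gdeg_supp h)]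
  refine finsum_congr (fun v => ?_)
  rw [RestrictedProduct.mul_apply, dt_mul, map_mul, log_mul ((Valuation.ne_zero_iff _).2 (dt_ne _))
    ((Valuation.ne_zero_iff _).2 (dt_ne _)), mul_add]

lemma dt_Gdiag (γ : GL (Fin 2) (RatFunc 𝔽)) (v : Place 𝔽) :
    dt (Gdiag 𝔽 γ v) = emb 𝔽 v (dt γ) := by
  rw [dt, dt, map_sub, map_mul, map_mul]
  rfl

lemma gdeg_diag (γ : GL (Fin 2) (RatFunc 𝔽)) : gdeg (Gdiag 𝔽 γ) = 0 := by
  rw [← product_formula (dt_ne γ), gdeg, kdeg]
  refine finsum_congr (fun v => ?_)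
  rw [dt_Gdiag, vv_emb]

lemma gdeg_right (g k : GA 𝔽) (hk : ∀ v, k v ∈ GLO 𝔽 v) : gdeg (g * k) = gdeg g := by
  rw [gdeg_mul, gdeg]
  have : gdeg k = 0 := by
    rw [gdeg, ← finsum_zero (α := Place 𝔽)]
    refine finsum_congr (fun v => ?_)
    rw [((mem_KO_iff _).1 (hk v)).2, log_one, mul_zero]
  rw [this, add_zero]

lemma gdeg_inc (v : Place 𝔽) (h : GLv 𝔽 v) : gdeg (inc 𝔽 v h) = dgr v * log (vv 𝔽 v (dt h)) := by
  rw [gdeg, finsum_eq_single _ v, inc_apply_same]
  intro w hw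
  rw [inc_apply_ne 𝔽 hw, dt_one, map_one, log_one, mul_zero]

lemma gdeg_left (γ : GL (Fin 2) (RatFunc 𝔽)) (g : GA 𝔽) : gdeg (Gdiag 𝔽 γ * g) = gdeg g := by
  rw [gdeg_mul, gdeg_diag, zero_add]

lemma gdeg_term {g : GA 𝔽} {v : Place 𝔽} (h : vv 𝔽 v (dt (g v)) ≤ 1) :
    dgr v * log (vv 𝔽 v (dt (g v))) ≤ 0 := by
  refine mul_nonpos_of_nonneg_of_nonpos (dgr_pos v).le ?_
  have h0 : vv 𝔽 v (dt (g v)) ≠ 0 := (Valuation.ne_zero_iff _).2 (dt_ne _)
  rwa [← exp_log h0, ← exp_zero, exp_le_exp] at h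

lemma gdeg_le {g : GA 𝔽} (h : ∀ v, vv 𝔽 v (dt (g v)) ≤ 1) : gdeg g ≤ 0 := by
  rw [gdeg, finsum_eq_sum _ (gdeg_supp g)]
  exact Finset.sum_nonpos (fun v _ => gdeg_term (h v))

lemma gdeg_eq_zero {g : GA 𝔽} (h : ∀ v, vv 𝔽 v (dt (g v)) ≤ 1) (h0 : 0 ≤ gdeg g) (v : Place 𝔽) :
    vv 𝔽 v (dt (g v)) = 1 := by
  have h1 : gdeg g = 0 := le_antisymm (gdeg_le h) h0
  rw [gdeg, finsum_eq_sum _ (gdeg_supp g),
    Finset.sum_eq_zero_iff_of_nonpos (fun v _ => gdeg_term (h v))] at h1
  by_contra hne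
  have h2 : vv 𝔽 v (dt (g v)) ≠ 0 := (Valuation.ne_zero_iff _).2 (dt_ne _)
  have h3 : dgr v * log (vv 𝔽 v (dt (g v))) ≠ 0 := by
    refine mul_ne_zero (dgr_pos v).ne' ?_
    intro h4
    apply hne
    rw [← exp_log h2, h4, exp_zero]
  have h5 : v ∈ (gdeg_supp g).toFinset := by
    rw [Set.Finite.mem_toFinset]; exact h3
  exact h3 (h1 v h5)

end

end Pool.Agent.Helper37.LL
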