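import Pool.Agent.Helper37.LL.RR2

/-!
# The explicit harmonic function on the edges of the tree modulo `GL₂(𝔽[T])`, adelically
-/

set_option autoImplicit false


open Polynomial IsDedekindDomain WithZero Topology
open scoped RestrictedProduct

namespace Pool.Agent.Helper37.LL

section

variable {𝔽 : Type} [Field 𝔽] [Finite 𝔽]

lemma H_ne_bot {g : GA 𝔽} (h : -1 ≤ gdeg g) : H g ≠ ⊥ := by
  intro h0
  have h1 := RR_all g 1 (by push_cast; omega)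
  rw [pow_one, NH, h0] at h1
  have h2 : Nat.card (⊥ : AddSubgroup (Fin 2 → RatFunc 𝔽)) = 1 := by simp
  rw [h2] at h1
  have h3 : 1 < Nat.card 𝔽 := Finite.one_lt_card
  omega

lemma H_le_of_int {g : GA 𝔽} {v : Place 𝔽} {h : GLv 𝔽 v} (hh : ∀ i j, vv 𝔽 v (h i j) ≤ 1) :
    H (g * inc 𝔽 v h) ≤ H g := by
  intro x hx
  rw [mem_H_mul_inc] at hx
  rw [mem_H]
  intro w
  by_cases hw : w = v
  · subst hw
    have h1 := intg_app hh hx.2
    rwa [← app_mul, mul_inv_cancel, app_one] at h1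
  · exact hx.1 w hw

/-- the element `(0 1; ϖ 0)` at infinity -/
noncomputable def wi : GA 𝔽 := inc 𝔽 none (par (𝔽 := 𝔽) none).w

lemma wi_mul_wi : (wi : GA 𝔽) * wi = zi 1 := by
  rw [wi, zi, ← map_mul, Par.w_mul_w]

lemma dt_w {F : Type*} [Field F] {v : Valuation F ℤᵐ⁰} (P : Par v) : dt P.w = -P.ϖ := by
  simp [dt, Par.w]

lemma gdeg_zi (m : ℤ) : gdeg (zi m : GA 𝔽) = -2 * m := by
  rw [zi, gdeg_inc]
  have h1 : dt ((par (𝔽 := 𝔽) none).z m) = (par (𝔽 := 𝔽) none).ϖ ^ (2 * m) := by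
    simp only [dt, Par.z, mk2_00, mk2_11, mk2_01, mk2_10, mul_zero, sub_zero]
    rw [← zpow_add₀ (par (𝔽 := 𝔽) none).ne]; congr 1; ring
  rw [h1, (par (𝔽 := 𝔽) none).v_zpow, log_exp]
  show (1 : ℤ) * _ = _
  ring

lemma gdeg_wi : gdeg (wi : GA 𝔽) = -1 := by
  rw [wi, gdeg_inc, dt_w, Valuation.map_neg, (par (𝔽 := 𝔽) none).hϖ, log_exp]
  show (1 : ℤ) * _ = _
  ring

lemma exists_MM (g : GA 𝔽) : ∃ M : ℤ, H (g * zi M) ≠ ⊥ ∧ H (g * zi (M + 1)) = ⊥ := by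
  obtain ⟨m₀, hm₀⟩ := H_vanish g
  have hne : ∃ m : ℤ, H (g * zi m) ≠ ⊥ := by
    refine ⟨-(|gdeg g| + 1), H_ne_bot ?_⟩
    rw [gdeg_mul, gdeg_zi]
    have := neg_abs_le (gdeg g)
    have := abs_nonneg (gdeg g)
    omega
  obtain ⟨M, hM, hM'⟩ := Int.exists_greatest_of_bdd (P := fun m => H (g * zi m) ≠ ⊥)
    ⟨m₀, fun m hm => by
      by_contra h
      exact hm (hm₀ m (by omega))⟩ hne
  refine ⟨M, hM, ?_⟩
  by_contra h
  have := hM' _ h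
  omega

/-- maximal degree of a sub line bundle -/
noncomputable def MM (g : GA 𝔽) : ℤ := (exists_MM g).choose

lemma MM_spec (g : GA 𝔽) : H (g * zi (MM g)) ≠ ⊥ ∧ H (g * zi (MM g + 1)) = ⊥ :=
  (exists_MM g).choose_spec

lemma MM_eq {g : GA 𝔽} {m : ℤ} (h1 : H (g * zi m) ≠ ⊥) (h2 : H (g * zi (m + 1)) = ⊥) :
    MM g = m := by
  obtain ⟨h3, h4⟩ := MM_spec g
  rcases lt_trichotomy (MM g) m with h | h | h
  · exfalso
    apply h1
    rw [eq_bot_iff, ← h4]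
    exact H_anti g (by omega)
  · exact h
  · exfalso
    apply h3
    rw [eq_bot_iff, ← h2]
    exact H_anti g (by omega)

lemma exists_ne {g : GA 𝔽} (h : H g ≠ ⊥) : ∃ x ∈ H g, x ≠ 0 := by
  obtain ⟨x, hx⟩ := AddSubgroup.ne_bot_iff_exists_ne_zero.1 h
  exact ⟨x.1, x.2, fun h => hx (Subtype.ext h)⟩

lemma ne_bot_of {g : GA 𝔽} {x : Fin 2 → RatFunc 𝔽} (hx : x ∈ H g) (hx0 : x ≠ 0) : H g ≠ ⊥ := by
  intro h
  rw [h, AddSubgroup.mem_bot] at hx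
  exact hx0 hx

lemma H_left_ne_bot (γ : GL (Fin 2) (RatFunc 𝔽)) (g : GA 𝔽) :
    H (Gdiag 𝔽 γ * g) ≠ ⊥ ↔ H g ≠ ⊥ := by
  have key : ∀ (γ : GL (Fin 2) (RatFunc 𝔽)) (g : GA 𝔽), H g ≠ ⊥ → H (Gdiag 𝔽 γ * g) ≠ ⊥ := by
    intro γ g h h0
    obtain ⟨x, hx, hx0⟩ := exists_ne h
    have h1 := (mem_H_left γ g x).2 hx
    rw [h0, AddSubgroup.mem_bot] at h1
    apply hx0
    have h2 : app γ⁻¹ (app γ x) = x := by rw [← app_mul, inv_mul_cancel, app_one]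
    rw [← h2, h1, app_zero]
  constructor
  · intro h
    have := key γ⁻¹ _ h
    rwa [← mul_assoc, ← map_mul, inv_mul_cancel, map_one, one_mul] at this
  · exact key γ g

lemma MM_left (γ : GL (Fin 2) (RatFunc 𝔽)) (g : GA 𝔽) : MM (Gdiag 𝔽 γ * g) = MM g := by
  obtain ⟨h3, h4⟩ := MM_spec g
  apply MM_eq
  · rw [mul_assoc, H_left_ne_bot]; exact h3
  · by_contra h
    rw [← ne_eq, mul_assoc, H_left_ne_bot] at h
    exact h h4

lemma MM_right (g k : GA 𝔽) (hk : ∀ v, k v ∈ GLO 𝔽 v) : MM (g * k) = MM g := by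
  obtain ⟨h3, h4⟩ := MM_spec g
  apply MM_eq
  · rw [mul_assoc, ← zi_comm, ← mul_assoc, H_right _ _ hk]; exact h3
  · rw [mul_assoc, ← zi_comm, ← mul_assoc, H_right _ _ hk]; exact h4

/-- the type (twice the slope defect) -/
noncomputable def nt (g : GA 𝔽) : ℤ := 2 * MM g - gdeg g

/-- the edge given by `g` points up -/
def up (g : GA 𝔽) : Prop := H (g * wi * zi (MM g)) ≠ ⊥

lemma gdeg_V (g : GA 𝔽) : gdeg (g * zi (MM g)) = -nt g := by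
  rw [gdeg_mul, gdeg_zi, nt]; ring

lemma nt_nonneg (g : GA 𝔽) : 0 ≤ nt g := by
  by_contra h
  apply H_ne_bot (g := g * zi (MM g + 1)) _ (MM_spec g).2
  rw [gdeg_mul, gdeg_zi]
  rw [nt] at h
  omega

lemma w_int (i j : Fin 2) : vv 𝔽 none ((par (𝔽 := 𝔽) none).w i j) ≤ 1 := by
  fin_cases i <;> fin_cases j
  · show vv 𝔽 none 0 ≤ 1
    simp
  · show vv 𝔽 none 1 ≤ 1
    simp
  · show vv 𝔽 none (par (𝔽 := 𝔽) none).ϖ ≤ 1
    exact (par (𝔽 := 𝔽) none).v_lt.le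
  · show vv 𝔽 none 0 ≤ 1
    simp

lemma H_wi_le (g : GA 𝔽) : H (g * wi) ≤ H g := H_le_of_int w_int

lemma MM_up {g : GA 𝔽} (h : up g) : MM (g * wi) = MM g := by
  apply MM_eq h
  rw [eq_bot_iff, ← (MM_spec g).2]
  have h1 : g * wi * zi (MM g + 1) = g * zi (MM g + 1) * wi := by
    rw [mul_assoc, ← zi_comm, ← mul_assoc]
  rw [h1]
  exact H_wi_le _

lemma MM_down {g : GA 𝔽} (h : ¬up g) : MM (g * wi) = MM g - 1 := by
  rw [up, not_not] at h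
  apply MM_eq
  · intro h0
    apply (MM_spec g).1
    rw [eq_bot_iff, ← h0]
    have h1 : g * zi (MM g) = g * wi * zi (MM g - 1) * wi := by
      have h2 : g * wi * zi (MM g - 1) * wi = g * (wi * wi) * zi (MM g - 1) := by
        rw [mul_assoc, zi_comm]; simp only [mul_assoc]
      rw [h2, wi_mul_wi, mul_assoc, ← zi_add]; simp
    rw [h1]
    exact H_wi_le _
  · rw [sub_add_cancel]; exact h

lemma nt_up {g : GA 𝔽} (h : up g) : nt (g * wi) = nt g + 1 := by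
  rw [nt, nt, MM_up h, gdeg_mul, gdeg_wi]; ring

lemma nt_down {g : GA 𝔽} (h : ¬up g) : nt (g * wi) = nt g - 1 := by
  rw [nt, nt, MM_down h, gdeg_mul, gdeg_wi]; ring

lemma up_wi {g : GA 𝔽} : up (g * wi) ↔ ¬up g := by
  have h2 : ∀ m : ℤ, g * wi * wi * zi m = g * zi (m + 1) := by
    intro m
    rw [mul_assoc g, wi_mul_wi, mul_assoc, ← zi_add, add_comm]
  constructor
  · intro h1 h
    rw [up, MM_up h, h2] at h1
    exact h1 (MM_spec g).2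
  · intro h
    rw [up, MM_down h, h2, sub_add_cancel]
    exact (MM_spec g).1

open Classical in
/-- The harmonic function. -/
noncomputable def FF (g : GA 𝔽) : ℂ :=
  if up g then 1 - (Nat.card 𝔽 : ℂ) ^ (nt g + 1) / ((Nat.card 𝔽 : ℂ) + 1)
  else (Nat.card 𝔽 : ℂ) ^ (nt g) / ((Nat.card 𝔽 : ℂ) + 1)

/-- Relations defining the harmonic function. -/
structure EisRel (φ : GA 𝔽 → ℂ) (c : ℂ) : Prop where
  left : ∀ γ g, φ (Gdiag 𝔽 γ * g) = φ g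
  fin : ∀ g k, (∀ v, k v ∈ GLO 𝔽 v) → k none = 1 → φ (g * k) = φ g
  iw : ∀ g, ∀ k ∈ Iw (vv 𝔽 none), φ (g * inc 𝔽 none k) = φ g
  w : ∀ g, φ (g * wi) = c - φ g
  sum : ∀ g, φ g + ∑ b ∈ (par (𝔽 := 𝔽) none).S, φ (g * inc 𝔽 none (nn b * ss)) = c

lemma nt_left (γ : GL (Fin 2) (RatFunc 𝔽)) (g : GA 𝔽) : nt (Gdiag 𝔽 γ * g) = nt g := by
  rw [nt, nt, MM_left, gdeg_left]

lemma nt_right (g k : GA 𝔽) (hk : ∀ v, k v ∈ GLO 𝔽 v) : nt (g * k) = nt g := by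
  rw [nt, nt, MM_right g k hk, gdeg_right g k hk]

lemma up_left (γ : GL (Fin 2) (RatFunc 𝔽)) (g : GA 𝔽) : up (Gdiag 𝔽 γ * g) ↔ up g := by
  rw [up, up, MM_left, mul_assoc, mul_assoc, H_left_ne_bot, ← mul_assoc]

lemma up_right (g k : GA 𝔽) (hk : ∀ v, k v ∈ GLO 𝔽 v) {k' : GA 𝔽} (hk' : ∀ v, k' v ∈ GLO 𝔽 v)
    (h : k * wi = wi * k') : up (g * k) ↔ up g := by
  rw [up, up, MM_right g k hk]
  have h1 : g * k * wi * zi (MM g) = g * wi * zi (MM g) * k' := by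
    rw [mul_assoc g k, h, mul_assoc (g * wi), zi_comm]
    simp only [mul_assoc]
  rw [h1, H_right _ _ hk']

lemma w_conj_mem' {F : Type*} [Field F] {v : Valuation F ℤᵐ⁰} (P : Par v) {u : GL (Fin 2) F}
    (hu : u ∈ Iw v) : ∃ u' ∈ Iw v, u * P.w = P.w * u' := by
  refine ⟨P.w * u * P.w⁻¹, w_conj_mem P hu, ?_⟩
  have h1 : P.w * (P.w * u * P.w⁻¹) = P.z 1 * u * P.w⁻¹ := by
    rw [← P.w_mul_w]; group
  rw [h1, P.z_comm, ← P.w_mul_w]; group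

lemma FF_of_up {g : GA 𝔽} (h : up g) :
    FF g = 1 - (Nat.card 𝔽 : ℂ) ^ (nt g + 1) / ((Nat.card 𝔽 : ℂ) + 1) := if_pos h

lemma FF_of_down {g : GA 𝔽} (h : ¬up g) :
    FF g = (Nat.card 𝔽 : ℂ) ^ (nt g) / ((Nat.card 𝔽 : ℂ) + 1) := if_neg h

lemma FF_congr {g g' : GA 𝔽} (h : nt g = nt g') (h' : up g ↔ up g') : FF g = FF g' := by
  by_cases hu : up g
  · rw [FF_of_up hu, FF_of_up (h'.1 hu), h]
  · rw [FF_of_down hu, FF_of_down (fun h0 => hu (h'.2 h0)), h]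

lemma FF_w (g : GA 𝔽) : FF (g * wi) = 1 - FF g := by
  by_cases hu : up g
  · have h1 : ¬up (g * wi) := by rw [up_wi, not_not]; exact hu
    rw [FF_of_up hu, FF_of_down h1, nt_up hu]; ring
  · have h1 : up (g * wi) := up_wi.2 hu
    rw [FF_of_down hu, FF_of_up h1, nt_down hu, sub_add_cancel]

/-- the elements `h ∈ {s t, n(b) t}` attached to an edge -/
lemma V_eq (g : GA 𝔽) (h : GLv 𝔽 none) : g * inc 𝔽 none h * wi * zi (MM g) =
    g * zi (MM g) * inc 𝔽 none (h * (par (𝔽 := 𝔽) none).w) := by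
  rw [map_mul, ← wi, mul_assoc (g * inc 𝔽 none h), ← zi_comm, mul_assoc g, mul_assoc g]
  congr 1
  rw [← mul_assoc, ← zi_comm, mul_assoc]


lemma nnssw (b : Kv 𝔽 none) : nn b * ss * (par (𝔽 := 𝔽) none).w =
    nn b * (par (𝔽 := 𝔽) none).t 1 := by
  rw [Par.w_eq, mul_assoc, ← mul_assoc ss ss, ss_mul_ss, one_mul]

lemma kb_mem {b : Kv 𝔽 none} (hb : b ∈ (par (𝔽 := 𝔽) none).S) :
    (nn b * ss : GLv 𝔽 none) ∈ GLO 𝔽 none :=
  mul_mem (Iw_le_KO _ (nn_mem_Iw ((par (𝔽 := 𝔽) none).S_int b hb))) ss_mem_KO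

/-- the vertex of `g`, twisted -/
noncomputable def VV (g : GA 𝔽) : GA 𝔽 := g * zi (MM g)

lemma up_iff (g : GA 𝔽) : up g ↔ ∃ x ∈ H (VV g * inc 𝔽 none (ss * (par (𝔽 := 𝔽) none).t 1)),
    x ≠ 0 := by
  have h1 : g * wi * zi (MM g) = VV g * inc 𝔽 none (ss * (par (𝔽 := 𝔽) none).t 1) := by
    rw [VV, ← Par.w_eq, ← wi, mul_assoc, mul_assoc, zi_comm]
  rw [up, h1]
  exact ⟨exists_ne, fun ⟨x, hx, hx0⟩ => ne_bot_of hx hx0⟩

lemma MM_kb (g : GA 𝔽) {b : Kv 𝔽 none} (hb : b ∈ (par (𝔽 := 𝔽) none).S) :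
    MM (g * inc 𝔽 none (nn b * ss)) = MM g := MM_right _ _ (inc_mem (kb_mem hb))

lemma nt_kb (g : GA 𝔽) {b : Kv 𝔽 none} (hb : b ∈ (par (𝔽 := 𝔽) none).S) :
    nt (g * inc 𝔽 none (nn b * ss)) = nt g := nt_right _ _ (inc_mem (kb_mem hb))

lemma up_kb_iff (g : GA 𝔽) {b : Kv 𝔽 none} (hb : b ∈ (par (𝔽 := 𝔽) none).S) :
    up (g * inc 𝔽 none (nn b * ss)) ↔
      ∃ x ∈ H (VV g * inc 𝔽 none (nn b * (par (𝔽 := 𝔽) none).t 1)), x ≠ 0 := by
  rw [up, MM_kb g hb, V_eq, nnssw, ← VV]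
  exact ⟨exists_ne, fun ⟨x, hx, hx0⟩ => ne_bot_of hx hx0⟩

/-- local coordinates at infinity of a section of the vertex -/
noncomputable def yy (g : GA 𝔽) (x : Fin 2 → RatFunc 𝔽) : Fin 2 → Kv 𝔽 none :=
  app (g none)⁻¹ (ev none x)

lemma mem_st {g : GA 𝔽} {x : Fin 2 → RatFunc 𝔽} :
    x ∈ H (g * inc 𝔽 none (ss * (par (𝔽 := 𝔽) none).t 1)) ↔
      x ∈ H g ∧ vv 𝔽 none (yy g x 1) < 1 := by
  rw [mem_H_mul_inc, intg_st_iff, mem_H]
  constructor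
  · rintro ⟨h1, h2, h3⟩
    refine ⟨fun w => ?_, h2⟩
    by_cases hw : w = none
    · subst hw
      intro i
      fin_cases i
      · exact h3
      · exact h2.le
    · exact h1 w hw
  · rintro ⟨h1, h2⟩
    exact ⟨fun w _ => h1 w, h2, h1 none 0⟩

lemma mem_nt {g : GA 𝔽} {b : Kv 𝔽 none} (hb : vv 𝔽 none b ≤ 1) {x : Fin 2 → RatFunc 𝔽} :
    x ∈ H (g * inc 𝔽 none (nn b * (par (𝔽 := 𝔽) none).t 1)) ↔
      x ∈ H g ∧ vv 𝔽 none (yy g x 0 - b * yy g x 1) < 1 := by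
  rw [mem_H_mul_inc, intg_nt_iff, mem_H]
  constructor
  · rintro ⟨h1, h2, h3⟩
    refine ⟨fun w => ?_, h2⟩
    by_cases hw : w = none
    · subst hw
      intro i
      fin_cases i
      · show vv 𝔽 none (yy g x 0) ≤ 1
        have : yy g x 0 = (yy g x 0 - b * yy g x 1) + b * yy g x 1 := by ring
        rw [this]
        refine Valuation.map_add_le _ h2.le ?_
        rw [map_mul]
        exact mul_le_one' hb h3
      · exact h3
    · exact h1 w hw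
  · rintro ⟨h1, h2⟩
    exact ⟨fun w _ => h1 w, h2, h1 none 1⟩

lemma mem_zi {g : GA 𝔽} {x : Fin 2 → RatFunc 𝔽} :
    x ∈ H (g * zi 1) ↔ x ∈ H g ∧ vv 𝔽 none (yy g x 0) < 1 ∧ vv 𝔽 none (yy g x 1) < 1 := by
  have key : ∀ z : Kv 𝔽 none, vv 𝔽 none ((par (𝔽 := 𝔽) none).ϖ ^ (-1 : ℤ) * z) ≤ 1 ↔
      vv 𝔽 none z < 1 := by
    intro z
    rw [map_mul, (par (𝔽 := 𝔽) none).v_zpow, lt_one_iff]
    constructor
    · intro h
      calc vv 𝔽 none z = exp (-1) * (exp (- -1) * vv 𝔽 none z) := by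
            rw [← mul_assoc, ← exp_add]; simp
        _ ≤ exp (-1) * 1 := mul_le_mul_right h _
        _ = exp (-1) := mul_one _
    · intro h
      calc exp (- -1) * vv 𝔽 none z ≤ exp (- -1) * exp (-1) := mul_le_mul_right h _
        _ = 1 := by rw [← exp_add]; simp
  rw [zi, mem_H_mul_inc, mem_H]
  constructor
  · rintro ⟨h1, h2⟩
    rw [app_z] at h2
    have h3 := (key (yy g x 0)).1 (h2 0)
    have h4 := (key (yy g x 1)).1 (h2 1)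
    refine ⟨fun w => ?_, h3, h4⟩
    by_cases hw : w = none
    · subst hw
      intro i
      fin_cases i
      · exact h3.le
      · exact h4.le
    · exact h1 w hw
  · rintro ⟨h1, h2, h3⟩
    refine ⟨fun w _ => h1 w, ?_⟩
    rw [app_z]
    intro i
    fin_cases i
    · exact (key (yy g x 0)).2 h2
    · exact (key (yy g x 1)).2 h3

lemma VV_zi (g : GA 𝔽) : H (VV g * zi 1) = ⊥ := by
  rw [VV, mul_assoc, ← zi_add]; exact (MM_spec g).2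

/-- nonzero sections of the vertex are primitive at infinity -/
lemma prim {g : GA 𝔽} {x : Fin 2 → RatFunc 𝔽} (hx : x ∈ H (VV g)) (hx0 : x ≠ 0) :
    ¬(vv 𝔽 none (yy (VV g) x 0) < 1 ∧ vv 𝔽 none (yy (VV g) x 1) < 1) := by
  intro h
  have h1 : x ∈ H (VV g * zi 1) := mem_zi.2 ⟨hx, h⟩
  rw [VV_zi, AddSubgroup.mem_bot] at h1
  exact hx0 h1

/-- at least one edge points up -/
lemma some_up (g : GA 𝔽) : up g ∨ ∃ b ∈ (par (𝔽 := 𝔽) none).S,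
    up (g * inc 𝔽 none (nn b * ss)) := by
  obtain ⟨x, hx, hx0⟩ := exists_ne (MM_spec g).1
  have hp := prim hx hx0
  by_cases h1 : vv 𝔽 none (yy (VV g) x 1) < 1
  · left
    rw [up_iff]
    exact ⟨x, mem_st.2 ⟨hx, h1⟩, hx0⟩
  · right
    have hv1 : vv 𝔽 none (yy (VV g) x 1) = 1 := le_antisymm (hx none 1) (not_lt.1 h1)
    have hy1 : yy (VV g) x 1 ≠ 0 := by
      intro h; rw [h, map_zero] at hv1; exact zero_ne_one hv1
    obtain ⟨b, hb, hb'⟩ := (par (𝔽 := 𝔽) none).S_ex (yy (VV g) x 0 / yy (VV g) x 1) (by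
      rw [map_div₀, hv1, div_one]; exact hx none 0)
    refine ⟨b, hb, ?_⟩
    rw [up_kb_iff g hb]
    refine ⟨x, (mem_nt ((par (𝔽 := 𝔽) none).S_int b hb)).2 ⟨hx, ?_⟩, hx0⟩
    have : yy (VV g) x 0 - b * yy (VV g) x 1 =
        (yy (VV g) x 0 / yy (VV g) x 1 - b) * yy (VV g) x 1 := by field_simp
    rw [this, map_mul, hv1, mul_one]
    exact hb'

/-- Two sections with independent residues give a trivialisation. -/
lemma trivialise {g : GA 𝔽} {x x' : Fin 2 → RatFunc 𝔽} (hx : x ∈ H g) (hx' : x' ∈ H g)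
    (hd : vv 𝔽 none (yy g x 0 * yy g x' 1 - yy g x' 0 * yy g x 1) = 1) :
    0 ≤ gdeg g ∧ (gdeg g = 0 → ∃ γ : GL (Fin 2) (RatFunc 𝔽), ∃ k : GA 𝔽,
      (∀ v, k v ∈ GLO 𝔽 v) ∧ g = Gdiag 𝔽 γ * k) := by
  have hdet : ∀ v : Place 𝔽, app (g v)⁻¹ (ev v x) 0 * app (g v)⁻¹ (ev v x') 1 -
      app (g v)⁻¹ (ev v x') 0 * app (g v)⁻¹ (ev v x) 1 =
      dt (g v)⁻¹ * emb 𝔽 v (x 0 * x' 1 - x' 0 * x 1) := by
    intro v
    rw [app_apply, app_apply, app_apply, app_apply, map_sub, map_mul, map_mul]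
    simp only [ev, dt]
    ring
  have hne : x 0 * x' 1 - x' 0 * x 1 ≠ 0 := by
    intro h
    have h1 := hdet none
    rw [h, map_zero, mul_zero] at h1
    have h2 : yy g x 0 * yy g x' 1 - yy g x' 0 * yy g x 1 = 0 := h1
    rw [h2, map_zero] at hd
    exact zero_ne_one hd
  let γ : GL (Fin 2) (RatFunc 𝔽) := mk2 (x 0) (x' 0) (x 1) (x' 1) hne
  let κ : GA 𝔽 := g⁻¹ * Gdiag 𝔽 γ
  have hκ : ∀ v i, κ v i 0 = app (g v)⁻¹ (ev v x) i := by
    intro v i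
    have h1 : κ v = (g v)⁻¹ * Gdiag 𝔽 γ v := rfl
    rw [h1, app_apply]
    fin_cases i
    · exact mul_00 _ _
    · exact mul_10 _ _
  have hκ' : ∀ v i, κ v i 1 = app (g v)⁻¹ (ev v x') i := by
    intro v i
    have h1 : κ v = (g v)⁻¹ * Gdiag 𝔽 γ v := rfl
    rw [h1, app_apply]
    fin_cases i
    · exact mul_01 _ _
    · exact mul_11 _ _
  have hint : ∀ v i j, vv 𝔽 v (κ v i j) ≤ 1 := by
    intro v i j
    fin_cases j
    · show vv 𝔽 v (κ v i 0) ≤ 1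
      rw [hκ]; exact hx v i
    · show vv 𝔽 v (κ v i 1) ≤ 1
      rw [hκ']; exact hx' v i
  have hdeg : gdeg κ = -gdeg g := by
    have h1 : gdeg (g * κ) = gdeg (Gdiag 𝔽 γ) := by
      congr 1
      show g * (g⁻¹ * Gdiag 𝔽 γ) = _
      group
    rw [gdeg_mul, gdeg_diag] at h1
    omega
  have hle := gdeg_le (g := κ) (fun v => v_dt_le _ (hint v))
  refine ⟨by omega, fun h0 => ⟨γ, κ⁻¹, fun v => ?_, ?_⟩⟩
  · rw [RestrictedProduct.inv_apply]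
    refine inv_mem ((mem_KO_iff _).2 ⟨hint v, gdeg_eq_zero (fun v => v_dt_le _ (hint v)) ?_ v⟩)
    omega
  · show g = Gdiag 𝔽 γ * (g⁻¹ * Gdiag 𝔽 γ)⁻¹
    group

/-- independent residues of sections in different sublattices -/
lemma indep_st_nt {g : GA 𝔽} {x x' : Fin 2 → RatFunc 𝔽} (hx0 : x ≠ 0) (hx0' : x' ≠ 0)
    {b : Kv 𝔽 none} (hb : vv 𝔽 none b ≤ 1)
    (hx : x ∈ H (VV g * inc 𝔽 none (ss * (par (𝔽 := 𝔽) none).t 1)))
    (hx' : x' ∈ H (VV g * inc 𝔽 none (nn b * (par (𝔽 := 𝔽) none).t 1))) :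
    vv 𝔽 none (yy (VV g) x 0 * yy (VV g) x' 1 - yy (VV g) x' 0 * yy (VV g) x 1) = 1 := by
  rw [mem_st] at hx
  rw [mem_nt hb] at hx'
  have h1 : vv 𝔽 none (yy (VV g) x 0) = 1 := by
    refine le_antisymm (hx.1 none 0) (not_lt.1 fun h => prim hx.1 hx0 ⟨h, hx.2⟩)
  have h2 : vv 𝔽 none (yy (VV g) x' 1) = 1 := by
    refine le_antisymm (hx'.1 none 1) (not_lt.1 fun h => prim hx'.1 hx0' ⟨?_, h⟩)
    have : yy (VV g) x' 0 = (yy (VV g) x' 0 - b * yy (VV g) x' 1) + b * yy (VV g) x' 1 := by ring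
    rw [this]
    refine Valuation.map_add_lt _ hx'.2 ?_
    rw [map_mul, mul_comm]
    exact mul_lt_one_of_lt_of_le h hb
  have h3 : vv 𝔽 none (yy (VV g) x' 0 * yy (VV g) x 1) < 1 := by
    rw [map_mul, mul_comm]
    exact mul_lt_one_of_lt_of_le hx.2 (hx'.1 none 0)
  have h4 : vv 𝔽 none (yy (VV g) x 0 * yy (VV g) x' 1) = 1 := by rw [map_mul, h1, h2, one_mul]
  rw [Valuation.map_sub_eq_of_lt_left _ (by rw [h4]; exact h3)]
  exact h4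

lemma indep_nt_nt {g : GA 𝔽} {x x' : Fin 2 → RatFunc 𝔽} (hx0 : x ≠ 0) (hx0' : x' ≠ 0)
    {b b' : Kv 𝔽 none} (hb : b ∈ (par (𝔽 := 𝔽) none).S) (hb' : b' ∈ (par (𝔽 := 𝔽) none).S)
    (hbb : b ≠ b')
    (hx : x ∈ H (VV g * inc 𝔽 none (nn b * (par (𝔽 := 𝔽) none).t 1)))
    (hx' : x' ∈ H (VV g * inc 𝔽 none (nn b' * (par (𝔽 := 𝔽) none).t 1))) :
    vv 𝔽 none (yy (VV g) x 0 * yy (VV g) x' 1 - yy (VV g) x' 0 * yy (VV g) x 1) = 1 := by
  have hbi := (par (𝔽 := 𝔽) none).S_int b hb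
  have hbi' := (par (𝔽 := 𝔽) none).S_int b' hb'
  rw [mem_nt hbi] at hx
  rw [mem_nt hbi'] at hx'
  have key : ∀ (x : Fin 2 → RatFunc 𝔽) (b : Kv 𝔽 none), x ≠ 0 → vv 𝔽 none b ≤ 1 →
      x ∈ H (VV g) → vv 𝔽 none (yy (VV g) x 0 - b * yy (VV g) x 1) < 1 →
      vv 𝔽 none (yy (VV g) x 1) = 1 := by
    intro x b hx0 hb hxH hx
    refine le_antisymm (hxH none 1) (not_lt.1 fun h => prim hxH hx0 ⟨?_, h⟩)
    have : yy (VV g) x 0 = (yy (VV g) x 0 - b * yy (VV g) x 1) + b * yy (VV g) x 1 := by ring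
    rw [this]
    refine Valuation.map_add_lt _ hx ?_
    rw [map_mul, mul_comm]
    exact mul_lt_one_of_lt_of_le h hb
  have h1 := key x b hx0 hbi hx.1 hx.2
  have h2 := key x' b' hx0' hbi' hx'.1 hx'.2
  have hbb' : vv 𝔽 none (b - b') = 1 := by
    refine le_antisymm ((Valuation.map_sub _ _ _).trans (max_le hbi hbi'))
      (not_lt.1 fun h => hbb ((par (𝔽 := 𝔽) none).S_inj b hb b' hb' h))
  have h3 : yy (VV g) x 0 * yy (VV g) x' 1 - yy (VV g) x' 0 * yy (VV g) x 1 =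
      (b - b') * (yy (VV g) x 1 * yy (VV g) x' 1) +
      ((yy (VV g) x 0 - b * yy (VV g) x 1) * yy (VV g) x' 1 -
        (yy (VV g) x' 0 - b' * yy (VV g) x' 1) * yy (VV g) x 1) := by ring
  have h4 : vv 𝔽 none ((b - b') * (yy (VV g) x 1 * yy (VV g) x' 1)) = 1 := by
    rw [map_mul, map_mul, hbb', h1, h2, one_mul, one_mul]
  have h5 : vv 𝔽 none ((yy (VV g) x 0 - b * yy (VV g) x 1) * yy (VV g) x' 1 -
        (yy (VV g) x' 0 - b' * yy (VV g) x' 1) * yy (VV g) x 1) < 1 := by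
    refine (Valuation.map_sub _ _ _).trans_lt (max_lt ?_ ?_)
    · rw [map_mul, h2, mul_one]; exact hx.2
    · rw [map_mul, h1, mul_one]; exact hx'.2
  rw [h3, Valuation.map_add_eq_of_lt_left _ (by rw [h4]; exact h5)]
  exact h4

end

end Pool.Agent.Helper37.LL
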