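import Pool.Agent.Helper37.LL.Eis

/-!
# Relations and uniqueness for the harmonic function
-/

set_option autoImplicit false


open Polynomial IsDedekindDomain WithZero Topology
open scoped RestrictedProduct

namespace Pool.Agent.Helper37.LL

section

variable {𝔽 : Type} [Field 𝔽] [Finite 𝔽]

lemma gdeg_VV (g : GA 𝔽) : gdeg (VV g) = -nt g := gdeg_V g

lemma mem_st_le {g : GA 𝔽} {x : Fin 2 → RatFunc 𝔽}
    (h : x ∈ H (g * inc 𝔽 none (ss * (par (𝔽 := 𝔽) none).t 1))) : x ∈ H g := (mem_st.1 h).1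

lemma mem_nt_le {g : GA 𝔽} {b : Kv 𝔽 none} (hb : vv 𝔽 none b ≤ 1) {x : Fin 2 → RatFunc 𝔽}
    (h : x ∈ H (g * inc 𝔽 none (nn b * (par (𝔽 := 𝔽) none).t 1))) : x ∈ H g :=
  ((mem_nt hb).1 h).1

lemma up_unique_1 {g : GA 𝔽} (h : 0 < nt g) (h1 : up g) {b : Kv 𝔽 none}
    (hb : b ∈ (par (𝔽 := 𝔽) none).S) : ¬up (g * inc 𝔽 none (nn b * ss)) := by
  intro h2
  rw [up_iff] at h1
  rw [up_kb_iff g hb] at h2
  obtain ⟨x, hx, hx0⟩ := h1
  obtain ⟨x', hx', hx0'⟩ := h2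
  have hbi := (par (𝔽 := 𝔽) none).S_int b hb
  have h3 := (trivialise (mem_st_le hx) (mem_nt_le hbi hx')
    (indep_st_nt hx0 hx0' hbi hx hx')).1
  rw [gdeg_VV] at h3
  omega

lemma up_unique_2 {g : GA 𝔽} (h : 0 < nt g) {b b' : Kv 𝔽 none}
    (hb : b ∈ (par (𝔽 := 𝔽) none).S) (hb' : b' ∈ (par (𝔽 := 𝔽) none).S)
    (h1 : up (g * inc 𝔽 none (nn b * ss))) (h2 : up (g * inc 𝔽 none (nn b' * ss))) : b = b' := by
  by_contra hne
  rw [up_kb_iff g hb] at h1
  rw [up_kb_iff g hb'] at h2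
  obtain ⟨x, hx, hx0⟩ := h1
  obtain ⟨x', hx', hx0'⟩ := h2
  have hbi := (par (𝔽 := 𝔽) none).S_int b hb
  have hbi' := (par (𝔽 := 𝔽) none).S_int b' hb'
  have h3 := (trivialise (mem_nt_le hbi hx) (mem_nt_le hbi' hx')
    (indep_nt_nt hx0 hx0' hb hb' hne hx hx')).1
  rw [gdeg_VV] at h3
  omega

lemma all_up {g : GA 𝔽} (h : nt g = 0) : up g := by
  apply H_ne_bot
  have h1 : g * wi * zi (MM g) = g * zi (MM g) * wi := by
    rw [mul_assoc, ← zi_comm, ← mul_assoc]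
  rw [h1, gdeg_mul, gdeg_V, gdeg_wi, h]
  norm_num

lemma card_none : (par (𝔽 := 𝔽) none).S.card = Nat.card 𝔽 := by
  rw [card_S]
  show Nat.card 𝔽 ^ 1 = _
  rw [pow_one]

lemma qq_ne : (Nat.card 𝔽 : ℂ) ≠ 0 := by
  exact_mod_cast (card_pos' (𝔽 := 𝔽)).ne'

lemma qq1_ne : (Nat.card 𝔽 : ℂ) + 1 ≠ 0 := Nat.cast_add_one_ne_zero _

lemma FF_sum (g : GA 𝔽) :
    FF g + ∑ b ∈ (par (𝔽 := 𝔽) none).S, FF (g * inc 𝔽 none (nn b * ss)) = 1 := by
  classical
  have hq := qq_ne (𝔽 := 𝔽)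
  have hq1 := qq1_ne (𝔽 := 𝔽)
  have hnt : ∀ b ∈ (par (𝔽 := 𝔽) none).S, nt (g * inc 𝔽 none (nn b * ss)) = nt g :=
    fun b hb => nt_kb g hb
  rcases (nt_nonneg g).eq_or_lt' with h0 | h0
  · have h1 : FF g = 1 - (Nat.card 𝔽 : ℂ) / ((Nat.card 𝔽 : ℂ) + 1) := by
      rw [FF_of_up (all_up h0), h0, zero_add, zpow_one]
    have h2 : ∀ b ∈ (par (𝔽 := 𝔽) none).S, FF (g * inc 𝔽 none (nn b * ss)) =
        1 - (Nat.card 𝔽 : ℂ) / ((Nat.card 𝔽 : ℂ) + 1) := by
      intro b hb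
      have h3 := hnt b hb
      rw [h0] at h3
      rw [FF_of_up (all_up h3), h3, zero_add, zpow_one]
    rw [h1, Finset.sum_congr rfl h2, Finset.sum_const, card_none, nsmul_eq_mul]
    field_simp
    ring
  · by_cases hu : up g
    · have h2 : ∀ b ∈ (par (𝔽 := 𝔽) none).S, FF (g * inc 𝔽 none (nn b * ss)) =
          (Nat.card 𝔽 : ℂ) ^ (nt g) / ((Nat.card 𝔽 : ℂ) + 1) := by
        intro b hb
        rw [FF_of_down (up_unique_1 h0 hu hb), hnt b hb]
      rw [FF_of_up hu, Finset.sum_congr rfl h2, Finset.sum_const, card_none, nsmul_eq_mul,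
        zpow_add_one₀ hq]
      field_simp
      ring
    · obtain ⟨b₀, hb₀, hup⟩ := (some_up g).resolve_left hu
      have h2 : ∀ b ∈ (par (𝔽 := 𝔽) none).S.erase b₀, FF (g * inc 𝔽 none (nn b * ss)) =
          (Nat.card 𝔽 : ℂ) ^ (nt g) / ((Nat.card 𝔽 : ℂ) + 1) := by
        intro b hb
        have hb' := Finset.mem_of_mem_erase hb
        rw [FF_of_down (fun h => Finset.ne_of_mem_erase hb (up_unique_2 h0 hb' hb₀ h hup)),
          hnt b hb']
      rw [← Finset.add_sum_erase _ _ hb₀, FF_of_down hu, FF_of_up hup, hnt b₀ hb₀,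
        Finset.sum_congr rfl h2, Finset.sum_const, Finset.card_erase_of_mem hb₀, card_none,
        nsmul_eq_mul, zpow_add_one₀ hq, Nat.cast_sub card_pos', Nat.cast_one]
      field_simp
      ring

theorem FF_rel : EisRel (FF : GA 𝔽 → ℂ) 1 where
  left γ g := FF_congr (nt_left γ g) (up_left γ g)
  fin g k hk hk0 := by
    refine FF_congr (nt_right g k hk) (up_right g k hk hk ?_)
    exact inc_comm_ne hk0 _
  iw g k hk := by
    obtain ⟨u', hu', hu⟩ := w_conj_mem' (par (𝔽 := 𝔽) none) hk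
    refine FF_congr (nt_right g _ (inc_mem hk.1)) (up_right g _ (inc_mem hk.1)
      (k' := inc 𝔽 none u') (inc_mem hu'.1) ?_)
    rw [wi, ← map_mul, ← map_mul, hu]
  w := FF_w
  sum := FF_sum

/-! ### Uniqueness -/

lemma EisRel.zi {φ : GA 𝔽 → ℂ} {c : ℂ} (h : EisRel φ c) (g : GA 𝔽) : φ (g * zi 1) = φ g := by
  rw [← wi_mul_wi, ← mul_assoc, h.w, h.w]; ring

lemma EisRel.zin {φ : GA 𝔽 → ℂ} {c : ℂ} (h : EisRel φ c) (g : GA 𝔽) (n : ℤ) :
    φ (g * Pool.Agent.Helper37.LL.zi n) = φ g := by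
  induction n using Int.induction_on with
  | zero => simp
  | succ n ih => rw [zi_add, ← mul_assoc, h.zi, ih]
  | pred n ih =>
    have h1 : (Pool.Agent.Helper37.LL.zi (-(n : ℤ)) : GA 𝔽) =
        Pool.Agent.Helper37.LL.zi (-(n : ℤ) - 1) * Pool.Agent.Helper37.LL.zi 1 := by
      rw [← zi_add]; simp
    rw [← ih, h1, ← mul_assoc, h.zi]

/-- constant of `𝔽` in `K_v` -/
noncomputable def cst (v : Place 𝔽) (c : 𝔽) : Kv 𝔽 v := emb 𝔽 v (pl (C c))

omit [Finite 𝔽] in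
lemma cst_int (v : Place 𝔽) (c : 𝔽) : vv 𝔽 v (cst v c) ≤ 1 := by
  rw [cst, vv_emb]
  rcases v with _ | P
  · by_cases hc : c = 0
    · simp [hc]
    · rw [val_inf_pl (by simpa using hc)]; simp
  · exact val_fin_pl_le P _

omit [Finite 𝔽] in
lemma cst_unit (v : Place 𝔽) {c : 𝔽} (hc : c ≠ 0) : vv 𝔽 v (cst v c) = 1 := by
  refine le_antisymm (cst_int v c) ?_
  have h1 := cst_int v c⁻¹
  have h2 : cst v c * cst v c⁻¹ = 1 := by
    rw [cst, cst, ← map_mul, ← map_mul, ← C_mul, mul_inv_cancel₀ hc]; simp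
  have h3 : vv 𝔽 v (cst v c) * vv 𝔽 v (cst v c⁻¹) = 1 := by rw [← map_mul, h2, map_one]
  calc 1 = vv 𝔽 v (cst v c) * vv 𝔽 v (cst v c⁻¹) := h3.symm
    _ ≤ vv 𝔽 v (cst v c) * 1 := mul_le_mul_right h1 _
    _ = _ := mul_one _

/-- constant matrix in `GL₂(K)` -/
noncomputable def cmat (a b c d : 𝔽) (h : a * d - b * c ≠ 0) : GL (Fin 2) (RatFunc 𝔽) :=
  mk2 (pl (C a)) (pl (C b)) (pl (C c)) (pl (C d)) (by
    have h1 : pl (C a) * pl (C d) - pl (C b) * pl (C c) = pl (C (a * d - b * c)) := by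
      simp only [map_mul, map_sub]
    rw [h1]
    exact pl_ne (by rwa [Ne, C_eq_zero]))

omit [Finite 𝔽] in
lemma cmat_apply (a b c d : 𝔽) (h : a * d - b * c ≠ 0) (v : Place 𝔽) :
    Gdiag 𝔽 (cmat a b c d h) v = mk2 (cst v a) (cst v b) (cst v c) (cst v d) (by
      have : cst v a * cst v d - cst v b * cst v c = cst v (a * d - b * c) := by
        simp only [cst, C_mul, C_sub, map_mul, map_sub]
      rw [this]
      intro h0
      have h1 := cst_unit v h
      rw [h0, map_zero] at h1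
      exact zero_ne_one h1) := by
  apply gl_ext <;> rfl

omit [Finite 𝔽] in
lemma cmat_mem (a b c d : 𝔽) (h : a * d - b * c ≠ 0) (v : Place 𝔽) :
    Gdiag 𝔽 (cmat a b c d h) v ∈ GLO 𝔽 v := by
  rw [cmat_apply]
  refine mk2_mem_KO _ (cst_int v a) (cst_int v b) (cst_int v c) (cst_int v d) ?_
  have : cst v a * cst v d - cst v b * cst v c = cst v (a * d - b * c) := by
    simp only [cst, C_mul, C_sub, map_mul, map_sub]
  rw [this]
  exact cst_unit v h

lemma exists_residue (x : Kv 𝔽 none) (hx : vv 𝔽 none x ≤ 1) :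
    ∃ c : 𝔽, vv 𝔽 none (x - cst none c) < 1 := by
  obtain ⟨b, hb, hb'⟩ := (par (𝔽 := 𝔽) none).S_ex x hx
  have h1 : b ∈ (Set.finite_range (fun c : 𝔽 => emb 𝔽 none (pl (C c)))).toFinset := hb
  rw [Set.Finite.mem_toFinset] at h1
  obtain ⟨c, rfl⟩ := h1
  exact ⟨c, hb'⟩

/-- `GL₂(𝔽)` acts transitively on the residual projective line at infinity -/
lemma exists_const_iw (a : GLv 𝔽 none) (ha : a ∈ GLO 𝔽 none) :
    ∃ (p q r s : 𝔽) (h : p * s - q * r ≠ 0),
      Gdiag 𝔽 (cmat p q r s h) none * a ∈ Iw (vv 𝔽 none) := by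
  obtain ⟨α, hα⟩ := exists_residue (a 0 0) (ha.1 0 0)
  obtain ⟨β, hβ⟩ := exists_residue (a 1 0) (ha.1 1 0)
  have hne : α ≠ 0 ∨ β ≠ 0 := by
    by_contra h
    push Not at h
    rw [h.1] at hα
    rw [h.2] at hβ
    have h0 : cst none (0 : 𝔽) = 0 := by simp [cst]
    rw [h0, sub_zero] at hα hβ
    have h1 := ((mem_KO_iff _).1 ha).2
    have h2 : vv 𝔽 none (dt a) < 1 := by
      rw [dt]
      refine (Valuation.map_sub _ _ _).trans_lt (max_lt ?_ ?_)
      · rw [map_mul]; exact mul_lt_one_of_lt_of_le hα (ha.1 _ _)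
      · rw [map_mul, mul_comm]; exact mul_lt_one_of_lt_of_le hβ (ha.1 _ _)
    rw [h1] at h2
    exact lt_irrefl _ h2
  -- bottom row (-β, α)
  have key : ∀ (p q : 𝔽) (h : p * α - q * (-β) ≠ 0),
      Gdiag 𝔽 (cmat p q (-β) α h) none * a ∈ Iw (vv 𝔽 none) := by
    intro p q h
    refine ⟨mul_mem (cmat_mem _ _ _ _ h none) ha, ?_⟩
    rw [mul_10, cmat_apply, mk2_10, mk2_11]
    have h1 : cst none (-β) * a 0 0 + cst none α * a 1 0 =
        cst none α * (a 1 0 - cst none β) - cst none β * (a 0 0 - cst none α) := by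
      have : cst none (-β) = -cst none β := by
        simp only [cst, C_neg, map_neg]
      rw [this]; ring
    rw [h1]
    refine (Valuation.map_sub _ _ _).trans_lt (max_lt ?_ ?_)
    · rw [map_mul, mul_comm]; exact mul_lt_one_of_lt_of_le hβ (cst_int _ _)
    · rw [map_mul, mul_comm]; exact mul_lt_one_of_lt_of_le hα (cst_int _ _)
  rcases hne with h | h
  · exact ⟨1, 0, -β, α, by simpa using h, key 1 0 (by simpa using h)⟩
  · exact ⟨0, 1, -β, α, by simpa using h, key 0 1 (by simpa using h)⟩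

lemma EisRel.const_K {φ : GA 𝔽 → ℂ} {c : ℂ} (h : EisRel φ c) (k : GA 𝔽)
    (hk : ∀ v, k v ∈ GLO 𝔽 v) : φ k = φ 1 := by
  obtain ⟨p, q, r, s, hd, hiw⟩ := exists_const_iw (k none) (hk none)
  rw [← h.left (cmat p q r s hd)]
  obtain ⟨c', hc', hc0, hcw⟩ := exists_split none (Gdiag 𝔽 (cmat p q r s hd) * k)
  rw [hc']
  have h1 : (Gdiag 𝔽 (cmat p q r s hd) * k : GA 𝔽) none =
      Gdiag 𝔽 (cmat p q r s hd) none * k none := rfl
  rw [h1, h.iw _ _ hiw]
  conv_lhs => rw [← one_mul c']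
  refine h.fin 1 c' (fun v => ?_) hc0
  by_cases hv : v = none
  · subst hv; rw [hc0]; exact one_mem _
  · rw [hcw v hv]
    exact mul_mem (cmat_mem _ _ _ _ hd v) (hk v)

theorem EisRel.eq_zero {φ : GA 𝔽 → ℂ} (h : EisRel φ 0) (g : GA 𝔽) : φ g = 0 := by
  have hq1 := qq1_ne (𝔽 := 𝔽)
  -- upward edges
  have key : ∀ n : ℕ, ∀ g : GA 𝔽, up g → nt g = n → φ g = 0 := by
    intro n
    induction n with
    | zero =>
      intro g hu hn
      have hn' : nt g = 0 := by rw [hn]; rfl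
      have hb0 : ((par (𝔽 := 𝔽) none).S_nonempty).choose ∈ (par (𝔽 := 𝔽) none).S :=
        ((par (𝔽 := 𝔽) none).S_nonempty).choose_spec
      set b := ((par (𝔽 := 𝔽) none).S_nonempty).choose
      have hbi := (par (𝔽 := 𝔽) none).S_int b hb0
      have hub : up (g * inc 𝔽 none (nn b * ss)) := all_up (by rw [nt_kb g hb0, hn'])
      rw [up_iff] at hu
      rw [up_kb_iff g hb0] at hub
      obtain ⟨x, hx, hx0⟩ := hu
      obtain ⟨x', hx', hx0'⟩ := hub
      obtain ⟨γ, k, hk, hV⟩ := (trivialise (mem_st_le hx) (mem_nt_le hbi hx')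
        (indep_st_nt hx0 hx0' hbi hx hx')).2 (by rw [gdeg_VV, hn']; rfl)
      have h1 : φ g = φ 1 := by
        rw [← h.zin g (MM g), ← VV, hV, h.left, h.const_K k hk]
      have h2 : ∀ b ∈ (par (𝔽 := 𝔽) none).S, φ (g * inc 𝔽 none (nn b * ss)) = φ 1 := by
        intro b hb
        have h3 : φ (g * inc 𝔽 none (nn b * ss)) = φ (VV g * inc 𝔽 none (nn b * ss)) := by
          rw [← h.zin (g * inc 𝔽 none (nn b * ss)) (MM g), VV, mul_assoc, ← zi_comm, ← mul_assoc]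
        rw [h3, hV, mul_assoc, h.left]
        refine h.const_K _ (fun v => ?_)
        exact mul_mem (hk v) (inc_mem (kb_mem hb) v)
      have h3 := h.sum g
      rw [h1, Finset.sum_congr rfl h2, Finset.sum_const, card_none, nsmul_eq_mul] at h3
      have h4 : ((Nat.card 𝔽 : ℂ) + 1) * φ 1 = 0 := by linear_combination h3
      rw [h1]
      exact (mul_eq_zero.1 h4).resolve_left hq1
    | succ n ih =>
      intro g hu hn
      have h0 : 0 < nt g := by rw [hn]; push_cast; omega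
      have h2 : ∀ b ∈ (par (𝔽 := 𝔽) none).S, φ (g * inc 𝔽 none (nn b * ss)) = 0 := by
        intro b hb
        have hd := up_unique_1 h0 hu hb
        have h3 : φ (g * inc 𝔽 none (nn b * ss) * wi) = 0 := by
          refine ih _ (up_wi.2 hd) ?_
          rw [nt_down hd, nt_kb g hb, hn]; push_cast; ring
        rw [h.w] at h3
        linear_combination -h3
      have h3 := h.sum g
      rw [Finset.sum_congr rfl h2, Finset.sum_const_zero, add_zero] at h3
      exact h3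
  obtain ⟨n, hn⟩ := Int.eq_ofNat_of_zero_le (nt_nonneg g)
  by_cases hu : up g
  · exact key n g hu hn
  · obtain ⟨m, hm⟩ := Int.eq_ofNat_of_zero_le (nt_nonneg (g * wi))
    have h3 := key m _ (up_wi.2 hu) hm
    rw [h.w] at h3
    linear_combination -h3

end

end Pool.Agent.Helper37.LL
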