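import Pool.Agent.Helper37.LL.Bridge

/-!
# No local lifting is compatible with all global liftings
-/

set_option autoImplicit false

open Polynomial IsDedekindDomain WithZero Topology MeasureTheory
open scoped RestrictedProduct

namespace Pool.Agent.Helper37.LL

variable {𝔽 : Type} [Field 𝔽] [Finite 𝔽]

/-- the lifting of the first representation is the trivial representation -/
lemma lifting1 {π : Irrep (GA 𝔽)} {f : π.V} (hgen : Gen π f)
    (htriv : ∀ v ≠ none, ∀ (g : GLv 𝔽 v) (x : π.V), π.ρ (inc 𝔽 v g) x = x) :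
    IsGlobalLifting π (trivIrrep (GA 𝔽)) := by
  refine ⟨triv_isobaric, ?_⟩
  intro v σ hσ hunr
  obtain ⟨j, hj, hequiv⟩ := hσ
  by_cases hv : v = none
  · subst hv
    exfalso
    obtain ⟨x, hx0, hx⟩ := hunr
    apply hx0
    apply hj
    rw [map_zero]
    refine hgen.no_spherical (fun k hk => ?_)
    rw [← hequiv, hx k hk]
  · refine component_of_triv (fun g x => ?_)
    apply hj
    rw [hequiv, htriv v hv]

/-- Two automorphic representations with the same component at infinity, whose liftings have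
different components at infinity. -/
theorem exists_pair (𝔽 : Type) [Field 𝔽] [Finite 𝔽] :
    ∃ (π₁ π₂ : Irrep (GA 𝔽)) (σ₁ σ₂ : Irrep (GLv 𝔽 none)), IsAutomorphic π₁ ∧
      IsAutomorphic π₂ ∧ IsGlobalLifting π₁ (trivIrrep (GA 𝔽)) ∧ IsGlobalLifting π₂ π₂ ∧
      IsLocalComponent π₁ none σ₁ ∧ IsLocalComponent π₂ none σ₂ ∧ σ₁.cls = σ₂.cls ∧
      (trivIrrep (GLv 𝔽 none)).cls ≠ σ₂.cls := by
  obtain ⟨π₁, f₁, haut₁, hgen₁, htriv₁⟩ := exists_P1 (𝔽 := 𝔽)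
  obtain ⟨π₂, f₂, haut₂, hcusp₂, hgen₂⟩ := exists_P2 (𝔽 := 𝔽)
  refine ⟨π₁, π₂, locIrrep π₁ f₁ hgen₁, locIrrep π₂ f₂ hgen₂, haut₁, haut₂,
    lifting1 hgen₁ htriv₁, ⟨Or.inl hcusp₂, fun _ _ h _ => h⟩, locIrrep_component _ _ _,
    locIrrep_component _ _ _, cls_eq_iff.2 (locIrrep_iso hgen₁ hgen₂), ?_⟩
  intro h1
  obtain ⟨e, he⟩ : (locIrrep π₂ f₂ hgen₂).Iso (trivIrrep (GLv 𝔽 none)) := (cls_eq_iff.1 h1).symm
  let F : (locIrrep π₂ f₂ hgen₂).V := ⟨f₂, self_mem_orb _ f₂⟩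
  have hw : (locIrrep π₂ f₂ hgen₂).ρ (par (𝔽 := 𝔽) none).w F = -F := Subtype.ext hgen₂.rel.w
  have h4 := he (par (𝔽 := 𝔽) none).w F
  rw [hw, map_neg] at h4
  have h6 : ∀ z : ℂ, -z = z → z = 0 := fun z hz => by linear_combination -hz / 2
  have h7 : F = 0 := e.injective (by rw [map_zero]; exact h6 _ h4)
  exact hgen₂.ne (congrArg Subtype.val h7)

theorem adelic_main (𝔽 : Type) [Field 𝔽] [Finite 𝔽] :
    ¬∃ l : Irr (GL (Fin 2) (Kv 𝔽 none)) → Irr (GL (Fin 2) (Kv 𝔽 none)),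
      Spec.AdelicPredictsLiftings (A := Kv 𝔽) (emb 𝔽) (fun v => (vv 𝔽 v).integer)
        nrm none l := by
  rintro ⟨l, hl⟩
  obtain ⟨π₁, π₂, σ₁, σ₂, h1, h2, h3, h4, h5, h6, h7, h8⟩ := exists_pair 𝔽
  have h9 : l σ₁.cls = (trivIrrep (GLv 𝔽 none)).cls :=
    hl π₁ (trivIrrep (GA 𝔽)) (automorphic_spec h1) (lifting_spec h3) _ _
      (component_spec.2 h5) (component_spec.2 (triv_component none))
  have h10 : l σ₂.cls = σ₂.cls :=
    hl π₂ π₂ (automorphic_spec h2) (lifting_spec h4) _ _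
      (component_spec.2 h6) (component_spec.2 h6)
  exact h8 (by rw [← h9, h7, h10])

theorem main (𝔽 : Type) [Field 𝔽] [Finite 𝔽] :
    ¬Spec.LocalLiftingExists (Spec.val 𝔽) (Spec.qv 𝔽) none :=
  adelic_main 𝔽

end Pool.Agent.Helper37.LL
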