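import Pool.Agent.Helper37.LL.Smooth

/-!
# Irreducible representations of `GL₂(𝔸)` generated by vectors with the Steinberg relations at ∞
-/

set_option autoImplicit false


open Polynomial IsDedekindDomain WithZero Topology
open scoped RestrictedProduct

namespace Pool.Agent.Helper37.LL

variable {𝔽 : Type} [Field 𝔽] [Finite 𝔽]

lemma smooth_loc {V : Type} [AddCommGroup V] [Module ℂ V] (ρ : Representation ℂ (GA 𝔽) V)
    (v : Place 𝔽) {x : V} (hx : IsOpen {g : GA 𝔽 | ρ g x = x}) :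
    IsOpen {g : GLv 𝔽 v | (ρ.comp (inc 𝔽 v)) g x = x} :=
  hx.preimage (continuous_inc 𝔽 v)

lemma filt_loc {V : Type} [AddCommGroup V] [Module ℂ V] (ρ : Representation ℂ (GA 𝔽) V)
    (hρ : ∀ x, IsOpen {g : GA 𝔽 | ρ g x = x}) (v : Place 𝔽) {U : Subgroup (GLv 𝔽 v)}
    (hU : U ≤ GLO 𝔽 v) {m₀ : ℕ} (hm : KN (vv 𝔽 v) m₀ ≤ U) :
    Filt (ρ.comp (inc 𝔽 v)) U (fun m => KN (vv 𝔽 v) (m + m₀)) :=
  filt_of_smooth (par v) _ (fun x => (smooth_loc ρ v (hρ x)).mem_nhds (by simp)) hU hm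

lemma inc_fac (v : Place 𝔽) (a : GA 𝔽) : ∃ (c : GA 𝔽) (h : GLv 𝔽 v), a = c * inc 𝔽 v h ∧
    ∀ k, c * inc 𝔽 v k = inc 𝔽 v k * c := by
  obtain ⟨c, h1, h2, _⟩ := exists_split v a
  exact ⟨c, a v, h1, fun k => inc_comm_ne h2 k⟩

/-- A nonzero vector with the Steinberg relations at infinity -/
structure Gen (π : Irrep (GA 𝔽)) (f : π.V) : Prop where
  ne : f ≠ 0
  rel : IwRel (par (𝔽 := 𝔽) none) (π.ρ.comp (inc 𝔽 none)) f

lemma Gen.irr {π : Irrep (GA 𝔽)} {f : π.V} (h : Gen π f) (W : Submodule ℂ π.V)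
    (hW : Stable (π.ρ.comp (inc 𝔽 none)) W) (hWf : W ≤ orb (π.ρ.comp (inc 𝔽 none)) f) :
    W = ⊥ ∨ orb (π.ρ.comp (inc 𝔽 none)) f ≤ W := by
  refine local_irr π.ρ π.irreducible (inc 𝔽 none) (inc_fac none)
    (filt_loc π.ρ π.smooth none (Iw_le_KO _) (KN_le_Iw _ le_rfl)) h.ne h.rel.iw ?_ W hW hWf
  intro g
  obtain ⟨c, hc⟩ := iw_scalar (par (𝔽 := 𝔽) none) g
  exact ⟨c, hc π.V _ f h.rel⟩

/-- the local component at infinity -/
noncomputable def locIrrep (π : Irrep (GA 𝔽)) (f : π.V) (h : Gen π f) : Irrep (GLv 𝔽 none) where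
  V := orb (π.ρ.comp (inc 𝔽 none)) f
  ρ := subRep (π.ρ.comp (inc 𝔽 none)) _ (orb_stable _ f)
  irreducible := by
    refine irr_of ⟨⟨f, self_mem_orb _ f⟩, fun h0 => h.ne (congrArg Subtype.val h0)⟩ ?_
    intro W hW
    have h1 : Stable (π.ρ.comp (inc 𝔽 none)) (W.map (orb (π.ρ.comp (inc 𝔽 none)) f).subtype) := by
      rintro g _ ⟨x, hx, rfl⟩
      exact ⟨_, hW g x hx, rfl⟩
    rcases h.irr _ h1 (Submodule.map_subtype_le _ _) with h2 | h2
    · left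
      rw [eq_bot_iff]
      intro x hx
      have h3 : (x : π.V) ∈ W.map (orb (π.ρ.comp (inc 𝔽 none)) f).subtype := ⟨x, hx, rfl⟩
      rw [h2] at h3
      exact (Submodule.mem_bot ℂ).2 (Subtype.ext ((Submodule.mem_bot ℂ).1 h3))
    · right
      rw [eq_top_iff]
      intro x _
      obtain ⟨y, hy, hxy⟩ := h2 x.2
      have : y = x := Subtype.ext hxy
      rw [← this]; exact hy
  smooth := by
    intro x
    have h1 := smooth_loc π.ρ none (π.smooth (x : π.V))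
    have h2 : {g : GLv 𝔽 none | subRep (π.ρ.comp (inc 𝔽 none)) _ (orb_stable _ f) g x = x} =
        {g : GLv 𝔽 none | (π.ρ.comp (inc 𝔽 none)) g (x : π.V) = x} := by
      ext g
      exact ⟨fun h => congrArg Subtype.val h, fun h => Subtype.ext h⟩
    rw [h2]; exact h1

lemma locIrrep_component (π : Irrep (GA 𝔽)) (f : π.V) (h : Gen π f) :
    IsLocalComponent π none (locIrrep π f h) :=
  ⟨(orb (π.ρ.comp (inc 𝔽 none)) f).subtype, Subtype.val_injective, fun _ _ => rfl⟩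

lemma locIrrep_iso {π₁ π₂ : Irrep (GA 𝔽)} {f₁ : π₁.V} {f₂ : π₂.V} (h₁ : Gen π₁ f₁)
    (h₂ : Gen π₂ f₂) : (locIrrep π₁ f₁ h₁).Iso (locIrrep π₂ f₂ h₂) := by
  refine orb_iso _ _ (filt_loc π₁.ρ π₁.smooth none (Iw_le_KO _) (KN_le_Iw _ le_rfl))
    (filt_loc π₂.ρ π₂.smooth none (Iw_le_KO _) (KN_le_Iw _ le_rfl)) h₁.ne h₂.ne h₁.rel.iw
    h₂.rel.iw ?_ h₁.irr h₂.irr
  intro g
  obtain ⟨c, hc⟩ := iw_scalar (par (𝔽 := 𝔽) none) g
  exact ⟨c, hc π₁.V _ f₁ h₁.rel, hc π₂.V _ f₂ h₂.rel⟩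

/-- an irreducible representation is generated by any nonzero vector -/
lemma orb_top {π : Irrep (GA 𝔽)} {f : π.V} (hf : f ≠ 0) : orb π.ρ f = ⊤ := by
  rcases irr_cases π.irreducible _ (orb_stable π.ρ f) with h | h
  · exfalso
    apply hf
    have := self_mem_orb π.ρ f
    rw [h] at this
    exact (Submodule.mem_bot ℂ).1 this
  · exact h

lemma coinv_comm {V : Type} [AddCommGroup V] [Module ℂ V] {ρ : Representation ℂ (GA 𝔽) V}
    {v : Place 𝔽} {U : Subgroup (GLv 𝔽 v)} {c : GA 𝔽}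
    (hc : ∀ k, c * inc 𝔽 v k = inc 𝔽 v k * c) {x : V} (hx : x ∈ coinv (ρ.comp (inc 𝔽 v)) U) :
    ρ c x ∈ coinv (ρ.comp (inc 𝔽 v)) U := by
  induction hx using Submodule.span_induction with
  | mem y hy =>
    obtain ⟨u, hu, x, rfl⟩ := hy
    have : ρ c ((ρ.comp (inc 𝔽 v)) u x - x) = (ρ.comp (inc 𝔽 v)) u (ρ c x) - ρ c x := by
      rw [map_sub]
      congr 1
      show ρ c (ρ (inc 𝔽 v u) x) = ρ (inc 𝔽 v u) (ρ c x)
      rw [← rho_mul, ← rho_mul, hc]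
    rw [this]
    exact sub_mem_coinv _ hu _
  | zero => rw [map_zero]; exact zero_mem _
  | add x y _ _ hx hy => rw [map_add]; exact add_mem hx hy
  | smul c x _ hx => rw [map_smul]; exact Submodule.smul_mem _ _ hx

/-- no spherical vectors -/
lemma Gen.no_spherical {π : Irrep (GA 𝔽)} {f : π.V} (h : Gen π f) {x : π.V}
    (hx : ∀ k ∈ GLO 𝔽 none, π.ρ (inc 𝔽 none k) x = x) : x = 0 := by
  have hF := filt_loc π.ρ π.smooth none (U := GLO 𝔽 none) le_rfl (m₀ := 0) (KN_le_KO _ 0)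
  refine hF.eq_zero hx ?_
  have h1 : orb π.ρ f ≤ coinv (π.ρ.comp (inc 𝔽 none)) (GLO 𝔽 none) := by
    refine Submodule.span_le.2 ?_
    rintro _ ⟨a, rfl⟩
    obtain ⟨c, g, rfl, hc⟩ := inc_fac none a
    show π.ρ (c * inc 𝔽 none g) f ∈ _
    rw [rho_mul]
    refine coinv_comm hc ?_
    obtain ⟨s, hs⟩ := iw_scalar (par (𝔽 := 𝔽) none) g
    have h2 := coinv_mono _ (Iw_le_KO _) (hs π.V _ f h.rel)
    have h3 := Submodule.smul_mem _ s h.rel.ko_zero
    have h4 := add_mem h2 h3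
    rwa [sub_add_cancel] at h4
  rw [orb_top h.ne] at h1
  exact h1 trivial

/-- triviality of the action of `GL₂(K_v)` -/
lemma triv_action {π : Irrep (GA 𝔽)} {f : π.V} (hf : f ≠ 0) {v : Place 𝔽}
    (hfix : ∀ k ∈ GLO 𝔽 v, π.ρ (inc 𝔽 v k) f = f)
    (h : ∀ g, π.ρ (inc 𝔽 v g) f - f ∈ coinv (π.ρ.comp (inc 𝔽 v)) (GLO 𝔽 v))
    (g : GLv 𝔽 v) (x : π.V) : π.ρ (inc 𝔽 v g) x = x := by
  have hF := filt_loc π.ρ π.smooth v (U := GLO 𝔽 v) le_rfl (m₀ := 0) (KN_le_KO _ 0)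
  let D : Submodule ℂ π.V := Submodule.span ℂ {y | ∃ a g, y = π.ρ a (π.ρ (inc 𝔽 v g) f - f)}
  have hD : Stable π.ρ D := by
    intro a x hx
    induction hx using Submodule.span_induction with
    | mem y hy =>
      obtain ⟨b, g, rfl⟩ := hy
      rw [← rho_mul]
      exact Submodule.subset_span ⟨a * b, g, rfl⟩
    | zero => rw [map_zero]; exact zero_mem _
    | add x y _ _ hx hy => rw [map_add]; exact add_mem hx hy
    | smul c x _ hx => rw [map_smul]; exact Submodule.smul_mem _ _ hx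
  have hDc : D ≤ coinv (π.ρ.comp (inc 𝔽 v)) (GLO 𝔽 v) := by
    refine Submodule.span_le.2 ?_
    rintro _ ⟨a, g, rfl⟩
    obtain ⟨c, b, rfl, hc⟩ := inc_fac v a
    rw [rho_mul]
    refine coinv_comm hc ?_
    have h1 : π.ρ (inc 𝔽 v b) (π.ρ (inc 𝔽 v g) f - f) =
        (π.ρ (inc 𝔽 v (b * g)) f - f) - (π.ρ (inc 𝔽 v b) f - f) := by
      rw [map_sub, ← rho_mul, ← map_mul]; abel
    rw [h1]
    exact sub_mem (h _) (h _)
  have hD0 : D = ⊥ := by
    rcases irr_cases π.irreducible D hD with h1 | h1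
    · exact h1
    · exfalso
      apply hf
      refine hF.eq_zero hfix (hDc ?_)
      rw [h1]; trivial
  have key : ∀ a g, π.ρ a (π.ρ (inc 𝔽 v g) f - f) = 0 := by
    intro a g
    have : π.ρ a (π.ρ (inc 𝔽 v g) f - f) ∈ D := Submodule.subset_span ⟨a, g, rfl⟩
    rw [hD0] at this
    exact (Submodule.mem_bot ℂ).1 this
  have hx : x ∈ orb π.ρ f := by rw [orb_top hf]; trivial
  induction hx using Submodule.span_induction with
  | mem y hy =>
    obtain ⟨a, rfl⟩ := hy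
    obtain ⟨c, b, rfl, hc⟩ := inc_fac v a
    show π.ρ (inc 𝔽 v g) (π.ρ (c * inc 𝔽 v b) f) = π.ρ (c * inc 𝔽 v b) f
    have h1 := key c (g * b)
    have h2 := key c b
    rw [map_sub, sub_eq_zero, ← rho_mul] at h1 h2
    rw [← rho_mul, ← mul_assoc, ← hc, mul_assoc, ← map_mul, h1, h2]
  | zero => exact map_zero _
  | add x y _ _ hx hy => rw [map_add, hx, hy]
  | smul c x _ hx => rw [map_smul, hx]

end Pool.Agent.Helper37.LL
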