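import Pool.Agent.Helper37.LL.Adm

/-!
# Irreducible quotients and irreducible local components
-/

set_option autoImplicit false

namespace Pool.Agent.Helper37.LL

section

variable {G V : Type*} [Group G] [AddCommGroup V] [Module ℂ V]

/-- stability of a subspace -/
def Stable (ρ : Representation ℂ G V) (W : Submodule ℂ V) : Prop := ∀ g, ∀ x ∈ W, ρ g x ∈ W

lemma irr_of {ρ : Representation ℂ G V} (h0 : ∃ x : V, x ≠ 0)
    (h : ∀ W : Submodule ℂ V, Stable ρ W → W = ⊥ ∨ W = ⊤) : ρ.IsIrreducible := by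
  obtain ⟨x, hx⟩ := h0
  haveI : Nontrivial (Subrepresentation ρ) := by
    refine ⟨⊥, ⊤, fun he => hx ?_⟩
    have h1 : x ∈ (⊤ : Subrepresentation ρ).toSubmodule := Submodule.mem_top
    rw [← he] at h1
    exact (Submodule.mem_bot ℂ).1 h1
  refine IsSimpleOrder.mk (fun W => ?_)
  rcases h W.toSubmodule (fun g x hx => W.apply_mem_toSubmodule g hx) with h1 | h1
  · left; exact Subrepresentation.toSubmodule_injective h1
  · right; exact Subrepresentation.toSubmodule_injective h1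

lemma irr_cases {ρ : Representation ℂ G V} (hρ : ρ.IsIrreducible) (W : Submodule ℂ V)
    (hW : Stable ρ W) : W = ⊥ ∨ W = ⊤ := by
  haveI := hρ
  rcases IsSimpleOrder.eq_bot_or_eq_top (⟨W, fun g x hx => hW g x hx⟩ : Subrepresentation ρ)
    with h | h
  · left; exact congrArg Subrepresentation.toSubmodule h
  · right; exact congrArg Subrepresentation.toSubmodule h

lemma irr_ne {ρ : Representation ℂ G V} (hρ : ρ.IsIrreducible) : ∃ x : V, x ≠ 0 := by
  haveI := hρ
  by_contra h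
  push_neg at h
  have : (⊥ : Subrepresentation ρ) = ⊤ := by
    apply Subrepresentation.toSubmodule_injective
    apply le_antisymm bot_le
    intro x _
    exact (Submodule.mem_bot ℂ).2 (h x)
  exact bot_ne_top this

/-- span of the orbit of a vector -/
def orb (ρ : Representation ℂ G V) (f : V) : Submodule ℂ V :=
  Submodule.span ℂ (Set.range fun g => ρ g f)

lemma mem_orb (ρ : Representation ℂ G V) (f : V) (g : G) : ρ g f ∈ orb ρ f :=
  Submodule.subset_span ⟨g, rfl⟩

lemma self_mem_orb (ρ : Representation ℂ G V) (f : V) : f ∈ orb ρ f := by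
  have := mem_orb ρ f 1
  simpa using this

lemma orb_stable (ρ : Representation ℂ G V) (f : V) : Stable ρ (orb ρ f) := by
  intro g x hx
  induction hx using Submodule.span_induction with
  | mem y hy =>
    obtain ⟨h, rfl⟩ := hy
    show ρ g (ρ h f) ∈ _
    rw [← rho_mul]; exact mem_orb ρ f _
  | zero => rw [map_zero]; exact zero_mem _
  | add x y _ _ hx hy => rw [map_add]; exact add_mem hx hy
  | smul c x _ hx => rw [map_smul]; exact Submodule.smul_mem _ _ hx

/-- Existence of a maximal stable subspace not containing `f`. -/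
lemma exists_max (ρ : Representation ℂ G V) (f : V) (C : Submodule ℂ V) (hC : Stable ρ C)
    (hf : f ∉ C) : ∃ U : Submodule ℂ V, Stable ρ U ∧ C ≤ U ∧ f ∉ U ∧
      ∀ W : Submodule ℂ V, Stable ρ W → U ≤ W → f ∉ W → W = U := by
  let S : Set (Submodule ℂ V) := {U | Stable ρ U ∧ C ≤ U ∧ f ∉ U}
  obtain ⟨U, hCU, hU⟩ := zorn_le_nonempty₀ S (by
    intro c hc hchain y hy
    refine ⟨sSup c, ⟨?_, ?_, ?_⟩, fun z hz => le_sSup hz⟩
    · intro g x hx
      rw [Submodule.mem_sSup_of_directed ⟨y, hy⟩ hchain.directedOn] at hx ⊢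
      obtain ⟨W, hW, hxW⟩ := hx
      exact ⟨W, hW, (hc hW).1 g x hxW⟩
    · exact (hc hy).2.1.trans (le_sSup hy)
    · intro hx
      rw [Submodule.mem_sSup_of_directed ⟨y, hy⟩ hchain.directedOn] at hx
      obtain ⟨W, hW, hxW⟩ := hx
      exact (hc hW).2.2 hxW) C ⟨hC, le_rfl, hf⟩
  refine ⟨U, hU.prop.1, hU.prop.2.1, hU.prop.2.2, ?_⟩
  intro W hW hUW hfW
  exact le_antisymm (hU.le_of_ge ⟨hW, hU.prop.2.1.trans hUW, hfW⟩ hUW) hUW

/-- The quotient by a maximal stable subspace not containing the generator `f` is irreducible. -/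
lemma quot_irr (ρ : Representation ℂ G V) (f : V) (U : Submodule ℂ V) (hU : Stable ρ U)
    (hfU : f ∉ U) (hmax : ∀ W : Submodule ℂ V, Stable ρ W → U ≤ W → f ∉ W → W = U)
    (hgen : orb ρ f ⊔ U = ⊤) : (ρ.quotient U (fun g x hx => hU g x hx)).IsIrreducible := by
  refine irr_of ⟨U.mkQ f, fun h => hfU ((Submodule.Quotient.mk_eq_zero U).1 h)⟩ ?_
  intro W hW
  have hs : Stable ρ (W.comap U.mkQ) := by
    intro g x hx
    exact hW g _ hx
  have hle : U ≤ W.comap U.mkQ := by
    intro x hx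
    show U.mkQ x ∈ W
    rw [show U.mkQ x = 0 from (Submodule.Quotient.mk_eq_zero U).2 hx]
    exact zero_mem _
  by_cases hf : f ∈ W.comap U.mkQ
  · right
    have h1 : orb ρ f ≤ W.comap U.mkQ := by
      refine Submodule.span_le.2 ?_
      rintro y ⟨g, rfl⟩
      exact hs g f hf
    have h2 : W.comap U.mkQ = ⊤ := eq_top_iff.2 (hgen ▸ sup_le h1 hle)
    rw [eq_top_iff]
    intro y _
    obtain ⟨x, rfl⟩ := Submodule.mkQ_surjective U y
    have : x ∈ W.comap U.mkQ := by rw [h2]; trivial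
    exact this
  · left
    have h1 := hmax _ hs hle hf
    rw [eq_bot_iff]
    intro y hy
    obtain ⟨x, rfl⟩ := Submodule.mkQ_surjective U y
    have : x ∈ W.comap U.mkQ := hy
    rw [h1] at this
    exact (Submodule.mem_bot ℂ).2 ((Submodule.Quotient.mk_eq_zero U).2 this)

end

section

variable {A G V : Type*} [Group A] [Group G] [AddCommGroup V] [Module ℂ V]

/-- Local irreducibility. -/
lemma local_irr (ρ : Representation ℂ A V) (hρ : ρ.IsIrreducible) (ι : G →* A)
    (hfac : ∀ a : A, ∃ (c : A) (h : G), a = c * ι h ∧ ∀ k, c * ι k = ι k * c)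
    {I : Subgroup G} {N : ℕ → Subgroup G} (hF : Filt (ρ.comp ι) I N) {f : V} (hf0 : f ≠ 0)
    (hf : ∀ u ∈ I, ρ (ι u) f = f)
    (hsc : ∀ h, ∃ c : ℂ, ρ (ι h) f - c • f ∈ coinv (ρ.comp ι) I)
    (W : Submodule ℂ V) (hW : Stable (ρ.comp ι) W) (hWf : W ≤ orb (ρ.comp ι) f) :
    W = ⊥ ∨ orb (ρ.comp ι) f ≤ W := by
  classical
  -- every element of the orbit span is `c f` modulo coinv
  have h1 : ∀ x ∈ orb (ρ.comp ι) f, ∃ c : ℂ, x - c • f ∈ coinv (ρ.comp ι) I := by
    intro x hx
    induction hx using Submodule.span_induction with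
    | mem y hy =>
      obtain ⟨h, rfl⟩ := hy
      exact hsc h
    | zero => exact ⟨0, by simp⟩
    | add x y _ _ hx hy =>
      obtain ⟨c, hc⟩ := hx
      obtain ⟨d, hd⟩ := hy
      refine ⟨c + d, ?_⟩
      have : x + y - (c + d) • f = (x - c • f) + (y - d • f) := by rw [add_smul]; abel
      rw [this]; exact add_mem hc hd
    | smul a x _ hx =>
      obtain ⟨c, hc⟩ := hx
      refine ⟨a * c, ?_⟩
      have : a • x - (a * c) • f = a • (x - c • f) := by rw [smul_sub, smul_smul]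
      rw [this]; exact Submodule.smul_mem _ _ hc
  by_cases h2 : ∀ x ∈ W, x ∈ coinv (ρ.comp ι) I
  · left
    -- the span of all translates of W
    let W' : Submodule ℂ V := Submodule.span ℂ {y | ∃ a : A, ∃ x ∈ W, y = ρ a x}
    have hs : Stable ρ W' := by
      intro g x hx
      induction hx using Submodule.span_induction with
      | mem y hy =>
        obtain ⟨a, x, hx, rfl⟩ := hy
        rw [← rho_mul]
        exact Submodule.subset_span ⟨g * a, x, hx, rfl⟩
      | zero => rw [map_zero]; exact zero_mem _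
      | add x y _ _ hx hy => rw [map_add]; exact add_mem hx hy
      | smul c x _ hx => rw [map_smul]; exact Submodule.smul_mem _ _ hx
    have hc : W' ≤ coinv (ρ.comp ι) I := by
      refine Submodule.span_le.2 ?_
      rintro y ⟨a, x, hx, rfl⟩
      obtain ⟨c, h, rfl, hcomm⟩ := hfac a
      rw [rho_mul]
      have h3 := h2 _ (hW h x hx)
      -- apply c
      have h4 : ∀ z ∈ coinv (ρ.comp ι) I, ρ c z ∈ coinv (ρ.comp ι) I := by
        intro z hz
        induction hz using Submodule.span_induction with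
        | mem y hy =>
          obtain ⟨u, hu, x, rfl⟩ := hy
          have : ρ c ((ρ.comp ι) u x - x) = (ρ.comp ι) u (ρ c x) - ρ c x := by
            rw [map_sub]
            congr 1
            show ρ c (ρ (ι u) x) = ρ (ι u) (ρ c x)
            rw [← rho_mul, ← rho_mul, hcomm]
          rw [this]
          exact sub_mem_coinv _ hu _
        | zero => rw [map_zero]; exact zero_mem _
        | add x y _ _ hx hy => rw [map_add]; exact add_mem hx hy
        | smul c x _ hx => rw [map_smul]; exact Submodule.smul_mem _ _ hx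
      exact h4 _ h3
    have hfW : f ∉ W' := fun h => hf0 (hF.eq_zero hf (hc h))
    rcases irr_cases hρ W' hs with h5 | h5
    · rw [eq_bot_iff]
      intro x hx
      have h6 : x ∈ W' := Submodule.subset_span ⟨1, x, hx, by simp⟩
      rw [h5] at h6
      exact h6
    · exact absurd (h5 ▸ Submodule.mem_top) hfW
  · right
    push_neg at h2
    obtain ⟨x, hxW, hx⟩ := h2
    obtain ⟨c, hc⟩ := h1 x (hWf hxW)
    have hc0 : c ≠ 0 := by
      rintro rfl
      apply hx
      simpa using hc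
    have h3 : c • f ∈ W := by
      refine hF.mem_of_sub_mem (W := W) (fun u _ x hx => hW u x hx) ?_ hxW hc
      intro u hu
      rw [map_smul, show (ρ.comp ι) u f = f from hf u hu]
    have h4 : f ∈ W := by
      have := W.smul_mem c⁻¹ h3
      rwa [smul_smul, inv_mul_cancel₀ hc0, one_smul] at this
    refine Submodule.span_le.2 ?_
    rintro y ⟨g, rfl⟩
    exact hW g f h4

end

section

variable {G V₁ V₂ : Type*} [Group G] [AddCommGroup V₁] [Module ℂ V₁] [AddCommGroup V₂]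
  [Module ℂ V₂]

/-- the restricted representation on a stable subspace -/
def subRep (ρ : Representation ℂ G V₁) (W : Submodule ℂ V₁) (hW : Stable ρ W) :
    Representation ℂ G W :=
  (⟨W, fun g x hx => hW g x hx⟩ : Subrepresentation ρ).toRepresentation

@[simp] lemma subRep_coe (ρ : Representation ℂ G V₁) (W : Submodule ℂ V₁) (hW : Stable ρ W)
    (g : G) (x : W) : ((subRep ρ W hW g x : W) : V₁) = ρ g x := rfl

/-- product representation -/
def prodRep (ρ₁ : Representation ℂ G V₁) (ρ₂ : Representation ℂ G V₂) :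
    Representation ℂ G (V₁ × V₂) where
  toFun g := (ρ₁ g).prodMap (ρ₂ g)
  map_one' := by
    rw [map_one, map_one]; rfl
  map_mul' g h := by
    rw [map_mul, map_mul]; rfl

@[simp] lemma prodRep_apply (ρ₁ : Representation ℂ G V₁) (ρ₂ : Representation ℂ G V₂) (g : G)
    (x : V₁ × V₂) : prodRep ρ₁ ρ₂ g x = (ρ₁ g x.1, ρ₂ g x.2) := rfl

lemma coinv_inl (ρ₁ : Representation ℂ G V₁) (ρ₂ : Representation ℂ G V₂) {I : Subgroup G}
    {x : V₁} (hx : x ∈ coinv ρ₁ I) : ((x, 0) : V₁ × V₂) ∈ coinv (prodRep ρ₁ ρ₂) I := by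
  induction hx using Submodule.span_induction with
  | mem y hy =>
    obtain ⟨u, hu, x, rfl⟩ := hy
    have : ((ρ₁ u x - x, 0) : V₁ × V₂) = prodRep ρ₁ ρ₂ u (x, 0) - (x, 0) := by
      simp
    rw [this]; exact sub_mem_coinv _ hu _
  | zero => exact zero_mem _
  | add x y _ _ hx hy =>
    have : ((x + y, 0) : V₁ × V₂) = (x, 0) + (y, 0) := by simp
    rw [this]; exact add_mem hx hy
  | smul c x _ hx =>
    have : ((c • x, 0) : V₁ × V₂) = c • (x, 0) := by simp
    rw [this]; exact Submodule.smul_mem _ _ hx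

lemma coinv_inr (ρ₁ : Representation ℂ G V₁) (ρ₂ : Representation ℂ G V₂) {I : Subgroup G}
    {x : V₂} (hx : x ∈ coinv ρ₂ I) : ((0, x) : V₁ × V₂) ∈ coinv (prodRep ρ₁ ρ₂) I := by
  induction hx using Submodule.span_induction with
  | mem y hy =>
    obtain ⟨u, hu, x, rfl⟩ := hy
    have : ((0, ρ₂ u x - x) : V₁ × V₂) = prodRep ρ₁ ρ₂ u (0, x) - (0, x) := by
      simp
    rw [this]; exact sub_mem_coinv _ hu _
  | zero => exact zero_mem _
  | add x y _ _ hx hy =>
    have : ((0, x + y) : V₁ × V₂) = (0, x) + (0, y) := by simp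
    rw [this]; exact add_mem hx hy
  | smul c x _ hx =>
    have : ((0, c • x) : V₁ × V₂) = c • (0, x) := by simp
    rw [this]; exact Submodule.smul_mem _ _ hx

/-- Two vectors with the same Hecke scalars generate isomorphic representations, if these are
irreducible. -/
lemma orb_iso (ρ₁ : Representation ℂ G V₁) (ρ₂ : Representation ℂ G V₂)
    {I : Subgroup G} {N : ℕ → Subgroup G} (hF₁ : Filt ρ₁ I N) (hF₂ : Filt ρ₂ I N)
    {f₁ : V₁} {f₂ : V₂} (h₁ : f₁ ≠ 0) (h₂ : f₂ ≠ 0)
    (hf₁ : ∀ u ∈ I, ρ₁ u f₁ = f₁) (hf₂ : ∀ u ∈ I, ρ₂ u f₂ = f₂)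
    (hsc : ∀ h, ∃ c : ℂ, ρ₁ h f₁ - c • f₁ ∈ coinv ρ₁ I ∧ ρ₂ h f₂ - c • f₂ ∈ coinv ρ₂ I)
    (hirr₁ : ∀ W : Submodule ℂ V₁, Stable ρ₁ W → W ≤ orb ρ₁ f₁ → W = ⊥ ∨ orb ρ₁ f₁ ≤ W)
    (hirr₂ : ∀ W : Submodule ℂ V₂, Stable ρ₂ W → W ≤ orb ρ₂ f₂ → W = ⊥ ∨ orb ρ₂ f₂ ≤ W) :
    ∃ e : orb ρ₁ f₁ ≃ₗ[ℂ] orb ρ₂ f₂, ∀ g x,
      e (subRep ρ₁ _ (orb_stable ρ₁ f₁) g x) = subRep ρ₂ _ (orb_stable ρ₂ f₂) g (e x) := by
  set ρ := prodRep ρ₁ ρ₂ with hρ
  have hF : Filt ρ I N :=
    { anti := hF₁.anti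
      le := hF₁.le
      normal := hF₁.normal
      fin := hF₁.fin
      fix := by
        intro x
        obtain ⟨m₁, hm₁⟩ := hF₁.fix x.1
        obtain ⟨m₂, hm₂⟩ := hF₂.fix x.2
        refine ⟨max m₁ m₂, fun n hn => ?_⟩
        rw [hρ, prodRep_apply, hm₁ n (hF₁.anti (le_max_left _ _) hn),
          hm₂ n (hF₁.anti (le_max_right _ _) hn)] }
  set D := orb ρ (f₁, f₂) with hD
  have hDfix : ∀ u ∈ I, ρ u (f₁, f₂) = (f₁, f₂) := by
    intro u hu
    rw [hρ, prodRep_apply, hf₁ u hu, hf₂ u hu]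
  have hDsc : ∀ x ∈ D, ∃ c : ℂ, x - c • (f₁, f₂) ∈ coinv ρ I := by
    intro x hx
    induction hx using Submodule.span_induction with
    | mem y hy =>
      obtain ⟨h, rfl⟩ := hy
      obtain ⟨c, hc₁, hc₂⟩ := hsc h
      refine ⟨c, ?_⟩
      have : ρ h (f₁, f₂) - c • (f₁, f₂) = (ρ₁ h f₁ - c • f₁, 0) + (0, ρ₂ h f₂ - c • f₂) := by
        rw [hρ, prodRep_apply]; simp
      show ρ h (f₁, f₂) - c • (f₁, f₂) ∈ _
      rw [this]
      exact add_mem (coinv_inl ρ₁ ρ₂ hc₁) (coinv_inr ρ₁ ρ₂ hc₂)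
    | zero => exact ⟨0, by simp⟩
    | add x y _ _ hx hy =>
      obtain ⟨c, hc⟩ := hx
      obtain ⟨d, hd⟩ := hy
      refine ⟨c + d, ?_⟩
      have : x + y - (c + d) • (f₁, f₂) = (x - c • (f₁, f₂)) + (y - d • (f₁, f₂)) := by
        rw [add_smul]; abel
      rw [this]; exact add_mem hc hd
    | smul a x _ hx =>
      obtain ⟨c, hc⟩ := hx
      refine ⟨a * c, ?_⟩
      have : a • x - (a * c) • (f₁, f₂) = a • (x - c • (f₁, f₂)) := by rw [smul_sub, smul_smul]
      rw [this]; exact Submodule.smul_mem _ _ hc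
  -- an element of D fixed by I is a multiple of (f₁,f₂)
  have hDfixed : ∀ x ∈ D, (∀ u ∈ I, ρ u x = x) → ∃ c : ℂ, x = c • (f₁, f₂) := by
    intro x hx hfix
    obtain ⟨c, hc⟩ := hDsc x hx
    refine ⟨c, ?_⟩
    have h3 : x - c • (f₁, f₂) = 0 := by
      refine hF.eq_zero ?_ hc
      intro u hu
      rw [map_sub, map_smul, hfix u hu, hDfix u hu]
    exact sub_eq_zero.1 h3
  have hDs : Stable ρ D := orb_stable ρ _
  have hD1 : ∀ x ∈ D, x.1 ∈ orb ρ₁ f₁ := by
    intro x hx
    induction hx using Submodule.span_induction with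
    | mem y hy => obtain ⟨h, rfl⟩ := hy; exact mem_orb ρ₁ f₁ h
    | zero => exact zero_mem _
    | add x y _ _ hx hy => exact add_mem hx hy
    | smul c x _ hx => exact Submodule.smul_mem _ _ hx
  have hD2 : ∀ x ∈ D, x.2 ∈ orb ρ₂ f₂ := by
    intro x hx
    induction hx using Submodule.span_induction with
    | mem y hy => obtain ⟨h, rfl⟩ := hy; exact mem_orb ρ₂ f₂ h
    | zero => exact zero_mem _
    | add x y _ _ hx hy => exact add_mem hx hy
    | smul c x _ hx => exact Submodule.smul_mem _ _ hx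
  have hinj1 : ∀ x ∈ D, x.1 = 0 → x = 0 := by
    intro x hx hx1
    let W : Submodule ℂ V₂ := D.comap (LinearMap.inr ℂ V₁ V₂)
    have hWs : Stable ρ₂ W := by
      intro g y hy
      have h3 : ρ g (0, y) ∈ D := hDs g _ hy
      rw [hρ, prodRep_apply, map_zero] at h3
      exact h3
    have hWle : W ≤ orb ρ₂ f₂ := fun y hy => hD2 _ hy
    rcases hirr₂ W hWs hWle with h3 | h3
    · have h4 : x.2 ∈ W := by
        show (0, x.2) ∈ D
        rw [← hx1]; exact hx
      rw [h3] at h4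
      exact Prod.ext hx1 h4
    · have h4 : ((0, f₂) : V₁ × V₂) ∈ D := h3 (self_mem_orb ρ₂ f₂)
      obtain ⟨c, hc⟩ := hDfixed _ h4 (by
        intro u hu; rw [hρ, prodRep_apply, map_zero, hf₂ u hu])
      have h5 := congrArg Prod.fst hc
      have h6 := congrArg Prod.snd hc
      simp only [Prod.smul_fst, Prod.smul_snd] at h5 h6
      rcases smul_eq_zero.1 h5.symm with h7 | h7
      · rw [h7, zero_smul] at h6; exact absurd h6 h₂
      · exact absurd h7 h₁
  have hinj2 : ∀ x ∈ D, x.2 = 0 → x = 0 := by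
    intro x hx hx1
    let W : Submodule ℂ V₁ := D.comap (LinearMap.inl ℂ V₁ V₂)
    have hWs : Stable ρ₁ W := by
      intro g y hy
      have h3 : ρ g (y, 0) ∈ D := hDs g _ hy
      rw [hρ, prodRep_apply, map_zero] at h3
      exact h3
    have hWle : W ≤ orb ρ₁ f₁ := fun y hy => hD1 _ hy
    rcases hirr₁ W hWs hWle with h3 | h3
    · have h4 : x.1 ∈ W := by
        show (x.1, 0) ∈ D
        rw [← hx1]; exact hx
      rw [h3] at h4
      exact Prod.ext h4 hx1
    · have h4 : ((f₁, 0) : V₁ × V₂) ∈ D := h3 (self_mem_orb ρ₁ f₁)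
      obtain ⟨c, hc⟩ := hDfixed _ h4 (by
        intro u hu; rw [hρ, prodRep_apply, map_zero, hf₁ u hu])
      have h5 := congrArg Prod.fst hc
      have h6 := congrArg Prod.snd hc
      simp only [Prod.smul_fst, Prod.smul_snd] at h5 h6
      rcases smul_eq_zero.1 h6.symm with h7 | h7
      · rw [h7, zero_smul] at h5; exact absurd h5 h₁
      · exact absurd h7 h₂
  let p₁ : D →ₗ[ℂ] orb ρ₁ f₁ :=
    LinearMap.codRestrict _ ((LinearMap.fst ℂ V₁ V₂).comp D.subtype) (fun x => hD1 x x.2)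
  let p₂ : D →ₗ[ℂ] orb ρ₂ f₂ :=
    LinearMap.codRestrict _ ((LinearMap.snd ℂ V₁ V₂).comp D.subtype) (fun x => hD2 x x.2)
  have hp₁ : Function.Bijective p₁ := by
    constructor
    · rw [← LinearMap.ker_eq_bot, LinearMap.ker_eq_bot']
      intro x hx
      exact Subtype.ext (hinj1 x x.2 (congrArg Subtype.val hx))
    · rintro ⟨y, hy⟩
      have : ∃ x ∈ D, x.1 = y := by
        induction hy using Submodule.span_induction with
        | mem y hy => obtain ⟨h, rfl⟩ := hy; exact ⟨ρ h (f₁, f₂), mem_orb ρ _ h, rfl⟩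
        | zero => exact ⟨0, zero_mem _, rfl⟩
        | add x y _ _ hx hy =>
          obtain ⟨a, ha, rfl⟩ := hx
          obtain ⟨b, hb, rfl⟩ := hy
          exact ⟨a + b, add_mem ha hb, rfl⟩
        | smul c x _ hx =>
          obtain ⟨a, ha, rfl⟩ := hx
          exact ⟨c • a, Submodule.smul_mem _ _ ha, rfl⟩
      obtain ⟨x, hx, hxy⟩ := this
      exact ⟨⟨x, hx⟩, Subtype.ext hxy⟩
  have hp₂ : Function.Bijective p₂ := by
    constructor
    · rw [← LinearMap.ker_eq_bot, LinearMap.ker_eq_bot']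
      intro x hx
      exact Subtype.ext (hinj2 x x.2 (congrArg Subtype.val hx))
    · rintro ⟨y, hy⟩
      have : ∃ x ∈ D, x.2 = y := by
        induction hy using Submodule.span_induction with
        | mem y hy => obtain ⟨h, rfl⟩ := hy; exact ⟨ρ h (f₁, f₂), mem_orb ρ _ h, rfl⟩
        | zero => exact ⟨0, zero_mem _, rfl⟩
        | add x y _ _ hx hy =>
          obtain ⟨a, ha, rfl⟩ := hx
          obtain ⟨b, hb, rfl⟩ := hy
          exact ⟨a + b, add_mem ha hb, rfl⟩
        | smul c x _ hx =>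
          obtain ⟨a, ha, rfl⟩ := hx
          exact ⟨c • a, Submodule.smul_mem _ _ ha, rfl⟩
      obtain ⟨x, hx, hxy⟩ := this
      exact ⟨⟨x, hx⟩, Subtype.ext hxy⟩
  refine ⟨(LinearEquiv.ofBijective p₁ hp₁).symm.trans (LinearEquiv.ofBijective p₂ hp₂), ?_⟩
  intro g x
  obtain ⟨d, rfl⟩ := hp₁.2 x
  have h3 : subRep ρ₁ _ (orb_stable ρ₁ f₁) g (p₁ d) = p₁ (subRep ρ D hDs g d) := rfl
  have h4 : subRep ρ₂ _ (orb_stable ρ₂ f₂) g (p₂ d) = p₂ (subRep ρ D hDs g d) := rfl
  have h5 : ∀ d : D, (LinearEquiv.ofBijective p₁ hp₁).symm (p₁ d) = d := by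
    intro d
    rw [LinearEquiv.symm_apply_eq]; rfl
  rw [h3, LinearEquiv.trans_apply, LinearEquiv.trans_apply, h5, h5]
  exact h4.symm

end

end Pool.Agent.Helper37.LL
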