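import Pool.Agent.Helper37.LL.Spec

/-!
# GL₂ over a discretely valued field: subgroups and decompositions
-/

set_option autoImplicit false

open WithZero Matrix

namespace Pool.Agent.Helper37.LL

section

variable {F : Type*} [Field F]

/-- element of `GL₂` from its entries -/
noncomputable def mk2 (a b c d : F) (h : a * d - b * c ≠ 0) : GL (Fin 2) F :=
  Matrix.GeneralLinearGroup.mkOfDetNeZero !![a, b; c, d] (by rwa [Matrix.det_fin_two_of])

@[simp] lemma mk2_00 (a b c d : F) (h) : (mk2 a b c d h) 0 0 = a := rfl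
@[simp] lemma mk2_01 (a b c d : F) (h) : (mk2 a b c d h) 0 1 = b := rfl
@[simp] lemma mk2_10 (a b c d : F) (h) : (mk2 a b c d h) 1 0 = c := rfl
@[simp] lemma mk2_11 (a b c d : F) (h) : (mk2 a b c d h) 1 1 = d := rfl

lemma gl_ext {g h : GL (Fin 2) F} (h00 : g 0 0 = h 0 0) (h01 : g 0 1 = h 0 1)
    (h10 : g 1 0 = h 1 0) (h11 : g 1 1 = h 1 1) : g = h := by
  apply Matrix.GeneralLinearGroup.ext
  intro i j
  fin_cases i <;> fin_cases j
  · exact h00
  · exact h01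
  · exact h10
  · exact h11

lemma mul_00 (g h : GL (Fin 2) F) : (g * h) 0 0 = g 0 0 * h 0 0 + g 0 1 * h 1 0 := by
  rw [Matrix.GeneralLinearGroup.coe_mul, Matrix.mul_apply, Fin.sum_univ_two]
lemma mul_01 (g h : GL (Fin 2) F) : (g * h) 0 1 = g 0 0 * h 0 1 + g 0 1 * h 1 1 := by
  rw [Matrix.GeneralLinearGroup.coe_mul, Matrix.mul_apply, Fin.sum_univ_two]
lemma mul_10 (g h : GL (Fin 2) F) : (g * h) 1 0 = g 1 0 * h 0 0 + g 1 1 * h 1 0 := by
  rw [Matrix.GeneralLinearGroup.coe_mul, Matrix.mul_apply, Fin.sum_univ_two]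
lemma mul_11 (g h : GL (Fin 2) F) : (g * h) 1 1 = g 1 0 * h 0 1 + g 1 1 * h 1 1 := by
  rw [Matrix.GeneralLinearGroup.coe_mul, Matrix.mul_apply, Fin.sum_univ_two]

@[simp] lemma one_00 : (1 : GL (Fin 2) F) 0 0 = 1 := by simp
@[simp] lemma one_01 : (1 : GL (Fin 2) F) 0 1 = 0 := by simp
@[simp] lemma one_10 : (1 : GL (Fin 2) F) 1 0 = 0 := by simp
@[simp] lemma one_11 : (1 : GL (Fin 2) F) 1 1 = 1 := by simp

/-- the determinant -/
def dt (g : GL (Fin 2) F) : F := g 0 0 * g 1 1 - g 0 1 * g 1 0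

lemma dt_eq (g : GL (Fin 2) F) : dt g = g.val.det := by
  rw [Matrix.det_fin_two]; rfl

lemma dt_ne (g : GL (Fin 2) F) : dt g ≠ 0 := by
  rw [dt_eq]; exact g.det_ne_zero

lemma dt_mul (g h : GL (Fin 2) F) : dt (g * h) = dt g * dt h := by
  simp only [dt, mul_00, mul_01, mul_10, mul_11]; ring

@[simp] lemma dt_one : dt (1 : GL (Fin 2) F) = 1 := by simp [dt]

lemma dt_inv (g : GL (Fin 2) F) : dt g⁻¹ = (dt g)⁻¹ := by
  have := dt_mul g g⁻¹
  rw [mul_inv_cancel, dt_one] at this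
  exact eq_inv_of_mul_eq_one_right this.symm

lemma inv_eq_mk2 (g : GL (Fin 2) F) :
    g⁻¹ = mk2 (g 1 1 / dt g) (-(g 0 1) / dt g) (-(g 1 0) / dt g) (g 0 0 / dt g) (by
      have h := dt_ne g
      have : g 1 1 / dt g * (g 0 0 / dt g) - -(g 0 1) / dt g * (-(g 1 0) / dt g)
        = dt g / (dt g * dt g) := by
        rw [dt]; field_simp
      rw [this]; positivity) := by
  rw [inv_eq_iff_mul_eq_one]
  have h := dt_ne g
  have hd : g 0 0 * g 1 1 - g 0 1 * g 1 0 = dt g := rfl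
  apply gl_ext
  · rw [mul_00]; simp only [mk2_00, mk2_10, one_00]; field_simp; linear_combination hd
  · rw [mul_01]; simp only [mk2_01, mk2_11, one_01]; field_simp; ring
  · rw [mul_10]; simp only [mk2_00, mk2_10, one_10]; field_simp; ring
  · rw [mul_11]; simp only [mk2_01, mk2_11, one_11]; field_simp; linear_combination hd

lemma inv_00 (g : GL (Fin 2) F) : g⁻¹ 0 0 = g 1 1 / dt g := by
  conv_lhs => rw [inv_eq_mk2 g]
  rfl
lemma inv_01 (g : GL (Fin 2) F) : g⁻¹ 0 1 = -(g 0 1) / dt g := by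
  conv_lhs => rw [inv_eq_mk2 g]
  rfl
lemma inv_10 (g : GL (Fin 2) F) : g⁻¹ 1 0 = -(g 1 0) / dt g := by
  conv_lhs => rw [inv_eq_mk2 g]
  rfl
lemma inv_11 (g : GL (Fin 2) F) : g⁻¹ 1 1 = g 0 0 / dt g := by
  conv_lhs => rw [inv_eq_mk2 g]
  rfl

lemma mk2_mul (a b c d : F) (h) (a' b' c' d' : F) (h') :
    mk2 a b c d h * mk2 a' b' c' d' h' =
      mk2 (a * a' + b * c') (a * b' + b * d') (c * a' + d * c') (c * b' + d * d')
        (by
          have : (a * a' + b * c') * (c * b' + d * d') - (a * b' + b * d') * (c * a' + d * c')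
            = (a * d - b * c) * (a' * d' - b' * c') := by ring
          rw [this]; exact mul_ne_zero h h') := by
  apply gl_ext
  · rw [mul_00]; rfl
  · rw [mul_01]; rfl
  · rw [mul_10]; rfl
  · rw [mul_11]; rfl

lemma mk2_congr {a b c d a' b' c' d' : F} {h h'} (ha : a = a') (hb : b = b') (hc : c = c')
    (hd : d = d') : mk2 a b c d h = mk2 a' b' c' d' h' := by
  subst ha hb hc hd; rfl

lemma eq_mk2 (g : GL (Fin 2) F) : g = mk2 (g 0 0) (g 0 1) (g 1 0) (g 1 1) (dt_ne g) := by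
  apply gl_ext <;> rfl

variable (v : Valuation F ℤᵐ⁰)

/-- `GL₂(O)`, `O` the valuation ring of `v`: matrices with integral entries whose inverse has
integral entries. -/
abbrev KO : Subgroup (GL (Fin 2) F) := Spec.GLO v.integer

lemma mem_KO {g : GL (Fin 2) F} :
    g ∈ KO v ↔ (∀ i j, v (g i j) ≤ 1) ∧ ∀ i j, v (g⁻¹ i j) ≤ 1 := Iff.rfl

variable {v} in
lemma KO_int {g : GL (Fin 2) F} (h : g ∈ KO v) (i j : Fin 2) : v (g i j) ≤ 1 := h.1 i j

variable {v} in
lemma KO_inv_int {g : GL (Fin 2) F} (h : g ∈ KO v) (i j : Fin 2) : v (g⁻¹ i j) ≤ 1 := h.2 i j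

lemma v_dt_le {g : GL (Fin 2) F} (h : ∀ i j, v (g i j) ≤ 1) : v (dt g) ≤ 1 := by
  rw [dt]
  refine (v.map_sub _ _).trans (max_le ?_ ?_) <;> rw [map_mul] <;>
    exact mul_le_one' (h _ _) (h _ _)

lemma mem_KO_iff {g : GL (Fin 2) F} : g ∈ KO v ↔ (∀ i j, v (g i j) ≤ 1) ∧ v (dt g) = 1 := by
  rw [mem_KO]
  constructor
  · rintro ⟨h1, h2⟩
    refine ⟨h1, le_antisymm (v_dt_le v h1) ?_⟩
    have h3 := v_dt_le v h2
    rw [dt_inv, map_inv₀] at h3
    have hne : v (dt g) ≠ 0 := (v.ne_zero_iff).2 (dt_ne g)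
    by_contra hlt
    rw [not_le] at hlt
    have : 1 < (v (dt g))⁻¹ := (one_lt_inv₀ (zero_lt_iff.2 hne)).2 hlt
    exact absurd h3 (not_le.2 this)
  · rintro ⟨h1, h2⟩
    refine ⟨h1, ?_⟩
    intro i j
    fin_cases i <;> fin_cases j
    · show v (g⁻¹ 0 0) ≤ 1
      rw [inv_00, map_div₀, h2, div_one]; exact h1 _ _
    · show v (g⁻¹ 0 1) ≤ 1
      rw [inv_01, map_div₀, h2, div_one, Valuation.map_neg]; exact h1 _ _
    · show v (g⁻¹ 1 0) ≤ 1
      rw [inv_10, map_div₀, h2, div_one, Valuation.map_neg]; exact h1 _ _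
    · show v (g⁻¹ 1 1) ≤ 1
      rw [inv_11, map_div₀, h2, div_one]; exact h1 _ _

lemma mk2_mem_KO {a b c d : F} {h} (ha : v a ≤ 1) (hb : v b ≤ 1) (hc : v c ≤ 1) (hd : v d ≤ 1)
    (hdet : v (a * d - b * c) = 1) : mk2 a b c d h ∈ KO v := by
  rw [mem_KO_iff]
  refine ⟨?_, hdet⟩
  intro i j
  fin_cases i <;> fin_cases j
  · exact ha
  · exact hb
  · exact hc
  · exact hd

/-- The Iwahori subgroup: matrices in `GL₂(O)` that are upper triangular modulo the maximal ideal -/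
def Iw : Subgroup (GL (Fin 2) F) where
  carrier := {g | g ∈ KO v ∧ v (g 1 0) < 1}
  one_mem' := ⟨one_mem _, by simp⟩
  mul_mem' := by
    rintro g h ⟨hg, hg'⟩ ⟨hh, hh'⟩
    refine ⟨mul_mem hg hh, ?_⟩
    rw [mul_10]
    refine v.map_add_lt ?_ ?_
    · rw [map_mul]; exact mul_lt_one_of_lt_of_le hg' (hh.1 _ _)
    · rw [map_mul, mul_comm]; exact mul_lt_one_of_lt_of_le hh' (hg.1 _ _)
  inv_mem' := by
    rintro g ⟨hg, hg'⟩
    refine ⟨inv_mem hg, ?_⟩
    rw [inv_10, map_div₀, Valuation.map_neg, ((mem_KO_iff v).1 hg).2, div_one]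
    exact hg'

lemma mem_Iw {g : GL (Fin 2) F} : g ∈ Iw v ↔ g ∈ KO v ∧ v (g 1 0) < 1 := Iff.rfl

lemma Iw_le_KO : Iw v ≤ KO v := fun _ hg => hg.1

/-- The principal congruence subgroup of level `N` -/
def KN (N : ℕ) : Subgroup (GL (Fin 2) F) where
  carrier := {g | g ∈ KO v ∧ ∀ i j, v (g i j - (1 : GL (Fin 2) F) i j) ≤ exp (-(N : ℤ))}
  one_mem' := ⟨one_mem _, by intro i j; simp⟩
  mul_mem' := by
    rintro g h ⟨hg, hg'⟩ ⟨hh, hh'⟩
    refine ⟨mul_mem hg hh, ?_⟩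
    intro i j
    have : (g * h) i j - (1 : GL (Fin 2) F) i j =
        (∑ k, g i k * (h k j - (1 : GL (Fin 2) F) k j)) + (g i j - (1 : GL (Fin 2) F) i j) := by
      simp only [mul_sub, Finset.sum_sub_distrib]
      rw [← Matrix.mul_apply, ← Matrix.mul_apply, ← Matrix.GeneralLinearGroup.coe_mul,
        ← Matrix.GeneralLinearGroup.coe_mul, mul_one]
      ring
    rw [this]
    refine v.map_add_le ?_ (hg' i j)
    refine v.map_sum_le ?_
    intro k _
    rw [map_mul]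
    exact mul_le_of_le_one_of_le (hg.1 i k) (hh' k j)
  inv_mem' := by
    rintro g ⟨hg, hg'⟩
    refine ⟨inv_mem hg, ?_⟩
    intro i j
    have : g⁻¹ i j - (1 : GL (Fin 2) F) i j =
        -∑ k, g⁻¹ i k * (g k j - (1 : GL (Fin 2) F) k j) := by
      simp only [mul_sub, Finset.sum_sub_distrib]
      rw [← Matrix.mul_apply, ← Matrix.mul_apply, ← Matrix.GeneralLinearGroup.coe_mul,
        ← Matrix.GeneralLinearGroup.coe_mul, mul_one, inv_mul_cancel]
      ring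
    rw [this, Valuation.map_neg]
    refine v.map_sum_le ?_
    intro k _
    rw [map_mul]
    exact mul_le_of_le_one_of_le (hg.2 i k) (hg' k j)

lemma KN_le_KO (N : ℕ) : KN v N ≤ KO v := fun _ hg => hg.1

lemma KN_conj (N : ℕ) {k u : GL (Fin 2) F} (hk : k ∈ KO v) (hu : u ∈ KN v N) :
    k * u * k⁻¹ ∈ KN v N := by
  refine ⟨mul_mem (mul_mem hk hu.1) (inv_mem hk), ?_⟩
  intro i j
  have : (k * u * k⁻¹) i j - (1 : GL (Fin 2) F) i j =
      ∑ l, (∑ m, k i m * (u m l - (1 : GL (Fin 2) F) m l)) * k⁻¹ l j := by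
    simp only [mul_sub, Finset.sum_sub_distrib, sub_mul]
    simp only [← Matrix.mul_apply, ← Matrix.GeneralLinearGroup.coe_mul, mul_one]
    rw [mul_inv_cancel]
  rw [this]
  refine v.map_sum_le ?_
  intro l _
  rw [map_mul]
  refine mul_le_of_le_of_le_one ?_ (hk.2 l j)
  refine v.map_sum_le ?_
  intro m _
  rw [map_mul]
  exact mul_le_of_le_one_of_le (hk.1 i m) (hu.2 m l)

lemma KN_le_Iw {N : ℕ} (hN : 1 ≤ N) : KN v N ≤ Iw v := by
  intro g hg
  refine ⟨hg.1, ?_⟩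
  have := hg.2 1 0
  rw [one_10, sub_zero] at this
  refine this.trans_lt ?_
  rw [← exp_zero, exp_lt_exp]; omega

end

end Pool.Agent.Helper37.LL
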