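import Pool.Agent.Helper37.LL.Top

/-!
# Places of `𝔽(T)`: uniformisers, residue representatives, strong approximation
-/

set_option autoImplicit false

open Polynomial IsDedekindDomain WithZero Topology
open scoped RestrictedProduct

namespace Pool.Agent.Helper37.LL

section

variable {𝔽 : Type} [Field 𝔽]

/-- the embedding of polynomials in `K` -/
noncomputable abbrev pl (a : 𝔽[X]) : RatFunc 𝔽 := algebraMap 𝔽[X] (RatFunc 𝔽) a

lemma pl_ne {a : 𝔽[X]} (ha : a ≠ 0) : pl a ≠ 0 := by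
  simpa using ha

lemma pl_pow (a : 𝔽[X]) (n : ℕ) : pl (a ^ n) = (pl a) ^ n := map_pow _ _ _

lemma val_inf_pl {a : 𝔽[X]} (ha : a ≠ 0) : val 𝔽 none (pl a) = exp (a.natDegree : ℤ) := by
  classical
  show RatFunc.inftyValuation 𝔽 (pl a) = _
  rw [RatFunc.inftyValuation_apply]
  exact RatFunc.inftyValuation.polynomial 𝔽 ha

lemma val_inf_X : val 𝔽 none (RatFunc.X : RatFunc 𝔽) = exp 1 := by
  classical
  exact RatFunc.inftyValuation.X 𝔽

lemma val_fin_pl_le (P : HeightOneSpectrum 𝔽[X]) (a : 𝔽[X]) : val 𝔽 (some P) (pl a) ≤ 1 :=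
  P.valuation_le_one a

/-- generator of the prime ideal of a finite place -/
noncomputable def gen (P : HeightOneSpectrum 𝔽[X]) : 𝔽[X] :=
  Submodule.IsPrincipal.generator P.asIdeal

lemma gen_span (P : HeightOneSpectrum 𝔽[X]) : P.asIdeal = Ideal.span {gen P} :=
  (Ideal.span_singleton_generator P.asIdeal).symm

lemma gen_ne (P : HeightOneSpectrum 𝔽[X]) : gen P ≠ 0 := by
  intro h
  have := gen_span P
  rw [h, Ideal.span_singleton_eq_bot.2 rfl] at this
  exact P.ne_bot this

lemma gen_prime (P : HeightOneSpectrum 𝔽[X]) : Prime (gen P) := by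
  rw [← Ideal.span_singleton_prime (gen_ne P), ← gen_span]
  exact P.isPrime

lemma val_gen (P : HeightOneSpectrum 𝔽[X]) : val 𝔽 (some P) (pl (gen P)) = exp (-1) := by
  show P.valuation (RatFunc 𝔽) (pl (gen P)) = _
  rw [HeightOneSpectrum.valuation_of_algebraMap]
  exact P.intValuation_singleton (gen_ne P) (gen_span P)

lemma val_gen_ne {P Q : HeightOneSpectrum 𝔽[X]} (h : Q ≠ P) :
    val 𝔽 (some Q) (pl (gen P)) = 1 := by
  show Q.valuation (RatFunc 𝔽) (algebraMap _ _ (gen P)) = 1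
  rw [HeightOneSpectrum.valuation_eq_one_iff_notMem]
  intro hmem
  apply h
  have h1 : P.asIdeal ≤ Q.asIdeal := by
    rw [gen_span P, Ideal.span_singleton_le_iff_mem]; exact hmem
  have h2 := (P.isMaximal).eq_of_le Q.isPrime.ne_top h1
  exact (HeightOneSpectrum.ext h2).symm

lemma val_fin_pl_lt_iff (P : HeightOneSpectrum 𝔽[X]) (a : 𝔽[X]) :
    val 𝔽 (some P) (pl a) < 1 ↔ gen P ∣ a := by
  show P.valuation (RatFunc 𝔽) (pl a) < 1 ↔ _
  rw [HeightOneSpectrum.valuation_lt_one_iff_mem, gen_span, Ideal.mem_span_singleton]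

lemma gen_natDegree_pos (P : HeightOneSpectrum 𝔽[X]) : 0 < (gen P).natDegree := by
  rcases Nat.eq_zero_or_pos (gen P).natDegree with h | h
  · exfalso
    obtain ⟨c, hc⟩ := Polynomial.natDegree_eq_zero.1 h
    have hc0 : c ≠ 0 := by
      rintro rfl
      exact gen_ne P (by rw [← hc, map_zero])
    exact (gen_prime P).not_isUnit (by rw [← hc]; exact (isUnit_C).2 (isUnit_iff_ne_zero.2 hc0))
  · exact h

/-- the polynomials of degree `< n` form a finite set -/
lemma finite_degree_lt [Finite 𝔽] (n : ℕ) : {a : 𝔽[X] | a.degree < n}.Finite := by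
  have : Finite (Polynomial.degreeLT 𝔽 n) :=
    Finite.of_equiv _ (Polynomial.degreeLTEquiv 𝔽 n).symm.toEquiv
  have h : {a : 𝔽[X] | a.degree < n} = (Polynomial.degreeLT 𝔽 n : Set 𝔽[X]) := by
    ext a
    simp [Polynomial.mem_degreeLT]
  rw [h]
  exact Set.toFinite _

/-! ### density -/

lemma ball_nhds {F : Type} [Field F] [hF : Valued F ℤᵐ⁰] (x π : F) (hπ : π ≠ 0) :
    {y : F | hF.v (y - x) < hF.v π} ∈ 𝓝 x := by
  rw [Valued.mem_nhds]
  have h0 : hF.v.restrict π ≠ 0 := by
    rw [Ne, Valuation.restrict_eq_zero_iff, Valuation.zero_iff]; exact hπ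
  refine ⟨Units.mk0 _ h0, fun y hy => ?_⟩
  have h1 : hF.v.restrict (y - x) < hF.v.restrict π := hy
  exact (Valuation.restrict_lt_iff _).1 h1

lemma exists_val (v : Place 𝔽) (n : ℤ) : ∃ π : RatFunc 𝔽, π ≠ 0 ∧ val 𝔽 v π = exp n := by
  rcases v with _ | P
  · exact ⟨RatFunc.X ^ n, zpow_ne_zero _ RatFunc.X_ne_zero, by
      rw [map_zpow₀, val_inf_X, ← WithZero.exp_zsmul]; simp⟩
  · exact ⟨(pl (gen P)) ^ (-n), zpow_ne_zero _ (pl_ne (gen_ne P)), by
      rw [map_zpow₀, val_gen, ← WithZero.exp_zsmul]; simp⟩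

lemma dense (v : Place 𝔽) (x : Kv 𝔽 v) (n : ℤ) :
    ∃ y : RatFunc 𝔽, vv 𝔽 v (x - emb 𝔽 v y) < exp n := by
  obtain ⟨π, hπ0, hπ⟩ := exists_val v n
  have h1 := ball_nhds x (emb 𝔽 v π) ((_root_.map_ne_zero _).2 hπ0)
  have h2 : DenseRange (emb 𝔽 v) := by
    have h3 := UniformSpace.Completion.denseRange_coe (α := WithVal (val 𝔽 v))
    have h4 : Set.range (emb 𝔽 v) = Set.range ((↑) : WithVal (val 𝔽 v) → (val 𝔽 v).Completion) := by
      ext z
      constructor
      · rintro ⟨y, rfl⟩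
        exact ⟨(WithVal.equiv (val 𝔽 v)).symm y, rfl⟩
      · rintro ⟨y, rfl⟩
        exact ⟨WithVal.equiv (val 𝔽 v) y, rfl⟩
    show Dense (Set.range (emb 𝔽 v))
    rw [h4]
    exact h3
  obtain ⟨_, hz, ⟨y, rfl⟩⟩ := mem_closure_iff_nhds.1 (h2 x) _ h1
  refine ⟨y, ?_⟩
  have h5 : vv 𝔽 v (emb 𝔽 v y - x) < vv 𝔽 v (emb 𝔽 v π) := hz
  rw [vv_emb, hπ, Valuation.map_sub_swap] at h5
  exact h5

/-! ### polynomial part -/

lemma exists_polynomial_part (y : RatFunc 𝔽) : ∃ a : 𝔽[X], val 𝔽 none (y - pl a) < 1 := by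
  have hd : y.denom ≠ 0 := y.denom_ne_zero
  refine ⟨y.num / y.denom, ?_⟩
  have h1 : y - pl (y.num / y.denom) = pl (y.num % y.denom) / pl y.denom := by
    have h2 : y = pl y.num / pl y.denom := (RatFunc.num_div_denom y).symm
    have h3 := congrArg (fun a => pl a) (EuclideanDomain.div_add_mod y.num y.denom)
    simp only [map_add, map_mul] at h3
    have h4 := pl_ne hd
    have h5 : y * pl y.denom = pl y.num := by
      rw [eq_div_iff h4] at h2; exact h2
    rw [eq_div_iff h4, sub_mul, h5, ← h3]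
    ring
  rw [h1, map_div₀, val_inf_pl hd]
  by_cases hr : y.num % y.denom = 0
  · rw [hr]; simp
  · rw [val_inf_pl hr]
    have h5 : (y.num % y.denom).natDegree < y.denom.natDegree := by
      have h6 := Polynomial.degree_mod_lt y.num hd
      exact Polynomial.natDegree_lt_natDegree hr h6
    rw [← exp_sub, ← exp_zero, exp_lt_exp]
    omega

lemma const_of_val_le {a : 𝔽[X]} (h : val 𝔽 none (pl a) ≤ 1) : ∃ c : 𝔽, a = C c := by
  by_cases ha : a = 0
  · exact ⟨0, by rw [ha, map_zero]⟩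
  · rw [val_inf_pl ha, ← exp_zero, exp_le_exp] at h
    obtain ⟨c, hc⟩ := Polynomial.natDegree_eq_zero.1 (by omega : a.natDegree = 0)
    exact ⟨c, hc.symm⟩

lemma zero_of_val_lt {a : 𝔽[X]} (h : val 𝔽 none (pl a) < 1) : a = 0 := by
  by_contra ha
  rw [val_inf_pl ha, ← exp_zero, exp_lt_exp] at h
  omega

/-! ### the parameters at each place -/

lemma fin_approx (P : HeightOneSpectrum 𝔽[X]) (y : RatFunc 𝔽) (hy : val 𝔽 (some P) y ≤ 1) (n : ℕ) :
    ∃ a : 𝔽[X], val 𝔽 (some P) (y - pl a) ≤ exp (-(n : ℤ)) := by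
  obtain ⟨a, ha⟩ := HeightOneSpectrum.exists_valuation_sub_lt_of_integer P hy
    (Units.mk0 (exp (-(n : ℤ))) exp_ne_zero)
  refine ⟨a, ?_⟩
  rw [Valuation.map_sub_swap]
  exact le_of_lt ha

/-- reduce modulo a power of the generator -/
lemma fin_approx' (P : HeightOneSpectrum 𝔽[X]) (y : RatFunc 𝔽) (hy : val 𝔽 (some P) y ≤ 1)
    (n : ℕ) : ∃ a : 𝔽[X], val 𝔽 (some P) (y - pl a) ≤ exp (-(n : ℤ)) ∧
      a.degree < (gen P ^ n).degree := by
  obtain ⟨a, ha⟩ := fin_approx P y hy n
  have hg : gen P ^ n ≠ 0 := pow_ne_zero _ (gen_ne P)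
  refine ⟨a % (gen P ^ n), ?_, Polynomial.degree_mod_lt a hg⟩
  have h1 : y - pl (a % (gen P ^ n)) = (y - pl a) + pl (gen P ^ n) * pl (a / (gen P ^ n)) := by
    have h3 := congrArg (fun a => pl a) (EuclideanDomain.div_add_mod a (gen P ^ n))
    simp only [map_add, map_mul] at h3
    rw [← h3]; ring
  rw [h1]
  refine Valuation.map_add_le _ ha ?_
  rw [map_mul]
  calc val 𝔽 (some P) (pl (gen P ^ n)) * val 𝔽 (some P) (pl (a / gen P ^ n))
      ≤ val 𝔽 (some P) (pl (gen P ^ n)) * 1 := mul_le_mul_right (val_fin_pl_le P _) _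
    _ = exp (-(n : ℤ)) := by
      rw [mul_one, pl_pow, map_pow, val_gen, ← WithZero.exp_nsmul]; simp

variable [Finite 𝔽]

open Classical in
/-- the parameters at a place -/
noncomputable def par : (v : Place 𝔽) → Par (vv 𝔽 v)
  | none =>
    { ϖ := emb 𝔽 none (RatFunc.X)⁻¹
      S := (Set.finite_range (fun c : 𝔽 => emb 𝔽 none (pl (C c)))).toFinset
      hϖ := by
        rw [vv_emb, map_inv₀, val_inf_X, exp_neg]
      S_int := by
        intro b hb
        rw [Set.Finite.mem_toFinset] at hb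
        obtain ⟨c, rfl⟩ := hb
        rw [vv_emb]
        by_cases hc : c = 0
        · simp [hc]
        · rw [val_inf_pl (by simpa using hc)]; simp
      S_ex := by
        intro x hx
        obtain ⟨y, hy⟩ := dense none x 0
        rw [exp_zero] at hy
        obtain ⟨a, ha⟩ := exists_polynomial_part y
        have h1 : vv 𝔽 none (x - emb 𝔽 none (pl a)) < 1 := by
          have : x - emb 𝔽 none (pl a) = (x - emb 𝔽 none y) + emb 𝔽 none (y - pl a) := by
            rw [map_sub]; ring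
          rw [this]
          exact Valuation.map_add_lt _ hy (by rw [vv_emb]; exact ha)
        have h2 : val 𝔽 none (pl a) ≤ 1 := by
          rw [← vv_emb]
          have : emb 𝔽 none (pl a) = x - (x - emb 𝔽 none (pl a)) := by ring
          rw [this]
          exact (Valuation.map_sub _ _ _).trans (max_le hx h1.le)
        obtain ⟨c, rfl⟩ := const_of_val_le h2
        exact ⟨_, by rw [Set.Finite.mem_toFinset]; exact ⟨c, rfl⟩, h1⟩
      S_inj := by
        intro b hb b' hb' h
        rw [Set.Finite.mem_toFinset] at hb hb'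
        obtain ⟨c, rfl⟩ := hb
        obtain ⟨c', rfl⟩ := hb'
        simp only at h ⊢
        rw [← map_sub, ← map_sub, vv_emb] at h
        have h1 := zero_of_val_lt h
        rw [sub_eq_zero] at h1
        rw [h1] }
  | some P =>
    { ϖ := emb 𝔽 (some P) (pl (gen P))
      S := ((finite_degree_lt (𝔽 := 𝔽) (gen P).natDegree).image
        (fun a => emb 𝔽 (some P) (pl a))).toFinset
      hϖ := by rw [vv_emb, val_gen]
      S_int := by
        intro b hb
        rw [Set.Finite.mem_toFinset] at hb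
        obtain ⟨a, _, rfl⟩ := hb
        rw [vv_emb]
        exact val_fin_pl_le P a
      S_ex := by
        intro x hx
        obtain ⟨y, hy⟩ := dense (some P) x 0
        rw [exp_zero] at hy
        have hy1 : val 𝔽 (some P) y ≤ 1 := by
          rw [← vv_emb]
          have : emb 𝔽 (some P) y = x - (x - emb 𝔽 (some P) y) := by ring
          rw [this]
          exact (Valuation.map_sub _ _ _).trans (max_le hx hy.le)
        obtain ⟨a, ha, hdeg⟩ := fin_approx' P y hy1 1
        rw [pow_one] at hdeg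
        refine ⟨emb 𝔽 (some P) (pl a), ?_, ?_⟩
        · rw [Set.Finite.mem_toFinset]
          refine ⟨a, ?_, rfl⟩
          show a.degree < ((gen P).natDegree : WithBot ℕ)
          rwa [← Polynomial.degree_eq_natDegree (gen_ne P)]
        · have : x - emb 𝔽 (some P) (pl a) =
              (x - emb 𝔽 (some P) y) + emb 𝔽 (some P) (y - pl a) := by
            rw [map_sub]; ring
          rw [this]
          refine Valuation.map_add_lt _ hy ?_
          rw [vv_emb]
          refine ha.trans_lt ?_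
          rw [← exp_zero, exp_lt_exp]; norm_num
      S_inj := by
        intro b hb b' hb' h
        rw [Set.Finite.mem_toFinset] at hb hb'
        obtain ⟨a, ha, rfl⟩ := hb
        obtain ⟨a', ha', rfl⟩ := hb'
        simp only at h ⊢
        rw [← map_sub, ← map_sub, vv_emb, val_fin_pl_lt_iff] at h
        have h1 : a - a' = 0 := by
          refine Polynomial.eq_zero_of_dvd_of_degree_lt h ?_
          rw [Polynomial.degree_eq_natDegree (gen_ne P)]
          exact (Polynomial.degree_sub_le _ _).trans_lt (max_lt ha ha')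
        rw [sub_eq_zero] at h1
        rw [h1] }

omit [Finite 𝔽] in
/-- strong approximation at a finite place -/
lemma approx_fin (P : HeightOneSpectrum 𝔽[X]) (y : Kv 𝔽 (some P)) : ∃ x : RatFunc 𝔽,
    vv 𝔽 (some P) (y - emb 𝔽 (some P) x) ≤ 1 ∧
    (∀ Q : HeightOneSpectrum 𝔽[X], Q ≠ P → val 𝔽 (some Q) x ≤ 1) ∧ val 𝔽 none x ≤ 1 := by
  obtain ⟨y', hy'⟩ := dense (some P) y 0
  rw [exp_zero] at hy'
  set n := (log (val 𝔽 (some P) y')).toNat with hn
  have h1 : val 𝔽 (some P) (pl (gen P ^ n) * y') ≤ 1 := by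
    rw [map_mul, pl_pow, map_pow, val_gen, ← WithZero.exp_nsmul]
    by_cases h0 : val 𝔽 (some P) y' = 0
    · rw [h0, mul_zero]; exact zero_le
    · conv_lhs => rw [← exp_log h0]
      rw [← exp_add, ← exp_zero, exp_le_exp]
      have := Int.self_le_toNat (log (val 𝔽 (some P) y'))
      simp only [smul_neg, nsmul_eq_mul, mul_one]
      omega
  obtain ⟨a, ha, hdeg⟩ := fin_approx' P _ h1 n
  have hg : pl (gen P ^ n) ≠ 0 := pl_ne (pow_ne_zero _ (gen_ne P))
  have hvg : val 𝔽 (some P) (pl (gen P ^ n)) = exp (-(n : ℤ)) := by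
    rw [pl_pow, map_pow, val_gen, ← WithZero.exp_nsmul]; simp
  refine ⟨pl a / pl (gen P ^ n), ?_, ?_, ?_⟩
  · have h2 : y - emb 𝔽 (some P) (pl a / pl (gen P ^ n)) = (y - emb 𝔽 (some P) y') +
        emb 𝔽 (some P) ((pl (gen P ^ n) * y' - pl a) / pl (gen P ^ n)) := by
      rw [← sub_eq_iff_eq_add', sub_sub_sub_cancel_left, ← map_sub]
      congr 1
      field_simp
    rw [h2]
    refine Valuation.map_add_le _ hy'.le ?_
    rw [vv_emb, map_div₀, hvg]
    exact div_le_one_of_le₀ ha zero_le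
  · intro Q hQ
    rw [map_div₀, pl_pow, map_pow, val_gen_ne hQ, one_pow, div_one]
    exact val_fin_pl_le Q a
  · by_cases ha0 : a = 0
    · rw [ha0]; simp
    · rw [map_div₀, val_inf_pl ha0, val_inf_pl (pow_ne_zero _ (gen_ne P)), ← exp_sub, ← exp_zero,
        exp_le_exp]
      have := Polynomial.natDegree_lt_natDegree ha0 hdeg
      omega

omit [Finite 𝔽] in
/-- strong approximation at infinity -/
lemma approx_inf (y : Kv 𝔽 none) : ∃ a : 𝔽[X], vv 𝔽 none (y - emb 𝔽 none (pl a)) < 1 := by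
  obtain ⟨y', hy'⟩ := dense none y 0
  rw [exp_zero] at hy'
  obtain ⟨a, ha⟩ := exists_polynomial_part y'
  refine ⟨a, ?_⟩
  have : y - emb 𝔽 none (pl a) = (y - emb 𝔽 none y') + emb 𝔽 none (y' - pl a) := by
    rw [map_sub]; ring
  rw [this]
  exact Valuation.map_add_lt _ hy' (by rw [vv_emb]; exact ha)

end

end Pool.Agent.Helper37.LL
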