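import Pool.Agent.Helper37.LL.Auto

/-!
# The first automorphic representation: Steinberg at ∞, trivial at all other places
-/

set_option autoImplicit false


open Polynomial IsDedekindDomain WithZero Topology
open scoped RestrictedProduct

namespace Pool.Agent.Helper37.LL

variable {𝔽 : Type} [Field 𝔽] [Finite 𝔽]

/-- the constant functions -/
noncomputable def cons (𝔽 : Type) [Field 𝔽] : Submodule ℂ (GA 𝔽 → ℂ) where
  carrier := {φ | ∃ c : ℂ, φ = fun _ => c}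
  zero_mem' := ⟨0, rfl⟩
  add_mem' := by
    rintro _ _ ⟨a, rfl⟩ ⟨b, rfl⟩
    exact ⟨a + b, rfl⟩
  smul_mem' := by
    rintro c _ ⟨a, rfl⟩
    exact ⟨c * a, rfl⟩

omit [Finite 𝔽] in
lemma cons_fg : (cons 𝔽).FG := by
  refine ⟨{fun _ => (1 : ℂ)}, ?_⟩
  refine le_antisymm (Submodule.span_le.2 ?_) ?_
  · intro x hx
    rw [Finset.coe_singleton, Set.mem_singleton_iff] at hx
    rw [hx]; exact ⟨1, rfl⟩
  · rintro _ ⟨c, rfl⟩
    have : (fun _ : GA 𝔽 => c) = c • (fun _ : GA 𝔽 => (1 : ℂ)) := by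
      funext g; simp
    rw [this]
    exact Submodule.smul_mem _ _ (Submodule.subset_span (by simp))

/-- product subgroups -/
noncomputable def UU (U : (v : Place 𝔽) → Subgroup (GLv 𝔽 v)) : Subgroup (GA 𝔽) where
  carrier := {g | ∀ v, g v ∈ U v}
  one_mem' := fun v => one_mem (U v)
  mul_mem' := fun ha hb v => mul_mem (ha v) (hb v)
  inv_mem' := fun ha v => inv_mem (ha v)

/-- Iwahori at infinity, maximal compact elsewhere -/
noncomputable def UIw (𝔽 : Type) [Field 𝔽] : (v : Place 𝔽) → Subgroup (GLv 𝔽 v)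
  | none => Iw (vv 𝔽 none)
  | some P => GLO 𝔽 (some P)

lemma isOpen_UIw : IsOpen (UU (UIw 𝔽) : Set (GA 𝔽)) := by
  refine isOpen_U (UIw 𝔽) ?_ ?_ ?_
  · rintro (_ | P)
    · exact isOpen_of_KN_le (par (𝔽 := 𝔽) none) (KN_le_Iw _ le_rfl)
    · exact isOpen_KO (par (some P))
  · rintro (_ | P)
    · exact Iw_le_KO _
    · exact le_rfl
  · refine (Set.finite_singleton (none : Place 𝔽)).subset ?_
    rintro (_ | P) hv
    · rfl
    · exact absurd rfl hv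

omit [Finite 𝔽] in
lemma UIw_le (v : Place 𝔽) : UIw 𝔽 v ≤ GLO 𝔽 v := by
  rcases v with _ | P
  · exact Iw_le_KO _
  · exact le_rfl

lemma EisRel.fixed {φ : GA 𝔽 → ℂ} {c : ℂ} (h : EisRel φ c) {u : GA 𝔽} (hu : u ∈ UU (UIw 𝔽)) :
    rt 𝔽 u φ = φ := by
  funext g
  show φ (g * u) = φ g
  obtain ⟨c', h1, h2, h3⟩ := exists_split none u
  rw [h1, ← mul_assoc, h.iw _ _ (hu none)]
  refine h.fin g c' (fun v => ?_) h2
  by_cases hv : v = none
  · subst hv; rw [h2]; exact one_mem _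
  · rw [h3 v hv]; exact UIw_le v (hu v)

lemma FF_not_cons : (FF : GA 𝔽 → ℂ) ∉ cons 𝔽 := by
  rintro ⟨a, ha⟩
  have h1 := FF_rel.w (1 : GA 𝔽)
  have h2 := FF_rel.sum (1 : GA 𝔽)
  rw [ha] at h1 h2
  simp only [Finset.sum_const, card_none, nsmul_eq_mul] at h1 h2
  have h3 : (Nat.card 𝔽 : ℂ) = 1 := by
    have h4 : a = 1 / 2 := by linear_combination h1 / 2
    rw [h4] at h2
    linear_combination 2 * h2
  have h5 : 1 < Nat.card 𝔽 := Finite.one_lt_card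
  have h6 : Nat.card 𝔽 = 1 := by exact_mod_cast h3
  omega

theorem AD1 : AData (FF : GA 𝔽 → ℂ) (cons 𝔽) where
  Cst := by
    rintro g _ ⟨c, rfl⟩
    exact ⟨c, rfl⟩
  Cfin := cons_fg
  Csm := by
    rintro _ ⟨c, rfl⟩
    have h1 : IsOpen ((⊤ : Subgroup (GA 𝔽)) : Set (GA 𝔽)) := isOpen_univ
    exact isOpen_fixer_of h1 (fun _ _ => rfl)
  Cleft := by
    rintro _ ⟨c, rfl⟩ γ g
    rfl
  fsm := isOpen_fixer_of isOpen_UIw (fun u hu => FF_rel.fixed hu)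
  fleft := FF_rel.left
  fC := FF_not_cons
  iw := by
    intro k hk
    refine ⟨0, ?_⟩
    funext g
    show FF (g * inc 𝔽 none k) - FF g = 0
    rw [FF_rel.iw g k hk, sub_self]
  z := by
    refine ⟨0, ?_⟩
    funext g
    show FF (g * zi 1) - FF g = 0
    rw [FF_rel.zi, sub_self]
  w := by
    refine ⟨1, ?_⟩
    funext g
    show FF (g * wi) + FF g = 1
    rw [FF_rel.w]; ring
  sum := by
    refine ⟨1, ?_⟩
    funext g
    rw [Pi.add_apply, Finset.sum_apply]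
    exact FF_rel.sum g

/-! ### Triviality at the other places -/

/-- Relations without invariance at `v` -/
structure EisRelV (v : Place 𝔽) (φ : GA 𝔽 → ℂ) (c : ℂ) : Prop where
  left : ∀ γ g, φ (Gdiag 𝔽 γ * g) = φ g
  fin : ∀ g k, (∀ w, k w ∈ GLO 𝔽 w) → k none = 1 → k v = 1 → φ (g * k) = φ g
  iw : ∀ g, ∀ k ∈ Iw (vv 𝔽 none), φ (g * inc 𝔽 none k) = φ g
  w : ∀ g, φ (g * wi) = c - φ g
  sum : ∀ g, φ g + ∑ b ∈ (par (𝔽 := 𝔽) none).S, φ (g * inc 𝔽 none (nn b * ss)) = c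

lemma EisRelV.translate {v : Place 𝔽} {φ : GA 𝔽 → ℂ} {c : ℂ} (h : EisRelV v φ c)
    (hv : v ≠ none) (a : GLv 𝔽 v) : EisRelV v (rt 𝔽 (inc 𝔽 v a) φ) c := by
  have hcomm : ∀ k : GLv 𝔽 none, inc 𝔽 none k * inc 𝔽 v a = inc 𝔽 v a * inc 𝔽 none k :=
    fun k => inc_comm_ne (inc_apply_ne 𝔽 hv k) a
  have key : ∀ g (k : GLv 𝔽 none), rt 𝔽 (inc 𝔽 v a) φ (g * inc 𝔽 none k) =
      φ (g * inc 𝔽 v a * inc 𝔽 none k) := by
    intro g k
    show φ (g * inc 𝔽 none k * inc 𝔽 v a) = _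
    rw [mul_assoc, hcomm, ← mul_assoc]
  refine ⟨?_, ?_, ?_, ?_, ?_⟩
  · intro γ g
    show φ (Gdiag 𝔽 γ * g * inc 𝔽 v a) = φ (g * inc 𝔽 v a)
    rw [mul_assoc, h.left]
  · intro g k hk h0 h1
    show φ (g * k * inc 𝔽 v a) = φ (g * inc 𝔽 v a)
    rw [mul_assoc, inc_comm_ne h1, ← mul_assoc, h.fin _ k hk h0 h1]
  · intro g k hk
    rw [key, h.iw _ k hk]; rfl
  · intro g
    rw [wi, key, ← wi, h.w]; rfl
  · intro g
    simp only [key]
    exact h.sum _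

lemma EisRelV.sub {v : Place 𝔽} {φ ψ : GA 𝔽 → ℂ} {c d : ℂ} (h : EisRelV v φ c)
    (h' : EisRelV v ψ d) : EisRelV v (φ - ψ) (c - d) where
  left γ g := by rw [Pi.sub_apply, Pi.sub_apply, h.left, h'.left]
  fin g k hk h0 h1 := by rw [Pi.sub_apply, Pi.sub_apply, h.fin g k hk h0 h1, h'.fin g k hk h0 h1]
  iw g k hk := by rw [Pi.sub_apply, Pi.sub_apply, h.iw g k hk, h'.iw g k hk]
  w g := by rw [Pi.sub_apply, Pi.sub_apply, h.w, h'.w]; ring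
  sum g := by
    simp only [Pi.sub_apply, Finset.sum_sub_distrib]
    linear_combination h.sum g - h'.sum g

lemma EisRelV.smul {v : Place 𝔽} {φ : GA 𝔽 → ℂ} {c : ℂ} (h : EisRelV v φ c) (a : ℂ) :
    EisRelV v (a • φ) (a * c) where
  left γ g := by rw [Pi.smul_apply, Pi.smul_apply, h.left]
  fin g k hk h0 h1 := by rw [Pi.smul_apply, Pi.smul_apply, h.fin g k hk h0 h1]
  iw g k hk := by rw [Pi.smul_apply, Pi.smul_apply, h.iw g k hk]
  w g := by rw [Pi.smul_apply, Pi.smul_apply, h.w, smul_eq_mul, smul_eq_mul]; ring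
  sum g := by
    simp only [Pi.smul_apply, smul_eq_mul, ← Finset.mul_sum]
    linear_combination a * h.sum g

lemma EisRelV.zero (v : Place 𝔽) : EisRelV v (0 : GA 𝔽 → ℂ) 0 where
  left _ _ := rfl
  fin _ _ _ _ _ := rfl
  iw _ _ _ := rfl
  w _ := by simp
  sum _ := by simp

lemma EisRelV.add {v : Place 𝔽} {φ ψ : GA 𝔽 → ℂ} {c d : ℂ} (h : EisRelV v φ c)
    (h' : EisRelV v ψ d) : EisRelV v (φ + ψ) (c + d) := by
  have h1 := h.sub (h'.smul (-1))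
  have h2 : φ - (-1 : ℂ) • ψ = φ + ψ := by rw [neg_smul, one_smul, sub_neg_eq_add]
  have h3 : c - -1 * d = c + d := by ring
  rwa [h2, h3] at h1

lemma EisRel.toV {φ : GA 𝔽 → ℂ} {c : ℂ} (h : EisRel φ c) (v : Place 𝔽) : EisRelV v φ c :=
  ⟨h.left, fun g k hk h0 _ => h.fin g k hk h0, h.iw, h.w, h.sum⟩

lemma EisRelV.toRel {v : Place 𝔽} (hv : v ≠ none) {φ : GA 𝔽 → ℂ} {c : ℂ} (h : EisRelV v φ c)
    (hf : ∀ k ∈ GLO 𝔽 v, rt 𝔽 (inc 𝔽 v k) φ = φ) : EisRel φ c where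
  left := h.left
  iw := h.iw
  w := h.w
  sum := h.sum
  fin g k hk h0 := by
    obtain ⟨c', h1, h2, h3⟩ := exists_split v k
    have h4 : φ (g * k) = φ (g * c') := by
      have h5 := congrFun (hf (k v) (hk v)) (g * c')
      rw [h1, ← mul_assoc]
      have h6 : φ (g * c' * inc 𝔽 v (k v)) = φ (g * c') := h5
      exact h6
    rw [h4]
    refine h.fin g c' (fun w => ?_) ?_ h2
    · by_cases hw : w = v
      · subst hw; rw [h2]; exact one_mem _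
      · rw [h3 w hw]; exact hk w
    · rw [h3 none (Ne.symm hv)]; exact h0

lemma FF_fix {v : Place 𝔽} (hv : v ≠ none) {k : GLv 𝔽 v} (hk : k ∈ GLO 𝔽 v) :
    rt 𝔽 (inc 𝔽 v k) FF = (FF : GA 𝔽 → ℂ) := by
  funext y
  exact FF_rel.fin y _ (inc_mem hk) (inc_apply_ne 𝔽 (Ne.symm hv) _)

lemma P1_coinv {v : Place 𝔽} (hv : v ≠ none) (g : GLv 𝔽 v) :
    (subRep (rt 𝔽) (WW FF (cons 𝔽)) AD1.WW_stable).comp (inc 𝔽 v) g ⟨FF, AD1.f_mem⟩ -
      ⟨FF, AD1.f_mem⟩ ∈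
    coinv ((subRep (rt 𝔽) (WW FF (cons 𝔽)) AD1.WW_stable).comp (inc 𝔽 v)) (GLO 𝔽 v) := by
  set ρ := (subRep (rt 𝔽) (WW (FF : GA 𝔽 → ℂ) (cons 𝔽)) AD1.WW_stable).comp (inc 𝔽 v) with hρ
  set F : WW (FF : GA 𝔽 → ℂ) (cons 𝔽) := ⟨FF, AD1.f_mem⟩ with hF
  have hsm : ∀ x : WW (FF : GA 𝔽 → ℂ) (cons 𝔽), {g | ρ g x = x} ∈ 𝓝 (1 : GLv 𝔽 v) := by
    intro x
    have h1 : IsOpen {g : GA 𝔽 | rt 𝔽 g (x : GA 𝔽 → ℂ) = x} := AD1.WW_smooth x.2
    have h2 := smooth_loc (rt 𝔽) v h1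
    have h3 : {g | ρ g x = x} = {g : GLv 𝔽 v | ((rt 𝔽).comp (inc 𝔽 v)) g (x : GA 𝔽 → ℂ) = x} := by
      ext g
      exact ⟨fun h => congrArg Subtype.val h, fun h => Subtype.ext h⟩
    rw [h3]
    exact h2.mem_nhds (by simp)
  have hFilt := filt_of_smooth (par v) ρ hsm (U := GLO 𝔽 v) le_rfl (m₀ := 0) (KN_le_KO _ 0)
  obtain ⟨m, hm⟩ := hFilt.fix (ρ g F)
  obtain ⟨A, _, _, h3, h4, _⟩ := exists_avg ρ (GLO 𝔽 v) _ (hFilt.le m) (hFilt.normal m)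
    (hFilt.fin m)
  -- the submodule of functions with relations
  let E : Submodule ℂ (WW (FF : GA 𝔽 → ℂ) (cons 𝔽)) :=
    { carrier := {x | EisRelV v (x : GA 𝔽 → ℂ) 0}
      zero_mem' := EisRelV.zero v
      add_mem' := by
        intro a b ha hb
        have h := EisRelV.add ha hb
        rw [add_zero] at h
        exact h
      smul_mem' := by
        intro c a ha
        have h := EisRelV.smul ha c
        rw [mul_zero] at h
        exact h }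
  have hy : EisRelV v ((ρ g F : WW (FF : GA 𝔽 → ℂ) (cons 𝔽)) : GA 𝔽 → ℂ) 1 :=
    (FF_rel.toV v).translate hv g
  have h5 : ρ g F - A (ρ g F) ∈ E := by
    refine h4 _ E (fun u _ => ?_)
    have h6 := (hy.translate hv u).sub hy
    rw [sub_self] at h6
    exact h6
  have h6 : EisRelV v ((A (ρ g F) : WW (FF : GA 𝔽 → ℂ) (cons 𝔽)) : GA 𝔽 → ℂ) 1 := by
    have h7 := hy.sub h5
    rw [sub_zero] at h7
    have h8 : ((ρ g F : WW (FF : GA 𝔽 → ℂ) (cons 𝔽)) : GA 𝔽 → ℂ) -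
        ((ρ g F - A (ρ g F) : WW (FF : GA 𝔽 → ℂ) (cons 𝔽)) : GA 𝔽 → ℂ) =
        ((A (ρ g F) : WW (FF : GA 𝔽 → ℂ) (cons 𝔽)) : GA 𝔽 → ℂ) := by
      rw [Submodule.coe_sub]; abel
    rwa [h8] at h7
  have h7 : EisRel ((A (ρ g F) : WW (FF : GA 𝔽 → ℂ) (cons 𝔽)) : GA 𝔽 → ℂ) 1 :=
    h6.toRel hv (fun k hk => congrArg Subtype.val (h3 _ hm k hk))
  have h8 : A (ρ g F) = F := by
    apply Subtype.ext
    funext x
    have h9 : EisRel (((A (ρ g F) : WW (FF : GA 𝔽 → ℂ) (cons 𝔽)) : GA 𝔽 → ℂ) - FF) 0 := by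
      have h10 := (h7.toV v).sub (FF_rel.toV v)
      rw [sub_self] at h10
      refine h10.toRel hv (fun k hk => ?_)
      have e1 : rt 𝔽 (inc 𝔽 v k) ((A (ρ g F) : WW (FF : GA 𝔽 → ℂ) (cons 𝔽)) : GA 𝔽 → ℂ) =
          ((A (ρ g F) : WW (FF : GA 𝔽 → ℂ) (cons 𝔽)) : GA 𝔽 → ℂ) :=
        congrArg Subtype.val (h3 _ hm k hk)
      rw [map_sub, e1, FF_fix hv hk]
    have h10 := h9.eq_zero x
    exact sub_eq_zero.1 h10
  have h9 : ρ g F - A (ρ g F) ∈ coinv ρ (GLO 𝔽 v) :=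
    h4 _ _ (fun u hu => sub_mem_coinv ρ hu _)
  rw [h8] at h9
  exact h9

/-- The first automorphic representation. -/
theorem exists_P1 : ∃ (π : Irrep (GA 𝔽)) (f : π.V), IsAutomorphic π ∧ Gen π f ∧
    ∀ v ≠ none, ∀ (g : GLv 𝔽 v) (x : π.V), π.ρ (inc 𝔽 v g) x = x := by
  obtain ⟨π, p, hp, hequiv, hgen⟩ := (AD1 (𝔽 := 𝔽)).exists_irr
  refine ⟨π, p ⟨FF, AD1.f_mem⟩, ?_, hgen, ?_⟩
  · refine ⟨WW FF (cons 𝔽), fun φ hφ => AD1.isAutForm hφ, AD1.WW_stable, p, hp, hequiv⟩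
  · intro v hv g x
    set ρ := (subRep (rt 𝔽) (WW (FF : GA 𝔽 → ℂ) (cons 𝔽)) AD1.WW_stable).comp (inc 𝔽 v) with hρ
    have hpe : ∀ (g : GLv 𝔽 v) x, p (ρ g x) = π.ρ (inc 𝔽 v g) (p x) := fun g x =>
      hequiv _ _ _ rfl
    have hco : ∀ x ∈ coinv ρ (GLO 𝔽 v), p x ∈ coinv (π.ρ.comp (inc 𝔽 v)) (GLO 𝔽 v) := by
      intro x hx
      induction hx using Submodule.span_induction with
      | mem y hy =>
        obtain ⟨u, hu, x, rfl⟩ := hy
        rw [map_sub, hpe]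
        exact sub_mem_coinv _ hu _
      | zero => rw [map_zero]; exact zero_mem _
      | add x y _ _ hx hy => rw [map_add]; exact add_mem hx hy
      | smul c x _ hx => rw [map_smul]; exact Submodule.smul_mem _ _ hx
    refine triv_action hgen.ne ?_ ?_ g x
    · intro k hk
      have e1 : ρ k ⟨FF, AD1.f_mem⟩ = ⟨FF, AD1.f_mem⟩ := Subtype.ext (FF_fix hv hk)
      rw [← hpe, e1]
    · intro g
      have h1 := hco _ (P1_coinv hv g)
      rw [map_sub, hpe] at h1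
      exact h1

end Pool.Agent.Helper37.LL
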