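import Pool.Agent.Helper37.LL.P1

/-!
# The simple supercuspidal datum at `T = 0` and the global group `U`
-/

set_option autoImplicit false


open Polynomial IsDedekindDomain WithZero Topology
open scoped RestrictedProduct

namespace Pool.Agent.Helper37.LL

section loc

variable {F : Type*} [Field F] (v : Valuation F ℤᵐ⁰)

/-- Matrices in `GL₂(O)` that are lower triangular unipotent modulo the maximal ideal. -/
def Im : Subgroup (GL (Fin 2) F) where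
  carrier := {g | g ∈ KO v ∧ v (g 0 1) < 1 ∧ v (g 0 0 - 1) < 1 ∧ v (g 1 1 - 1) < 1}
  one_mem' := ⟨one_mem _, by simp, by simp, by simp⟩
  mul_mem' := by
    rintro g h ⟨hg, hg1, hg2, hg3⟩ ⟨hh, hh1, hh2, hh3⟩
    refine ⟨mul_mem hg hh, ?_, ?_, ?_⟩
    · rw [mul_01]
      refine v.map_add_lt ?_ ?_
      · rw [map_mul, mul_comm]; exact mul_lt_one_of_lt_of_le hh1 (hg.1 _ _)
      · rw [map_mul]; exact mul_lt_one_of_lt_of_le hg1 (hh.1 _ _)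
    · rw [mul_00]
      have : g 0 0 * h 0 0 + g 0 1 * h 1 0 - 1 = (g 0 0 - 1) * h 0 0 + (h 0 0 - 1) +
          g 0 1 * h 1 0 := by ring
      rw [this]
      refine v.map_add_lt (v.map_add_lt ?_ hh2) ?_
      · rw [map_mul]; exact mul_lt_one_of_lt_of_le hg2 (hh.1 _ _)
      · rw [map_mul]; exact mul_lt_one_of_lt_of_le hg1 (hh.1 _ _)
    · rw [mul_11]
      have : g 1 0 * h 0 1 + g 1 1 * h 1 1 - 1 = (g 1 1 - 1) * h 1 1 + (h 1 1 - 1) +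
          h 0 1 * g 1 0 := by ring
      rw [this]
      refine v.map_add_lt (v.map_add_lt ?_ hh3) ?_
      · rw [map_mul]; exact mul_lt_one_of_lt_of_le hg3 (hh.1 _ _)
      · rw [map_mul]; exact mul_lt_one_of_lt_of_le hh1 (hg.1 _ _)
  inv_mem' := by
    rintro g ⟨hg, hg1, hg2, hg3⟩
    have hd : v (dt g) = 1 := ((mem_KO_iff v).1 hg).2
    have hdn := dt_ne g
    refine ⟨inv_mem hg, ?_, ?_, ?_⟩
    · rw [inv_01, map_div₀, hd, div_one, Valuation.map_neg]; exact hg1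
    · have : g⁻¹ 0 0 - 1 = (g 0 1 * g 1 0 - (g 0 0 - 1) * g 1 1) / dt g := by
        rw [inv_00, eq_div_iff hdn, sub_mul, div_mul_cancel₀ _ hdn, dt]; ring
      rw [this, map_div₀, hd, div_one]
      refine (v.map_sub _ _).trans_lt (max_lt ?_ ?_)
      · rw [map_mul]; exact mul_lt_one_of_lt_of_le hg1 (hg.1 _ _)
      · rw [map_mul]; exact mul_lt_one_of_lt_of_le hg2 (hg.1 _ _)
    · have : g⁻¹ 1 1 - 1 = (g 0 1 * g 1 0 - (g 1 1 - 1) * g 0 0) / dt g := by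
        rw [inv_11, eq_div_iff hdn, sub_mul, div_mul_cancel₀ _ hdn, dt]; ring
      rw [this, map_div₀, hd, div_one]
      refine (v.map_sub _ _).trans_lt (max_lt ?_ ?_)
      · rw [map_mul]; exact mul_lt_one_of_lt_of_le hg1 (hg.1 _ _)
      · rw [map_mul]; exact mul_lt_one_of_lt_of_le hg3 (hg.1 _ _)

lemma mem_Im {g : GL (Fin 2) F} :
    g ∈ Im v ↔ g ∈ KO v ∧ v (g 0 1) < 1 ∧ v (g 0 0 - 1) < 1 ∧ v (g 1 1 - 1) < 1 := Iff.rfl

end loc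

variable {𝔽 : Type} [Field 𝔽]

variable (𝔽) in
/-- the place `T = 0` -/
noncomputable def P0 : HeightOneSpectrum 𝔽[X] :=
  ⟨Ideal.span {X}, (Ideal.span_singleton_prime X_ne_zero).2 prime_X, by
    rw [Ne, Ideal.span_singleton_eq_bot]; exact X_ne_zero⟩

variable (𝔽) in
/-- the place `T = 0` -/
noncomputable abbrev v0 : Place 𝔽 := some (P0 𝔽)

lemma gen_P0_natDegree : (gen (P0 𝔽)).natDegree = 1 := by
  have hass : Associated (gen (P0 𝔽)) X := by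
    rw [← Ideal.span_singleton_eq_span_singleton, ← gen_span (P0 𝔽)]
    rfl
  rw [Polynomial.natDegree_eq_of_degree_eq (Polynomial.degree_eq_degree_of_associated hass),
    natDegree_X]

variable (𝔽) in
/-- the uniformiser `T` at `T = 0` -/
noncomputable def T0 : Kv 𝔽 (v0 𝔽) := emb 𝔽 (v0 𝔽) (pl X)

lemma v_T0 : vv 𝔽 (v0 𝔽) (T0 𝔽) = exp (-1) := by
  rw [T0, vv_emb]
  show (P0 𝔽).valuation (RatFunc 𝔽) (algebraMap _ _ X) = _
  rw [HeightOneSpectrum.valuation_of_algebraMap]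
  exact (P0 𝔽).intValuation_singleton X_ne_zero rfl

lemma T0_ne : T0 𝔽 ≠ 0 := by
  intro h
  have := v_T0 (𝔽 := 𝔽)
  rw [h, map_zero] at this
  exact exp_ne_zero this.symm

lemma cst_sub (v : Place 𝔽) (c d : 𝔽) : cst v (c - d) = cst v c - cst v d := by
  simp only [cst, map_sub]

lemma cst_add (v : Place 𝔽) (c d : 𝔽) : cst v (c + d) = cst v c + cst v d := by
  simp only [cst, map_add]

lemma cst_zero (v : Place 𝔽) : cst v (0 : 𝔽) = 0 := by simp [cst]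

lemma cst_one (v : Place 𝔽) : cst v (1 : 𝔽) = 1 := by simp [cst]

lemma cst_eq_of_lt {v : Place 𝔽} {c d : 𝔽} (h : vv 𝔽 v (cst v c - cst v d) < 1) : c = d := by
  by_contra hne
  rw [← cst_sub, cst_unit v (sub_ne_zero.2 hne)] at h
  exact lt_irrefl _ h

variable [Finite 𝔽]

lemma exists_residue0 (x : Kv 𝔽 (v0 𝔽)) (hx : vv 𝔽 (v0 𝔽) x ≤ 1) :
    ∃ c : 𝔽, vv 𝔽 (v0 𝔽) (x - cst (v0 𝔽) c) < 1 := by
  obtain ⟨b, hb, hb'⟩ := (par (v0 𝔽)).S_ex x hx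
  have h1 : b ∈ ((finite_degree_lt (𝔽 := 𝔽) (gen (P0 𝔽)).natDegree).image
        (fun a => emb 𝔽 (some (P0 𝔽)) (pl a))).toFinset := hb
  rw [Set.Finite.mem_toFinset] at h1
  obtain ⟨a, ha, rfl⟩ := h1
  rw [gen_P0_natDegree] at ha
  have h2 : a = C (a.coeff 0) := by
    by_cases ha0 : a = 0
    · rw [ha0]; simp
    · have h3 : a.natDegree < 1 := (Polynomial.natDegree_lt_iff_degree_lt ha0).2 ha
      exact Polynomial.eq_C_of_natDegree_eq_zero (Nat.lt_one_iff.1 h3)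
  refine ⟨a.coeff 0, ?_⟩
  rw [cst, ← h2]; exact hb'

open Classical in
/-- residue at `T = 0` -/
noncomputable def res0 (x : Kv 𝔽 (v0 𝔽)) : 𝔽 :=
  if h : vv 𝔽 (v0 𝔽) x ≤ 1 then (exists_residue0 x h).choose else 0

lemma res0_eq {x : Kv 𝔽 (v0 𝔽)} {c : 𝔽} (hc : vv 𝔽 (v0 𝔽) (x - cst (v0 𝔽) c) < 1) :
    res0 x = c := by
  have hx : vv 𝔽 (v0 𝔽) x ≤ 1 := by
    have : x = (x - cst (v0 𝔽) c) + cst (v0 𝔽) c := by ring
    rw [this]
    exact Valuation.map_add_le _ hc.le (cst_int _ _)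
  have h1 : res0 x = (exists_residue0 x hx).choose := dif_pos hx
  have h2 := (exists_residue0 x hx).choose_spec
  rw [← h1] at h2
  apply cst_eq_of_lt (v := v0 𝔽)
  have : cst (v0 𝔽) (res0 x) - cst (v0 𝔽) c = (x - cst (v0 𝔽) c) - (x - cst (v0 𝔽) (res0 x)) := by
    ring
  rw [this]
  exact (Valuation.map_sub _ _ _).trans_lt (max_lt hc h2)

lemma res0_spec {x : Kv 𝔽 (v0 𝔽)} (hx : vv 𝔽 (v0 𝔽) x ≤ 1) :
    vv 𝔽 (v0 𝔽) (x - cst (v0 𝔽) (res0 x)) < 1 := by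
  obtain ⟨c, hc⟩ := exists_residue0 x hx
  rw [res0_eq hc]; exact hc

lemma res0_add {x y : Kv 𝔽 (v0 𝔽)} (hx : vv 𝔽 (v0 𝔽) x ≤ 1) (hy : vv 𝔽 (v0 𝔽) y ≤ 1) :
    res0 (x + y) = res0 x + res0 y := by
  apply res0_eq
  rw [cst_add]
  have : x + y - (cst (v0 𝔽) (res0 x) + cst (v0 𝔽) (res0 y)) =
    (x - cst (v0 𝔽) (res0 x)) + (y - cst (v0 𝔽) (res0 y)) := by ring
  rw [this]
  exact Valuation.map_add_lt _ (res0_spec hx) (res0_spec hy)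

lemma res0_small {x : Kv 𝔽 (v0 𝔽)} (hx : vv 𝔽 (v0 𝔽) x < 1) : res0 x = 0 := by
  apply res0_eq
  rw [cst_zero, sub_zero]; exact hx

lemma res0_cst (c : 𝔽) : res0 (cst (v0 𝔽) c) = c := by
  apply res0_eq
  rw [sub_self, map_zero]; exact zero_lt_one

/-- `x, y` integral and congruent have the same residue -/
lemma res0_congr {x y : Kv 𝔽 (v0 𝔽)} (hy : vv 𝔽 (v0 𝔽) y ≤ 1)
    (h : vv 𝔽 (v0 𝔽) (x - y) < 1) : res0 x = res0 y := by
  apply res0_eq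
  have : x - cst (v0 𝔽) (res0 y) = (x - y) + (y - cst (v0 𝔽) (res0 y)) := by ring
  rw [this]
  exact Valuation.map_add_lt _ h (res0_spec hy)

/-- the affine generic character at `T = 0` -/
noncomputable def chi0 (ψ : AddChar 𝔽 ℂ) (g : GLv 𝔽 (v0 𝔽)) : ℂ :=
  ψ (res0 (g 1 0)) * ψ (res0 (g 0 1 / T0 𝔽))

lemma div_T0_le {x : Kv 𝔽 (v0 𝔽)} (h : vv 𝔽 (v0 𝔽) x < 1) : vv 𝔽 (v0 𝔽) (x / T0 𝔽) ≤ 1 := by
  rw [map_div₀, v_T0]
  rw [lt_one_iff] at h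
  exact div_le_one_of_le₀ h zero_le

lemma chi0_mul (ψ : AddChar 𝔽 ℂ) {g h : GLv 𝔽 (v0 𝔽)} (hg : g ∈ Im (vv 𝔽 (v0 𝔽)))
    (hh : h ∈ Im (vv 𝔽 (v0 𝔽))) : chi0 ψ (g * h) = chi0 ψ g * chi0 ψ h := by
  obtain ⟨hg0, hg1, hg2, hg3⟩ := hg
  obtain ⟨hh0, hh1, hh2, hh3⟩ := hh
  have h1 : res0 ((g * h) 1 0) = res0 (g 1 0) + res0 (h 1 0) := by
    rw [← res0_add (KO_int hg0 _ _) (KO_int hh0 _ _)]
    apply res0_congr
    · exact Valuation.map_add_le _ (KO_int hg0 _ _) (KO_int hh0 _ _)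
    · rw [mul_10]
      have : g 1 0 * h 0 0 + g 1 1 * h 1 0 - (g 1 0 + h 1 0) =
        (h 0 0 - 1) * g 1 0 + (g 1 1 - 1) * h 1 0 := by ring
      rw [this]
      refine Valuation.map_add_lt _ ?_ ?_
      · rw [map_mul]; exact mul_lt_one_of_lt_of_le hh2 (hg0.1 _ _)
      · rw [map_mul]; exact mul_lt_one_of_lt_of_le hg3 (hh0.1 _ _)
  have h2 : res0 ((g * h) 0 1 / T0 𝔽) = res0 (g 0 1 / T0 𝔽) + res0 (h 0 1 / T0 𝔽) := by
    rw [← res0_add (div_T0_le hg1) (div_T0_le hh1)]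
    apply res0_congr
    · exact Valuation.map_add_le _ (div_T0_le hg1) (div_T0_le hh1)
    · rw [mul_01]
      have : (g 0 0 * h 0 1 + g 0 1 * h 1 1) / T0 𝔽 - (g 0 1 / T0 𝔽 + h 0 1 / T0 𝔽) =
        (g 0 0 - 1) * (h 0 1 / T0 𝔽) + (h 1 1 - 1) * (g 0 1 / T0 𝔽) := by
        field_simp [T0_ne (𝔽 := 𝔽)]; ring
      rw [this]
      refine Valuation.map_add_lt _ ?_ ?_
      · rw [map_mul]; exact mul_lt_one_of_lt_of_le hg2 (div_T0_le hh1)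
      · rw [map_mul]; exact mul_lt_one_of_lt_of_le hh3 (div_T0_le hg1)
  rw [chi0, chi0, chi0, h1, h2, AddChar.map_add_eq_mul, AddChar.map_add_eq_mul]
  ring

lemma chi0_one (ψ : AddChar 𝔽 ℂ) : chi0 ψ (1 : GLv 𝔽 (v0 𝔽)) = 1 := by
  rw [chi0, one_10, one_01, zero_div, res0_small (by simp), AddChar.map_zero_eq_one, one_mul]

lemma chi0_ne (ψ : AddChar 𝔽 ℂ) {g : GLv 𝔽 (v0 𝔽)} (hg : g ∈ Im (vv 𝔽 (v0 𝔽))) :
    chi0 ψ g ≠ 0 := by
  intro h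
  have h1 := chi0_mul ψ hg (inv_mem hg)
  rw [mul_inv_cancel, chi0_one, h, zero_mul] at h1
  exact one_ne_zero h1

lemma chi0_KN (ψ : AddChar 𝔽 ℂ) {g : GLv 𝔽 (v0 𝔽)} (hg : g ∈ KN (vv 𝔽 (v0 𝔽)) 2) :
    g ∈ Im (vv 𝔽 (v0 𝔽)) ∧ chi0 ψ g = 1 := by
  have h2 : (exp (-((2 : ℕ) : ℤ)) : ℤᵐ⁰) < 1 := by
    rw [← exp_zero, exp_lt_exp]; norm_num
  have h10 := hg.2 1 0
  have h01 := hg.2 0 1
  have h00 := hg.2 0 0
  have h11 := hg.2 1 1
  rw [one_10, sub_zero] at h10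
  rw [one_01, sub_zero] at h01
  rw [one_00] at h00
  rw [one_11] at h11
  refine ⟨⟨hg.1, h01.trans_lt h2, h00.trans_lt h2, h11.trans_lt h2⟩, ?_⟩
  have h3 : vv 𝔽 (v0 𝔽) (g 0 1 / T0 𝔽) < 1 := by
    rw [map_div₀, v_T0]
    calc vv 𝔽 (v0 𝔽) (g 0 1) / exp (-1) ≤ exp (-((2 : ℕ) : ℤ)) / exp (-1) :=
          div_le_div_of_nonneg_right h01 zero_le
      _ = exp (-1) := by rw [← exp_sub]; norm_num
      _ < 1 := by rw [← exp_zero, exp_lt_exp]; norm_num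
  rw [chi0, res0_small (h10.trans_lt h2), res0_small h3, AddChar.map_zero_eq_one, one_mul]

/-- The key local computation for cuspidality. -/
lemma exists_unip (ψ : AddChar 𝔽 ℂ) {a : 𝔽} (ha : ψ a ≠ 1) (g : GLv 𝔽 (v0 𝔽)) :
    ∃ y : Kv 𝔽 (v0 𝔽), g⁻¹ * nn y * g ∈ Im (vv 𝔽 (v0 𝔽)) ∧ chi0 ψ (g⁻¹ * nn y * g) ≠ 1 := by
  have hD := dt_ne g
  have hT := T0_ne (𝔽 := 𝔽)
  -- conjugate
  have hconj : ∀ y' : Kv 𝔽 (v0 𝔽),
      (g⁻¹ * nn (dt g * y') * g) 0 0 = 1 + y' * g 1 0 * g 1 1 ∧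
      (g⁻¹ * nn (dt g * y') * g) 0 1 = y' * g 1 1 * g 1 1 ∧
      (g⁻¹ * nn (dt g * y') * g) 1 0 = -(y' * g 1 0 * g 1 0) ∧
      (g⁻¹ * nn (dt g * y') * g) 1 1 = 1 - y' * g 1 0 * g 1 1 := by
    intro y'
    have hdd : g 0 0 * g 1 1 - g 0 1 * g 1 0 = dt g := rfl
    refine ⟨?_, ?_, ?_, ?_⟩
    · rw [mul_00, mul_00, mul_01, inv_00, inv_01]
      simp only [nn, mk2_00, mk2_01, mk2_10, mk2_11]
      field_simp
      linear_combination hdd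
    · rw [mul_01, mul_00, mul_01, inv_00, inv_01]
      simp only [nn, mk2_00, mk2_01, mk2_10, mk2_11]
      field_simp
      ring
    · rw [mul_10, mul_10, mul_11, inv_10, inv_11]
      simp only [nn, mk2_00, mk2_01, mk2_10, mk2_11]
      field_simp
      ring
    · rw [mul_11, mul_10, mul_11, inv_10, inv_11]
      simp only [nn, mk2_00, mk2_01, mk2_10, mk2_11]
      field_simp
      linear_combination hdd
  have hdet : ∀ y' : Kv 𝔽 (v0 𝔽), vv 𝔽 (v0 𝔽) (dt (g⁻¹ * nn (dt g * y') * g)) = 1 := by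
    intro y'
    have : dt (nn (dt g * y') : GLv 𝔽 (v0 𝔽)) = 1 := by simp [dt, nn]
    rw [dt_mul, dt_mul, this, dt_inv, mul_one, inv_mul_cancel₀ hD, map_one]
  have hmem : ∀ y' : Kv 𝔽 (v0 𝔽), vv 𝔽 (v0 𝔽) (y' * g 1 0 * g 1 1) < 1 →
      vv 𝔽 (v0 𝔽) (y' * g 1 1 * g 1 1) < 1 → vv 𝔽 (v0 𝔽) (y' * g 1 0 * g 1 0) ≤ 1 →
      g⁻¹ * nn (dt g * y') * g ∈ Im (vv 𝔽 (v0 𝔽)) := by
    intro y' h1 h2 h3
    obtain ⟨e00, e01, e10, e11⟩ := hconj y'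
    refine ⟨(mem_KO_iff _).2 ⟨?_, hdet y'⟩, ?_, ?_, ?_⟩
    · intro i j
      fin_cases i <;> fin_cases j
      · show vv 𝔽 (v0 𝔽) ((g⁻¹ * nn (dt g * y') * g) 0 0) ≤ 1
        rw [e00]
        exact Valuation.map_add_le _ (by simp) h1.le
      · show vv 𝔽 (v0 𝔽) ((g⁻¹ * nn (dt g * y') * g) 0 1) ≤ 1
        rw [e01]; exact h2.le
      · show vv 𝔽 (v0 𝔽) ((g⁻¹ * nn (dt g * y') * g) 1 0) ≤ 1
        rw [e10, Valuation.map_neg]; exact h3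
      · show vv 𝔽 (v0 𝔽) ((g⁻¹ * nn (dt g * y') * g) 1 1) ≤ 1
        rw [e11]
        exact (Valuation.map_sub _ _ _).trans (max_le (by simp) h1.le)
    · rw [e01]; exact h2
    · rw [e00, add_sub_cancel_left]; exact h1
    · rw [e11, sub_sub_cancel_left, Valuation.map_neg]; exact h1
  by_cases hcd : vv 𝔽 (v0 𝔽) (g 1 0) ≤ vv 𝔽 (v0 𝔽) (g 1 1)
  · have hd0 : g 1 1 ≠ 0 := by
      intro h0
      rw [h0, map_zero, le_zero_iff, Valuation.zero_iff] at hcd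
      apply hD
      rw [dt, h0, hcd]; ring
    have hr : vv 𝔽 (v0 𝔽) (g 1 0 / g 1 1) ≤ 1 := by
      rw [map_div₀]; exact div_le_one_of_le₀ hcd zero_le
    have hTa : vv 𝔽 (v0 𝔽) (T0 𝔽 * cst (v0 𝔽) a) < 1 := by
      rw [map_mul, v_T0]
      refine mul_lt_one_of_lt_of_le ?_ (cst_int _ _)
      rw [← exp_zero, exp_lt_exp]; norm_num
    set y' := T0 𝔽 * cst (v0 𝔽) a / (g 1 1 * g 1 1) with hy'
    have h1 : y' * g 1 0 * g 1 1 = T0 𝔽 * cst (v0 𝔽) a * (g 1 0 / g 1 1) := by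
      rw [hy']; field_simp
    have h2 : y' * g 1 1 * g 1 1 = T0 𝔽 * cst (v0 𝔽) a := by
      rw [hy']; field_simp
    have h3 : y' * g 1 0 * g 1 0 = T0 𝔽 * cst (v0 𝔽) a * (g 1 0 / g 1 1) * (g 1 0 / g 1 1) := by
      rw [hy']; field_simp
    have l1 : vv 𝔽 (v0 𝔽) (y' * g 1 0 * g 1 1) < 1 := by
      rw [h1, map_mul]; exact mul_lt_one_of_lt_of_le hTa hr
    have l2 : vv 𝔽 (v0 𝔽) (y' * g 1 1 * g 1 1) < 1 := by rw [h2]; exact hTa
    have l3 : vv 𝔽 (v0 𝔽) (y' * g 1 0 * g 1 0) < 1 := by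
      rw [h3, map_mul, map_mul]
      exact mul_lt_one_of_lt_of_le (mul_lt_one_of_lt_of_le hTa hr) hr
    refine ⟨dt g * y', hmem y' l1 l2 l3.le, ?_⟩
    obtain ⟨e00, e01, e10, e11⟩ := hconj y'
    rw [chi0, e10, e01, h2, mul_comm (T0 𝔽), mul_div_assoc, div_self hT, mul_one, res0_cst,
      res0_small (by rw [Valuation.map_neg]; exact l3), AddChar.map_zero_eq_one, one_mul]
    exact ha
  · rw [not_le] at hcd
    have hc0 : g 1 0 ≠ 0 := by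
      intro h0
      rw [h0, map_zero] at hcd
      exact not_lt_zero hcd
    have hvc : 0 < vv 𝔽 (v0 𝔽) (g 1 0) := zero_lt_iff.2 ((Valuation.ne_zero_iff _).2 hc0)
    have hr : vv 𝔽 (v0 𝔽) (g 1 1 / g 1 0) < 1 := by
      rw [map_div₀]; exact (div_lt_one₀ hvc).2 hcd
    set y' := -cst (v0 𝔽) a / (g 1 0 * g 1 0) with hy'
    have h1 : y' * g 1 0 * g 1 1 = -cst (v0 𝔽) a * (g 1 1 / g 1 0) := by
      rw [hy']; field_simp
    have h2 : y' * g 1 1 * g 1 1 = -cst (v0 𝔽) a * (g 1 1 / g 1 0) * (g 1 1 / g 1 0) := by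
      rw [hy']; field_simp
    have h3 : y' * g 1 0 * g 1 0 = -cst (v0 𝔽) a := by
      rw [hy']; field_simp
    have hca : vv 𝔽 (v0 𝔽) (-cst (v0 𝔽) a) ≤ 1 := by
      rw [Valuation.map_neg]; exact cst_int _ _
    have l1 : vv 𝔽 (v0 𝔽) (y' * g 1 0 * g 1 1) < 1 := by
      rw [h1, map_mul, mul_comm]; exact mul_lt_one_of_lt_of_le hr hca
    have l2 : vv 𝔽 (v0 𝔽) (y' * g 1 1 * g 1 1) < 1 := by
      rw [h2, map_mul, mul_comm]
      refine mul_lt_one_of_lt_of_le hr ?_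
      rw [map_mul]; exact mul_le_one' hca hr.le
    have l3 : vv 𝔽 (v0 𝔽) (y' * g 1 0 * g 1 0) ≤ 1 := by rw [h3]; exact hca
    have l4 : vv 𝔽 (v0 𝔽) (y' * g 1 1 * g 1 1 / T0 𝔽) < 1 := by
      rw [h2, map_div₀, map_mul, map_mul, v_T0]
      rw [lt_one_iff] at hr
      calc vv 𝔽 (v0 𝔽) (-cst (v0 𝔽) a) * vv 𝔽 (v0 𝔽) (g 1 1 / g 1 0) *
            vv 𝔽 (v0 𝔽) (g 1 1 / g 1 0) / exp (-1)
          ≤ 1 * exp (-1) * exp (-1) / exp (-1) := by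
            refine div_le_div_of_nonneg_right ?_ zero_le
            exact mul_le_mul' (mul_le_mul' hca hr) hr
        _ = exp (-1) := by rw [one_mul, mul_div_assoc, div_self exp_ne_zero, mul_one]
        _ < 1 := by rw [← exp_zero, exp_lt_exp]; norm_num
    refine ⟨dt g * y', hmem y' l1 l2 l3, ?_⟩
    obtain ⟨e00, e01, e10, e11⟩ := hconj y'
    rw [chi0, e10, e01, h3, neg_neg, res0_cst, res0_small l4, AddChar.map_zero_eq_one, mul_one]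
    exact ha

/-! ### The global group `U` -/

/-- The subgroup `ϖ^ℤ Iw` of `GL₂(K_∞)` -/
noncomputable def ZIw (𝔽 : Type) [Field 𝔽] [Finite 𝔽] : Subgroup (GLv 𝔽 none) where
  carrier := {g | ∃ n : ℤ, (par (𝔽 := 𝔽) none).z n * g ∈ Iw (vv 𝔽 none)}
  one_mem' := ⟨0, by rw [Par.z_zero, one_mul]; exact one_mem _⟩
  mul_mem' := by
    rintro g h ⟨n, hn⟩ ⟨m, hm⟩
    refine ⟨n + m, ?_⟩
    have : (par (𝔽 := 𝔽) none).z (n + m) * (g * h) =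
        ((par (𝔽 := 𝔽) none).z n * g) * ((par (𝔽 := 𝔽) none).z m * h) := by
      rw [Par.z_add, mul_assoc, ← mul_assoc _ g h, (par (𝔽 := 𝔽) none).z_comm m g]
      simp only [mul_assoc]
    rw [this]
    exact mul_mem hn hm
  inv_mem' := by
    rintro g ⟨n, hn⟩
    refine ⟨-n, ?_⟩
    have h1 := inv_mem hn
    have : (par (𝔽 := 𝔽) none).z (-n) * g⁻¹ = ((par (𝔽 := 𝔽) none).z n * g)⁻¹ := by
      rw [eq_inv_iff_mul_eq_one, mul_assoc, ← mul_assoc g⁻¹,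
        ← (par (𝔽 := 𝔽) none).z_comm n g⁻¹, mul_assoc, ← mul_assoc, ← Par.z_add]
      simp
    rw [this]; exact h1

/-- The group `U = ϖ^ℤ Iw_∞ × I₀⁻(1) × ∏ GL₂(O_v)` -/
noncomputable def UC (𝔽 : Type) [Field 𝔽] [Finite 𝔽] : Subgroup (GA 𝔽) where
  carrier := {u | u none ∈ ZIw 𝔽 ∧ u (v0 𝔽) ∈ Im (vv 𝔽 (v0 𝔽)) ∧
    ∀ P : HeightOneSpectrum 𝔽[X], u (some P) ∈ GLO 𝔽 (some P)}
  one_mem' := ⟨one_mem _, one_mem _, fun _ => one_mem _⟩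
  mul_mem' := fun ha hb =>
    ⟨mul_mem ha.1 hb.1, mul_mem ha.2.1 hb.2.1, fun P => mul_mem (ha.2.2 P) (hb.2.2 P)⟩
  inv_mem' := fun ha => ⟨inv_mem ha.1, inv_mem ha.2.1, fun P => inv_mem (ha.2.2 P)⟩

/-- the degree of elements of `U` is even -/
lemma gdeg_UC {u : GA 𝔽} (hu : u ∈ UC 𝔽) : ∃ n : ℤ, gdeg u = 2 * n ∧
    (par (𝔽 := 𝔽) none).z n * u none ∈ Iw (vv 𝔽 none) := by
  obtain ⟨⟨n, hn⟩, _, h2⟩ := hu
  refine ⟨n, ?_, hn⟩
  have h1 : gdeg (zi n * u) = 0 := by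
    have h3 : ∀ v, (zi n * u : GA 𝔽) v ∈ GLO 𝔽 v := by
      intro v
      rw [RestrictedProduct.mul_apply]
      rcases v with _ | P
      · rw [zi_none]; exact hn.1
      · rw [zi_some, one_mul]; exact h2 P
    have h4 := gdeg_right 1 (zi n * u) h3
    rw [one_mul] at h4
    rw [h4]
    have h5 := gdeg_diag (𝔽 := 𝔽) 1
    rwa [map_one] at h5
  rw [gdeg_mul, gdeg_zi] at h1
  omega

/-- `GL₂(K) ∩ U = 1` -/
lemma diag_UC {γ : GL (Fin 2) (RatFunc 𝔽)} (h : Gdiag 𝔽 γ ∈ UC 𝔽) : γ = 1 := by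
  obtain ⟨n, hn, hIw⟩ := gdeg_UC h
  rw [gdeg_diag] at hn
  have hn0 : n = 0 := by omega
  rw [hn0, Par.z_zero, one_mul] at hIw
  obtain ⟨_, h0, hfin⟩ := h
  -- entries are constants
  have hconst : ∀ i j, ∃ c : 𝔽, γ i j = pl (C c) := by
    intro i j
    obtain ⟨a, ha⟩ := exists_poly (γ i j) (fun P => by
      rw [← vv_emb]; exact (hfin P).1 i j)
    have h1 : val 𝔽 none (pl a) ≤ 1 := by
      rw [← ha, ← vv_emb]; exact hIw.1.1 i j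
    obtain ⟨c, rfl⟩ := const_of_val_le h1
    exact ⟨c, ha⟩
  choose c hc using hconst
  have hG : ∀ v i j, Gdiag 𝔽 γ v i j = cst v (c i j) := by
    intro v i j
    show emb 𝔽 v (γ i j) = _
    rw [hc]; rfl
  have h10 : c 1 0 = 0 := by
    apply cst_eq_of_lt (v := none)
    rw [cst_zero, sub_zero, ← hG]
    exact hIw.2
  have h01 : c 0 1 = 0 := by
    apply cst_eq_of_lt (v := v0 𝔽)
    rw [cst_zero, sub_zero, ← hG]
    exact h0.2.1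
  have h00 : c 0 0 = 1 := by
    apply cst_eq_of_lt (v := v0 𝔽)
    rw [cst_one, ← hG]
    exact h0.2.2.1
  have h11 : c 1 1 = 1 := by
    apply cst_eq_of_lt (v := v0 𝔽)
    rw [cst_one, ← hG]
    exact h0.2.2.2
  apply gl_ext
  · rw [hc, h00]; simp
  · rw [hc, h01]; simp
  · rw [hc, h10]; simp
  · rw [hc, h11]; simp

end Pool.Agent.Helper37.LL
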