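import Pool.Agent.Helper37.LL.P2a

/-!
# The cusp form `f₂`
-/

set_option autoImplicit false


open Polynomial IsDedekindDomain WithZero Topology
open scoped RestrictedProduct

namespace Pool.Agent.Helper37.LL

section coset

variable {F : Type*} [Field F] {v : Valuation F ℤᵐ⁰} (P : Par v)

/-- representatives of `KO/Iw` -/
noncomputable def rr : Option P.S → GL (Fin 2) F
  | none => 1
  | some b => nn (b : F) * ss

lemma rr_mem (o : Option P.S) : rr P o ∈ KO v := by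
  rcases o with _ | b
  · exact one_mem _
  · exact mul_mem (Iw_le_KO v (nn_mem_Iw (P.S_int b b.2))) ss_mem_KO

lemma rr_exists {k : GL (Fin 2) F} (hk : k ∈ KO v) : ∃ o, (rr P o)⁻¹ * k ∈ Iw v := by
  by_cases h1 : v (k 1 0) < 1
  · refine ⟨none, ?_⟩
    show (1 : GL (Fin 2) F)⁻¹ * k ∈ Iw v
    rw [inv_one, one_mul]
    exact ⟨hk, h1⟩
  · have hv1 : v (k 1 0) = 1 := le_antisymm (hk.1 1 0) (not_lt.1 h1)
    have hk0 : k 1 0 ≠ 0 := by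
      intro h; rw [h, map_zero] at hv1; exact zero_ne_one hv1
    obtain ⟨b, hb, hb'⟩ := P.S_ex (k 0 0 / k 1 0) (by
      rw [map_div₀, hv1, div_one]; exact hk.1 0 0)
    refine ⟨some ⟨b, hb⟩, mul_mem (inv_mem (rr_mem P _)) hk, ?_⟩
    have h2 : ((rr P (some ⟨b, hb⟩))⁻¹ * k) 1 0 = (k 0 0 / k 1 0 - b) * k 1 0 := by
      show ((nn b * ss)⁻¹ * k) 1 0 = _
      rw [mul_10, inv_10, inv_11]
      simp only [nn, ss, dt, mul_00, mul_01, mul_10, mul_11, mk2_00, mk2_01, mk2_10, mk2_11]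
      field_simp
      ring
    rw [h2, map_mul, hv1, mul_one]
    exact hb'

lemma rr_inj {o o' : Option P.S} (h : (rr P o)⁻¹ * rr P o' ∈ Iw v) : o = o' := by
  have key : ∀ b : F, (nn b * ss : GL (Fin 2) F) ∉ Iw v := by
    intro b hb
    have h1 := hb.2
    have h2 : (nn b * ss : GL (Fin 2) F) 1 0 = 1 := by simp [nn, ss, mul_10]
    rw [h2, map_one] at h1
    exact lt_irrefl _ h1
  rcases o with _ | b <;> rcases o' with _ | b'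
  · rfl
  · exfalso
    have h1 : (1 : GL (Fin 2) F)⁻¹ * (nn (b' : F) * ss) ∈ Iw v := h
    rw [inv_one, one_mul] at h1
    exact key _ h1
  · exfalso
    have h1 : (nn (b : F) * ss)⁻¹ * (1 : GL (Fin 2) F) ∈ Iw v := h
    rw [mul_one] at h1
    exact key _ ((inv_mem_iff).1 h1)
  · have h1 : ((nn (b : F) * ss)⁻¹ * (nn (b' : F) * ss) : GL (Fin 2) F) ∈ Iw v := h
    have h2 : ((nn (b : F) * ss)⁻¹ * (nn (b' : F) * ss) : GL (Fin 2) F) 1 0 = b' - b := by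
      rw [mul_10, inv_10, inv_11]
      simp only [nn, ss, dt, mul_00, mul_01, mul_10, mul_11, mk2_00, mk2_01, mk2_10, mk2_11]
      field_simp
      ring
    have h3 := h1.2
    rw [h2] at h3
    exact congrArg some (Subtype.ext (P.S_inj _ b'.2 _ b.2 h3).symm)

lemma coset_sum (φ : GL (Fin 2) F → ℂ) (hφ : ∀ g, ∀ k ∈ Iw v, φ (g * k) = φ g)
    {k : GL (Fin 2) F} (hk : k ∈ KO v) :
    φ k + ∑ b ∈ P.S, φ (k * (nn b * ss)) = φ 1 + ∑ b ∈ P.S, φ (nn b * ss) := by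
  classical
  have key : ∀ k : GL (Fin 2) F, φ k + ∑ b ∈ P.S, φ (k * (nn b * ss)) =
      ∑ o : Option P.S, φ (k * rr P o) := by
    intro k
    rw [Fintype.sum_option, ← Finset.sum_coe_sort]
    congr 1
    show φ k = φ (k * 1)
    rw [mul_one]
  have key1 : φ 1 + ∑ b ∈ P.S, φ (nn b * ss) = ∑ o : Option P.S, φ (rr P o) := by
    have h := key 1
    simp only [one_mul] at h
    exact h
  rw [key, key1]
  have hex : ∀ o, ∃ o', (rr P o')⁻¹ * (k * rr P o) ∈ Iw v := fun o =>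
    rr_exists P (mul_mem hk (rr_mem P o))
  choose σ hσ using hex
  have hinj : Function.Injective σ := by
    intro o o' h
    apply rr_inj P
    have h1 := hσ o
    have h2 := hσ o'
    rw [← h] at h2
    have h3 := mul_mem (inv_mem h1) h2
    have h4 : ((rr P (σ o))⁻¹ * (k * rr P o))⁻¹ * ((rr P (σ o))⁻¹ * (k * rr P o')) =
        (rr P o)⁻¹ * rr P o' := by group
    rwa [h4] at h3
  refine Fintype.sum_bijective σ (Finite.injective_iff_bijective.1 hinj) _ _ (fun o => ?_)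
  have h1 : k * rr P o = rr P (σ o) * ((rr P (σ o))⁻¹ * (k * rr P o)) := by group
  rw [h1, hφ _ _ (hσ o)]

end coset

variable {𝔽 : Type} [Field 𝔽] [Finite 𝔽] (ψ : AddChar 𝔽 ℂ)

/-- the character of `U` -/
noncomputable def chi (u : GA 𝔽) : ℂ := chi0 ψ (u (v0 𝔽))

lemma chi_mul {u u' : GA 𝔽} (hu : u ∈ UC 𝔽) (hu' : u' ∈ UC 𝔽) :
    chi ψ (u * u') = chi ψ u * chi ψ u' := chi0_mul ψ hu.2.1 hu'.2.1

open Classical in
/-- the `(U, χ)`-equivariant function supported on `GL₂(K) U` -/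
noncomputable def fp (x : GA 𝔽) : ℂ :=
  if h : ∃ u ∈ UC 𝔽, ∃ γ, x = Gdiag 𝔽 γ * u then chi ψ h.choose else 0

lemma fp_eq (γ : GL (Fin 2) (RatFunc 𝔽)) {u : GA 𝔽} (hu : u ∈ UC 𝔽) :
    fp ψ (Gdiag 𝔽 γ * u) = chi ψ u := by
  have h : ∃ u' ∈ UC 𝔽, ∃ γ', Gdiag 𝔽 γ * u = Gdiag 𝔽 γ' * u' := ⟨u, hu, γ, rfl⟩
  have h1 : fp ψ (Gdiag 𝔽 γ * u) = chi ψ h.choose := dif_pos h
  rw [h1]
  obtain ⟨hu', γ', hγ'⟩ := h.choose_spec
  set u' := h.choose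
  have h2 : Gdiag 𝔽 (γ'⁻¹ * γ) = u' * u⁻¹ := by
    rw [map_mul, map_inv, inv_mul_eq_iff_eq_mul, ← mul_assoc, ← hγ', mul_inv_cancel_right]
  have h3 : γ'⁻¹ * γ = 1 := diag_UC (by rw [h2]; exact mul_mem hu' (inv_mem hu))
  rw [h3, map_one] at h2
  rw [mul_inv_eq_one.1 h2.symm]

lemma fp_zero {x : GA 𝔽} (h : ¬∃ u ∈ UC 𝔽, ∃ γ, x = Gdiag 𝔽 γ * u) : fp ψ x = 0 := dif_neg h

lemma fp_left (γ : GL (Fin 2) (RatFunc 𝔽)) (x : GA 𝔽) : fp ψ (Gdiag 𝔽 γ * x) = fp ψ x := by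
  by_cases h : ∃ u ∈ UC 𝔽, ∃ γ, x = Gdiag 𝔽 γ * u
  · obtain ⟨u, hu, γ', rfl⟩ := h
    rw [← mul_assoc, ← map_mul, fp_eq ψ _ hu, fp_eq ψ _ hu]
  · rw [fp_zero ψ h, fp_zero]
    rintro ⟨u, hu, γ', h'⟩
    apply h
    refine ⟨u, hu, γ⁻¹ * γ', ?_⟩
    rw [map_mul, mul_assoc, ← h', map_inv, inv_mul_cancel_left]

lemma fp_right (x : GA 𝔽) {u : GA 𝔽} (hu : u ∈ UC 𝔽) : fp ψ (x * u) = chi ψ u * fp ψ x := by
  by_cases h : ∃ u ∈ UC 𝔽, ∃ γ, x = Gdiag 𝔽 γ * u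
  · obtain ⟨u', hu', γ', rfl⟩ := h
    rw [mul_assoc, fp_eq ψ _ (mul_mem hu' hu), fp_eq ψ _ hu', chi_mul ψ hu' hu, mul_comm]
  · rw [fp_zero ψ h, fp_zero, mul_zero]
    rintro ⟨u', hu', γ', h'⟩
    apply h
    refine ⟨u' * u⁻¹, mul_mem hu' (inv_mem hu), γ', ?_⟩
    rw [← mul_assoc, ← h', mul_inv_cancel_right]

/-- The cusp form. -/
noncomputable def f2 (x : GA 𝔽) : ℂ := fp ψ x - fp ψ (x * wi)

lemma f2_left (γ : GL (Fin 2) (RatFunc 𝔽)) (x : GA 𝔽) : f2 ψ (Gdiag 𝔽 γ * x) = f2 ψ x := by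
  rw [f2, f2, fp_left, mul_assoc, fp_left]

lemma wi_v0 : (wi : GA 𝔽) (v0 𝔽) = 1 := inc_apply_ne 𝔽 (by simp) _

lemma wi_none : (wi : GA 𝔽) none = (par (𝔽 := 𝔽) none).w := inc_apply_same 𝔽 none _

lemma wi_some (P : HeightOneSpectrum 𝔽[X]) : (wi : GA 𝔽) (some P) = 1 :=
  inc_apply_ne 𝔽 (by simp) _

/-- `w` normalises `U` -/
lemma wi_conj {u : GA 𝔽} (hu : u ∈ UC 𝔽) : ∃ u' ∈ UC 𝔽, u * wi = wi * u' ∧ chi ψ u' = chi ψ u := by
  refine ⟨wi⁻¹ * u * wi, ?_, by group, ?_⟩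
  · have h0 : ∀ P, (wi⁻¹ * u * wi : GA 𝔽) (some P) = u (some P) := by
      intro P
      rw [RestrictedProduct.mul_apply, RestrictedProduct.mul_apply, RestrictedProduct.inv_apply,
        wi_some, inv_one, one_mul, mul_one]
    refine ⟨?_, ?_, ?_⟩
    · obtain ⟨n, hn⟩ := hu.1
      obtain ⟨u', hu', h⟩ := w_conj_mem' (par (𝔽 := 𝔽) none) hn
      refine ⟨n, ?_⟩
      have h1 : (par (𝔽 := 𝔽) none).z n * (wi⁻¹ * u * wi : GA 𝔽) none = u' := by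
        rw [RestrictedProduct.mul_apply, RestrictedProduct.mul_apply,
          RestrictedProduct.inv_apply, wi_none, ← mul_assoc, ← mul_assoc,
          (par (𝔽 := 𝔽) none).z_comm n _]
        rw [mul_assoc, mul_assoc, ← mul_assoc ((par (𝔽 := 𝔽) none).z n), h, inv_mul_cancel_left]
      rw [h1]; exact hu'
    · rw [h0]; exact hu.2.1
    · intro P; rw [h0]; exact hu.2.2 P
  · rw [chi, chi]
    congr 1
    rw [RestrictedProduct.mul_apply, RestrictedProduct.mul_apply, RestrictedProduct.inv_apply,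
        wi_v0, inv_one, one_mul, mul_one]

lemma f2_right (x : GA 𝔽) {u : GA 𝔽} (hu : u ∈ UC 𝔽) : f2 ψ (x * u) = chi ψ u * f2 ψ x := by
  obtain ⟨u', hu', h, hc⟩ := wi_conj ψ hu
  rw [f2, f2, fp_right ψ x hu, mul_assoc, h, ← mul_assoc, fp_right ψ _ hu', hc]
  ring

lemma zi_mem (n : ℤ) : (zi n : GA 𝔽) ∈ UC 𝔽 := by
  refine ⟨⟨-n, ?_⟩, ?_, ?_⟩
  · rw [zi_none, ← Par.z_add]; simp [one_mem]
  · rw [zi_some]; exact one_mem _
  · intro P; rw [zi_some]; exact one_mem _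

lemma chi_of_v0 {u : GA 𝔽} (h : u (v0 𝔽) = 1) : chi ψ u = 1 := by
  rw [chi, h, chi0_one]

lemma f2_zi (x : GA 𝔽) (n : ℤ) : f2 ψ (x * zi n) = f2 ψ x := by
  rw [f2_right ψ x (zi_mem n), chi_of_v0 ψ (zi_some n _), one_mul]

lemma f2_w (x : GA 𝔽) : f2 ψ (x * wi) = -f2 ψ x := by
  rw [f2, f2, mul_assoc, wi_mul_wi, fp_right ψ x (zi_mem 1), chi_of_v0 ψ (zi_some 1 _)]
  ring

lemma incIw_mem {k : GLv 𝔽 none} (hk : k ∈ Iw (vv 𝔽 none)) : (inc 𝔽 none k : GA 𝔽) ∈ UC 𝔽 := by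
  refine ⟨⟨0, ?_⟩, ?_, ?_⟩
  · rw [Par.z_zero, one_mul, inc_apply_same]; exact hk
  · rw [inc_apply_ne 𝔽 (by simp)]; exact one_mem _
  · intro P; rw [inc_apply_ne 𝔽 (by simp)]; exact one_mem _

lemma f2_iw (x : GA 𝔽) {k : GLv 𝔽 none} (hk : k ∈ Iw (vv 𝔽 none)) :
    f2 ψ (x * inc 𝔽 none k) = f2 ψ x := by
  rw [f2_right ψ x (incIw_mem hk), chi_of_v0 ψ (inc_apply_ne 𝔽 (by simp) _), one_mul]

/-- the obstruction to the last Steinberg relation -/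
noncomputable def QQ (x : GA 𝔽) : ℂ :=
  f2 ψ x + ∑ b ∈ (par (𝔽 := 𝔽) none).S, f2 ψ (x * inc 𝔽 none (nn b * ss))

lemma QQ_KO (x : GA 𝔽) {k : GLv 𝔽 none} (hk : k ∈ GLO 𝔽 none) :
    QQ ψ (x * inc 𝔽 none k) = QQ ψ x := by
  have h1 := coset_sum (par (𝔽 := 𝔽) none) (fun h => f2 ψ (x * inc 𝔽 none h)) (by
    intro g k hk
    rw [map_mul, ← mul_assoc, f2_iw ψ _ hk]) hk
  simp only [map_one, mul_one] at h1
  rw [QQ, QQ, ← h1]
  congr 1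
  refine Finset.sum_congr rfl (fun b _ => ?_)
  rw [map_mul (inc 𝔽 none) k, ← mul_assoc]

lemma QQ_left (γ : GL (Fin 2) (RatFunc 𝔽)) (x : GA 𝔽) : QQ ψ (Gdiag 𝔽 γ * x) = QQ ψ x := by
  rw [QQ, QQ, f2_left]
  congr 1
  refine Finset.sum_congr rfl (fun b _ => ?_)
  rw [mul_assoc, f2_left]

lemma QQ_zi (x : GA 𝔽) (n : ℤ) : QQ ψ (x * zi n) = QQ ψ x := by
  rw [QQ, QQ, f2_zi]
  congr 1
  refine Finset.sum_congr rfl (fun b _ => ?_)
  rw [mul_assoc, zi_comm, ← mul_assoc, f2_zi]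

lemma QQ_c (x : GA 𝔽) {c : GA 𝔽} (hc : c ∈ UC 𝔽) (hc0 : c none = 1) :
    QQ ψ (x * c) = chi ψ c * QQ ψ x := by
  rw [QQ, QQ, f2_right ψ x hc, mul_add, Finset.mul_sum]
  congr 1
  refine Finset.sum_congr rfl (fun b _ => ?_)
  rw [mul_assoc, inc_comm_ne hc0, ← mul_assoc, f2_right ψ _ hc]

lemma QQ_UC (x : GA 𝔽) {u : GA 𝔽} (hu : u ∈ UC 𝔽) : QQ ψ (x * u) = chi ψ u * QQ ψ x := by
  obtain ⟨c, h1, h2, h3⟩ := exists_split none u
  obtain ⟨n, hn⟩ := hu.1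
  have hc : c ∈ UC 𝔽 := by
    refine ⟨?_, ?_, ?_⟩
    · rw [h2]; exact one_mem _
    · rw [h3 _ (by simp)]; exact hu.2.1
    · intro P; rw [h3 _ (by simp)]; exact hu.2.2 P
  have hcu : chi ψ c = chi ψ u := by
    rw [chi, chi, h3 _ (by simp)]
  have h4 : x * u = x * c * inc 𝔽 none ((par (𝔽 := 𝔽) none).z n * u none) * zi (-n) := by
    have h5 : (par (𝔽 := 𝔽) none).z n * u none * (par (𝔽 := 𝔽) none).z (-n) = u none := by
      rw [(par (𝔽 := 𝔽) none).z_comm n (u none), mul_assoc, ← Par.z_add]; simp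
    conv_lhs => rw [h1, ← h5]
    rw [map_mul (inc 𝔽 none) (_ * _) ((par (𝔽 := 𝔽) none).z (-n))]
    simp only [mul_assoc]
    rfl
  rw [h4, QQ_zi, QQ_KO ψ _ hn.1, QQ_c ψ x hc h2, hcu]

end Pool.Agent.Helper37.LL
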