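import Pool.Agent.Helper37.LL.P2b

/-!
# The Steinberg relations for the cusp form `f₂`
-/

set_option autoImplicit false


open Polynomial IsDedekindDomain WithZero Topology
open scoped RestrictedProduct

namespace Pool.Agent.Helper37.LL

variable {𝔽 : Type} [Field 𝔽] [Finite 𝔽] (ψ : AddChar 𝔽 ℂ)

lemma split_diag {γ : GL (Fin 2) (RatFunc 𝔽)}
    (h : ∀ P : HeightOneSpectrum 𝔽[X], Gdiag 𝔽 γ (some P) ∈ GLO 𝔽 (some P))
    (h0 : Gdiag 𝔽 γ (v0 𝔽) ∈ Im (vv 𝔽 (v0 𝔽))) :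
    ∃ c ∈ UC 𝔽, c none = 1 ∧ chi ψ c = chi0 ψ (Gdiag 𝔽 γ (v0 𝔽)) ∧
      Gdiag 𝔽 γ = c * inc 𝔽 none (Gdiag 𝔽 γ none) := by
  obtain ⟨c, h1, h2, h3⟩ := exists_split none (Gdiag 𝔽 γ)
  refine ⟨c, ⟨?_, ?_, ?_⟩, h2, ?_, h1⟩
  · rw [h2]; exact one_mem _
  · rw [h3 _ (by simp)]; exact h0
  · intro P; rw [h3 _ (by simp)]; exact h P
  · rw [chi, h3 _ (by simp)]

lemma QQ_one {c : 𝔽} (hc : ψ c ≠ 1) : QQ ψ 1 = 0 := by
  have hd : (1 : 𝔽) * 1 - 0 * c ≠ 0 := by simp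
  have h0 : Gdiag 𝔽 (cmat 1 0 c 1 hd) (v0 𝔽) ∈ Im (vv 𝔽 (v0 𝔽)) := by
    refine ⟨cmat_mem _ _ _ _ hd _, ?_, ?_, ?_⟩
    · rw [cmat_apply, mk2_01, cst_zero, map_zero]; exact zero_lt_one
    · rw [cmat_apply, mk2_00, cst_one, sub_self, map_zero]; exact zero_lt_one
    · rw [cmat_apply, mk2_11, cst_one, sub_self, map_zero]; exact zero_lt_one
  obtain ⟨c', hc', h1, h2, h3⟩ := split_diag ψ (fun P => cmat_mem 1 0 c 1 hd (some P)) h0
  have h4 : chi0 ψ (Gdiag 𝔽 (cmat 1 0 c 1 hd) (v0 𝔽)) = ψ c := by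
    rw [chi0, cmat_apply, mk2_10, mk2_01, cst_zero, zero_div, res0_cst,
      res0_small (by simp), AddChar.map_zero_eq_one, mul_one]
  have h5 : QQ ψ 1 = ψ c * QQ ψ 1 := by
    conv_lhs => rw [← QQ_left ψ (cmat 1 0 c 1 hd) 1, mul_one, h3,
      QQ_KO ψ _ (cmat_mem 1 0 c 1 hd none), ← one_mul c', QQ_c ψ 1 hc' h1, h2, h4]
  have h6 : (ψ c - 1) * QQ ψ 1 = 0 := by linear_combination -h5
  exact (mul_eq_zero.1 h6).resolve_left (sub_ne_zero.2 hc)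

lemma nn_w {F : Type*} [Field F] {v : Valuation F ℤᵐ⁰} (P : Par v) (x : F) :
    nn x * P.w = P.w * nm (x * P.ϖ) := by
  apply gl_ext <;> simp [nn, nm, Par.w, mul_00, mul_01, mul_10, mul_11]

lemma QQ_wi {b : 𝔽} (hb : ψ b ≠ 1) : QQ ψ wi = 0 := by
  let γ : GL (Fin 2) (RatFunc 𝔽) := nn (pl (C b * X))
  have hγ : ∀ v : Place 𝔽, Gdiag 𝔽 γ v = nn (emb 𝔽 v (pl (C b * X))) := by
    intro v
    apply gl_ext
    · exact map_one (emb 𝔽 v)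
    · rfl
    · exact map_zero (emb 𝔽 v)
    · exact map_one (emb 𝔽 v)
  have hfin : ∀ P : HeightOneSpectrum 𝔽[X], Gdiag 𝔽 γ (some P) ∈ GLO 𝔽 (some P) := by
    intro P
    rw [hγ]
    refine (nn_mem_Iw ?_).1
    rw [vv_emb]; exact val_fin_pl_le P _
  have hT : emb 𝔽 (v0 𝔽) (pl (C b * X)) = cst (v0 𝔽) b * T0 𝔽 := by
    rw [pl, map_mul, map_mul]; rfl
  have h0 : Gdiag 𝔽 γ (v0 𝔽) ∈ Im (vv 𝔽 (v0 𝔽)) := by
    refine ⟨hfin _, ?_, ?_, ?_⟩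
    · rw [hγ, hT, nn, mk2_01, map_mul, v_T0, mul_comm]
      refine mul_lt_one_of_lt_of_le ?_ (cst_int _ _)
      rw [← exp_zero, exp_lt_exp]; norm_num
    · rw [hγ, nn, mk2_00, sub_self, map_zero]; exact zero_lt_one
    · rw [hγ, nn, mk2_11, sub_self, map_zero]; exact zero_lt_one
  obtain ⟨c', hc', h1, h2, h3⟩ := split_diag ψ hfin h0
  have h4 : chi0 ψ (Gdiag 𝔽 γ (v0 𝔽)) = ψ b := by
    rw [chi0, hγ, hT, nn, mk2_10, mk2_01, mul_div_assoc, div_self T0_ne, mul_one, res0_cst,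
      res0_small (by simp), AddChar.map_zero_eq_one, one_mul]
  have h5 : Gdiag 𝔽 γ * wi = wi * c' *
      inc 𝔽 none (nm (emb 𝔽 none (pl (C b * X)) * (par (𝔽 := 𝔽) none).ϖ)) := by
    conv_lhs => rw [h3, hγ, wi, mul_assoc, ← map_mul, nn_w, map_mul, ← mul_assoc,
      inc_comm_ne h1]
    rfl
  have h6 : (nm (emb 𝔽 none (pl (C b * X)) * (par (𝔽 := 𝔽) none).ϖ) : GLv 𝔽 none) ∈
      GLO 𝔽 none := by
    have h7 : emb 𝔽 none (pl (C b * X)) * (par (𝔽 := 𝔽) none).ϖ = cst none b := by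
      have h8 : (par (𝔽 := 𝔽) none).ϖ = emb 𝔽 none (RatFunc.X)⁻¹ := rfl
      rw [h8, ← map_mul, cst]
      congr 1
      have h9 : pl (C b * X) = pl (C b) * RatFunc.X := by
        rw [pl, map_mul, RatFunc.algebraMap_X]
      rw [h9, mul_assoc, mul_inv_cancel₀ RatFunc.X_ne_zero, mul_one]
    rw [h7]
    exact mk2_mem_KO _ (by simp) (by simp) (cst_int _ _) (by simp) (by simp)
  have h7 : QQ ψ wi = ψ b * QQ ψ wi := by
    conv_lhs => rw [← QQ_left ψ γ wi, h5, QQ_KO ψ _ h6, QQ_c ψ wi hc' h1, h2, h4]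
  have h8 : (ψ b - 1) * QQ ψ wi = 0 := by linear_combination -h7
  exact (mul_eq_zero.1 h8).resolve_left (sub_ne_zero.2 hb)

lemma f2_supp {y : GA 𝔽} (hy : f2 ψ y ≠ 0) : ∃ γ, ∃ u ∈ UC 𝔽,
    y = Gdiag 𝔽 γ * u ∨ y = Gdiag 𝔽 γ * u * wi⁻¹ := by
  by_cases h : ∃ u ∈ UC 𝔽, ∃ γ, y = Gdiag 𝔽 γ * u
  · obtain ⟨u, hu, γ, h'⟩ := h
    exact ⟨γ, u, hu, Or.inl h'⟩
  · by_cases h2 : ∃ u ∈ UC 𝔽, ∃ γ, y * wi = Gdiag 𝔽 γ * u
    · obtain ⟨u, hu, γ, h'⟩ := h2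
      refine ⟨γ, u, hu, Or.inr ?_⟩
      rw [← h', mul_inv_cancel_right]
    · exfalso
      apply hy
      rw [f2, fp_zero ψ h, fp_zero ψ h2, sub_zero]

lemma wi_inv : (wi : GA 𝔽)⁻¹ = wi * zi (-1) := by
  rw [inv_eq_iff_mul_eq_one, ← mul_assoc, wi_mul_wi, ← zi_add]; simp

lemma QQ_zero {a : 𝔽} (ha : ψ a ≠ 1) (x : GA 𝔽) : QQ ψ x = 0 := by
  by_contra hx
  -- some translate is in the support
  have hex : ∃ k ∈ GLO 𝔽 none, f2 ψ (x * inc 𝔽 none k) ≠ 0 := by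
    by_contra hno
    push Not at hno
    apply hx
    have h1 := hno 1 (one_mem _)
    rw [map_one, mul_one] at h1
    rw [QQ, h1, zero_add]
    exact Finset.sum_eq_zero (fun b hb => hno _ (kb_mem hb))
  obtain ⟨k, hk, hne⟩ := hex
  rw [← QQ_KO ψ x hk] at hx
  obtain ⟨γ, u, hu, h | h⟩ := f2_supp ψ hne
  · apply hx
    rw [h, QQ_left, ← one_mul u, QQ_UC ψ 1 hu, QQ_one ψ ha, mul_zero]
  · apply hx
    have h1 : Gdiag 𝔽 γ * u * wi⁻¹ = Gdiag 𝔽 γ * (u * wi * zi (-1)) := by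
      rw [wi_inv]; simp only [mul_assoc]
    obtain ⟨u', hu', h2, _⟩ := wi_conj ψ hu
    rw [h, h1, QQ_left, QQ_zi, h2, QQ_UC ψ wi hu', QQ_wi ψ ha, mul_zero]

/-! ### The automorphic data -/

open Classical in
/-- a smaller open subgroup fixing `f₂` -/
noncomputable def U2 (𝔽 : Type) [Field 𝔽] : (v : Place 𝔽) → Subgroup (GLv 𝔽 v)
  | none => Iw (vv 𝔽 none)
  | some P => if P = P0 𝔽 then KN (vv 𝔽 (some P)) 2 else GLO 𝔽 (some P)

lemma isOpen_U2 : IsOpen (UU (U2 𝔽) : Set (GA 𝔽)) := by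
  refine isOpen_U (U2 𝔽) ?_ ?_ ?_
  · rintro (_ | P)
    · exact isOpen_of_KN_le (par (𝔽 := 𝔽) none) (KN_le_Iw _ le_rfl)
    · by_cases h : P = P0 𝔽
      · rw [U2, if_pos h]; exact isOpen_KN (par (some P)) 2
      · rw [U2, if_neg h]; exact isOpen_KO (par (some P))
  · rintro (_ | P)
    · exact Iw_le_KO _
    · by_cases h : P = P0 𝔽
      · rw [U2, if_pos h]; exact KN_le_KO _ 2
      · rw [U2, if_neg h]
  · refine (Set.toFinite ({none, v0 𝔽} : Set (Place 𝔽))).subset ?_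
    rintro (_ | P) hv
    · exact Set.mem_insert _ _
    · by_cases h : P = P0 𝔽
      · rw [h]; exact Set.mem_insert_of_mem _ rfl
      · exact absurd (by rw [U2, if_neg h]) hv

lemma U2_mem {u : GA 𝔽} (hu : u ∈ UU (U2 𝔽)) : u ∈ UC 𝔽 ∧ chi ψ u = 1 := by
  have h0 : u (v0 𝔽) ∈ KN (vv 𝔽 (v0 𝔽)) 2 := by
    have h1 := hu (v0 𝔽)
    rwa [U2, if_pos rfl] at h1
  obtain ⟨h1, h2⟩ := chi0_KN ψ h0
  refine ⟨⟨⟨0, ?_⟩, h1, ?_⟩, h2⟩
  · rw [Par.z_zero, one_mul]; exact hu none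
  · intro P
    have h3 := hu (some P)
    by_cases h : P = P0 𝔽
    · rw [U2, if_pos h] at h3; exact KN_le_KO _ 2 h3
    · rwa [U2, if_neg h] at h3

lemma f2_one : f2 ψ 1 = 1 := by
  have h1 : fp ψ 1 = 1 := by
    have h := fp_eq ψ 1 (one_mem (UC 𝔽))
    rw [map_one, one_mul] at h
    rw [h]; exact chi0_one ψ
  have h2 : fp ψ (1 * wi) = 0 := by
    refine fp_zero ψ ?_
    rintro ⟨u, hu, γ, h⟩
    obtain ⟨n, hn, _⟩ := gdeg_UC hu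
    have h3 := congrArg gdeg h
    rw [one_mul, gdeg_wi, gdeg_mul, gdeg_diag, hn] at h3
    omega
  rw [f2, h1, h2, sub_zero]

theorem AD2 {a : 𝔽} (ha : ψ a ≠ 1) : AData (f2 ψ) (⊥ : Submodule ℂ (GA 𝔽 → ℂ)) where
  Cst := by
    intro g x hx
    rw [Submodule.mem_bot] at hx
    rw [hx, map_zero]; exact zero_mem _
  Cfin := Submodule.fg_bot
  Csm := bot_le
  Cleft := by
    intro φ hφ γ g
    rw [Submodule.mem_bot] at hφ
    rw [hφ]; rfl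
  fsm := isOpen_fixer_of isOpen_U2 (fun u hu => by
    funext x
    show f2 ψ (x * u) = f2 ψ x
    rw [f2_right ψ x (U2_mem ψ hu).1, (U2_mem ψ hu).2, one_mul])
  fleft := f2_left ψ
  fC := by
    intro h
    rw [Submodule.mem_bot] at h
    have h1 := f2_one ψ
    rw [h] at h1
    exact zero_ne_one h1
  iw := by
    intro k hk
    rw [Submodule.mem_bot]
    funext x
    show f2 ψ (x * inc 𝔽 none k) - f2 ψ x = 0
    rw [f2_iw ψ x hk, sub_self]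
  z := by
    rw [Submodule.mem_bot]
    funext x
    show f2 ψ (x * zi 1) - f2 ψ x = 0
    rw [f2_zi, sub_self]
  w := by
    rw [Submodule.mem_bot]
    funext x
    show f2 ψ (x * wi) + f2 ψ x = 0
    rw [f2_w]; ring
  sum := by
    rw [Submodule.mem_bot]
    funext x
    rw [Pi.add_apply, Finset.sum_apply]
    exact QQ_zero ψ ha x

end Pool.Agent.Helper37.LL
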