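import Pool.Agent.Helper37.LL.P2c

/-!
# Cuspidality of `f₂`; the second automorphic representation
-/

set_option autoImplicit false


open Polynomial IsDedekindDomain WithZero Topology MeasureTheory
open scoped RestrictedProduct

namespace Pool.Agent.Helper37.LL

variable {𝔽 : Type} [Field 𝔽]

/-- `𝔸/K` -/
abbrev AK (𝔽 : Type) [Field 𝔽] : Type := Adele 𝔽 ⧸ (Kdiag 𝔽).range.toAddSubgroup

open Classical in
/-- adele supported at `T = 0` -/
noncomputable def ad0 (y : Kv 𝔽 (v0 𝔽)) : Adele 𝔽 :=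
  RestrictedProduct.single (fun v : Place 𝔽 => (vv 𝔽 v).integer) (v0 𝔽) y

lemma ad0_same (y : Kv 𝔽 (v0 𝔽)) : ad0 y (v0 𝔽) = y := by
  classical
  exact RestrictedProduct.single_eq_same (fun v : Place 𝔽 => (vv 𝔽 v).integer) (v0 𝔽) y

lemma ad0_ne (y : Kv 𝔽 (v0 𝔽)) {w : Place 𝔽} (hw : w ≠ v0 𝔽) : ad0 y w = 0 := by
  classical
  exact RestrictedProduct.single_eq_of_ne (fun v : Place 𝔽 => (vv 𝔽 v).integer) y hw

lemma nn_add {F : Type*} [Field F] (a b : F) : (nn (a + b) : GL (Fin 2) F) = nn a * nn b := by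
  apply gl_ext <;> simp [nn, mul_00, mul_01, mul_10, mul_11, add_comm]

lemma unip_apply (x : Adele 𝔽) (v : Place 𝔽) : unip 𝔽 x v = nn (x v) := rfl

lemma unip_add_ad0 (x : Adele 𝔽) (y : Kv 𝔽 (v0 𝔽)) :
    unip 𝔽 (x + ad0 y) = unip 𝔽 x * inc 𝔽 (v0 𝔽) (nn y) := by
  ext w : 1
  rw [RestrictedProduct.mul_apply, unip_apply, unip_apply, RestrictedProduct.add_apply]
  by_cases hw : w = v0 𝔽
  · subst hw
    rw [ad0_same, inc_apply_same, nn_add]
  · rw [ad0_ne y hw, inc_apply_ne 𝔽 hw, add_zero, mul_one]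

lemma unip_add_K (x : Adele 𝔽) (k : RatFunc 𝔽) :
    unip 𝔽 (x + Kdiag 𝔽 k) = Gdiag 𝔽 (nn k) * unip 𝔽 x := by
  ext w : 1
  rw [RestrictedProduct.mul_apply, unip_apply, unip_apply, RestrictedProduct.add_apply,
    add_comm, nn_add]
  congr 1
  apply gl_ext
  · exact (map_one (emb 𝔽 w)).symm
  · rfl
  · exact (map_zero (emb 𝔽 w)).symm
  · exact (map_one (emb 𝔽 w)).symm

/-- integrand of the constant term -/
noncomputable def ct (φ : GA 𝔽 → ℂ) (g : GA 𝔽) (x : AK 𝔽) : ℂ := φ (unip 𝔽 x.out * g)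

lemma ct_add {φ : GA 𝔽 → ℂ} (hφ : ∀ γ g, φ (Gdiag 𝔽 γ * g) = φ g) (g : GA 𝔽) (a : Adele 𝔽)
    (x : AK 𝔽) : ct φ g (QuotientAddGroup.mk a + x) = φ (unip 𝔽 (x.out + a) * g) := by
  have h1 : (QuotientAddGroup.mk (x.out + a) : AK 𝔽) =
      QuotientAddGroup.mk ((QuotientAddGroup.mk a + x : AK 𝔽).out) := by
    rw [QuotientAddGroup.out_eq', QuotientAddGroup.mk_add, QuotientAddGroup.out_eq', add_comm]
  rw [QuotientAddGroup.eq] at h1
  obtain ⟨k, hk⟩ := h1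
  have h2 : (QuotientAddGroup.mk a + x : AK 𝔽).out = (x.out + a) + Kdiag 𝔽 k := by
    have h3 : Kdiag 𝔽 k = -(x.out + a) + (QuotientAddGroup.mk a + x : AK 𝔽).out := hk
    rw [h3]; abel
  rw [ct, h2, unip_add_K, mul_assoc, hφ]

/-- shift operators -/
noncomputable def op (p : Kv 𝔽 (v0 𝔽) × ℂ) (h : AK 𝔽 → ℂ) : AK 𝔽 → ℂ := fun x =>
  h (QuotientAddGroup.mk (ad0 p.1) + x) - p.2 * h x

lemma op_add (p : Kv 𝔽 (v0 𝔽) × ℂ) (h h' : AK 𝔽 → ℂ) : op p (h + h') = op p h + op p h' := by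
  funext x
  simp only [op, Pi.add_apply]; ring

lemma op_smul (p : Kv 𝔽 (v0 𝔽) × ℂ) (c : ℂ) (h : AK 𝔽 → ℂ) : op p (c • h) = c • op p h := by
  funext x
  simp only [op, Pi.smul_apply, smul_eq_mul]; ring

lemma op_comm (p q : Kv 𝔽 (v0 𝔽) × ℂ) (h : AK 𝔽 → ℂ) : op p (op q h) = op q (op p h) := by
  funext x
  simp only [op]
  rw [← add_assoc, ← add_assoc, add_comm (QuotientAddGroup.mk (ad0 q.1) : AK 𝔽)]
  ring

/-- iterated shift operators -/
noncomputable def opL : List (Kv 𝔽 (v0 𝔽) × ℂ) → (AK 𝔽 → ℂ) → (AK 𝔽 → ℂ)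
  | [], h => h
  | p :: L, h => opL L (op p h)

lemma opL_add (L : List (Kv 𝔽 (v0 𝔽) × ℂ)) (h h' : AK 𝔽 → ℂ) :
    opL L (h + h') = opL L h + opL L h' := by
  induction L generalizing h h' with
  | nil => rfl
  | cons p L ih => rw [opL, opL, opL, op_add, ih]

lemma opL_smul (L : List (Kv 𝔽 (v0 𝔽) × ℂ)) (c : ℂ) (h : AK 𝔽 → ℂ) :
    opL L (c • h) = c • opL L h := by
  induction L generalizing h with
  | nil => rfl
  | cons p L ih => rw [opL, opL, op_smul, ih]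

lemma opL_zero (L : List (Kv 𝔽 (v0 𝔽) × ℂ)) : opL L (0 : AK 𝔽 → ℂ) = 0 := by
  have := opL_smul L 0 (0 : AK 𝔽 → ℂ)
  rwa [zero_smul, zero_smul] at this

lemma opL_op (L : List (Kv 𝔽 (v0 𝔽) × ℂ)) (p : Kv 𝔽 (v0 𝔽) × ℂ) (h : AK 𝔽 → ℂ) :
    opL L (op p h) = op p (opL L h) := by
  induction L generalizing h with
  | nil => rfl
  | cons q L ih => rw [opL, opL, ← ih, op_comm]

lemma opL_append (L L' : List (Kv 𝔽 (v0 𝔽) × ℂ)) (h : AK 𝔽 → ℂ) :
    opL (L ++ L') h = opL L' (opL L h) := by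
  induction L generalizing h with
  | nil => rfl
  | cons p L ih => rw [List.cons_append, opL, opL, ih]

lemma opL_comm (L L' : List (Kv 𝔽 (v0 𝔽) × ℂ)) (h : AK 𝔽 → ℂ) :
    opL L' (opL L h) = opL L (opL L' h) := by
  induction L generalizing h with
  | nil => rfl
  | cons p L ih => rw [opL, ih, opL_op, opL, opL_op]

/-- killed by a product of operators `T_a - ζ`, `ζ ≠ 1` -/
def Kill (h : AK 𝔽 → ℂ) : Prop :=
  ∃ L : List (Kv 𝔽 (v0 𝔽) × ℂ), (∀ p ∈ L, p.2 ≠ 1) ∧ opL L h = 0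

lemma Kill.add {h h' : AK 𝔽 → ℂ} (hk : Kill h) (hk' : Kill h') : Kill (h + h') := by
  obtain ⟨L, hL, h1⟩ := hk
  obtain ⟨L', hL', h2⟩ := hk'
  refine ⟨L ++ L', ?_, ?_⟩
  · intro p hp
    rcases List.mem_append.1 hp with hp | hp
    · exact hL p hp
    · exact hL' p hp
  · rw [opL_append, opL_add, opL_add, h1, opL_zero, opL_comm, h2, opL_zero, add_zero]

lemma Kill.smul {h : AK 𝔽 → ℂ} (hk : Kill h) (c : ℂ) : Kill (c • h) := by
  obtain ⟨L, hL, h1⟩ := hk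
  exact ⟨L, hL, by rw [opL_smul, h1, smul_zero]⟩

variable [Finite 𝔽]

instance factInt : Fact (∀ v : Place 𝔽,
    IsOpen (((vv 𝔽 v).integer : Subring (Kv 𝔽 v)) : Set (Kv 𝔽 v))) :=
  ⟨fun v => Valued.isOpen_integer (Kv 𝔽 v)⟩

lemma Kill.integral {h : AK 𝔽 → ℂ} (hk : Kill h) (μ : @Measure (AK 𝔽) (borel _))
    (hμ : @Measure.IsAddHaarMeasure _ _ _ (borel _) μ) : @integral _ _ _ _ (borel _) μ h = 0 := by
  letI : MeasurableSpace (AK 𝔽) := borel (AK 𝔽)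
  haveI : BorelSpace (AK 𝔽) := ⟨rfl⟩
  obtain ⟨L, hL, h1⟩ := hk
  have key : ∀ (L : List (Kv 𝔽 (v0 𝔽) × ℂ)) (h : AK 𝔽 → ℂ), (∀ p ∈ L, p.2 ≠ 1) →
      opL L h = 0 → Integrable h μ → ∫ x, h x ∂μ = 0 := by
    intro L
    induction L with
    | nil =>
      intro h _ h1 _
      have h2 : h = 0 := h1
      rw [h2]; simp
    | cons p L ih =>
      intro h hL h1 hint
      have hint' : Integrable (fun x => h (QuotientAddGroup.mk (ad0 p.1) + x)) μ :=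
        hint.comp_add_left _
      have h2 : ∫ x, op p h x ∂μ = 0 := by
        refine ih (op p h) (fun q hq => hL q (List.mem_cons_of_mem _ hq)) h1 ?_
        exact hint'.sub (hint.const_mul _)
      have h3 : ∫ x, op p h x ∂μ = (1 - p.2) * ∫ x, h x ∂μ := by
        have h4 : ∫ x, op p h x ∂μ =
            ∫ x, h (QuotientAddGroup.mk (ad0 p.1) + x) ∂μ - ∫ x, p.2 * h x ∂μ :=
          integral_sub hint' (hint.const_mul _)
        rw [h4, integral_add_left_eq_self, integral_const_mul]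
        ring
      rw [h3] at h2
      exact (mul_eq_zero.1 h2).resolve_left
        (sub_ne_zero.2 (hL p List.mem_cons_self).symm)
  by_cases hint : Integrable h μ
  · exact key L h hL h1 hint
  · exact integral_undef hint

variable (ψ : AddChar 𝔽 ℂ)

lemma inc_Im_mem {k : GLv 𝔽 (v0 𝔽)} (hk : k ∈ Im (vv 𝔽 (v0 𝔽))) :
    (inc 𝔽 (v0 𝔽) k : GA 𝔽) ∈ UC 𝔽 := by
  refine ⟨?_, ?_, ?_⟩
  · rw [inc_apply_ne 𝔽 (by simp)]; exact one_mem _
  · rw [inc_apply_same]; exact hk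
  · intro P; exact inc_mem hk.1 (some P)

lemma f2_kill {a : 𝔽} (ha : ψ a ≠ 1) (g : GA 𝔽) : Kill (ct (f2 ψ) g) := by
  obtain ⟨y, hy, hne⟩ := exists_unip ψ ha (g (v0 𝔽))
  refine ⟨[(y, chi0 ψ ((g (v0 𝔽))⁻¹ * nn y * g (v0 𝔽)))], ?_, ?_⟩
  · intro p hp
    rw [List.mem_singleton] at hp
    rw [hp]; exact hne
  · show op _ (ct (f2 ψ) g) = 0
    funext x
    have h1 : unip 𝔽 (x.out + ad0 y) * g =
        unip 𝔽 x.out * g * inc 𝔽 (v0 𝔽) ((g (v0 𝔽))⁻¹ * nn y * g (v0 𝔽)) := by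
      rw [unip_add_ad0, mul_assoc, mul_assoc]
      congr 1
      ext w : 1
      rw [RestrictedProduct.mul_apply, RestrictedProduct.mul_apply]
      by_cases hw : w = v0 𝔽
      · subst hw
        rw [inc_apply_same, inc_apply_same]; group
      · rw [inc_apply_ne 𝔽 hw, inc_apply_ne 𝔽 hw, one_mul, mul_one]
    have h2 : f2 ψ (unip 𝔽 (x.out + ad0 y) * g) =
        chi0 ψ ((g (v0 𝔽))⁻¹ * nn y * g (v0 𝔽)) * f2 ψ (unip 𝔽 x.out * g) := by
      rw [h1, f2_right ψ _ (inc_Im_mem hy), chi, inc_apply_same]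
    rw [op, ct_add (f2_left ψ), h2, ct, Pi.zero_apply, sub_self]

theorem f2_cusp {a : 𝔽} (ha : ψ a ≠ 1) {φ : GA 𝔽 → ℂ} (hφ : φ ∈ WW (f2 ψ) ⊥) :
    IsCuspForm φ := by
  refine ⟨(AD2 ψ ha).isAutForm hφ, ?_⟩
  intro μ hμ g
  have hkill : ∀ g, Kill (ct φ g) := by
    rw [WW, sup_bot_eq] at hφ
    induction hφ using Submodule.span_induction with
    | mem y hy =>
      obtain ⟨b, rfl⟩ := hy
      intro g
      have h1 : ct (rt 𝔽 b (f2 ψ)) g = ct (f2 ψ) (g * b) := by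
        funext x
        show f2 ψ (unip 𝔽 x.out * g * b) = f2 ψ (unip 𝔽 x.out * (g * b))
        rw [mul_assoc]
      show Kill (ct (rt 𝔽 b (f2 ψ)) g)
      rw [h1]
      exact f2_kill ψ ha _
    | zero =>
      intro g
      exact ⟨[], by simp, rfl⟩
    | add x y _ _ hx hy =>
      intro g
      exact (hx g).add (hy g)
    | smul c x _ hx =>
      intro g
      exact (hx g).smul c
  exact (hkill g).integral μ hμ

/-- The second automorphic representation: cuspidal with Steinberg component at infinity. -/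
theorem exists_P2 : ∃ (π : Irrep (GA 𝔽)) (f : π.V), IsAutomorphic π ∧ IsCuspidal π ∧ Gen π f := by
  obtain ⟨ψ, hψ⟩ := (AddChar.exists_apply_ne_zero (α := 𝔽)).2 (one_ne_zero (α := 𝔽))
  obtain ⟨π, p, hp, hequiv, hgen⟩ := (AD2 ψ hψ).exists_irr
  refine ⟨π, p ⟨f2 ψ, (AD2 ψ hψ).f_mem⟩, ?_, ?_, hgen⟩
  · exact ⟨WW (f2 ψ) ⊥, fun φ hφ => (AD2 ψ hψ).isAutForm hφ, (AD2 ψ hψ).WW_stable, p, hp, hequiv⟩
  · exact ⟨WW (f2 ψ) ⊥, fun φ hφ => f2_cusp ψ hψ hφ, (AD2 ψ hψ).WW_stable, p, hp, hequiv⟩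

end Pool.Agent.Helper37.LL
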