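import Pool.Agent.Helper37.LL.Deg

/-!
# Finiteness and the Riemann inequality for `H⁰`
-/

set_option autoImplicit false


open Polynomial IsDedekindDomain WithZero Topology
open scoped RestrictedProduct

namespace Pool.Agent.Helper37.LL

section

variable {𝔽 : Type} [Field 𝔽]

lemma exists_poly (x : RatFunc 𝔽) (h : ∀ P : HeightOneSpectrum 𝔽[X], val 𝔽 (some P) x ≤ 1) :
    ∃ a : 𝔽[X], x = pl a := by
  obtain ⟨a, ha⟩ := HeightOneSpectrum.mem_integers_of_valuation_le_one (R := 𝔽[X])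
    (K := RatFunc 𝔽) x h
  exact ⟨a, ha.symm⟩

/-- splitting off a component -/
lemma inc_comm_ne {v : Place 𝔽} {c : GA 𝔽} (hc : c v = 1) (k : GLv 𝔽 v) :
    c * inc 𝔽 v k = inc 𝔽 v k * c := by
  ext w : 1
  rw [RestrictedProduct.mul_apply, RestrictedProduct.mul_apply]
  by_cases hw : w = v
  · subst hw; rw [hc, one_mul, mul_one]
  · rw [inc_apply_ne 𝔽 hw, one_mul, mul_one]

lemma exists_split (v : Place 𝔽) (a : GA 𝔽) : ∃ (c : GA 𝔽), a = c * inc 𝔽 v (a v) ∧ c v = 1 ∧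
    ∀ w ≠ v, c w = a w := by
  refine ⟨a * (inc 𝔽 v (a v))⁻¹, by group, ?_, ?_⟩
  · rw [RestrictedProduct.mul_apply, RestrictedProduct.inv_apply, inc_apply_same, mul_inv_cancel]
  · intro w hw
    rw [RestrictedProduct.mul_apply, RestrictedProduct.inv_apply, inc_apply_ne 𝔽 hw, inv_one,
      mul_one]

variable [Finite 𝔽]

/-- the scalar matrix `ϖ^m` at infinity -/
noncomputable def zi (m : ℤ) : GA 𝔽 := inc 𝔽 none ((par (𝔽 := 𝔽) none).z m)

lemma zi_none (m : ℤ) : (zi m : GA 𝔽) none = (par (𝔽 := 𝔽) none).z m := inc_apply_same 𝔽 none _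

lemma zi_some (m : ℤ) (P : HeightOneSpectrum 𝔽[X]) : (zi m : GA 𝔽) (some P) = 1 :=
  inc_apply_ne 𝔽 (by simp) _

lemma zi_add (m n : ℤ) : (zi (m + n) : GA 𝔽) = zi m * zi n := by
  rw [zi, zi, zi, ← map_mul, Par.z_add]

@[simp] lemma zi_zero : (zi 0 : GA 𝔽) = 1 := by
  rw [zi, Par.z_zero, map_one]

lemma zi_comm (m : ℤ) (g : GA 𝔽) : zi m * g = g * zi m := by
  ext v : 1
  rw [RestrictedProduct.mul_apply, RestrictedProduct.mul_apply]
  rcases v with _ | P
  · rw [zi_none]; exact (par (𝔽 := 𝔽) none).z_comm m _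
  · rw [zi_some, one_mul, mul_one]

lemma mul_zi_some (g : GA 𝔽) (m : ℤ) (P : HeightOneSpectrum 𝔽[X]) :
    (g * zi m : GA 𝔽) (some P) = g (some P) := by
  rw [RestrictedProduct.mul_apply, zi_some, mul_one]

lemma mul_zi_none (g : GA 𝔽) (m : ℤ) :
    (g * zi m : GA 𝔽) none = g none * (par (𝔽 := 𝔽) none).z m := by
  rw [RestrictedProduct.mul_apply, zi_none]

lemma app_z' {F : Type*} [Field F] {v : Valuation F ℤᵐ⁰} (P : Par v) (n : ℤ) (y : Fin 2 → F) :
    app (P.z n) y = (P.ϖ ^ n) • y := by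
  funext i
  rw [app_apply]
  fin_cases i <;> simp [Par.z]

/-- bounds for global sections -/
lemma H_bound (g : GA 𝔽) : ∃ (r : 𝔽[X]) (D : ℤ), r ≠ 0 ∧
    ∀ m : ℤ, ∀ x ∈ H (g * zi m), ∀ i, ∃ a : 𝔽[X], pl r * x i = pl a ∧
      val 𝔽 none (pl a) ≤ exp (D - m) := by
  obtain ⟨r, hr0, hr⟩ := exists_denom g
  obtain ⟨M, hM0, hM⟩ := entries_bound (vv 𝔽 none) (g none)
  refine ⟨r, M + r.natDegree, hr0, ?_⟩
  intro m x hx i
  rw [mem_H] at hx
  -- finite places
  have hfin : ∀ P : HeightOneSpectrum 𝔽[X], val 𝔽 (some P) (pl r * x i) ≤ 1 := by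
    intro P
    have h1 := hx (some P)
    rw [mul_zi_some] at h1
    set y := app (g (some P))⁻¹ (ev (some P) x) with hy
    have h2 : ev (some P) x = app (g (some P)) y := by
      rw [hy, ← app_mul, mul_inv_cancel, app_one]
    rw [← vv_emb, map_mul]
    have h3 : emb 𝔽 (some P) (x i) = app (g (some P)) y i := congrFun h2 i
    rw [h3, app_apply, mul_add, ← mul_assoc, ← mul_assoc]
    refine Valuation.map_add_le _ ?_ ?_
    · rw [map_mul]; exact mul_le_one' (hr P i 0).1 (h1 0)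
    · rw [map_mul]; exact mul_le_one' (hr P i 1).1 (h1 1)
  obtain ⟨a, ha⟩ := exists_poly _ hfin
  refine ⟨a, ha, ?_⟩
  have h1 := hx none
  rw [mul_zi_none] at h1
  set y := app (g none * (par (𝔽 := 𝔽) none).z m)⁻¹ (ev none x) with hy
  have h2 : ev none x = app (g none) (((par (𝔽 := 𝔽) none).ϖ ^ m) • y) := by
    rw [← app_z', ← app_mul, hy, ← app_mul, mul_inv_cancel, app_one]
  have h3 : emb 𝔽 none (x i) = app (g none) (((par (𝔽 := 𝔽) none).ϖ ^ m) • y) i := congrFun h2 i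
  have h4 : vv 𝔽 none (emb 𝔽 none (x i)) ≤ exp (M + (-m)) := by
    rw [h3]
    refine app_bound hM (fun j => ?_) i
    rw [Pi.smul_apply, smul_eq_mul, map_mul, (par (𝔽 := 𝔽) none).v_zpow]
    calc exp (-m) * vv 𝔽 none (y j) ≤ exp (-m) * 1 := mul_le_mul_right (h1 j) _
      _ = exp (-m) := mul_one _
  rw [← ha, map_mul, val_inf_pl hr0, ← vv_emb 𝔽 none (x i)]
  calc exp (r.natDegree : ℤ) * vv 𝔽 none (emb 𝔽 none (x i))
      ≤ exp (r.natDegree : ℤ) * exp (M + (-m)) := mul_le_mul_right h4 _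
    _ = exp (M + r.natDegree - m) := by rw [← exp_add]; congr 1; ring

lemma H_finite (g : GA 𝔽) : Finite (H g) := by
  obtain ⟨r, D, hr0, hr⟩ := H_bound g
  have h1 := hr 0
  rw [zi_zero, mul_one] at h1
  choose a ha using h1
  have hfin : {b : 𝔽[X] | val 𝔽 none (pl b) ≤ exp (D - 0)}.Finite := by
    refine (finite_degree_lt (𝔽 := 𝔽) (D.toNat + 1)).subset ?_
    intro b hb
    show b.degree < ((D.toNat + 1 : ℕ) : WithBot ℕ)
    by_cases hb0 : b = 0
    · rw [hb0, degree_zero]; exact WithBot.bot_lt_coe _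
    · rw [Set.mem_ofPred_eq, val_inf_pl hb0, exp_le_exp] at hb
      rw [Polynomial.degree_eq_natDegree hb0]
      have := Int.self_le_toNat D
      exact_mod_cast (by omega : b.natDegree < D.toNat + 1)
  have : Finite {b : 𝔽[X] | val 𝔽 none (pl b) ≤ exp (D - 0)} := hfin
  let f : H g → (Fin 2 → {b : 𝔽[X] | val 𝔽 none (pl b) ≤ exp (D - 0)}) := fun x i =>
    ⟨a x.1 x.2 i, (ha x.1 x.2 i).2⟩
  refine Finite.of_injective f ?_
  intro x y hxy
  refine Subtype.ext (funext fun i => ?_)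
  have h2 : a x.1 x.2 i = a y.1 y.2 i := congrArg Subtype.val (congrFun hxy i)
  have h3 := (ha x.1 x.2 i).1
  rw [h2, ← (ha y.1 y.2 i).1] at h3
  exact mul_left_cancel₀ (pl_ne hr0) h3

lemma H_vanish (g : GA 𝔽) : ∃ m₀ : ℤ, ∀ m ≥ m₀, H (g * zi m) = ⊥ := by
  obtain ⟨r, D, hr0, hr⟩ := H_bound g
  refine ⟨D + 1, fun m hm => ?_⟩
  rw [eq_bot_iff]
  intro x hx
  rw [AddSubgroup.mem_bot]
  funext i
  obtain ⟨a, ha, hb⟩ := hr m x hx i
  have h1 : a = 0 := by
    apply zero_of_val_lt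
    refine hb.trans_lt ?_
    rw [← exp_zero, exp_lt_exp]; omega
  rw [h1, show pl (0 : 𝔽[X]) = 0 from map_zero _, mul_eq_zero] at ha
  exact ha.resolve_left (pl_ne hr0)

lemma H_anti (g : GA 𝔽) {m n : ℤ} (h : m ≤ n) : H (g * zi n) ≤ H (g * zi m) := by
  intro x hx
  rw [mem_H] at hx ⊢
  intro v
  have h1 := hx v
  rcases v with _ | P
  · rw [mul_zi_none] at h1 ⊢
    have h2 : app (g none * (par (𝔽 := 𝔽) none).z m)⁻¹ (ev none x) =
        ((par (𝔽 := 𝔽) none).ϖ ^ (n - m)) • app (g none * (par (𝔽 := 𝔽) none).z n)⁻¹ (ev none x) := by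
      rw [← app_z', ← app_mul]
      congr 1
      rw [_root_.mul_inv_rev, _root_.mul_inv_rev, ← mul_assoc]
      congr 1
      rw [eq_mul_inv_iff_mul_eq, inv_mul_eq_iff_eq_mul, ← Par.z_add]
      congr 1; ring
    rw [h2]
    intro i
    rw [Pi.smul_apply, smul_eq_mul, map_mul, (par (𝔽 := 𝔽) none).v_zpow]
    refine mul_le_one' ?_ (h1 i)
    rw [← exp_zero, exp_le_exp]; omega
  · rw [mul_zi_some] at h1 ⊢
    exact h1

end

end Pool.Agent.Helper37.LL
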