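import Pool.Agent.Helper37.LL.RR

/-!
# The Riemann inequality for `H⁰`
-/

set_option autoImplicit false


open Polynomial IsDedekindDomain WithZero Topology
open scoped RestrictedProduct

namespace Pool.Agent.Helper37.LL

section

variable {𝔽 : Type} [Field 𝔽] [Finite 𝔽]

lemma card_degree_lt (n : ℕ) : {a : 𝔽[X] | a.degree < n}.ncard = (Nat.card 𝔽) ^ n := by
  have h : {a : 𝔽[X] | a.degree < n} = (Polynomial.degreeLT 𝔽 n : Set 𝔽[X]) := by
    ext a
    simp [Polynomial.mem_degreeLT]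
  have h2 : Nat.card (Polynomial.degreeLT 𝔽 n) = Nat.card (Fin n → 𝔽) :=
    Nat.card_congr (Polynomial.degreeLTEquiv 𝔽 n).toEquiv
  rw [h]
  refine Eq.trans (b := Nat.card (Polynomial.degreeLT 𝔽 n)) rfl ?_
  rw [h2, Nat.card_fun, Nat.card_eq_fintype_card (α := Fin n), Fintype.card_fin]

lemma card_S (v : Place 𝔽) : (par v).S.card = (Nat.card 𝔽) ^ (dgr v).toNat := by
  rcases v with _ | P
  · have h0 : (par (𝔽 := 𝔽) none).S.card = (Set.range (fun c : 𝔽 => emb 𝔽 none (pl (C c)))).ncard :=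
      (Set.ncard_eq_toFinset_card _ (Set.finite_range _)).symm
    rw [h0, ← Nat.card_coe_set_eq, Nat.card_range_of_injective]
    · show _ = Nat.card 𝔽 ^ 1
      rw [pow_one]
    · intro c c' h
      have h1 := (emb 𝔽 none).injective h
      exact C_injective (RatFunc.algebraMap_injective 𝔽 h1)
  · have h0 : (par (some P)).S.card = ((fun a => emb 𝔽 (some P) (pl a)) ''
        {a : 𝔽[X] | a.degree < (gen P).natDegree}).ncard :=
      (Set.ncard_eq_toFinset_card _ _).symm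
    rw [h0, Set.ncard_image_of_injective, card_degree_lt]
    · rfl
    · intro c c' h
      have h1 := (emb 𝔽 (some P)).injective h
      simpa using h1

lemma intg_t_iff {F : Type*} [Field F] {v : Valuation F ℤᵐ⁰} (P : Par v) (y : Fin 2 → F) :
    intg v (app (P.t 1)⁻¹ y) ↔ v (y 0) < 1 ∧ v (y 1) ≤ 1 := by
  have h := intg_nt_iff P 0 y
  have h0 : (nn 0 : GL (Fin 2) F) = 1 := by
    apply gl_ext <;> simp [nn]
  rw [h0, one_mul, zero_mul, sub_zero] at h
  exact h

lemma mem_H_mul_inc {g : GA 𝔽} {v : Place 𝔽} {h : GLv 𝔽 v} {x : Fin 2 → RatFunc 𝔽} :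
    x ∈ H (g * inc 𝔽 v h) ↔ (∀ w ≠ v, intg (vv 𝔽 w) (app (g w)⁻¹ (ev w x))) ∧
      intg (vv 𝔽 v) (app h⁻¹ (app (g v)⁻¹ (ev v x))) := by
  rw [mem_H]
  constructor
  · intro H
    refine ⟨fun w hw => ?_, ?_⟩
    · have := H w
      rwa [RestrictedProduct.mul_apply, inc_apply_ne 𝔽 hw, mul_one] at this
    · have := H v
      rwa [RestrictedProduct.mul_apply, inc_apply_same, app_inv_mul] at this
  · rintro ⟨h1, h2⟩ w
    by_cases hw : w = v
    · subst hw
      rw [RestrictedProduct.mul_apply, inc_apply_same, app_inv_mul]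
      exact h2
    · rw [RestrictedProduct.mul_apply, inc_apply_ne 𝔽 hw, mul_one]
      exact h1 w hw

lemma NH_step (g : GA 𝔽) (v : Place 𝔽) :
    NH g ≤ (par v).S.card * NH (g * inc 𝔽 v ((par v).t 1)) := by
  classical
  have h1 : ∀ x : H g, ∃ s ∈ (par v).S, vv 𝔽 v (app (g v)⁻¹ (ev v x) 0 - s) < 1 := fun x =>
    (par v).S_ex _ (x.2 v 0)
  choose f hfS hf using h1
  let f' : H g → (par v).S := fun x => ⟨f x, hfS x⟩
  let rep : (par v).S → H g := fun s => if h : ∃ x, f' x = s then h.choose else 0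
  have hrep : ∀ x, f' (rep (f' x)) = f' x := by
    intro x
    have h : ∃ y, f' y = f' x := ⟨x, rfl⟩
    have : rep (f' x) = h.choose := dif_pos h
    rw [this]
    exact h.choose_spec
  have hmem : ∀ x : H g, ((x : Fin 2 → RatFunc 𝔽) - (rep (f' x) : Fin 2 → RatFunc 𝔽)) ∈
      H (g * inc 𝔽 v ((par v).t 1)) := by
    intro x
    rw [mem_H_mul_inc]
    have h2 : ((x : Fin 2 → RatFunc 𝔽) - (rep (f' x) : Fin 2 → RatFunc 𝔽)) ∈ H g :=
      sub_mem x.2 (rep (f' x)).2
    refine ⟨fun w _ => h2 w, ?_⟩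
    rw [intg_t_iff]
    refine ⟨?_, h2 v 1⟩
    have h3 : f (rep (f' x)) = f x := congrArg Subtype.val (hrep x)
    have h4 := hf x
    have h5 := hf (rep (f' x))
    rw [h3] at h5
    have h6 : app (g v)⁻¹ (ev v ((x : Fin 2 → RatFunc 𝔽) - (rep (f' x) : Fin 2 → RatFunc 𝔽))) 0 =
      (app (g v)⁻¹ (ev v (x : Fin 2 → RatFunc 𝔽)) 0 - f x) -
        (app (g v)⁻¹ (ev v (rep (f' x) : Fin 2 → RatFunc 𝔽)) 0 - f x) := by
      rw [ev_sub, app_sub, Pi.sub_apply]; ring
    rw [h6]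
    exact (Valuation.map_sub _ _ _).trans_lt (max_lt h4 h5)
  let F : H g → (par v).S × H (g * inc 𝔽 v ((par v).t 1)) := fun x => (f' x, ⟨_, hmem x⟩)
  have hF : Function.Injective F := by
    intro x y hxy
    have h2 : f' x = f' y := congrArg Prod.fst hxy
    have h3 : (x : Fin 2 → RatFunc 𝔽) - (rep (f' x) : Fin 2 → RatFunc 𝔽) =
        (y : Fin 2 → RatFunc 𝔽) - (rep (f' y) : Fin 2 → RatFunc 𝔽) :=
      congrArg (fun p => (p.2 : Fin 2 → RatFunc 𝔽)) hxy
    rw [h2] at h3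
    exact Subtype.ext (sub_left_inj.1 h3)
  haveI := H_finite (g * inc 𝔽 v ((par v).t 1))
  have h2 := Nat.card_le_card_of_injective F hF
  rw [Nat.card_prod, Nat.card_eq_fintype_card (α := (par v).S), Fintype.card_coe] at h2
  exact h2

/-- The Riemann inequality -/
def RR (g : GA 𝔽) : Prop := ∀ n : ℕ, (n : ℤ) ≤ gdeg g + 2 → (Nat.card 𝔽) ^ n ≤ NH g

lemma RR_right (g k : GA 𝔽) (hk : ∀ v, k v ∈ GLO 𝔽 v) (h : RR g) : RR (g * k) := by
  intro n hn
  rw [gdeg_right g k hk] at hn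
  rw [NH_right g k hk]
  exact h n hn

lemma inc_mem {v : Place 𝔽} {k : GLv 𝔽 v} (hk : k ∈ GLO 𝔽 v) (w : Place 𝔽) :
    (inc 𝔽 v k : GA 𝔽) w ∈ GLO 𝔽 w := by
  by_cases hw : w = v
  · subst hw; rw [inc_apply_same]; exact hk
  · rw [inc_apply_ne 𝔽 hw]; exact one_mem _

lemma RR_left (g : GA 𝔽) (γ : GL (Fin 2) (RatFunc 𝔽)) (h : RR (Gdiag 𝔽 γ * g)) : RR g := by
  intro n hn
  rw [← gdeg_left γ g] at hn
  rw [← NH_left γ g]
  exact h n hn

lemma card_pos' : 0 < Nat.card 𝔽 := Nat.card_pos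

lemma RR_t (g : GA 𝔽) (v : Place 𝔽) (h : RR g) : RR (g * inc 𝔽 v ((par v).t 1)) := by
  intro n hn
  rw [gdeg_mul, gdeg_inc] at hn
  have h1 : dt ((par v).t 1) = (par v).ϖ := by simp [dt, Par.t]
  rw [h1, (par v).hϖ, log_exp] at hn
  have h2 := h (n + (dgr v).toNat) (by
    have := Int.toNat_of_nonneg (dgr_pos v).le
    push_cast; omega)
  have h3 := h2.trans (NH_step g v)
  rw [card_S, pow_add, mul_comm] at h3
  exact Nat.le_of_mul_le_mul_left h3 (pow_pos card_pos' _)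

lemma RR_tn (g : GA 𝔽) (v : Place 𝔽) (h : RR g) (n : ℕ) : RR (g * inc 𝔽 v ((par v).t n)) := by
  induction n with
  | zero => simpa using h
  | succ n ih =>
    have h1 := RR_t _ v ih
    rw [mul_assoc, ← map_mul, ← Par.t_add] at h1
    push_cast
    exact h1

lemma RR_zn (g : GA 𝔽) (v : Place 𝔽) (h : RR g) (n : ℕ) : RR (g * inc 𝔽 v ((par v).z n)) := by
  induction n with
  | zero => simpa using h
  | succ n ih =>
    have key : ∀ g' : GA 𝔽, RR g' → RR (g' * inc 𝔽 v (par v).w) := by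
      intro g' hg'
      have h1 := RR_t _ v (RR_right g' (inc 𝔽 v ss) (inc_mem ss_mem_KO) hg')
      rw [mul_assoc, ← map_mul, ← Par.w_eq] at h1
      exact h1
    have h1 := key _ (key _ ih)
    rw [mul_assoc, ← map_mul, Par.w_mul_w, mul_assoc, ← map_mul, ← Par.z_add] at h1
    push_cast
    exact h1

lemma int_mul {F : Type*} [Field F] {v : Valuation F ℤᵐ⁰} {g h : GL (Fin 2) F}
    (hg : ∀ i j, v (g i j) ≤ 1) (hh : ∀ i j, v (h i j) ≤ 1) (i j : Fin 2) :
    v ((g * h) i j) ≤ 1 := by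
  rw [Matrix.GeneralLinearGroup.coe_mul, Matrix.mul_apply]
  refine v.map_sum_le ?_
  intro k _
  rw [map_mul]
  exact mul_le_one' (hg i k) (hh k j)

lemma RR_int (g : GA 𝔽) (v : Place 𝔽) (h : RR g) (a : GLv 𝔽 v) (ha : ∀ i j, vv 𝔽 v (a i j) ≤ 1) :
    RR (g * inc 𝔽 v a) := by
  obtain ⟨k₁, h₁, k₂, h₂, n, m, hg⟩ := (par v).cartan a
  have hm : 0 ≤ m := by
    have h3 : k₁⁻¹ * a * k₂⁻¹ = (par v).t n * (par v).z m := by
      have h4 : k₁⁻¹ * (k₁ * (par v).t n * k₂ * (par v).z m) * k₂⁻¹ =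
        (par v).t n * k₂ * ((par v).z m * k₂⁻¹) := by group
      rw [hg, h4, (par v).z_comm m k₂⁻¹]
      group
    have h5 : vv 𝔽 v ((k₁⁻¹ * a * k₂⁻¹) 1 1) ≤ 1 :=
      int_mul (int_mul (KO_int (inv_mem h₁ : k₁⁻¹ ∈ GLO 𝔽 v)) ha)
        (KO_int (inv_mem h₂ : k₂⁻¹ ∈ GLO 𝔽 v)) 1 1
    have h6 : ((par v).t n * (par v).z m) 1 1 = (par v).ϖ ^ m := by
      simp [Par.t, Par.z, mul_11]
    rw [h3, h6, (par v).v_zpow, ← exp_zero, exp_le_exp] at h5
    omega
  obtain ⟨m', rfl⟩ := Int.eq_ofNat_of_zero_le hm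
  rw [hg, map_mul, map_mul, map_mul, ← mul_assoc, ← mul_assoc, ← mul_assoc]
  exact RR_zn _ v (RR_right _ _ (inc_mem h₂) (RR_tn _ v (RR_right _ _ (inc_mem h₁) h) n)) m'

open Classical in
/-- keep only the components in `s` -/
noncomputable def restr (s : Finset (Place 𝔽)) (g : GA 𝔽) : GA 𝔽 :=
  ⟨fun v => if v ∈ s then g v else 1, by
    rw [Filter.eventually_cofinite]
    refine s.finite_toSet.subset ?_
    intro v hv
    by_contra h
    apply hv
    have h' : v ∉ s := h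
    simp only [h', if_false]
    exact one_mem (GLO 𝔽 v)⟩

lemma restr_mem {s : Finset (Place 𝔽)} {g : GA 𝔽} {v : Place 𝔽} (h : v ∈ s) :
    restr s g v = g v := by
  classical
  exact if_pos h

lemma restr_not_mem {s : Finset (Place 𝔽)} {g : GA 𝔽} {v : Place 𝔽} (h : v ∉ s) :
    restr s g v = 1 := by
  classical
  exact if_neg h

lemma RR_restr (g a : GA 𝔽) (h : RR g) (ha : ∀ v i j, vv 𝔽 v (a v i j) ≤ 1)
    (s : Finset (Place 𝔽)) : RR (g * restr s a) := by
  classical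
  induction s using Finset.induction_on with
  | empty =>
    have : restr ∅ a = 1 := by
      ext v : 1
      exact restr_not_mem (by simp)
    rw [this, mul_one]; exact h
  | insert v s hv ih =>
    have : restr (insert v s) a = restr s a * inc 𝔽 v (a v) := by
      ext w : 1
      rw [RestrictedProduct.mul_apply]
      by_cases hw : w = v
      · subst hw
        rw [restr_mem (Finset.mem_insert_self _ _), restr_not_mem hv, inc_apply_same, one_mul]
      · rw [inc_apply_ne 𝔽 hw, mul_one]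
        by_cases hs : w ∈ s
        · rw [restr_mem hs, restr_mem (Finset.mem_insert_of_mem hs)]
        · rw [restr_not_mem hs, restr_not_mem (by simp [hw, hs])]
    rw [this, ← mul_assoc]
    exact RR_int _ v ih _ (ha v)

lemma RR_integral (g a : GA 𝔽) (h : RR g) (ha : ∀ v i j, vv 𝔽 v (a v i j) ≤ 1) :
    RR (g * a) := by
  classical
  have h1 := RR_restr g a h ha (finite_not_GLO a).toFinset
  set s := (finite_not_GLO a).toFinset with hs
  have hns : ∀ v, v ∉ s → a v ∈ GLO 𝔽 v := by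
    intro v hv
    by_contra h
    apply hv
    rw [hs, Set.Finite.mem_toFinset]; exact h
  have h2 : g * a = g * restr s a * ((restr s a)⁻¹ * a) := by group
  rw [h2]
  refine RR_right _ _ (fun v => ?_) h1
  rw [RestrictedProduct.mul_apply, RestrictedProduct.inv_apply]
  by_cases hv : v ∈ s
  · rw [restr_mem hv, inv_mul_cancel]; exact one_mem _
  · rw [restr_not_mem hv, inv_one, one_mul]; exact hns v hv

lemma RR_base (N : ℕ) : RR (zi (-(N : ℤ)) : GA 𝔽) := by
  have hdeg : gdeg (zi (-(N : ℤ)) : GA 𝔽) = 2 * N := by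
    rw [zi, gdeg_inc]
    have h1 : dt ((par (𝔽 := 𝔽) none).z (-(N : ℤ))) = (par (𝔽 := 𝔽) none).ϖ ^ (-(2 * N : ℤ)) := by
      simp only [dt, Par.z, mk2_00, mk2_11, mk2_01, mk2_10, mul_zero, sub_zero]
      rw [← zpow_add₀ (par (𝔽 := 𝔽) none).ne]; congr 1; ring
    rw [h1, (par (𝔽 := 𝔽) none).v_zpow, log_exp]
    show (1 : ℤ) * _ = _
    ring
  have hcard : (Nat.card 𝔽) ^ (2 * (N + 1)) ≤ NH (zi (-(N : ℤ)) : GA 𝔽) := by
    have hmem : ∀ p : Fin 2 → Polynomial.degreeLT 𝔽 (N + 1),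
        (fun i => pl (p i : 𝔽[X])) ∈ H (zi (-(N : ℤ)) : GA 𝔽) := by
      intro p
      rw [mem_H]
      intro v i
      rcases v with _ | P
      · rw [zi_none, app_z, Pi.smul_apply, smul_eq_mul, map_mul, (par (𝔽 := 𝔽) none).v_zpow]
        have h1 : vv 𝔽 none (ev none (fun i => pl (p i : 𝔽[X])) i) ≤ exp (N : ℤ) := by
          show vv 𝔽 none (emb 𝔽 none (pl (p i : 𝔽[X]))) ≤ _
          rw [vv_emb]
          by_cases h0 : (p i : 𝔽[X]) = 0
          · rw [h0, show pl (0 : 𝔽[X]) = 0 from map_zero _, map_zero]; exact zero_le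
          · rw [val_inf_pl h0, exp_le_exp]
            have h2 := (Polynomial.mem_degreeLT.1 (p i).2)
            rw [Polynomial.degree_eq_natDegree h0] at h2
            have h3 : (p i : 𝔽[X]).natDegree < N + 1 := by exact_mod_cast h2
            omega
        calc _ ≤ exp (-(- -(N : ℤ))) * exp (N : ℤ) := mul_le_mul_right h1 _
          _ = 1 := by rw [← exp_add]; simp
      · rw [zi_some, inv_one, app_one]
        show vv 𝔽 (some P) (emb 𝔽 (some P) (pl (p i : 𝔽[X]))) ≤ _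
        rw [vv_emb]
        exact val_fin_pl_le P _
    let f : (Fin 2 → Polynomial.degreeLT 𝔽 (N + 1)) → H (zi (-(N : ℤ)) : GA 𝔽) := fun p =>
      ⟨_, hmem p⟩
    have hf : Function.Injective f := by
      intro p p' h
      funext i
      apply Subtype.ext
      have h1 : pl (p i : 𝔽[X]) = pl (p' i : 𝔽[X]) := congrFun (congrArg Subtype.val h) i
      simpa using h1
    have := H_finite (zi (-(N : ℤ)) : GA 𝔽)
    have h1 := Nat.card_le_card_of_injective f hf
    have h2 : Nat.card (Polynomial.degreeLT 𝔽 (N + 1)) = Nat.card 𝔽 ^ (N + 1) := by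
      rw [Nat.card_congr (Polynomial.degreeLTEquiv 𝔽 (N + 1)).toEquiv, Nat.card_fun,
        Nat.card_eq_fintype_card (α := Fin (N + 1)), Fintype.card_fin]
    rw [Nat.card_fun, h2, Nat.card_eq_fintype_card (α := Fin 2), Fintype.card_fin, ← pow_mul] at h1
    rw [mul_comm 2]
    exact h1
  intro n hn
  rw [hdeg] at hn
  refine le_trans (Nat.pow_le_pow_right card_pos' ?_) hcard
  omega

/-- the scalar matrix `r` -/
noncomputable def scal (r : RatFunc 𝔽) (hr : r ≠ 0) : GL (Fin 2) (RatFunc 𝔽) :=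
  mk2 r 0 0 r (by simp [hr])

theorem RR_all (g : GA 𝔽) : RR g := by
  obtain ⟨r, hr0, hr⟩ := exists_denom g
  apply RR_left g (scal (pl r) (pl_ne hr0))
  set g' := Gdiag 𝔽 (scal (pl r) (pl_ne hr0)) * g with hg'
  have h1 : ∀ v i j, g' v i j = emb 𝔽 v (pl r) * g v i j := by
    intro v i j
    have h2 : g' v = Gdiag 𝔽 (scal (pl r) (pl_ne hr0)) v * g v := rfl
    have e00 : (Gdiag 𝔽 (scal (pl r) (pl_ne hr0)) v) 0 0 = emb 𝔽 v (pl r) := rfl
    have e01 : (Gdiag 𝔽 (scal (pl r) (pl_ne hr0)) v) 0 1 = 0 := map_zero (emb 𝔽 v)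
    have e10 : (Gdiag 𝔽 (scal (pl r) (pl_ne hr0)) v) 1 0 = 0 := map_zero (emb 𝔽 v)
    have e11 : (Gdiag 𝔽 (scal (pl r) (pl_ne hr0)) v) 1 1 = emb 𝔽 v (pl r) := rfl
    rw [h2]
    fin_cases i <;> fin_cases j
    · show (_ * g v) 0 0 = _ * g v 0 0
      rw [mul_00, e00, e01, zero_mul, add_zero]
    · show (_ * g v) 0 1 = _ * g v 0 1
      rw [mul_01, e00, e01, zero_mul, add_zero]
    · show (_ * g v) 1 0 = _ * g v 1 0
      rw [mul_10, e10, e11, zero_mul, zero_add]
    · show (_ * g v) 1 1 = _ * g v 1 1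
      rw [mul_11, e10, e11, zero_mul, zero_add]
  obtain ⟨M, hM0, hM⟩ := entries_bound (vv 𝔽 none) (g' none)
  obtain ⟨N, rfl⟩ := Int.eq_ofNat_of_zero_le hM0
  have h2 : g' = zi (-(N : ℤ)) * (zi (N : ℤ) * g') := by
    rw [← mul_assoc, ← zi_add]; simp
  rw [h2]
  refine RR_integral _ _ (RR_base N) ?_
  intro v i j
  rw [RestrictedProduct.mul_apply]
  rcases v with _ | P
  · rw [zi_none]
    have h3 : ((par (𝔽 := 𝔽) none).z (N : ℤ) * g' none) i j =
        (par (𝔽 := 𝔽) none).ϖ ^ (N : ℤ) * g' none i j := by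
      fin_cases i <;> fin_cases j
      · show (_ * g' none) 0 0 = _ * g' none 0 0
        rw [mul_00]; simp [Par.z]
      · show (_ * g' none) 0 1 = _ * g' none 0 1
        rw [mul_01]; simp [Par.z]
      · show (_ * g' none) 1 0 = _ * g' none 1 0
        rw [mul_10]; simp [Par.z]
      · show (_ * g' none) 1 1 = _ * g' none 1 1
        rw [mul_11]; simp [Par.z]
    rw [h3, map_mul, (par (𝔽 := 𝔽) none).v_zpow]
    calc _ ≤ exp (-(N : ℤ)) * exp (N : ℤ) := mul_le_mul_right (hM i j) _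
      _ = 1 := by rw [← exp_add]; simp
  · rw [zi_some, one_mul, h1]
    exact (hr P i j).1

end

end Pool.Agent.Helper37.LL
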