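import Pool.Agent.Helper37.LL.Avg

/-!
# Vectors satisfying the Steinberg / trivial Hecke relations
-/

set_option autoImplicit false

open WithZero

namespace Pool.Agent.Helper37.LL

section

variable {F : Type*} [Field F] {v : Valuation F ℤᵐ⁰} (P : Par v)
variable {V : Type*} [AddCommGroup V] [Module ℂ V]

/-- the stabiliser of a vector -/
def fixer {G : Type*} [Group G] (ρ : Representation ℂ G V) (f : V) : Subgroup G where
  carrier := {g | ρ g f = f}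
  one_mem' := by simp
  mul_mem' := by
    intro a b ha hb
    show ρ (a * b) f = f
    rw [map_mul, Module.End.mul_apply, show ρ b f = f from hb, show ρ a f = f from ha]
  inv_mem' := by
    intro a ha
    show ρ a⁻¹ f = f
    conv_lhs => rw [← show ρ a f = f from ha]
    rw [← Module.End.mul_apply, ← map_mul]; simp

lemma mem_fixer {G : Type*} [Group G] {ρ : Representation ℂ G V} {f : V} {g : G} :
    g ∈ fixer ρ f ↔ ρ g f = f := Iff.rfl

lemma Par.z_eq (n : ℤ) : P.z n = (P.z 1) ^ n := by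
  induction n using Int.induction_on with
  | zero => simp
  | succ n ih => rw [P.z_add, ih, zpow_add_one]
  | pred n ih =>
    have h : P.z (-(n : ℤ)) = P.z (-(n : ℤ) - 1) * P.z 1 := by rw [← P.z_add]; simp
    rw [zpow_sub_one, ← ih, h, mul_inv_cancel_right]

lemma rho_mul {G : Type*} [Group G] (ρ : Representation ℂ G V) (a b : G) (x : V) :
    ρ (a * b) x = ρ a (ρ b x) := by
  rw [map_mul, Module.End.mul_apply]

/-- Steinberg relations for an Iwahori-fixed vector -/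
structure IwRel (ρ : Representation ℂ (GL (Fin 2) F) V) (f : V) : Prop where
  iw : ∀ k ∈ Iw v, ρ k f = f
  z : ρ (P.z 1) f = f
  w : ρ P.w f = -f
  sum : f + ∑ b ∈ P.S, ρ (nn b * ss) f = 0

variable {P} {ρ : Representation ℂ (GL (Fin 2) F) V} {f : V}

lemma z_fix (hz : ρ (P.z 1) f = f) (n : ℤ) : ρ (P.z n) f = f := by
  have : P.z n ∈ fixer ρ f := by rw [P.z_eq]; exact zpow_mem hz n
  exact this

lemma IwRel.ssf (h : IwRel P ρ f) : ρ ss f = -ρ (P.t 1) f := by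
  have h1 : P.t 1 = ss * P.w := by rw [P.w_eq, ← mul_assoc, ss_mul_ss, one_mul]
  rw [h1, rho_mul, h.w, map_neg, neg_neg]

lemma IwRel.step (h : IwRel P ρ f) (n : ℤ) :
    ρ (P.t n) f = ∑ b ∈ P.S, ρ (nn (P.ϖ ^ n * b)) (ρ (P.t (n + 1)) f) := by
  have h1 : f = ∑ b ∈ P.S, ρ (nn b) (ρ (P.t 1) f) := by
    have h2 := h.sum
    rw [add_eq_zero_iff_eq_neg, ← Finset.sum_neg_distrib] at h2
    conv_lhs => rw [h2]
    refine Finset.sum_congr rfl (fun b _ => ?_)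
    rw [rho_mul, h.ssf, map_neg, neg_neg]
  conv_lhs => rw [h1]
  rw [map_sum]
  refine Finset.sum_congr rfl (fun b _ => ?_)
  rw [← rho_mul, P.t_nn, rho_mul, ← rho_mul ρ (P.t n) (P.t 1), ← P.t_add]

lemma q_ne (P : Par v) : (P.S.card : ℂ) ≠ 0 := by
  exact_mod_cast P.card_pos.ne'

lemma q1_ne (P : Par v) : (P.S.card : ℂ) + 1 ≠ 0 := Nat.cast_add_one_ne_zero _

/-- elementary averaging step -/
lemma coinv_step {G : Type*} [Group G] (ρ : Representation ℂ G V) {U : Subgroup G} {ι : Type*}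
    {s : Finset ι} {u : ι → G} (hu : ∀ b ∈ s, u b ∈ U) (y : V) :
    (∑ b ∈ s, ρ (u b) y) - (s.card : ℂ) • y ∈ coinv ρ U := by
  have : (∑ b ∈ s, ρ (u b) y) - (s.card : ℂ) • y = ∑ b ∈ s, (ρ (u b) y - y) := by
    rw [Finset.sum_sub_distrib, Finset.sum_const, Nat.cast_smul_eq_nsmul]
  rw [this]
  exact Submodule.sum_mem _ (fun b hb => sub_mem_coinv ρ (hu b hb) y)

lemma IwRel.t_nat (h : IwRel P ρ f) (n : ℕ) :
    ρ (P.t n) f - ((P.S.card : ℂ)⁻¹) ^ n • f ∈ coinv ρ (Iw v) := by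
  induction n with
  | zero => simp
  | succ n ih =>
    have h1 := coinv_step ρ (U := Iw v) (s := P.S) (u := fun b => nn (P.ϖ ^ (n : ℤ) * b))
      (fun b hb => nn_mem_Iw (by
        rw [map_mul, P.v_zpow]
        refine mul_le_one' ?_ (P.S_int b hb)
        rw [← exp_zero, exp_le_exp]; omega)) (ρ (P.t ((n : ℤ) + 1)) f)
    rw [← h.step] at h1
    have h2 : ρ (P.t ((n + 1 : ℕ) : ℤ)) f - ((P.S.card : ℂ)⁻¹) ^ (n + 1) • f =
        (P.S.card : ℂ)⁻¹ • ((ρ (P.t n) f - ((P.S.card : ℂ)⁻¹) ^ n • f) -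
          (ρ (P.t n) f - (P.S.card : ℂ) • ρ (P.t ((n : ℤ) + 1)) f)) := by
      push_cast
      rw [smul_sub, smul_sub, smul_sub, smul_smul, smul_smul, inv_mul_cancel₀ (q_ne P), one_smul,
        pow_succ']
      abel
    rw [h2]
    exact Submodule.smul_mem _ _ (sub_mem ih h1)

lemma w_conj_mem (P : Par v) {u : GL (Fin 2) F} (hu : u ∈ Iw v) : P.w * u * P.w⁻¹ ∈ Iw v := by
  have hw : P.w * u * P.w⁻¹ = mk2 (u 1 1) (u 1 0 / P.ϖ) (P.ϖ * u 0 1) (u 0 0) (by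
      have h := dt_ne u
      have h0 := P.ne
      have : u 1 1 * u 0 0 - u 1 0 / P.ϖ * (P.ϖ * u 0 1) = dt u := by
        rw [dt]; field_simp
      rw [this]; exact h) := by
    rw [mul_inv_eq_iff_eq_mul]
    have h0 := P.ne
    apply gl_ext <;> simp [Par.w, mul_00, mul_01, mul_10, mul_11] <;> field_simp
  rw [hw]
  have h1 := hu.2
  rw [lt_one_iff] at h1
  have h2 := (mem_KO_iff v).1 hu.1
  refine ⟨mk2_mem_KO v (h2.1 _ _) ?_ ?_ (h2.1 _ _) ?_, ?_⟩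
  · rw [map_div₀, P.hϖ]
    exact div_le_one_of_le₀ h1 zero_le
  · rw [map_mul]; exact mul_le_one' P.v_lt.le (h2.1 _ _)
  · have h0 := P.ne
    have : u 1 1 * u 0 0 - u 1 0 / P.ϖ * (P.ϖ * u 0 1) = dt u := by
      rw [dt]; field_simp
    rw [this]; exact h2.2
  · rw [mk2_10, map_mul]; exact mul_lt_one_of_lt_of_le P.v_lt (h2.1 _ _)

lemma IwRel.t_neg (h : IwRel P ρ f) (n : ℤ) : ρ (P.t (-n)) f = -ρ P.w (ρ (P.t n) f) := by
  have h1 : ρ (P.w * P.t n) f = ρ (P.z n * P.t (-n) * P.w) f := by rw [P.w_t]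
  rw [rho_mul, rho_mul, h.w, map_neg, P.z_comm, rho_mul, z_fix h.z] at h1
  rw [h1, neg_neg]

lemma IwRel.t_negnat (h : IwRel P ρ f) (n : ℕ) :
    ρ (P.t (-(n : ℤ))) f - ((P.S.card : ℂ)⁻¹) ^ n • f ∈ coinv ρ (Iw v) := by
  have h1 := map_coinv ρ P.w (fun u hu => w_conj_mem P hu) (h.t_nat n)
  rw [map_sub, map_smul, h.w] at h1
  rw [h.t_neg]
  have : -ρ P.w (ρ (P.t n) f) - ((P.S.card : ℂ)⁻¹) ^ n • f =
      -(ρ P.w (ρ (P.t n) f) - ((P.S.card : ℂ)⁻¹) ^ n • -f) := by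
    rw [smul_neg]; abel
  rw [this]
  exact neg_mem h1

lemma IwRel.t_int (h : IwRel P ρ f) (n : ℤ) :
    ρ (P.t n) f - ((P.S.card : ℂ)⁻¹) ^ n.natAbs • f ∈ coinv ρ (Iw v) := by
  rcases Int.natAbs_eq n with hn | hn
  · have := h.t_nat n.natAbs
    rwa [← hn] at this
  · have := h.t_negnat n.natAbs
    rwa [← hn] at this

/-- The Iwahori-Hecke eigenvalues on a vector with the Steinberg relations are universal. -/
lemma iw_scalar (P : Par v) (g : GL (Fin 2) F) : ∃ c : ℂ, ∀ (V : Type) [AddCommGroup V]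
    [Module ℂ V] (ρ : Representation ℂ (GL (Fin 2) F) V) (f : V), IwRel P ρ f →
    ρ g f - c • f ∈ coinv ρ (Iw v) := by
  obtain ⟨i₁, h₁, i₂, h₂, n, m, h⟩ := P.bruhat g
  rcases h with h | h
  · refine ⟨((P.S.card : ℂ)⁻¹) ^ n.natAbs, ?_⟩
    intro V _ _ ρ f hf
    have h3 : ρ g f = ρ i₁ (ρ (P.t n) f) := by
      rw [h, rho_mul, rho_mul, rho_mul, z_fix hf.z, hf.iw i₂ h₂]
    have h4 := sub_mem_coinv ρ h₁ (ρ (P.t n) f)
    have h5 := add_mem h4 (hf.t_int n)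
    rw [h3]
    convert h5 using 1; abel
  · refine ⟨-((P.S.card : ℂ)⁻¹) ^ (n + 1).natAbs, ?_⟩
    intro V _ _ ρ f hf
    have h3 : ρ g f = -ρ i₁ (ρ (P.t (n + 1)) f) := by
      rw [h, rho_mul, rho_mul, rho_mul, rho_mul, z_fix hf.z, hf.iw i₂ h₂, hf.ssf, map_neg,
        map_neg, ← rho_mul ρ (P.t n), ← P.t_add]
    have h4 := sub_mem_coinv ρ h₁ (ρ (P.t (n + 1)) f)
    have h5 := neg_mem (add_mem h4 (hf.t_int (n + 1)))
    rw [h3]
    convert h5 using 1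
    rw [neg_smul]; abel

/-- a vector with Steinberg relations dies in the `GL₂(O)`-coinvariants, together with all its
translates -/
lemma IwRel.ko_zero (h : IwRel P ρ f) : f ∈ coinv ρ (KO v) := by
  have h2 := coinv_step ρ (U := KO v) (s := P.S) (u := fun b => nn b * ss)
      (fun b hb => mul_mem (Iw_le_KO v (nn_mem_Iw (P.S_int b hb))) ss_mem_KO) f
  have h1 : f = -((((P.S.card : ℂ) + 1)⁻¹) •
      ((∑ b ∈ P.S, ρ (nn b * ss) f) - (P.S.card : ℂ) • f)) := by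
    have h4 := h.sum
    rw [add_eq_zero_iff_eq_neg'] at h4
    rw [h4]
    have : -f - (P.S.card : ℂ) • f = ((P.S.card : ℂ) + 1) • (-f) := by
      rw [add_smul, smul_neg, one_smul]; abel
    rw [this, smul_smul, inv_mul_cancel₀ (q1_ne P), one_smul, neg_neg]
  rw [h1]
  exact neg_mem (Submodule.smul_mem _ _ h2)

/-- Relations for a spherical vector with the Hecke eigenvalue of the trivial representation -/
structure SphRel (P : Par v) (ρ : Representation ℂ (GL (Fin 2) F) V) (f : V) : Prop where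
  ko : ∀ k ∈ KO v, ρ k f = f
  z : ρ (P.z 1) f = f
  sum : (∑ b ∈ P.S, ρ (nn b * P.t 1) f) + ρ (ss * P.t 1) f = ((P.S.card : ℂ) + 1) • f

lemma SphRel.step (h : SphRel P ρ f) (n : ℤ) :
    (∑ b ∈ P.S, ρ (nn (P.ϖ ^ n * b)) (ρ (P.t (n + 1)) f)) + ρ (P.t (n - 1)) f =
      ((P.S.card : ℂ) + 1) • ρ (P.t n) f := by
  have h1 := congrArg (ρ (P.t n)) h.sum
  rw [map_add, map_sum, map_smul] at h1
  rw [← h1]
  congr 1
  · refine Finset.sum_congr rfl (fun b _ => ?_)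
    rw [← rho_mul ρ (P.t n), ← mul_assoc, P.t_nn, mul_assoc, ← P.t_add, rho_mul]
  · rw [← rho_mul ρ (P.t n), ← mul_assoc, P.t_ss_t, rho_mul, h.ko ss ss_mem_KO, P.z_comm,
      rho_mul, z_fix h.z]

lemma SphRel.t_nat (h : SphRel P ρ f) (n : ℕ) :
    ρ (P.t n) f - f ∈ coinv ρ (KO v) ∧ ρ (P.t ((n : ℤ) + 1)) f - f ∈ coinv ρ (KO v) := by
  have hq := q_ne P
  have hq1 : (P.S.card : ℂ) + 1 ≠ 0 := q1_ne P
  induction n with
  | zero =>
    refine ⟨by simp, ?_⟩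
    have h1 := coinv_step ρ (U := KO v) (s := P.S) (u := fun b => nn b)
      (fun b hb => Iw_le_KO v (nn_mem_Iw (P.S_int b hb))) (ρ (P.t 1) f)
    have h2 := sub_mem_coinv ρ (ss_mem_KO (v := v)) (ρ (P.t 1) f)
    have h3 := add_mem h1 h2
    have h4 : ∑ b ∈ P.S, ρ (nn b) (ρ (P.t 1) f) = ∑ b ∈ P.S, ρ (nn b * P.t 1) f :=
      Finset.sum_congr rfl (fun b _ => (rho_mul _ _ _ _).symm)
    have h5 : ρ (P.t (((0 : ℕ) : ℤ) + 1)) f - f = -(((P.S.card : ℂ) + 1)⁻¹ •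
        ((∑ b ∈ P.S, ρ (nn b) (ρ (P.t 1) f) - (P.S.card : ℂ) • ρ (P.t 1) f) +
          (ρ ss (ρ (P.t 1) f) - ρ (P.t 1) f))) := by
      rw [h4, ← rho_mul ρ ss]
      have : ∑ b ∈ P.S, ρ (nn b * P.t 1) f - (P.S.card : ℂ) • ρ (P.t 1) f +
          (ρ (ss * P.t 1) f - ρ (P.t 1) f) = ((P.S.card : ℂ) + 1) • (f - ρ (P.t 1) f) := by
        rw [smul_sub, ← h.sum, add_smul, one_smul]; abel
      rw [this, smul_smul, inv_mul_cancel₀ hq1, one_smul]
      simp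
    rw [h5]
    exact neg_mem (Submodule.smul_mem _ _ h3)
  | succ n ih =>
    refine ⟨by push_cast; exact ih.2, ?_⟩
    have h1 := coinv_step ρ (U := KO v) (s := P.S)
      (u := fun b => nn (P.ϖ ^ ((n : ℤ) + 1) * b))
      (fun b hb => Iw_le_KO v (nn_mem_Iw (by
        rw [map_mul, P.v_zpow]
        refine mul_le_one' ?_ (P.S_int b hb)
        rw [← exp_zero, exp_le_exp]; omega))) (ρ (P.t ((n : ℤ) + 1 + 1)) f)
    have h2 := h.step ((n : ℤ) + 1)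
    have h3 : ρ (P.t (((n + 1 : ℕ) : ℤ) + 1)) f - f = (P.S.card : ℂ)⁻¹ •
        (((P.S.card : ℂ) + 1) • (ρ (P.t ((n : ℤ) + 1)) f - f) - (ρ (P.t n) f - f) -
        ((∑ b ∈ P.S, ρ (nn (P.ϖ ^ ((n : ℤ) + 1) * b)) (ρ (P.t ((n : ℤ) + 1 + 1)) f)) -
          (P.S.card : ℂ) • ρ (P.t ((n : ℤ) + 1 + 1)) f)) := by
      have h4 : ρ (P.t ((n : ℤ) + 1 - 1)) f = ρ (P.t n) f := by simp
      rw [h4] at h2
      have h5 : ((P.S.card : ℂ) + 1) • (ρ (P.t ((n : ℤ) + 1)) f - f) - (ρ (P.t n) f - f) -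
        ((∑ b ∈ P.S, ρ (nn (P.ϖ ^ ((n : ℤ) + 1) * b)) (ρ (P.t ((n : ℤ) + 1 + 1)) f)) -
          (P.S.card : ℂ) • ρ (P.t ((n : ℤ) + 1 + 1)) f) =
          (P.S.card : ℂ) • (ρ (P.t ((n : ℤ) + 1 + 1)) f - f) := by
        rw [smul_sub, ← h2, smul_sub, add_smul, one_smul]; abel
      rw [h5, smul_smul, inv_mul_cancel₀ hq, one_smul]
      push_cast; rfl
    rw [h3]
    exact Submodule.smul_mem _ _ (sub_mem (sub_mem (Submodule.smul_mem _ _ ih.2) ih.1) h1)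

lemma SphRel.all (h : SphRel P ρ f) (g : GL (Fin 2) F) : ρ g f - f ∈ coinv ρ (KO v) := by
  obtain ⟨k₁, h₁, k₂, h₂, n, m, hg⟩ := P.cartan g
  have h3 : ρ g f = ρ k₁ (ρ (P.t n) f) := by
    rw [hg, rho_mul, rho_mul, rho_mul, z_fix h.z, h.ko k₂ h₂]
  have h4 := sub_mem_coinv ρ h₁ (ρ (P.t n) f)
  have h5 := add_mem h4 (h.t_nat n).1
  rw [h3]
  convert h5 using 1; abel

end

end Pool.Agent.Helper37.LL
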