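import Pool.Agent.Helper37.LL.NT

/-!
# Global sections of the rank two bundles attached to elements of `GL₂(𝔸)`
-/

set_option autoImplicit false

open Polynomial IsDedekindDomain WithZero Topology
open scoped RestrictedProduct

namespace Pool.Agent.Helper37.LL

section app

variable {F : Type*} [Field F]

/-- action of matrices on vectors -/
def app (h : GL (Fin 2) F) (y : Fin 2 → F) : Fin 2 → F := h.val.mulVec y

lemma app_mul (h h' : GL (Fin 2) F) (y : Fin 2 → F) : app (h * h') y = app h (app h' y) := by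
  rw [app, app, app, Matrix.mulVec_mulVec]; rfl

@[simp] lemma app_one (y : Fin 2 → F) : app 1 y = y := by
  rw [app]; simp

lemma app_apply (h : GL (Fin 2) F) (y : Fin 2 → F) (i : Fin 2) :
    app h y i = h i 0 * y 0 + h i 1 * y 1 := by
  rw [app, Matrix.mulVec, dotProduct, Fin.sum_univ_two]

lemma app_add (h : GL (Fin 2) F) (y z : Fin 2 → F) : app h (y + z) = app h y + app h z :=
  Matrix.mulVec_add _ _ _

lemma app_sub (h : GL (Fin 2) F) (y z : Fin 2 → F) : app h (y - z) = app h y - app h z :=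
  Matrix.mulVec_sub _ _ _

lemma app_smul (h : GL (Fin 2) F) (c : F) (y : Fin 2 → F) : app h (c • y) = c • app h y :=
  Matrix.mulVec_smul _ _ _

@[simp] lemma app_zero (h : GL (Fin 2) F) : app h 0 = 0 := Matrix.mulVec_zero _

variable (v : Valuation F ℤᵐ⁰)

/-- integral vectors -/
def intg (y : Fin 2 → F) : Prop := ∀ i, v (y i) ≤ 1

variable {v}

lemma intg_add {y z : Fin 2 → F} (hy : intg v y) (hz : intg v z) : intg v (y + z) := fun i =>
  v.map_add_le (hy i) (hz i)

lemma intg_sub {y z : Fin 2 → F} (hy : intg v y) (hz : intg v z) : intg v (y - z) := fun i =>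
  (v.map_sub _ _).trans (max_le (hy i) (hz i))

lemma intg_neg {y : Fin 2 → F} (hy : intg v y) : intg v (-y) := fun i => by
  rw [Pi.neg_apply, Valuation.map_neg]; exact hy i

lemma intg_zero : intg v 0 := fun i => by simp

lemma app_bound {h : GL (Fin 2) F} {y : Fin 2 → F} {M : ℤ} {n : ℤ}
    (hh : ∀ i j, v (h i j) ≤ exp M) (hy : ∀ i, v (y i) ≤ exp n) (i : Fin 2) :
    v (app h y i) ≤ exp (M + n) := by
  rw [app_apply, exp_add]
  refine v.map_add_le ?_ ?_ <;> rw [map_mul] <;> exact mul_le_mul' (hh _ _) (hy _)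

lemma intg_app {h : GL (Fin 2) F} {y : Fin 2 → F} (hh : ∀ i j, v (h i j) ≤ 1)
    (hy : intg v y) : intg v (app h y) := by
  intro i
  rw [app_apply]
  refine v.map_add_le ?_ ?_ <;> rw [map_mul] <;> exact mul_le_one' (hh _ _) (hy _)

lemma intg_app_KO {k : GL (Fin 2) F} (hk : k ∈ KO v) {y : Fin 2 → F} :
    intg v (app k y) ↔ intg v y := by
  constructor
  · intro h
    have := intg_app (KO_inv_int hk) h
    rwa [← app_mul, inv_mul_cancel, app_one] at this
  · exact intg_app (KO_int hk)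

variable (P : Par v)

lemma app_inv_mul (h h' : GL (Fin 2) F) (y : Fin 2 → F) :
    app (h * h')⁻¹ y = app h'⁻¹ (app h⁻¹ y) := by
  rw [_root_.mul_inv_rev, app_mul]

/-- membership in `n(b) t O²` -/
lemma intg_nt_iff (b : F) (y : Fin 2 → F) :
    intg v (app (nn b * P.t 1)⁻¹ y) ↔ v (y 0 - b * y 1) < 1 ∧ v (y 1) ≤ 1 := by
  have h0 : app (nn b * P.t 1)⁻¹ y 0 = P.ϖ⁻¹ * (y 0 - b * y 1) := by
    rw [app_apply, inv_00, inv_01]
    simp [nn, Par.t, mul_00, mul_01, mul_10, mul_11, dt]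
    field_simp [P.ne]
    ring
  have h1 : app (nn b * P.t 1)⁻¹ y 1 = y 1 := by
    rw [app_apply, inv_10, inv_11]
    simp [nn, Par.t, mul_00, mul_01, mul_10, mul_11, dt]
    rw [div_self P.ne, one_mul]
  have key : ∀ x : F, v (P.ϖ⁻¹ * x) ≤ 1 ↔ v x < 1 := by
    intro x
    rw [lt_one_iff, map_mul, map_inv₀, P.hϖ, ← exp_neg, neg_neg]
    constructor
    · intro h
      calc v x = exp (-1) * (exp 1 * v x) := by rw [← mul_assoc, ← exp_add]; simp
        _ ≤ exp (-1) * 1 := mul_le_mul_right h _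
        _ = exp (-1) := mul_one _
    · intro h
      calc exp 1 * v x ≤ exp 1 * exp (-1) := mul_le_mul_right h _
        _ = 1 := by rw [← exp_add]; simp
  constructor
  · intro h
    refine ⟨(key _).1 ?_, ?_⟩
    · rw [← h0]; exact h 0
    · rw [← h1]; exact h 1
  · rintro ⟨h2, h3⟩ i
    fin_cases i
    · show v (app (nn b * P.t 1)⁻¹ y 0) ≤ 1
      rw [h0]; exact (key _).2 h2
    · show v (app (nn b * P.t 1)⁻¹ y 1) ≤ 1
      rw [h1]; exact h3

/-- membership in `s t O²` -/
lemma intg_st_iff (y : Fin 2 → F) :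
    intg v (app (ss * P.t 1)⁻¹ y) ↔ v (y 1) < 1 ∧ v (y 0) ≤ 1 := by
  have h0 : app (ss * P.t 1)⁻¹ y 0 = P.ϖ⁻¹ * y 1 := by
    rw [app_apply, inv_00, inv_01]
    simp [ss, Par.t, mul_00, mul_01, mul_10, mul_11, dt]
  have h1 : app (ss * P.t 1)⁻¹ y 1 = y 0 := by
    rw [app_apply, inv_10, inv_11]
    simp [ss, Par.t, mul_00, mul_01, mul_10, mul_11, dt]
    rw [div_self P.ne, one_mul]
  have key : ∀ x : F, v (P.ϖ⁻¹ * x) ≤ 1 ↔ v x < 1 := by
    intro x
    rw [lt_one_iff, map_mul, map_inv₀, P.hϖ, ← exp_neg, neg_neg]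
    constructor
    · intro h
      calc v x = exp (-1) * (exp 1 * v x) := by rw [← mul_assoc, ← exp_add]; simp
        _ ≤ exp (-1) * 1 := mul_le_mul_right h _
        _ = exp (-1) := mul_one _
    · intro h
      calc exp 1 * v x ≤ exp 1 * exp (-1) := mul_le_mul_right h _
        _ = 1 := by rw [← exp_add]; simp
  constructor
  · intro h
    refine ⟨(key _).1 ?_, ?_⟩
    · rw [← h0]; exact h 0
    · rw [← h1]; exact h 1
  · rintro ⟨h2, h3⟩ i
    fin_cases i
    · show v (app (ss * P.t 1)⁻¹ y 0) ≤ 1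
      rw [h0]; exact (key _).2 h2
    · show v (app (ss * P.t 1)⁻¹ y 1) ≤ 1
      rw [h1]; exact h3

/-- membership in `ϖ^n O²` -/
lemma app_z (n : ℤ) (y : Fin 2 → F) : app (P.z n)⁻¹ y = (P.ϖ ^ (-n)) • y := by
  have hz : (P.z n)⁻¹ = P.z (-n) := by
    rw [inv_eq_iff_mul_eq_one, ← P.z_add]; simp
  rw [hz]
  funext i
  rw [app_apply]
  fin_cases i <;> simp [Par.z]

/-- counting: in how many of the `q+1` sublattices does an integral vector lie -/
lemma count_lattices (y : Fin 2 → F) (hy : intg v y) :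
    (P.S.filter (fun b => v (y 0 - b * y 1) < 1)).card + (if v (y 1) < 1 then 1 else 0) =
      1 + P.S.card * (if v (y 0) < 1 ∧ v (y 1) < 1 then 1 else 0) := by
  classical
  by_cases h1 : v (y 1) < 1
  · have hb : ∀ b ∈ P.S, v (b * y 1) < 1 := by
      intro b hb
      rw [map_mul, mul_comm]
      exact mul_lt_one_of_lt_of_le h1 (P.S_int b hb)
    by_cases h0 : v (y 0) < 1
    · have : P.S.filter (fun b => v (y 0 - b * y 1) < 1) = P.S := by
        apply Finset.filter_true_of_mem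
        intro b hb'
        exact (v.map_sub _ _).trans_lt (max_lt h0 (hb b hb'))
      rw [this, if_pos h1, if_pos ⟨h0, h1⟩]; ring
    · have : P.S.filter (fun b => v (y 0 - b * y 1) < 1) = ∅ := by
        apply Finset.filter_false_of_mem
        intro b hb' h2
        apply h0
        have : y 0 = (y 0 - b * y 1) + b * y 1 := by ring
        rw [this]
        exact v.map_add_lt h2 (hb b hb')
      rw [this, if_pos h1, if_neg (fun h => h0 h.1)]; simp
  · have hv1 : v (y 1) = 1 := le_antisymm (hy 1) (not_lt.1 h1)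
    have hy1 : y 1 ≠ 0 := by
      intro h; rw [h, map_zero] at hv1; exact zero_ne_one hv1
    rw [if_neg h1, if_neg (fun h => h1 h.2)]
    obtain ⟨b₀, hb₀, hb₀'⟩ := P.S_ex (y 0 / y 1) (by rw [map_div₀, hv1, div_one]; exact hy 0)
    have key : ∀ b, v (y 0 - b * y 1) < 1 ↔ v (y 0 / y 1 - b) < 1 := by
      intro b
      have : y 0 - b * y 1 = (y 0 / y 1 - b) * y 1 := by field_simp
      rw [this, map_mul, hv1, mul_one]
    have : P.S.filter (fun b => v (y 0 - b * y 1) < 1) = {b₀} := by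
      ext b
      rw [Finset.mem_filter, Finset.mem_singleton, key]
      constructor
      · rintro ⟨hb, hb'⟩
        refine P.S_inj b hb b₀ hb₀ ?_
        have : b - b₀ = (y 0 / y 1 - b₀) - (y 0 / y 1 - b) := by ring
        rw [this]
        exact (v.map_sub _ _).trans_lt (max_lt hb₀' hb')
      · rintro rfl
        exact ⟨hb₀, hb₀'⟩
    rw [this]; simp

end app

section glob

variable {𝔽 : Type} [Field 𝔽]

/-- embedding of vectors -/
noncomputable def ev (v : Place 𝔽) (x : Fin 2 → RatFunc 𝔽) : Fin 2 → Kv 𝔽 v := fun i =>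
  emb 𝔽 v (x i)

lemma ev_add (v : Place 𝔽) (x y : Fin 2 → RatFunc 𝔽) : ev v (x + y) = ev v x + ev v y := by
  funext i; exact map_add _ _ _

lemma ev_neg (v : Place 𝔽) (x : Fin 2 → RatFunc 𝔽) : ev v (-x) = -ev v x := by
  funext i; exact map_neg _ _

lemma ev_sub (v : Place 𝔽) (x y : Fin 2 → RatFunc 𝔽) : ev v (x - y) = ev v x - ev v y := by
  funext i; exact map_sub _ _ _

lemma ev_zero (v : Place 𝔽) : ev v (0 : Fin 2 → RatFunc 𝔽) = 0 := by
  funext i; exact map_zero _

/-- global sections -/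
noncomputable def H (g : GA 𝔽) : AddSubgroup (Fin 2 → RatFunc 𝔽) where
  carrier := {x | ∀ v, intg (vv 𝔽 v) (app (g v)⁻¹ (ev v x))}
  zero_mem' := by
    intro v; rw [ev_zero, app_zero]; exact intg_zero
  add_mem' := by
    intro x y hx hy v
    rw [ev_add, app_add]; exact intg_add (hx v) (hy v)
  neg_mem' := by
    intro x hx v
    rw [ev_neg]
    have : app (g v)⁻¹ (-ev v x) = -app (g v)⁻¹ (ev v x) := Matrix.mulVec_neg _ _
    rw [this]; exact intg_neg (hx v)

lemma mem_H {g : GA 𝔽} {x : Fin 2 → RatFunc 𝔽} :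
    x ∈ H g ↔ ∀ v, intg (vv 𝔽 v) (app (g v)⁻¹ (ev v x)) := Iff.rfl

lemma ev_app (v : Place 𝔽) (γ : GL (Fin 2) (RatFunc 𝔽)) (x : Fin 2 → RatFunc 𝔽) :
    ev v (app γ x) = app (Gdiag 𝔽 γ v) (ev v x) := by
  funext i
  rw [app_apply]
  show emb 𝔽 v (app γ x i) = _
  rw [app_apply, map_add, map_mul, map_mul]
  rfl

/-- left invariance -/
lemma mem_H_left (γ : GL (Fin 2) (RatFunc 𝔽)) (g : GA 𝔽) (x : Fin 2 → RatFunc 𝔽) :
    app γ x ∈ H (Gdiag 𝔽 γ * g) ↔ x ∈ H g := by
  rw [mem_H, mem_H]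
  refine forall_congr' (fun v => ?_)
  rw [ev_app, RestrictedProduct.mul_apply, app_inv_mul, ← app_mul (Gdiag 𝔽 γ v)⁻¹,
    inv_mul_cancel, app_one]

/-- right invariance -/
lemma H_right (g k : GA 𝔽) (hk : ∀ v, k v ∈ GLO 𝔽 v) : H (g * k) = H g := by
  ext x
  rw [mem_H, mem_H]
  refine forall_congr' (fun v => ?_)
  rw [RestrictedProduct.mul_apply, app_inv_mul]
  exact intg_app_KO (inv_mem (hk v))

/-- number of global sections -/
noncomputable def NH (g : GA 𝔽) : ℕ := Nat.card (H g)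

lemma NH_left (γ : GL (Fin 2) (RatFunc 𝔽)) (g : GA 𝔽) : NH (Gdiag 𝔽 γ * g) = NH g := by
  symm
  refine Nat.card_congr
    { toFun := fun x => ⟨app γ x, (mem_H_left γ g x).2 x.2⟩
      invFun := fun x => ⟨app γ⁻¹ x, by
        rw [← mem_H_left γ g, ← app_mul, mul_inv_cancel, app_one]; exact x.2⟩
      left_inv := fun x => Subtype.ext (by
        show app γ⁻¹ (app γ x) = x
        rw [← app_mul, inv_mul_cancel, app_one])
      right_inv := fun x => Subtype.ext (by
        show app γ (app γ⁻¹ x) = x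
        rw [← app_mul, mul_inv_cancel, app_one]) }

lemma NH_right (g k : GA 𝔽) (hk : ∀ v, k v ∈ GLO 𝔽 v) : NH (g * k) = NH g := by
  rw [NH, H_right g k hk]; rfl

lemma entries_bound {F : Type*} [Field F] (v : Valuation F ℤᵐ⁰) (h : GL (Fin 2) F) :
    ∃ M : ℤ, 0 ≤ M ∧ ∀ i j, v (h i j) ≤ exp M := by
  have key : ∀ x : F, v x ≤ exp (max 0 (log (v x))) := by
    intro x
    by_cases hx : v x = 0
    · rw [hx]; exact zero_le
    · conv_lhs => rw [← exp_log hx]
      rw [exp_le_exp]; exact le_max_right _ _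
  refine ⟨∑ i, ∑ j, max 0 (log (v (h i j))), ?_, ?_⟩
  · exact Finset.sum_nonneg fun i _ => Finset.sum_nonneg fun j _ => le_max_left _ _
  · intro i j
    refine (key (h i j)).trans ?_
    rw [exp_le_exp]
    calc max 0 (log (v (h i j))) ≤ ∑ j, max 0 (log (v (h i j))) :=
          Finset.single_le_sum (f := fun j => max 0 (log (v (h i j))))
            (fun _ _ => le_max_left _ _) (Finset.mem_univ j)
      _ ≤ ∑ i, ∑ j, max 0 (log (v (h i j))) :=
          Finset.single_le_sum (f := fun i => ∑ j, max 0 (log (v (h i j))))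
            (fun _ _ => Finset.sum_nonneg fun j _ => le_max_left _ _) (Finset.mem_univ i)

/-- common denominators -/
lemma exists_denom (g : GA 𝔽) : ∃ r : 𝔽[X], r ≠ 0 ∧ ∀ (P : HeightOneSpectrum 𝔽[X]) (i j : Fin 2),
    vv 𝔽 (some P) (emb 𝔽 (some P) (pl r) * g (some P) i j) ≤ 1 ∧
    vv 𝔽 (some P) (emb 𝔽 (some P) (pl r) * (g (some P))⁻¹ i j) ≤ 1 := by
  classical
  have hfin : {P : HeightOneSpectrum 𝔽[X] | g (some P) ∉ GLO 𝔽 (some P)}.Finite := by
    have h1 : {v : Place 𝔽 | g v ∉ GLO 𝔽 v}.Finite := by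
      have := g.2
      rw [Filter.eventually_cofinite] at this
      exact this
    exact h1.preimage (Option.some_injective _).injOn
  choose M hM0 hM using fun P : HeightOneSpectrum 𝔽[X] => entries_bound (vv 𝔽 (some P)) (g (some P))
  choose M' hM0' hM' using fun P : HeightOneSpectrum 𝔽[X] =>
    entries_bound (vv 𝔽 (some P)) (g (some P))⁻¹
  let r : 𝔽[X] := ∏ P ∈ hfin.toFinset, gen P ^ (M P + M' P).toNat
  have hr0 : r ≠ 0 := Finset.prod_ne_zero_iff.2 fun P _ => pow_ne_zero _ (gen_ne P)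
  have hr : ∀ P, g (some P) ∉ GLO 𝔽 (some P) → val 𝔽 (some P) (pl r) ≤ exp (-(M P + M' P)) := by
    intro P hP
    have hmem : P ∈ hfin.toFinset := by rw [Set.Finite.mem_toFinset]; exact hP
    have h2 : r = gen P ^ (M P + M' P).toNat *
        ∏ Q ∈ hfin.toFinset.erase P, gen Q ^ (M Q + M' Q).toNat :=
      (Finset.mul_prod_erase _ _ hmem).symm
    rw [h2]
    show val 𝔽 (some P) (algebraMap _ _ _) ≤ _
    rw [map_mul, map_mul]
    calc _ ≤ val 𝔽 (some P) (pl (gen P ^ (M P + M' P).toNat)) * 1 :=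
          mul_le_mul_right (val_fin_pl_le P _) _
      _ = exp (-(M P + M' P)) := by
          have h3 : ((M P + M' P).toNat : ℤ) = M P + M' P :=
            Int.toNat_of_nonneg (add_nonneg (hM0 P) (hM0' P))
          rw [mul_one, pl_pow, map_pow, val_gen, ← WithZero.exp_nsmul]
          simp only [smul_neg, nsmul_eq_mul, mul_one]
          rw [h3]
  refine ⟨r, hr0, fun P i j => ?_⟩
  by_cases hP : g (some P) ∈ GLO 𝔽 (some P)
  · refine ⟨?_, ?_⟩ <;> rw [map_mul, vv_emb]
    · exact mul_le_one' (val_fin_pl_le P r) (hP.1 i j)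
    · exact mul_le_one' (val_fin_pl_le P r) (hP.2 i j)
  · have h3 := hr P hP
    have hm := hM0 P
    have hm' := hM0' P
    refine ⟨?_, ?_⟩ <;> rw [map_mul, vv_emb]
    · calc _ ≤ exp (-(M P + M' P)) * exp (M P) := mul_le_mul' h3 (hM P i j)
        _ ≤ 1 := by rw [← exp_add, ← exp_zero, exp_le_exp]; omega
    · calc _ ≤ exp (-(M P + M' P)) * exp (M' P) := mul_le_mul' h3 (hM' P i j)
        _ ≤ 1 := by rw [← exp_add, ← exp_zero, exp_le_exp]; omega

end glob

end Pool.Agent.Helper37.LL
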