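import Pool.Agent.Helper37.LL.Eis2
import Pool.Agent.Helper37.LL.Irr

/-!
# Smooth vectors, openness, and general facts on representations of `GL₂(𝔸)`
-/

set_option autoImplicit false


open Polynomial IsDedekindDomain WithZero Topology
open scoped RestrictedProduct

namespace Pool.Agent.Helper37.LL

section gen

variable {G V : Type} [Group G] [TopologicalSpace G] [IsTopologicalGroup G] [AddCommGroup V]
  [Module ℂ V]

omit [IsTopologicalGroup G] in
lemma fixer_coe (ρ : Representation ℂ G V) (x : V) :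
    (fixer ρ x : Set G) = {g : G | ρ g x = x} := rfl

lemma isOpen_fixer_of {ρ : Representation ℂ G V} {x : V} {U : Subgroup G}
    (hU : IsOpen (U : Set G)) (h : ∀ u ∈ U, ρ u x = x) : IsOpen (fixer ρ x : Set G) :=
  Subgroup.isOpen_mono (H₁ := U) (fun u hu => h u hu) hU

/-- the subspace of smooth vectors -/
def smSub (ρ : Representation ℂ G V) : Submodule ℂ V where
  carrier := {x | IsOpen (fixer ρ x : Set G)}
  zero_mem' := by
    have : (fixer ρ (0 : V) : Set G) = Set.univ := by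
      ext g; simp [fixer_coe]
    show IsOpen (fixer ρ (0 : V) : Set G)
    rw [this]; exact isOpen_univ
  add_mem' := by
    intro x y hx hy
    have h : IsOpen ((fixer ρ x ⊓ fixer ρ y : Subgroup G) : Set G) := by
      rw [Subgroup.coe_inf]; exact IsOpen.inter hx hy
    refine isOpen_fixer_of h ?_
    rintro u ⟨h1, h2⟩
    rw [map_add, show ρ u x = x from h1, show ρ u y = y from h2]
  smul_mem' := by
    intro c x hx
    refine isOpen_fixer_of (U := fixer ρ x) hx ?_
    intro u hu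
    rw [map_smul, show ρ u x = x from hu]

lemma mem_smSub {ρ : Representation ℂ G V} {x : V} :
    x ∈ smSub ρ ↔ IsOpen {g : G | ρ g x = x} := Iff.rfl

lemma smSub_stable (ρ : Representation ℂ G V) : Stable ρ (smSub ρ) := by
  intro g x hx
  rw [mem_smSub] at hx ⊢
  have : {h : G | ρ h (ρ g x) = ρ g x} = (fun h => g⁻¹ * h * g) ⁻¹' {h : G | ρ h x = x} := by
    ext h
    simp only [Set.mem_ofPred_eq, Set.mem_preimage]
    rw [rho_mul, rho_mul]
    constructor
    · intro h1
      rw [h1, ← rho_mul, inv_mul_cancel, map_one]; rfl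
    · intro h1
      have h2 := congrArg (ρ g) h1
      rwa [← rho_mul, mul_inv_cancel, map_one] at h2
  rw [this]
  exact hx.preimage ((continuous_const.mul continuous_id).mul continuous_const)

lemma smSub_map {V' : Type} [AddCommGroup V'] [Module ℂ V'] {ρ : Representation ℂ G V}
    {ρ' : Representation ℂ G V'} {x : V} {y : V'} (hx : x ∈ smSub ρ)
    (h : ∀ g, ρ g x = x → ρ' g y = y) : y ∈ smSub ρ' :=
  isOpen_fixer_of (U := fixer ρ x) hx h

end gen

section glob

variable {𝔽 : Type} [Field 𝔽] [Finite 𝔽]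

instance factGLO : Fact (∀ v : Place 𝔽, IsOpen ((GLO 𝔽 v : Subgroup (GLv 𝔽 v)) : Set (GLv 𝔽 v))) :=
  ⟨fun v => isOpen_KO (par v)⟩

instance : IsTopologicalGroup (GA 𝔽) := by
  infer_instance

lemma isOpen_U (U : (v : Place 𝔽) → Subgroup (GLv 𝔽 v)) (hU : ∀ v, IsOpen (U v : Set (GLv 𝔽 v)))
    (hle : ∀ v, U v ≤ GLO 𝔽 v) (hfin : {v | U v ≠ GLO 𝔽 v}.Finite) :
    IsOpen {g : GA 𝔽 | ∀ v, g v ∈ U v} := by
  have h1 : IsOpen {g : GA 𝔽 | ∀ v, g v ∈ GLO 𝔽 v} :=
    RestrictedProduct.isOpen_forall_mem (fun v => isOpen_KO (par v))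
  have h2 : {g : GA 𝔽 | ∀ v, g v ∈ U v} = {g : GA 𝔽 | ∀ v, g v ∈ GLO 𝔽 v} ∩
      ⋂ v ∈ {v | U v ≠ GLO 𝔽 v}, (fun g : GA 𝔽 => g v) ⁻¹' (U v : Set (GLv 𝔽 v)) := by
    ext g
    simp only [Set.mem_ofPred_eq, Set.mem_inter_iff, Set.mem_iInter, Set.mem_preimage,
      SetLike.mem_coe]
    constructor
    · intro h
      exact ⟨fun v => hle v (h v), fun v _ => h v⟩
    · rintro ⟨h, h'⟩ v
      by_cases hv : U v = GLO 𝔽 v
      · rw [hv]; exact h v
      · exact h' v hv
  rw [h2]
  refine h1.inter (hfin.isOpen_biInter (fun v _ => ?_))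
  exact (hU v).preimage (RestrictedProduct.continuous_eval v)

end glob

end Pool.Agent.Helper37.LL
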