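import Mathlib

/-!
# Automorphic representations of `GL₂`, local components, isobaric representations,
global liftings for `ρ = id`: definitions

The definitions take as parameters a field `K`, a family of topological fields `A v`, `v ∈ P`
(the completions of `K`), the embeddings `emb v : K → A v`, the rings of integers `O v ⊆ A v` and
the normalised absolute values `nrm v` on the multiplicative groups of the `A v`.
-/

set_option autoImplicit false

open MeasureTheory
open scoped RestrictedProduct

namespace Pool.Agent.Helper37.LL.Spec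

/-! ### Smooth representations of topological groups -/

/-- A representation is smooth if every vector has an open stabiliser. -/
def IsSmooth {G V : Type} [Group G] [TopologicalSpace G] [AddCommGroup V] [Module ℂ V]
    (ρ : Representation ℂ G V) : Prop :=
  ∀ x : V, IsOpen {g : G | ρ g x = x}

/-- Isomorphism of representations -/
def RepIso {G V W : Type} [Group G] [AddCommGroup V] [Module ℂ V] [AddCommGroup W] [Module ℂ W]
    (σ : Representation ℂ G V) (τ : Representation ℂ G W) : Prop :=
  ∃ e : V ≃ₗ[ℂ] W, ∀ g x, e (σ g x) = τ g (e x)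

/-- An irreducible smooth complex representation of the topological group `G`. -/
structure Irrep (G : Type) [Group G] [TopologicalSpace G] where
  /-- the space -/
  V : Type
  [instAddCommGroup : AddCommGroup V]
  [instModule : Module ℂ V]
  /-- the action -/
  ρ : Representation ℂ G V
  irreducible : ρ.IsIrreducible
  smooth : IsSmooth ρ

attribute [instance] Irrep.instAddCommGroup Irrep.instModule

/-- `Irr G`: the set of isomorphism classes of irreducible smooth representations of `G`
(`Quot` is the quotient by the relation of isomorphism). -/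
def Irr (G : Type) [Group G] [TopologicalSpace G] : Type 1 :=
  Quot (fun σ τ : Irrep G => RepIso σ.ρ τ.ρ)

/-- the class of an irreducible smooth representation -/
def Irrep.cls {G : Type} [Group G] [TopologicalSpace G] (σ : Irrep G) : Irr G :=
  Quot.mk _ σ

/-- The representation `ρ` of `G` is a quotient of a space `W` of functions on `G`, stable under
right translations, all elements of which have the property `C`: here the quotient map is the
restriction to `W` of the linear map `p`. -/
def IsSubquotientOf {G V : Type} [Group G] [AddCommGroup V] [Module ℂ V]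
    (C : (G → ℂ) → Prop) (ρ : Representation ℂ G V) : Prop :=
  ∃ (W : Submodule ℂ (G → ℂ)) (p : (G → ℂ) →ₗ[ℂ] V), (∀ φ ∈ W, C φ) ∧
    (∀ φ ∈ W, ∀ h, (fun g => φ (g * h)) ∈ W ∧ p (fun g => φ (g * h)) = ρ h (p φ)) ∧
    ∀ x, ∃ φ ∈ W, p φ = x

/-- The span of the right translates of `φ` by the elements of `S`. -/
def trSpan {G : Type} [Group G] (S : Set G) (φ : G → ℂ) : Submodule ℂ (G → ℂ) :=
  Submodule.span ℂ {ψ | ∃ k ∈ S, ∀ g, ψ g = φ (g * k)}

/-- Let `pr` identify the subgroup `S` of `G` with `H`. The representation of `H` generated by the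
function `φ` on `G` is admissible: for each open subgroup `U` of `H` its subspace of `U`-fixed
vectors is finite dimensional. -/
def GeneratesAdmissible {G H : Type} [Group G] [Group H] [TopologicalSpace H] (S : Set G)
    (pr : G → H) (φ : G → ℂ) : Prop :=
  ∀ U : Subgroup H, IsOpen (U : Set H) → FiniteDimensional ℂ (Submodule.span ℂ
    {ψ | ψ ∈ trSpan S φ ∧ ∀ k ∈ S, pr k ∈ U → ∀ g, ψ (g * k) = ψ g})

/-- `σ` embeds in `ρ` compatibly with the actions of `a ∈ S` by `ρ a` and by `σ (pr a)` -/
def EmbedsVia {G H V W : Type} [Group G] [Group H] [AddCommGroup V] [Module ℂ V]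
    [AddCommGroup W] [Module ℂ W] (S : Set G) (pr : G → H) (ρ : Representation ℂ G V)
    (σ : Representation ℂ H W) : Prop :=
  ∃ j : W →ₗ[ℂ] V, Function.Injective j ∧ ∀ a ∈ S, ∀ x, j (σ (pr a) x) = ρ a (j x)

/-- there is a nonzero vector fixed by the subgroup `U` -/
def HasFixedVector {G V : Type} [Group G] [AddCommGroup V] [Module ℂ V]
    (U : Subgroup G) (ρ : Representation ℂ G V) : Prop :=
  ∃ x : V, x ≠ 0 ∧ ∀ k ∈ U, ρ k x = x

/-! ### Local theory of `GL₂` -/

/-- `GL₂(R)` for a subring `R` of a field `F`, as a subgroup of `GL₂(F)`: the invertible matrices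
`g` such that `g` and its inverse have entries in `R`. -/
def GLO {F : Type*} [Field F] (R : Subring F) : Subgroup (GL (Fin 2) F) :=
  (R.matrix (n := Fin 2)).toSubmonoid.units

/-- The (normalised) principal series `I(χ₁, χ₂)` of `GL₂(F)`: functions `φ`, right invariant
under an open subgroup, with `φ((a b; 0 d) g) = χ₁(a) χ₂(d) |a/d|^{1/2} φ(g)`, where
`|x| = nrm x`. -/
def principalSeries {F : Type} [Field F] [TopologicalSpace F] (nrm : Fˣ → ℝ) (χ₁ χ₂ : Fˣ →* ℂˣ) :
    Set (GL (Fin 2) F → ℂ) :=
  {φ | (∃ U : Subgroup (GL (Fin 2) F), IsOpen (U : Set (GL (Fin 2) F)) ∧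
      ∀ u ∈ U, ∀ g, φ (g * u) = φ g) ∧
    ∀ (a d : Fˣ) (t g : GL (Fin 2) F), t.1 0 0 = a → t.1 1 1 = d → t.1 1 0 = 0 →
      φ (t * g) = χ₁ a * χ₂ d * (Real.sqrt (nrm a / nrm d) : ℂ) * φ g}

/-- `σ` embeds in the principal series `I(χ₁, χ₂)`. -/
def EmbedsInPS {F W : Type} [Field F] [TopologicalSpace F] [AddCommGroup W] [Module ℂ W]
    (nrm : Fˣ → ℝ) (χ₁ χ₂ : Fˣ →* ℂˣ) (σ : Representation ℂ (GL (Fin 2) F) W) : Prop :=
  ∃ j : W →ₗ[ℂ] (GL (Fin 2) F → ℂ), Function.Injective j ∧
    (∀ x, j x ∈ principalSeries nrm χ₁ χ₂) ∧ ∀ h x g, j (σ h x) g = j x (g * h)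

/-- `|χ₁| = |·|^{s₁}`, `|χ₂| = |·|^{s₂}` with `s₁ ≥ s₂`. -/
def ExpGE {F : Type} [Field F] (nrm : Fˣ → ℝ) (χ₁ χ₂ : Fˣ →* ℂˣ) : Prop :=
  ∀ x : Fˣ, nrm x ≤ 1 → ‖(χ₁ x : ℂ)‖ ≤ ‖(χ₂ x : ℂ)‖

/-- `σ = χ₁ ⊞ χ₂` (local isobaric sum, Langlands quotient): if `s₁ ≥ s₂` it is the unique
irreducible subrepresentation of `I(χ₂, χ₁)` (equivalently the unique irreducible quotient of
`I(χ₁, χ₂)`), and if `s₂ ≥ s₁` the roles are exchanged. -/
def IsLocalIsobaricSum {F W : Type} [Field F] [TopologicalSpace F] [AddCommGroup W] [Module ℂ W]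
    (nrm : Fˣ → ℝ) (χ₁ χ₂ : Fˣ →* ℂˣ) (σ : Representation ℂ (GL (Fin 2) F) W) : Prop :=
  (ExpGE nrm χ₁ χ₂ ∧ EmbedsInPS nrm χ₂ χ₁ σ) ∨ (ExpGE nrm χ₂ χ₁ ∧ EmbedsInPS nrm χ₁ χ₂ σ)

/-! ### Adelic groups

In this section `K` is a global field, `P` is its set of places, `A v` is the completion of `K` at
`v`, `emb v : K → A v` the embedding, `O v` the ring of integers of `A v` and `nrm v` the normalised
absolute value. The group `G` is `GL₂(𝔸)`, the group `Ad` is the adele ring `𝔸` and the group `Id`
is the group of ideles, and `pr v : G → GL₂(A v)`, `prA v : 𝔸 → A v`, `prI v : 𝔸ˣ → (A v)ˣ` are the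
coordinates. (They are all specialised below.) -/

section adelic

variable {K P : Type} {A : P → Type} {G Ad Id : Type} [Field K] [∀ v, Field (A v)]
  [∀ v, TopologicalSpace (A v)] [Group G] [TopologicalSpace G] [AddCommGroup Ad]
  [TopologicalSpace Ad] [Group Id] [TopologicalSpace Id]

/-- The factor `GL₂(A v)` of `GL₂(𝔸)` -/
def factor (pr : ∀ v, G → GL (Fin 2) (A v)) (v : P) : Set G := {k | ∀ w, w ≠ v → pr w k = 1}

/-- Automorphic forms on `GL₂(𝔸)` (Borel-Jacquet): functions that are left invariant under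
`GL₂(K)`, right invariant under an open subgroup, and such that for some place `v` the
representation of `GL₂(A v)` generated by the function is admissible, i.e. for each open subgroup
`U` of `GL₂(A v)` its subspace of `U`-fixed vectors is finite dimensional. -/
def IsAutForm (emb : ∀ v, K →+* A v) (pr : ∀ v, G → GL (Fin 2) (A v)) (φ : G → ℂ) : Prop :=
  (∀ (γ : GL (Fin 2) K) (g g' : G),
    (∀ v, pr v g' = Matrix.GeneralLinearGroup.map (emb v) γ * pr v g) → φ g' = φ g) ∧
  (∃ U : Subgroup G, IsOpen (U : Set G) ∧ ∀ u ∈ U, ∀ g, φ (g * u) = φ g) ∧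
  ∃ v : P, GeneratesAdmissible (factor pr v) (pr v) φ

/-- The subgroup `K` of `𝔸` (the group generated by the diagonally embedded elements of `K`) -/
def KA (emb : ∀ v, K →+* A v) (prA : ∀ v, Ad → A v) : AddSubgroup Ad :=
  AddSubgroup.closure {x | ∃ c : K, ∀ v, prA v x = emb v c}

/-- The constant terms `∫_{𝔸/K} φ((1 x; 0 1) g) dx` of `φ` vanish, the integral being taken with
respect to Haar measure on the compact group `𝔸/K`: here `c` is the function on `𝔸/K` with
`c(x) = φ((1 x; 0 1) g)`. -/
def ConstTermZero (emb : ∀ v, K →+* A v) (pr : ∀ v, G → GL (Fin 2) (A v)) (prA : ∀ v, Ad → A v)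
    (φ : G → ℂ) : Prop :=
  ∀ (g : G) (c : Ad ⧸ KA emb prA → ℂ),
    (∀ (x : Ad) (u : G), (∀ v, (pr v u).1 = !![1, prA v x; 0, 1]) →
      c (QuotientAddGroup.mk x) = φ (u * g)) →
    ∀ μ : @Measure (Ad ⧸ KA emb prA) (borel _),
      @Measure.IsAddHaarMeasure _ _ _ (borel _) μ → @integral _ _ _ _ (borel _) μ c = 0

/-- Automorphic representations of `GL₂(𝔸)`: irreducible subquotients of the space of
automorphic forms. -/
def IsAutomorphic (emb : ∀ v, K →+* A v) (pr : ∀ v, G → GL (Fin 2) (A v)) (π : Irrep G) : Prop :=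
  IsSubquotientOf (IsAutForm emb pr) π.ρ

/-- Cuspidal automorphic representations of `GL₂(𝔸)`: irreducible subquotients of the space of
automorphic forms with vanishing constant terms. -/
def IsCuspidal (emb : ∀ v, K →+* A v) (pr : ∀ v, G → GL (Fin 2) (A v)) (prA : ∀ v, Ad → A v)
    (π : Irrep G) : Prop :=
  IsSubquotientOf (fun φ => IsAutForm emb pr φ ∧ ConstTermZero emb pr prA φ) π.ρ

/-- `σ` is the local component of `π` at `v`: it embeds in the restriction of `π` to
`GL₂(A v)`. -/
def IsLocalComponent (pr : ∀ v, G → GL (Fin 2) (A v)) (π : Irrep G) (v : P)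
    (σ : Irrep (GL (Fin 2) (A v))) : Prop :=
  EmbedsVia (factor pr v) (pr v) π.ρ σ.ρ

/-- Hecke (quasi-)characters: continuous homomorphisms `𝔸ˣ → ℂˣ` trivial on `Kˣ`, i.e.
automorphic representations of `GL₁(𝔸)`. -/
def IsHeckeChar (emb : ∀ v, K →+* A v) (prI : ∀ v, Id → (A v)ˣ) (χ : Id →* ℂˣ) : Prop :=
  Continuous χ ∧ ∀ (c : K) (x : Id), (∀ v, (prI v x : A v) = emb v c) → χ x = 1

/-- `μ` is the local component of the character `χ` at `v` -/
def IsLocalChar (prI : ∀ v, Id → (A v)ˣ) (χ : Id →* ℂˣ) (v : P) (μ : (A v)ˣ →* ℂˣ) : Prop :=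
  ∀ x : Id, (∀ w, w ≠ v → prI w x = 1) → χ x = μ (prI v x)

/-- Isobaric automorphic representations of `GL₂(𝔸)`: the cuspidal ones and the isobaric sums
`χ₁ ⊞ χ₂` of two Hecke characters, whose local components are the local isobaric sums. -/
def IsIsobaric (emb : ∀ v, K →+* A v) (nrm : ∀ v, (A v)ˣ → ℝ) (pr : ∀ v, G → GL (Fin 2) (A v))
    (prA : ∀ v, Ad → A v) (prI : ∀ v, Id → (A v)ˣ) (π : Irrep G) : Prop :=
  IsCuspidal emb pr prA π ∨ (IsAutomorphic emb pr π ∧ ∃ χ₁ χ₂ : Id →* ℂˣ,
    IsHeckeChar emb prI χ₁ ∧ IsHeckeChar emb prI χ₂ ∧ ∀ v, ∃ (μ₁ μ₂ : (A v)ˣ →* ℂˣ)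
      (σ : Irrep (GL (Fin 2) (A v))), IsLocalChar prI χ₁ v μ₁ ∧ IsLocalChar prI χ₂ v μ₂ ∧
      IsLocalComponent pr π v σ ∧ IsLocalIsobaricSum (nrm v) μ₁ μ₂ σ.ρ)

/-- `π'` is a global lifting of `π` for `ρ = id : GL₂(ℂ) → GL₂(ℂ)`: it is isobaric, and at each
place where `π` is unramified, the local component of `π'` is that of `π`. -/
def IsGlobalLifting (emb : ∀ v, K →+* A v) (O : ∀ v, Subring (A v)) (nrm : ∀ v, (A v)ˣ → ℝ)
    (pr : ∀ v, G → GL (Fin 2) (A v)) (prA : ∀ v, Ad → A v) (prI : ∀ v, Id → (A v)ˣ)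
    (π π' : Irrep G) : Prop :=
  IsIsobaric emb nrm pr prA prI π' ∧ ∀ (v : P) (σ : Irrep (GL (Fin 2) (A v))),
    IsLocalComponent pr π v σ → HasFixedVector (GLO (O v)) σ.ρ → IsLocalComponent pr π' v σ

/-- The map `l` predicts the components at the place `v` of the global liftings (for `ρ = id`)
of all automorphic representations of `GL₂(𝔸)`. -/
def PredictsLiftings (emb : ∀ v, K →+* A v) (O : ∀ v, Subring (A v)) (nrm : ∀ v, (A v)ˣ → ℝ)
    (pr : ∀ v, G → GL (Fin 2) (A v)) (prA : ∀ v, Ad → A v) (prI : ∀ v, Id → (A v)ˣ)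
    (v : P) (l : Irr (GL (Fin 2) (A v)) → Irr (GL (Fin 2) (A v))) : Prop :=
  ∀ π π' : Irrep G, IsAutomorphic emb pr π → IsGlobalLifting emb O nrm pr prA prI π π' →
    ∀ σ τ : Irrep (GL (Fin 2) (A v)), IsLocalComponent pr π v σ → IsLocalComponent pr π' v τ →
      l σ.cls = τ.cls

end adelic

/-! ### Restricted products -/

section restricted

variable {K P : Type} {A : P → Type} [Field K] [instF : ∀ v, Field (A v)]
  [instT : ∀ v, TopologicalSpace (A v)]

/-- `PredictsLiftings` with `G = GL₂(𝔸)`, the restricted product of the `GL₂(A v)` with respect to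
the `GL₂(O v)`, with the adele ring `𝔸`, the restricted product of the `A v` with respect to the
`O v`, and with the group of ideles, the restricted product of the `(A v)ˣ` with respect to the
`(O v)ˣ`. -/
def AdelicPredictsLiftings (emb : ∀ v, K →+* A v) (O : ∀ v, Subring (A v))
    (nrm : ∀ v, (A v)ˣ → ℝ) (v : P) (l : Irr (GL (Fin 2) (A v)) → Irr (GL (Fin 2) (A v))) :
    Prop :=
  PredictsLiftings (G := Πʳ v, [GL (Fin 2) (A v), GLO (O v)]) (Ad := Πʳ v, [A v, O v])
    (Id := Πʳ v, [(A v)ˣ, (O v).toSubmonoid.units]) emb O nrm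
    (fun v g => g v) (fun v x => x v) (fun v x => x v) v l

end restricted

/-! ### Completions -/

section completions

open WithZero

variable {K P : Type} [Field K]

/-- There is a map `l : Irr(GL₂(K_v)) → Irr(GL₂(K_v))` which predicts the components at the place
`v` of the global liftings (for `ρ = id`) of all automorphic representations of `GL₂(𝔸_K)`, where
the places of the global field `K` are given by the family `val` of discrete valuations of `K`, and
`q w` is the cardinality of the residue field at `w`. The definition `AdelicPredictsLiftings` is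
applied to the completions `K_w` of `K`, the embeddings `K → K_w`, the rings of integers of the
`K_w`, and the normalised absolute values `|x|_w = (q w)^{log (w x)}`. -/
def LocalLiftingExists (val : P → Valuation K ℤᵐ⁰) (q : P → ℕ) (v : P) : Prop :=
  ∃ l : Irr (GL (Fin 2) (val v).Completion) → Irr (GL (Fin 2) (val v).Completion),
    AdelicPredictsLiftings (A := fun w => (val w).Completion) (instF := fun _ => UniformSpace.Completion.instField)
      (instT := fun _ => (UniformSpace.Completion.uniformSpace _).toTopologicalSpace)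
      (fun w => (UniformSpace.Completion.coeRingHom :
        WithVal (val w) →+* (val w).Completion).comp (WithVal.equiv (val w)).symm.toRingHom)
      (fun w => (Valued.v : Valuation (val w).Completion ℤᵐ⁰).integer)
      (fun w x => (q w : ℝ) ^ WithZero.log (Valued.v (x : (val w).Completion) : ℤᵐ⁰)) v l

end completions

/-! ### The field `K = 𝔽(T)` -/

section field

open Polynomial IsDedekindDomain WithZero

variable (𝔽 : Type) [Field 𝔽]

/-- The places of `K = 𝔽(T)`: `none` is the place at infinity, `some P` is the place given by the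
nonzero prime ideal `P` of `𝔽[T]`. -/
abbrev Place : Type := Option (HeightOneSpectrum 𝔽[X])

open Classical in
/-- The normalised (multiplicatively written) discrete valuation of `K` at a place. -/
noncomputable def val (v : Place 𝔽) : Valuation (RatFunc 𝔽) ℤᵐ⁰ :=
  v.elim (RatFunc.inftyValuation 𝔽) (fun P => P.valuation (RatFunc 𝔽))

/-- cardinality of the residue field at `v` -/
noncomputable def qv (v : Place 𝔽) : ℕ :=
  v.elim (Nat.card 𝔽) (fun P => Nat.card (𝔽[X] ⧸ P.asIdeal))

end field

end Pool.Agent.Helper37.LL.Spec
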