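import Pool.Agent.Helper37.LL.Defs
import Pool.Agent.Helper37.LL.Adm

/-!
# Topology: congruence subgroups
-/

set_option autoImplicit false

open Polynomial IsDedekindDomain WithZero MeasureTheory Topology
open scoped RestrictedProduct

namespace Pool.Agent.Helper37.LL

section loc

variable {F : Type*} [Field F] [hF : Valued F ℤᵐ⁰] (P : Par hF.v)

include P in
lemma isOpen_ball' (N : ℤ) : IsOpen {x : F | hF.v x ≤ exp N} := by
  have h : {x : F | hF.v x ≤ exp N} = (fun x => x * P.ϖ ^ N) ⁻¹' (hF.v.integer : Set F) := by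
    ext x
    simp only [Set.mem_ofPred_eq, Set.mem_preimage, SetLike.mem_coe, Valuation.mem_integer_iff,
      map_mul, P.v_zpow]
    constructor
    · intro hx
      calc hF.v x * exp (-N) ≤ exp N * exp (-N) := mul_le_mul_left hx _
        _ = 1 := by rw [← exp_add]; simp
    · intro hx
      calc hF.v x = hF.v x * exp (-N) * exp N := by
            rw [mul_assoc, ← exp_add]; simp
        _ ≤ 1 * exp N := mul_le_mul_left hx _
        _ = exp N := one_mul _
  rw [h]
  exact (Valued.isOpen_integer F).preimage (continuous_id.mul continuous_const)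

include P in
lemma exists_ball_subset {s : Set F} (hs : s ∈ 𝓝 (0 : F)) :
    ∃ N : ℕ, {x : F | hF.v x ≤ exp (-(N : ℤ))} ⊆ s := by
  rw [Valued.mem_nhds_zero] at hs
  obtain ⟨γ, hγ⟩ := hs
  have h0 : MonoidWithZeroHom.ValueGroup₀.embedding (γ : MonoidWithZeroHom.ValueGroup₀
      (.ofClass hF.v)) ≠ 0 := by
    rw [_root_.map_ne_zero]; exact γ.ne_zero
  refine ⟨(-(log (MonoidWithZeroHom.ValueGroup₀.embedding (γ : MonoidWithZeroHom.ValueGroup₀
      (.ofClass hF.v)))) + 1).toNat, fun x hx => hγ ?_⟩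
  show hF.v.restrict x < γ
  rw [Valuation.restrict_lt_iff_lt_embedding]
  refine lt_of_le_of_lt hx ?_
  conv_rhs => rw [← exp_log h0]
  rw [exp_lt_exp]
  have := Int.self_le_toNat (-(log (MonoidWithZeroHom.ValueGroup₀.embedding
    (γ : MonoidWithZeroHom.ValueGroup₀ (.ofClass hF.v)))) + 1)
  omega

lemma continuous_entry (i j : Fin 2) : Continuous (fun g : GL (Fin 2) F => g i j) :=
  (Units.continuous_val).matrix_elem i j

lemma continuous_inv_entry (i j : Fin 2) : Continuous (fun g : GL (Fin 2) F => g⁻¹ i j) :=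
  (Units.continuous_val.comp continuous_inv).matrix_elem i j

include P in
lemma isOpen_KO : IsOpen (KO hF.v : Set (GL (Fin 2) F)) := by
  have h1 : IsOpen {x : F | hF.v x ≤ 1} := by
    have := isOpen_ball' P 0
    rwa [exp_zero] at this
  have : (KO hF.v : Set (GL (Fin 2) F)) =
      (⋂ i, ⋂ j, (fun g : GL (Fin 2) F => g i j) ⁻¹' {x : F | hF.v x ≤ 1}) ∩
      (⋂ i, ⋂ j, (fun g : GL (Fin 2) F => g⁻¹ i j) ⁻¹' {x : F | hF.v x ≤ 1}) := by
    ext g
    simp only [SetLike.mem_coe, mem_KO, Set.mem_inter_iff, Set.mem_iInter, Set.mem_preimage,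
      Set.mem_ofPred_eq]
  rw [this]
  refine IsOpen.inter ?_ ?_
  · exact isOpen_iInter_of_finite fun i => isOpen_iInter_of_finite fun j =>
      h1.preimage (continuous_entry i j)
  · exact isOpen_iInter_of_finite fun i => isOpen_iInter_of_finite fun j =>
      h1.preimage (continuous_inv_entry i j)

include P in
lemma isOpen_KN (N : ℕ) : IsOpen (KN hF.v N : Set (GL (Fin 2) F)) := by
  have : (KN hF.v N : Set (GL (Fin 2) F)) = (KO hF.v : Set (GL (Fin 2) F)) ∩
      (⋂ i, ⋂ j, (fun g : GL (Fin 2) F => g i j - (1 : GL (Fin 2) F) i j) ⁻¹'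
        {x : F | hF.v x ≤ exp (-(N : ℤ))}) := by
    ext g
    simp only [SetLike.mem_coe, Set.mem_inter_iff, Set.mem_iInter, Set.mem_preimage,
      Set.mem_ofPred_eq]
    rfl
  rw [this]
  exact (isOpen_KO P).inter (isOpen_iInter_of_finite fun i => isOpen_iInter_of_finite fun j =>
      (isOpen_ball' P _).preimage ((continuous_entry i j).sub continuous_const))

lemma isOpen_of_KN_le (P : Par hF.v) {U : Subgroup (GL (Fin 2) F)} {N : ℕ} (h : KN hF.v N ≤ U) :
    IsOpen (U : Set (GL (Fin 2) F)) :=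
  Subgroup.isOpen_mono h (isOpen_KN P N)

include P in
lemma exists_KN_subset {s : Set (GL (Fin 2) F)} (hs : s ∈ 𝓝 (1 : GL (Fin 2) F)) :
    ∃ N : ℕ, (KN hF.v N : Set (GL (Fin 2) F)) ⊆ s := by
  have key : ∀ t ∈ 𝓝 (1 : Matrix (Fin 2) (Fin 2) F), ∃ N : ℕ, ∀ A : Matrix (Fin 2) (Fin 2) F,
      (∀ i j, hF.v (A i j - (1 : Matrix (Fin 2) (Fin 2) F) i j) ≤ exp (-(N : ℤ))) → A ∈ t := by
    intro t ht
    have h0 : (fun X : Fin 2 → Fin 2 → F => (1 : Matrix (Fin 2) (Fin 2) F) +
        (Matrix.of X : Matrix (Fin 2) (Fin 2) F)) ⁻¹' t ∈ 𝓝 (0 : Fin 2 → Fin 2 → F) := by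
      have hc : Continuous (fun X : Fin 2 → Fin 2 → F => (1 : Matrix (Fin 2) (Fin 2) F) +
        (Matrix.of X : Matrix (Fin 2) (Fin 2) F)) := by
        refine continuous_const.add ?_
        exact continuous_id
      refine hc.continuousAt.preimage_mem_nhds ?_
      have : (1 : Matrix (Fin 2) (Fin 2) F) + (Matrix.of (0 : Fin 2 → Fin 2 → F)) = 1 := by
        ext i j; simp
      rw [this]; exact ht
    rw [nhds_pi, Filter.mem_pi'] at h0
    obtain ⟨I, u, hu, hsub⟩ := h0
    have h2 : ∀ i, ∃ N : ℕ, ∀ w : Fin 2 → F, (∀ j, hF.v (w j) ≤ exp (-(N : ℤ))) → w ∈ u i := by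
      intro i
      have h3 := hu i
      rw [Pi.zero_apply, nhds_pi, Filter.mem_pi'] at h3
      obtain ⟨J, u', hu', hsub'⟩ := h3
      have h4 : ∀ j, ∃ N : ℕ, {x : F | hF.v x ≤ exp (-(N : ℤ))} ⊆ u' j := fun j =>
        exists_ball_subset P (hu' j)
      choose M hM using h4
      refine ⟨∑ j, M j, fun w hw => hsub' ?_⟩
      intro j _
      refine hM j ((hw j).trans ?_)
      rw [exp_le_exp]
      have : M j ≤ ∑ j, M j := Finset.single_le_sum (f := M) (fun _ _ => Nat.zero_le _)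
        (Finset.mem_univ j)
      omega
    choose M hM using h2
    refine ⟨∑ i, M i, fun A hA => ?_⟩
    have h5 : (fun i j => A i j - (1 : Matrix (Fin 2) (Fin 2) F) i j) ∈
        (fun X : Fin 2 → Fin 2 → F => (1 : Matrix (Fin 2) (Fin 2) F) +
        (Matrix.of X : Matrix (Fin 2) (Fin 2) F)) ⁻¹' t := by
      apply hsub
      intro i _
      refine hM i _ (fun j => (hA i j).trans ?_)
      rw [exp_le_exp]
      have : M i ≤ ∑ i, M i := Finset.single_le_sum (f := M) (fun _ _ => Nat.zero_le _)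
        (Finset.mem_univ i)
      omega
    have h6 : (1 : Matrix (Fin 2) (Fin 2) F) +
        (Matrix.of (fun i j => A i j - (1 : Matrix (Fin 2) (Fin 2) F) i j)) = A := by
      ext i j; simp
    rw [Set.mem_preimage, h6] at h5
    exact h5
  rw [Units.isInducing_embedProduct.nhds_eq_comap, Filter.mem_comap] at hs
  obtain ⟨t, ht, hts⟩ := hs
  rw [map_one] at ht
  rw [Prod.one_eq_mk, nhds_prod_eq, Filter.mem_prod_iff] at ht
  obtain ⟨t₁, ht₁, t₂, ht₂, ht12⟩ := ht
  have ht₂' : MulOpposite.op ⁻¹' t₂ ∈ 𝓝 (1 : Matrix (Fin 2) (Fin 2) F) :=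
    MulOpposite.continuous_op.continuousAt.preimage_mem_nhds (by simpa using ht₂)
  obtain ⟨N₁, h₁⟩ := key t₁ ht₁
  obtain ⟨N₂, h₂⟩ := key _ ht₂'
  refine ⟨max N₁ N₂, fun g hg => hts ?_⟩
  have hg' : g⁻¹ ∈ KN hF.v (max N₁ N₂) := inv_mem hg
  refine ht12 ⟨h₁ _ fun i j => (hg.2 i j).trans ?_, h₂ _ fun i j => (hg'.2 i j).trans ?_⟩
  · rw [exp_le_exp]
    have := le_max_left N₁ N₂
    omega
  · rw [exp_le_exp]
    have := le_max_right N₁ N₂
    omega

lemma KN_anti : Antitone (KN hF.v) := by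
  intro m n hmn g hg
  refine ⟨hg.1, fun i j => (hg.2 i j).trans ?_⟩
  rw [exp_le_exp]; omega

/-- the filtration by congruence subgroups -/
lemma filt_of_smooth {V : Type} [AddCommGroup V] [Module ℂ V] (P : Par hF.v)
    (ρ : Representation ℂ (GL (Fin 2) F) V)
    (hs : ∀ x : V, {g | ρ g x = x} ∈ 𝓝 (1 : GL (Fin 2) F))
    {U : Subgroup (GL (Fin 2) F)} (hU : U ≤ KO hF.v) {m₀ : ℕ} (hm : KN hF.v m₀ ≤ U) :
    Filt ρ U (fun m => KN hF.v (m + m₀)) where
  anti := fun _ _ h => KN_anti (by omega)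
  le := fun m => (KN_anti (by omega)).trans hm
  normal := fun m u hu n hn => KN_conj _ _ (hU hu) hn
  fin := fun m => KN_finiteIndex P U hU _
  fix := fun x => by
    obtain ⟨N, hN⟩ := exists_KN_subset P (hs x)
    exact ⟨N, fun n hn => hN (KN_anti (by omega) hn)⟩

end loc

section glob

variable (𝔽 : Type) [Field 𝔽]

lemma inc_apply_same (v : Place 𝔽) (h : GLv 𝔽 v) : inc 𝔽 v h v = h := by
  classical
  exact RestrictedProduct.mulSingle_eq_same (fun v : Place 𝔽 => GLO 𝔽 v) v h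

lemma inc_apply_ne {v w : Place 𝔽} (hw : w ≠ v) (h : GLv 𝔽 v) : inc 𝔽 v h w = 1 := by
  classical
  exact RestrictedProduct.mulSingle_eq_of_ne (fun v : Place 𝔽 => GLO 𝔽 v) h hw

lemma continuous_inc (v : Place 𝔽) : Continuous (inc 𝔽 v) := by
  classical
  have hS : (Filter.cofinite : Filter (Place 𝔽)) ≤ Filter.principal {v}ᶜ := by
    rw [Filter.le_principal_iff, Filter.mem_cofinite, compl_compl]
    exact Set.finite_singleton v
  let f : GLv 𝔽 v → Πʳ w : Place 𝔽, [GLv 𝔽 w, (GLO 𝔽 w : Set (GLv 𝔽 w))]_[Filter.principal {v}ᶜ] :=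
    fun h => ⟨fun w => inc 𝔽 v h w, by
      rw [Filter.eventually_principal]
      intro w hw
      show inc 𝔽 v h w ∈ GLO 𝔽 w
      rw [inc_apply_ne 𝔽 hw]
      exact one_mem (GLO 𝔽 w)⟩
  have hf : Continuous f := by
    rw [RestrictedProduct.continuous_rng_of_principal_iff_forall]
    intro w
    by_cases hw : w = v
    · subst hw
      have : (fun h => inc 𝔽 w h w) = id := by
        funext h; exact inc_apply_same 𝔽 w h
      show Continuous (fun h => inc 𝔽 w h w)
      rw [this]; exact continuous_id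
    · have : (fun h => inc 𝔽 v h w) = fun _ => 1 := by
        funext h; exact inc_apply_ne 𝔽 hw h
      show Continuous (fun h => inc 𝔽 v h w)
      rw [this]; exact continuous_const
  exact (RestrictedProduct.continuous_inclusion hS).comp hf

end glob

end Pool.Agent.Helper37.LL
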