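import Pool.Agent.Helper37.LL.P2d

/-!
# The trivial representation as the isobaric sum `|.|^{1/2} ⊞ |.|^{-1/2}`
-/

set_option autoImplicit false


open Polynomial IsDedekindDomain WithZero Topology MeasureTheory
open scoped RestrictedProduct

namespace Pool.Agent.Helper37.LL

/-- The one dimensional trivial representation. -/
noncomputable def trivIrrep (G : Type) [Group G] [TopologicalSpace G] : Irrep G where
  V := ℂ
  ρ := Representation.trivial ℂ G ℂ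
  irreducible := by
    refine irr_of ⟨1, one_ne_zero⟩ ?_
    intro W _
    by_cases h : ∃ x ∈ W, x ≠ 0
    · right
      obtain ⟨x, hx, hx0⟩ := h
      rw [eq_top_iff]
      intro y _
      have h1 := W.smul_mem (y * x⁻¹) hx
      rwa [smul_eq_mul, mul_assoc, inv_mul_cancel₀ hx0, mul_one] at h1
    · left
      push Not at h
      rw [eq_bot_iff]
      intro x hx
      exact (Submodule.mem_bot ℂ).2 (h x hx)
  smooth := by
    intro x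
    have : {g : G | Representation.trivial ℂ G ℂ g x = x} = Set.univ := by
      ext g; simp
    rw [this]; exact isOpen_univ

variable {𝔽 : Type} [Field 𝔽] [Finite 𝔽]

lemma cons_isAutForm {φ : GA 𝔽 → ℂ} (hφ : φ ∈ cons 𝔽) : IsAutForm φ := by
  obtain ⟨c, rfl⟩ := hφ
  refine ⟨fun _ _ => rfl, ⟨⊤, isOpen_univ, fun _ _ => rfl⟩, none, ?_⟩
  intro U _
  haveI : FiniteDimensional ℂ (cons 𝔽) := (Submodule.fg_iff_finiteDimensional _).1 cons_fg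
  refine Submodule.finiteDimensional_of_le (S₂ := cons 𝔽) (Submodule.span_le.2 ?_)
  rintro ψ ⟨h1, _⟩
  have h2 : localSpan none (fun _ : GA 𝔽 => c) ≤ cons 𝔽 := by
    refine Submodule.span_le.2 ?_
    rintro _ ⟨h, rfl⟩
    exact ⟨c, rfl⟩
  exact h2 h1

lemma triv_automorphic : IsAutomorphic (trivIrrep (GA 𝔽)) := by
  refine ⟨cons 𝔽, fun φ hφ => cons_isAutForm hφ, ?_, ?_⟩
  · rintro h _ ⟨c, rfl⟩
    exact ⟨c, rfl⟩
  · refine ⟨(LinearMap.proj (1 : GA 𝔽)).comp (cons 𝔽).subtype, ?_, ?_⟩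
    · intro c
      exact ⟨⟨fun _ => c, c, rfl⟩, rfl⟩
    · rintro h ⟨_, c, rfl⟩ ⟨ψ, hψ⟩ hh
      have h1 : ψ = fun _ => c := hh
      show ψ 1 = c
      rw [h1]

/-! ### Idele degree and Hecke characters -/

lemma Idele_supp (x : Idele 𝔽) :
    (Function.support fun v : Place 𝔽 => dgr v * log (vv 𝔽 v (x v : Kv 𝔽 v))).Finite := by
  have h1 := x.2
  rw [Filter.eventually_cofinite] at h1
  refine h1.subset ?_
  intro v hv h
  apply hv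
  have h2 : vv 𝔽 v (x v : Kv 𝔽 v) = 1 := (mem_OU 𝔽).1 h
  simp only
  rw [h2, log_one, mul_zero]

/-- idele degree -/
noncomputable def ideg (x : Idele 𝔽) : ℤ :=
  ∑ᶠ v : Place 𝔽, dgr v * log (vv 𝔽 v (x v : Kv 𝔽 v))

lemma unit_v_ne (v : Place 𝔽) (x : (Kv 𝔽 v)ˣ) : vv 𝔽 v (x : Kv 𝔽 v) ≠ 0 :=
  (Valuation.ne_zero_iff _).2 x.ne_zero

lemma ideg_mul (x y : Idele 𝔽) : ideg (x * y) = ideg x + ideg y := by
  rw [ideg, ideg, ideg, ← finsum_add_distrib (Idele_supp x) (Idele_supp y)]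
  refine finsum_congr (fun v => ?_)
  rw [RestrictedProduct.mul_apply, Units.val_mul, map_mul, log_mul (unit_v_ne v _)
    (unit_v_ne v _), mul_add]

lemma ideg_one : ideg (1 : Idele 𝔽) = 0 := by
  have := ideg_mul (1 : Idele 𝔽) 1
  rw [one_mul] at this
  omega

lemma ideg_diag (x : (RatFunc 𝔽)ˣ) : ideg (Idiag 𝔽 x) = 0 := by
  rw [← product_formula x.ne_zero, ideg, kdeg]
  refine finsum_congr (fun v => ?_)
  rw [← vv_emb]
  rfl

omit [Finite 𝔽] in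
lemma incI_apply_same (v : Place 𝔽) (h : (Kv 𝔽 v)ˣ) : incI 𝔽 v h v = h := by
  classical
  exact RestrictedProduct.mulSingle_eq_same (fun v : Place 𝔽 => OU 𝔽 v) v h

omit [Finite 𝔽] in
lemma incI_apply_ne {v w : Place 𝔽} (hw : w ≠ v) (h : (Kv 𝔽 v)ˣ) : incI 𝔽 v h w = 1 := by
  classical
  exact RestrictedProduct.mulSingle_eq_of_ne (fun v : Place 𝔽 => OU 𝔽 v) h hw

lemma ideg_incI (v : Place 𝔽) (y : (Kv 𝔽 v)ˣ) :
    ideg (incI 𝔽 v y) = dgr v * log (vv 𝔽 v (y : Kv 𝔽 v)) := by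
  rw [ideg, finsum_eq_single _ v]
  · rw [incI_apply_same]
  · intro w hw
    rw [incI_apply_ne hw, Units.val_one, map_one, log_one, mul_zero]

lemma isOpen_OU (v : Place 𝔽) : IsOpen ((OU 𝔽 v : Subgroup (Kv 𝔽 v)ˣ) : Set (Kv 𝔽 v)ˣ) := by
  have h0 : IsOpen (((vv 𝔽 v).integer : Subring (Kv 𝔽 v)) : Set (Kv 𝔽 v)) :=
    Valued.isOpen_integer (Kv 𝔽 v)
  have h1 : ((OU 𝔽 v : Subgroup (Kv 𝔽 v)ˣ) : Set (Kv 𝔽 v)ˣ) =
      ((fun x : (Kv 𝔽 v)ˣ => (x : Kv 𝔽 v)) ⁻¹' ((vv 𝔽 v).integer : Set (Kv 𝔽 v))) ∩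
      ((fun x : (Kv 𝔽 v)ˣ => ((x⁻¹ : (Kv 𝔽 v)ˣ) : Kv 𝔽 v)) ⁻¹' ((vv 𝔽 v).integer : Set (Kv 𝔽 v))) := by
    ext x
    exact Iff.rfl
  rw [h1]
  exact (h0.preimage Units.continuous_val).inter
    (h0.preimage (Units.continuous_val.comp continuous_inv))

instance factOU : Fact (∀ v : Place 𝔽, IsOpen ((OU 𝔽 v : Subgroup (Kv 𝔽 v)ˣ) : Set (Kv 𝔽 v)ˣ)) :=
  ⟨isOpen_OU⟩

/-- `s^{deg}` -/
noncomputable def heckeDeg (𝔽 : Type) [Field 𝔽] [Finite 𝔽] (s : ℂˣ) : HeckeChar 𝔽 where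
  χ :=
    { toFun := fun x => s ^ ideg x
      map_one' := by rw [ideg_one, zpow_zero]
      map_mul' := by
        intro x y
        rw [ideg_mul, zpow_add] }
  cont := by
    refine continuous_of_continuousAt_one _ ?_
    have h1 : IsOpen {x : Idele 𝔽 | ∀ v, x v ∈ OU 𝔽 v} :=
      RestrictedProduct.isOpen_forall_mem isOpen_OU
    have h2 : {x : Idele 𝔽 | ∀ v, x v ∈ OU 𝔽 v} ∈ 𝓝 (1 : Idele 𝔽) :=
      h1.mem_nhds (fun v => one_mem _)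
    refine Filter.Tendsto.congr' (f₁ := fun _ => (1 : ℂˣ)) ?_ ?_
    · filter_upwards [h2] with x hx
      show 1 = s ^ ideg x
      have : ideg x = 0 := by
        rw [ideg, ← finsum_zero (α := Place 𝔽)]
        refine finsum_congr (fun v => ?_)
        have h3 : vv 𝔽 v (x v : Kv 𝔽 v) = 1 := (mem_OU 𝔽).1 (hx v)
        rw [h3, log_one, mul_zero]
      rw [this, zpow_zero]
    · rw [map_one]; exact tendsto_const_nhds
  triv := by
    intro x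
    show s ^ ideg (Idiag 𝔽 x) = 1
    rw [ideg_diag, zpow_zero]

lemma heckeDeg_loc (s : ℂˣ) (v : Place 𝔽) (y : (Kv 𝔽 v)ˣ) :
    (heckeDeg 𝔽 s).loc v y = s ^ (dgr v * log (vv 𝔽 v (y : Kv 𝔽 v))) := by
  show s ^ ideg (incI 𝔽 v y) = _
  rw [ideg_incI]

lemma qv_eq (v : Place 𝔽) : (qv v : ℝ) = (Nat.card 𝔽 : ℝ) ^ (dgr v) := by
  rcases v with _ | P
  · show ((Nat.card 𝔽 : ℕ) : ℝ) = (Nat.card 𝔽 : ℝ) ^ (1 : ℤ)
    rw [zpow_one]
  · have h1 : Nat.card (𝔽[X] ⧸ P.asIdeal) = Nat.card 𝔽 ^ (gen P).natDegree := by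
      have h2 : P.asIdeal = Ideal.span {gen P} := gen_span P
      rw [Nat.card_congr (Ideal.quotEquivOfEq h2).toEquiv, ← finrank_quotient_span_eq_natDegree]
      haveI : Module.Finite 𝔽 (𝔽[X] ⧸ Ideal.span {gen P}) :=
        (AdjoinRoot.powerBasis (gen_ne P)).finite
      exact Module.natCard_eq_pow_finrank
    show ((Nat.card (𝔽[X] ⧸ P.asIdeal) : ℕ) : ℝ) = (Nat.card 𝔽 : ℝ) ^ ((gen P).natDegree : ℤ)
    rw [h1]
    push_cast
    rw [zpow_natCast]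

lemma nrm_eq (v : Place 𝔽) (y : (Kv 𝔽 v)ˣ) :
    nrm v y = (Nat.card 𝔽 : ℝ) ^ (dgr v * log (vv 𝔽 v (y : Kv 𝔽 v))) := by
  rw [nrm, qv_eq, ← zpow_mul]

variable (𝔽) in
/-- `√q` -/
noncomputable def sq : ℝ := Real.sqrt (Nat.card 𝔽)

lemma card_pos_real : (0 : ℝ) < (Nat.card 𝔽 : ℝ) := by
  exact_mod_cast card_pos' (𝔽 := 𝔽)

lemma sq_pos : 0 < sq 𝔽 := Real.sqrt_pos.2 card_pos_real

lemma one_le_sq : 1 ≤ sq 𝔽 := by
  rw [sq, Real.one_le_sqrt]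
  exact_mod_cast (card_pos' (𝔽 := 𝔽))

lemma sqrt_zpow (n : ℤ) : Real.sqrt ((Nat.card 𝔽 : ℝ) ^ n) = (sq 𝔽) ^ n := by
  have h1 : (Nat.card 𝔽 : ℝ) ^ n = ((sq 𝔽) ^ n) ^ 2 := by
    rw [← zpow_natCast, ← zpow_mul, mul_comm, zpow_mul]
    congr 1
    rw [zpow_natCast, sq, Real.sq_sqrt card_pos_real.le]
  rw [h1, Real.sqrt_sq (zpow_pos sq_pos n).le]

variable (𝔽) in
/-- `√q` as a complex unit -/
noncomputable def sqU : ℂˣ := Units.mk0 (sq 𝔽 : ℂ) (by exact_mod_cast sq_pos.ne')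

lemma sqU_zpow (n : ℤ) : (((sqU 𝔽) ^ n : ℂˣ) : ℂ) = ((sq 𝔽 ^ n : ℝ) : ℂ) := by
  rw [Units.val_zpow_eq_zpow_val]
  push_cast
  rfl

lemma loc_apply (v : Place 𝔽) (y : (Kv 𝔽 v)ˣ) :
    (((heckeDeg 𝔽 (sqU 𝔽)).loc v y : ℂˣ) : ℂ) =
      ((sq 𝔽 ^ (dgr v * log (vv 𝔽 v (y : Kv 𝔽 v))) : ℝ) : ℂ) := by
  rw [heckeDeg_loc, sqU_zpow]

lemma loc_apply' (v : Place 𝔽) (y : (Kv 𝔽 v)ˣ) :
    (((heckeDeg 𝔽 (sqU 𝔽)⁻¹).loc v y : ℂˣ) : ℂ) =
      ((sq 𝔽 ^ (-(dgr v * log (vv 𝔽 v (y : Kv 𝔽 v)))) : ℝ) : ℂ) := by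
  rw [heckeDeg_loc, inv_zpow', sqU_zpow]

lemma norm_loc (n : ℤ) : ‖((sq 𝔽 ^ n : ℝ) : ℂ)‖ = sq 𝔽 ^ n := by
  rw [Complex.norm_real, Real.norm_eq_abs, abs_of_pos (zpow_pos sq_pos n)]

lemma triv_local (v : Place 𝔽) :
    IsLocalIsobaricSum ((heckeDeg 𝔽 (sqU 𝔽)).loc v) ((heckeDeg 𝔽 (sqU 𝔽)⁻¹).loc v)
      (trivIrrep (GLv 𝔽 v)) := by
  left
  refine ⟨?_, ?_⟩
  · intro x hx
    rw [loc_apply, loc_apply', norm_loc, norm_loc]
    have h1 : log (vv 𝔽 v (x : Kv 𝔽 v)) ≤ 0 := by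
      rwa [← exp_log (unit_v_ne v x), ← exp_zero, exp_le_exp] at hx
    refine zpow_le_zpow_right₀ one_le_sq ?_
    have h2 := mul_nonpos_of_nonneg_of_nonpos (dgr_pos v).le h1
    omega
  · refine ⟨
      { toFun := fun c _ => c
        map_add' := fun _ _ => rfl
        map_smul' := fun _ _ => rfl }, ?_, ?_, ?_⟩
    · intro a b h
      exact congrFun h 1
    · intro (c : ℂ)
      refine ⟨⟨⊤, isOpen_univ, fun _ _ _ => rfl⟩, ?_⟩
      intro a d b g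
      show c = ((_ : ℂ) * (_ : ℂ) * (_ : ℂ)) * c
      rw [loc_apply, loc_apply', nrm_eq, nrm_eq]
      set A := dgr v * log (vv 𝔽 v (a : Kv 𝔽 v))
      set D := dgr v * log (vv 𝔽 v (d : Kv 𝔽 v))
      have h1 : Real.sqrt ((Nat.card 𝔽 : ℝ) ^ A / (Nat.card 𝔽 : ℝ) ^ D) = sq 𝔽 ^ (A - D) := by
        rw [← zpow_sub₀ card_pos_real.ne', sqrt_zpow]
      rw [h1]
      have h2 : sq 𝔽 ^ (-A) * sq 𝔽 ^ D * sq 𝔽 ^ (A - D) = 1 := by
        rw [← zpow_add₀ sq_pos.ne', ← zpow_add₀ sq_pos.ne']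
        have : -A + D + (A - D) = 0 := by ring
        rw [this, zpow_zero]
      have h3 : ((sq 𝔽 ^ (-A) : ℝ) : ℂ) * ((sq 𝔽 ^ D : ℝ) : ℂ) * ((sq 𝔽 ^ (A - D) : ℝ) : ℂ) = 1 := by
        rw [← Complex.ofReal_mul, ← Complex.ofReal_mul, h2, Complex.ofReal_one]
      rw [h3]
      exact (one_mul c).symm
    · intro h x g
      rfl

lemma triv_component (v : Place 𝔽) :
    IsLocalComponent (trivIrrep (GA 𝔽)) v (trivIrrep (GLv 𝔽 v)) :=
  ⟨LinearMap.id, fun _ _ h => h, fun _ _ => rfl⟩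

lemma triv_isobaric : IsIsobaric (trivIrrep (GA 𝔽)) :=
  Or.inr ⟨triv_automorphic, heckeDeg 𝔽 (sqU 𝔽), heckeDeg 𝔽 (sqU 𝔽)⁻¹, fun v =>
    ⟨trivIrrep (GLv 𝔽 v), triv_component v, triv_local v⟩⟩

omit [Finite 𝔽] in
/-- an irreducible representation with trivial action is a component of the trivial
representation -/
lemma component_of_triv {v : Place 𝔽} {σ : Irrep (GLv 𝔽 v)} (h : ∀ g x, σ.ρ g x = x) :
    IsLocalComponent (trivIrrep (GA 𝔽)) v σ := by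
  obtain ⟨x, hx⟩ := irr_ne σ.irreducible
  have h1 : Stable σ.ρ (Submodule.span ℂ {x}) := by
    intro g y hy
    rw [h]; exact hy
  have h2 : Submodule.span ℂ {x} = ⊤ := by
    rcases irr_cases σ.irreducible _ h1 with h3 | h3
    · exfalso
      apply hx
      have : x ∈ Submodule.span ℂ {x} := Submodule.mem_span_singleton_self x
      rw [h3] at this
      exact (Submodule.mem_bot ℂ).1 this
    · exact h3
  have h3 : Function.Bijective (LinearMap.toSpanSingleton ℂ σ.V x) := by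
    constructor
    · intro a b hab
      have h4 : a • x = b • x := hab
      have h5 : (a - b) • x = 0 := by rw [sub_smul, h4, sub_self]
      exact sub_eq_zero.1 ((smul_eq_zero.1 h5).resolve_right hx)
    · intro y
      have hy : y ∈ Submodule.span ℂ {x} := by rw [h2]; trivial
      obtain ⟨a, ha⟩ := Submodule.mem_span_singleton.1 hy
      exact ⟨a, ha⟩
  let e : ℂ ≃ₗ[ℂ] σ.V := LinearEquiv.ofBijective _ h3
  refine ⟨(e.symm : σ.V →ₗ[ℂ] ℂ), e.symm.injective, ?_⟩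
  intro g y
  rw [h]; rfl

end Pool.Agent.Helper37.LL
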